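import Mathlib
import Pool.Agent.H425R3.MM.K1

/-! The square-root kernel with a linear phase. -/

open Finset
open Pool.Agent.H469R2.NK
open Pool.Agent.H425R3.MM

namespace Pool.Agent.W24.CP

/-- one differenced sum -/
lemma diffA {h : ℝ} (hh : 0 < h) (β : ℝ) {M : ℕ} (hM : 1 ≤ M) (L : ℕ) (hL : L ≤ 3 * M) (l : ℕ) (hl1 : 1 ≤ l)
    (hlM : l ≤ M) (hlh : h * l ≤ (√(M:ℝ))^3) :
    ‖∑ n ∈ range (L - l), e (h * √((M:ℝ) + ((n + l : ℕ) : ℝ)) + β * ((n + l : ℕ) : ℝ)) *
      (starRingEnd ℂ) (e (h * √((M:ℝ) + n) + β * n))‖ ≤ 64 * (√(M:ℝ))^3 / h * (1 / l) := by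
  have hM0 : (0:ℝ) < M := by exact_mod_cast hM
  have hM1 : (1:ℝ) ≤ M := by exact_mod_cast hM
  have s0 : 0 < √(M:ℝ) := Real.sqrt_pos.mpr hM0
  set s := √(M:ℝ) with hs
  have hl0 : (0:ℝ) < l := by exact_mod_cast hl1
  have e1 : ∀ n ∈ range (L - l), e (h * √((M:ℝ) + ((n + l : ℕ) : ℝ)) + β * ((n + l : ℕ) : ℝ)) *
      (starRingEnd ℂ) (e (h * √((M:ℝ) + n) + β * n)) =
      e (β * l) * e (-(-(h * √((M:ℝ) + n + l) - h * √((M:ℝ) + n)))) := by
    intro n _
    rw [conj_e, ← e_add, ← e_add]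
    congr 1
    push_cast
    rw [← add_assoc]; ring
  rw [sum_congr rfl e1, ← mul_sum, norm_mul, norm_e, one_mul,
    norm_sum_neg (fun n : ℕ => -(h * √((M:ℝ) + n + l) - h * √((M:ℝ) + n)))]
  have hinc : ∀ n : ℕ, -(h * √((M:ℝ) + ((n + 1 : ℕ) : ℝ) + l) - h * √((M:ℝ) + ((n + 1 : ℕ) : ℝ))) -
      -(h * √((M:ℝ) + n + l) - h * √((M:ℝ) + n)) = h * dd l ((M:ℝ) + n) := by
    intro n
    unfold dd
    push_cast
    rw [← add_assoc]; ring
  have hkl := kusmin_landau_anti (fun n : ℕ => -(h * √((M:ℝ) + n + l) - h * √((M:ℝ) + n))) (L - l)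
    (θ := h * l / (32 * s^3)) (by positivity) (by
      intro n hn
      simp only [hinc]
      have hb : (M:ℝ) + n + 1 + l ≤ 4 * M := by
        have h1 : (((M + n + 1 + l : ℕ)) : ℝ) ≤ ((4 * M : ℕ) : ℝ) := by exact_mod_cast (by omega : M + n + 1 + l ≤ 4 * M)
        push_cast at h1; linarith
      have h1 := (dd_bounds hM1 hl0 (by linarith [(Nat.cast_nonneg n : (0:ℝ) ≤ n)] : (M:ℝ) ≤ (M:ℝ) + n) hb).1
      calc h * l / (32 * s^3) = h * (l / (32 * s^3)) := by ring
        _ ≤ _ := mul_le_mul_of_nonneg_left h1 hh.le) (by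
      intro n hn
      simp only [hinc]
      have hb : (M:ℝ) + n + 1 + l ≤ 4 * M := by
        have h1 : (((M + n + 1 + l : ℕ)) : ℝ) ≤ ((4 * M : ℕ) : ℝ) := by exact_mod_cast (by omega : M + n + 1 + l ≤ 4 * M)
        push_cast at h1; linarith
      have h1 := (dd_bounds hM1 hl0 (by linarith [(Nat.cast_nonneg n : (0:ℝ) ≤ n)] : (M:ℝ) ≤ (M:ℝ) + n) hb).2
      have h2 : h * dd l ((M:ℝ) + n) ≤ h * (l / (4 * s^3)) := mul_le_mul_of_nonneg_left h1 hh.le
      have h3 : h * (l / (4 * s^3)) ≤ 1/4 := by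
        rw [mul_div_assoc', div_le_iff₀ (by positivity)]; linarith
      have h4 : h * l / (32 * s^3) ≤ 1/32 := by
        rw [div_le_iff₀ (by positivity)]; linarith
      linarith) (by
      intro n hn
      have e2 : -(h * √((M:ℝ) + ((n + 2 : ℕ) : ℝ) + l) - h * √((M:ℝ) + ((n + 2 : ℕ) : ℝ))) -
          -(h * √((M:ℝ) + ((n + 1 : ℕ) : ℝ) + l) - h * √((M:ℝ) + ((n + 1 : ℕ) : ℝ))) = h * dd l ((M:ℝ) + n + 1) := by
        have := hinc (n+1)
        rw [show n + 2 = n + 1 + 1 by ring, this]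
        push_cast; rw [← add_assoc]
      refine (le_of_eq e2).trans (le_trans ?_ (le_of_eq (hinc n).symm))
      apply mul_le_mul_of_nonneg_left _ hh.le
      exact dd_anti hl0 (by linarith [(Nat.cast_nonneg n : (0:ℝ) ≤ n)]))
  refine hkl.trans (le_of_eq ?_)
  field_simp; ring

/-- the kernel bound with a linear phase -/
theorem kerA {h : ℝ} (hh : 0 < h) (β : ℝ) {M : ℕ} (hM : 1 ≤ M) (L : ℕ) (hL : L ≤ 3 * M) :
    ‖∑ n ∈ range L, e (h * √((M:ℝ) + n) + β * n)‖^2 ≤
      524 * (((√(M:ℝ))^3 / h + h * √(M:ℝ)) * (1 + Real.log M)) := by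
  have hM0 : (0:ℝ) < M := by exact_mod_cast hM
  have hM1 : (1:ℝ) ≤ M := by exact_mod_cast hM
  have s0 : 0 < √(M:ℝ) := Real.sqrt_pos.mpr hM0
  have hss : √(M:ℝ)^2 = M := Real.sq_sqrt hM0.le
  have hlog : 0 ≤ Real.log M := Real.log_nonneg hM1
  set s := √(M:ℝ) with hs
  set S := ‖∑ n ∈ range L, e (h * √((M:ℝ) + n) + β * n)‖ with hS
  have hL' : (L:ℝ) ≤ 3 * M := by exact_mod_cast hL
  have hs1 : 1 ≤ s := by rw [hs, Real.one_le_sqrt]; exact hM1
  -- the general step
  have gen : ∀ H : ℕ, 1 ≤ H → H ≤ M → (∀ l ∈ Ico 1 H, h * l ≤ s^3) →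
      (H:ℝ) * S^2 ≤ (4 * M) * (3 * M + 2 * (64 * s^3 / h * (1 + Real.log M))) := by
    intro H hH1 hHM hlh
    have hHM' : (H:ℝ) ≤ M := by exact_mod_cast hHM
    have hv := vdcH (fun n => e (h * √((M:ℝ) + n) + β * n)) (fun n => (norm_e _).le) L H
    refine hv.trans ?_
    have hsum : ∑ l ∈ Ico 1 H, ‖∑ n ∈ range (L - l), e (h * √((M:ℝ) + ((n + l : ℕ) : ℝ)) + β * ((n + l : ℕ) : ℝ)) *
      (starRingEnd ℂ) (e (h * √((M:ℝ) + n) + β * n))‖ ≤ 64 * s^3 / h * (1 + Real.log M) := by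
      calc _ ≤ ∑ l ∈ Ico 1 H, 64 * s^3 / h * (1 / (l:ℝ)) := by
            apply sum_le_sum
            intro l hl
            have hl2 := hlh l hl
            rw [mem_Ico] at hl
            exact diffA hh β hM L hL l hl.1 (by omega) hl2
        _ = 64 * s^3 / h * ∑ l ∈ Ico 1 H, (1:ℝ) / l := by rw [mul_sum]
        _ ≤ 64 * s^3 / h * (1 + Real.log H) := mul_le_mul_of_nonneg_left (harm_le H) (by positivity)
        _ ≤ 64 * s^3 / h * (1 + Real.log M) := by
            have : Real.log H ≤ Real.log M := Real.log_le_log (by exact_mod_cast hH1) hHM'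
            gcongr
    apply mul_le_mul (by linarith) _ (by positivity) (by positivity)
    have := mul_le_mul_of_nonneg_left hsum (by norm_num : (0:ℝ) ≤ 2)
    exact add_le_add hL' this
  by_cases h1 : h ≤ s
  · have g := gen M hM le_rfl (by
      intro l hl
      rw [mem_Ico] at hl
      have : (l:ℝ) ≤ M := by exact_mod_cast hl.2.le
      calc h * l ≤ s * M := mul_le_mul h1 this (Nat.cast_nonneg _) s0.le
        _ = s^3 := by rw [← hss]; ring)
    have g2 : S^2 ≤ 4 * (3 * M + 2 * (64 * s^3 / h * (1 + Real.log M))) := by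
      have : (M:ℝ) * S^2 ≤ M * (4 * (3 * M + 2 * (64 * s^3 / h * (1 + Real.log M)))) := by
        refine g.trans (le_of_eq ?_); ring
      exact le_of_mul_le_mul_left this hM0
    have g3 : (M:ℝ) ≤ s^3 / h := by
      rw [le_div_iff₀ hh, ← hss]
      calc s^2 * h ≤ s^2 * s := by gcongr
        _ = s^3 := by ring
    have g4 : (M:ℝ) ≤ s^3 / h * (1 + Real.log M) := by
      have : 0 ≤ s^3 / h * Real.log M := by positivity
      linarith
    have g5 : 0 ≤ h * s * (1 + Real.log M) := by positivity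
    calc S^2 ≤ 4 * (3 * M + 2 * (64 * s^3 / h * (1 + Real.log M))) := g2
      _ ≤ 4 * (3 * (s^3 / h * (1 + Real.log M)) + 2 * (64 * s^3 / h * (1 + Real.log M))) := by linarith
      _ = 524 * (s^3 / h * (1 + Real.log M)) := by ring
      _ ≤ _ := by nlinarith
  · push Not at h1
    by_cases h2 : h ≤ s^3
    · set H : ℕ := ⌈s^3 / h⌉₊ with hH
      have hH1 : s^3 / h ≤ H := Nat.le_ceil _
      have hH0 : 1 ≤ s^3 / h := by rw [le_div_iff₀ hh]; linarith
      have hHM : H ≤ M := by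
        rw [hH, Nat.ceil_le, div_le_iff₀ hh, ← hss]
        calc s^3 = s^2 * s := by ring
          _ ≤ s^2 * h := by gcongr
      have hHone : 1 ≤ H := by
        have : (1:ℝ) ≤ H := hH0.trans hH1
        exact_mod_cast this
      have g := gen H hHone hHM (by
        intro l hl
        rw [mem_Ico] at hl
        have h1 : ((l:ℕ):ℝ) < s^3/h := by
          have := hl.2
          rw [hH] at this
          exact Nat.lt_ceil.mp this
        rw [lt_div_iff₀ hh] at h1
        linarith)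
      have h64 : 64 * s^3 / h ≤ 64 * M := by
        rw [div_le_iff₀ hh, ← hss]
        calc 64 * s^3 = 64 * s^2 * s := by ring
          _ ≤ 64 * s^2 * h := by gcongr
      have g2 : (4 * (M:ℝ)) * (3 * M + 2 * (64 * s^3 / h * (1 + Real.log M))) ≤ 524 * (M:ℝ)^2 * (1 + Real.log M) := by
        have : 64 * s^3 / h * (1 + Real.log M) ≤ 64 * M * (1 + Real.log M) :=
          mul_le_mul_of_nonneg_right h64 (by linarith)
        calc (4 * (M:ℝ)) * (3 * M + 2 * (64 * s^3 / h * (1 + Real.log M)))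
            ≤ (4 * (M:ℝ)) * (3 * M + 2 * (64 * M * (1 + Real.log M))) := by gcongr
          _ ≤ _ := by nlinarith [mul_nonneg (sq_nonneg (M:ℝ)) hlog]
      have h3 : s^3 / h * S^2 ≤ H * S^2 := mul_le_mul_of_nonneg_right hH1 (by positivity)
      have h4 : s^3 / h * S^2 ≤ 524 * (M:ℝ)^2 * (1 + Real.log M) := h3.trans (g.trans g2)
      have h5 : S^2 = (h / s^3) * (s^3 / h * S^2) := by field_simp
      have h6 : S^2 ≤ 524 * (h * s * (1 + Real.log M)) := by
        rw [h5]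
        calc (h / s^3) * (s^3 / h * S^2) ≤ (h / s^3) * (524 * (M:ℝ)^2 * (1 + Real.log M)) := by gcongr
          _ = 524 * (h * s * (1 + Real.log M)) := by
              rw [← hss]; field_simp
      have g5 : 0 ≤ s^3 / h * (1 + Real.log M) := by positivity
      calc S^2 ≤ 524 * (h * s * (1 + Real.log M)) := h6
        _ ≤ _ := by nlinarith
    · push Not at h2
      have h3 : S ≤ L := by
        refine (norm_sum_le _ _).trans ?_
        simp only [norm_e, sum_const, card_range, nsmul_eq_mul, mul_one, le_refl]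
      have h4 : S^2 ≤ (3 * M)^2 := pow_le_pow_left₀ (norm_nonneg _) (h3.trans hL') 2
      have h5 : (M:ℝ)^2 ≤ h * s := by
        calc (M:ℝ)^2 = (s^2)^2 := by rw [hss]
          _ = s^3 * s := by ring
          _ ≤ h * s := by gcongr
      have g5 : 0 ≤ s^3 / h * (1 + Real.log M) := by positivity
      have g6 : 0 ≤ h * s * Real.log M := by positivity
      calc S^2 ≤ (3 * M)^2 := h4
        _ = 9 * (M:ℝ)^2 := by ring
        _ ≤ 9 * (h * s) := by linarith
        _ ≤ _ := by nlinarith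

end Pool.Agent.W24.CP
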