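import Mathlib
import Pool.Agent.W24.CP.K

/-! Bilinear sums with the square-root phase. -/

open Finset
open Pool.Agent.H469R2.NK
open Pool.Agent.H425R3.MM

namespace Pool.Agent.W24.CP

lemma kerI {h : ℝ} (hh : 0 < h) (β : ℝ) (a b : ℕ) (hb : b ≤ 4 * a + 3) :
    ‖∑ n ∈ Ioc a b, e (h * √(n:ℝ) + β * n)‖^2 ≤
      524 * (((√((a + 1 : ℕ):ℝ))^3 / h + h * √((a + 1 : ℕ):ℝ)) * (1 + Real.log ((a + 1 : ℕ):ℝ))) := by
  have h1 : Ioc a b = Ico (a + 1) (b + 1) := by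
    ext x; simp only [mem_Ioc, mem_Ico]; omega
  have h2 : ∑ n ∈ Ioc a b, e (h * √(n:ℝ) + β * n) =
      e (β * ((a + 1 : ℕ):ℝ)) * ∑ k ∈ range (b - a), e (h * √(((a + 1 : ℕ):ℝ) + k) + β * k) := by
    rw [h1, sum_Ico_eq_sum_range, mul_sum]
    apply sum_congr (by congr 1; omega)
    intro k _
    rw [← e_add]
    congr 1
    push_cast
    ring
  rw [h2, norm_mul, norm_e, one_mul]
  exact kerA hh β (by omega) (b - a) (by omega)

lemma kerIabs {h : ℝ} (hh : h ≠ 0) (β : ℝ) (a b : ℕ) (hb : b ≤ 4 * a + 3) :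
    ‖∑ n ∈ Ioc a b, e (h * √(n:ℝ) + β * n)‖^2 ≤
      524 * (((√((a + 1 : ℕ):ℝ))^3 / |h| + |h| * √((a + 1 : ℕ):ℝ)) * (1 + Real.log ((a + 1 : ℕ):ℝ))) := by
  rcases lt_or_gt_of_ne hh with h1 | h1
  · have e1 : ∑ n ∈ Ioc a b, e (h * √(n:ℝ) + β * n) =
        (starRingEnd ℂ) (∑ n ∈ Ioc a b, e (-h * √(n:ℝ) + (-β) * n)) := by
      rw [map_sum]
      apply sum_congr rfl; intro n _
      rw [conj_e]; congr 1; ring
    rw [e1, Complex.norm_conj, abs_of_neg h1]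
    exact kerI (by linarith) (-β) a b hb
  · rw [abs_of_pos h1]
    exact kerI h1 β a b hb

/-- Cauchy–Schwarz for a bilinear form -/
lemma bil_cs (S T : Finset ℕ) (a b : ℕ → ℂ) (F : ℕ → ℕ → ℂ) {A B K : ℝ}
    (hA : ∑ m ∈ S, ‖a m‖^2 ≤ A) (hB : ∑ l ∈ T, ‖b l‖^2 ≤ B) (hK0 : 0 ≤ K)
    (hK : ∀ l ∈ T, ∑ l' ∈ T, ‖∑ m ∈ S, F m l * (starRingEnd ℂ) (F m l')‖ ≤ K) :
    ‖∑ m ∈ S, ∑ l ∈ T, a m * b l * F m l‖^2 ≤ A * B * K := by
  have hA0 : 0 ≤ A := le_trans (sum_nonneg fun _ _ => by positivity) hA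
  set κ : ℕ → ℕ → ℂ := fun l l' => ∑ m ∈ S, F m l * (starRingEnd ℂ) (F m l') with hκ
  have hsym : ∀ l l', ‖κ l l'‖ = ‖κ l' l‖ := by
    intro l l'
    have : κ l l' = (starRingEnd ℂ) (κ l' l) := by
      simp only [hκ, map_sum, map_mul, Complex.conj_conj]
      apply sum_congr rfl; intro m _; ring
    rw [this, Complex.norm_conj]
  have h1 : ‖∑ m ∈ S, ∑ l ∈ T, a m * b l * F m l‖ ≤ ∑ m ∈ S, ‖a m‖ * ‖∑ l ∈ T, b l * F m l‖ := by
    refine (norm_sum_le _ _).trans (sum_le_sum fun m _ => ?_)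
    rw [← norm_mul, mul_sum]
    apply le_of_eq; congr 1
    apply sum_congr rfl; intro l _; ring
  have h2 : ‖∑ m ∈ S, ∑ l ∈ T, a m * b l * F m l‖^2 ≤ (∑ m ∈ S, ‖a m‖^2) * ∑ m ∈ S, ‖∑ l ∈ T, b l * F m l‖^2 :=
    (pow_le_pow_left₀ (norm_nonneg _) h1 2).trans (sum_mul_sq_le_sq_mul_sq _ _ _)
  have h3 : ((∑ m ∈ S, ‖∑ l ∈ T, b l * F m l‖^2 : ℝ) : ℂ) = ∑ l ∈ T, ∑ l' ∈ T, b l * (starRingEnd ℂ) (b l') * κ l l' := by
    have e1 : ∀ m ∈ S, ((‖∑ l ∈ T, b l * F m l‖^2 : ℝ) : ℂ) =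
        ∑ l ∈ T, ∑ l' ∈ T, b l * (starRingEnd ℂ) (b l') * (F m l * (starRingEnd ℂ) (F m l')) := by
      intro m _
      have : ((‖∑ l ∈ T, b l * F m l‖^2 : ℝ) : ℂ) = (∑ l ∈ T, b l * F m l) * (starRingEnd ℂ) (∑ l ∈ T, b l * F m l) := by
        rw [Complex.mul_conj, Complex.normSq_eq_norm_sq]
      rw [this, map_sum, sum_mul_sum]
      apply sum_congr rfl; intro l _
      apply sum_congr rfl; intro l' _
      rw [map_mul]; ring
    push_cast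
    push_cast at e1
    rw [sum_congr rfl e1, sum_comm]
    apply sum_congr rfl; intro l _
    rw [sum_comm]
    apply sum_congr rfl; intro l' _
    simp only [hκ, mul_sum]
  have h4 : ∑ m ∈ S, ‖∑ l ∈ T, b l * F m l‖^2 ≤ ∑ l ∈ T, ∑ l' ∈ T, (‖b l‖^2 + ‖b l'‖^2)/2 * ‖κ l l'‖ := by
    have e1 : ∑ m ∈ S, ‖∑ l ∈ T, b l * F m l‖^2 = ‖((∑ m ∈ S, ‖∑ l ∈ T, b l * F m l‖^2 : ℝ) : ℂ)‖ := by
      rw [Complex.norm_real, Real.norm_eq_abs, abs_of_nonneg (sum_nonneg fun _ _ => by positivity)]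
    rw [e1, h3]
    refine (norm_sum_le _ _).trans (sum_le_sum fun l _ => ?_)
    refine (norm_sum_le _ _).trans (sum_le_sum fun l' _ => ?_)
    rw [norm_mul, norm_mul, Complex.norm_conj]
    apply mul_le_mul_of_nonneg_right _ (norm_nonneg _)
    nlinarith [sq_nonneg (‖b l‖ - ‖b l'‖)]
  have h5 : ∑ l ∈ T, ∑ l' ∈ T, (‖b l‖^2 + ‖b l'‖^2)/2 * ‖κ l l'‖ = ∑ l ∈ T, ‖b l‖^2 * ∑ l' ∈ T, ‖κ l l'‖ := by
    have e1 : ∑ l ∈ T, ∑ l' ∈ T, (‖b l‖^2 + ‖b l'‖^2)/2 * ‖κ l l'‖ =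
        (1/2) * (∑ l ∈ T, ∑ l' ∈ T, ‖b l‖^2 * ‖κ l l'‖) + (1/2) * (∑ l ∈ T, ∑ l' ∈ T, ‖b l'‖^2 * ‖κ l l'‖) := by
      rw [mul_sum, mul_sum, ← sum_add_distrib]
      apply sum_congr rfl; intro l _
      rw [mul_sum, mul_sum, ← sum_add_distrib]
      apply sum_congr rfl; intro l' _
      ring
    have e2 : ∑ l ∈ T, ∑ l' ∈ T, ‖b l'‖^2 * ‖κ l l'‖ = ∑ l ∈ T, ∑ l' ∈ T, ‖b l‖^2 * ‖κ l l'‖ := by
      rw [sum_comm]
      apply sum_congr rfl; intro l _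
      apply sum_congr rfl; intro l' _
      rw [hsym]
    rw [e1, e2, ← add_mul]
    norm_num
    apply sum_congr rfl; intro l _
    rw [mul_sum]
  have h6 : ∑ l ∈ T, ‖b l‖^2 * ∑ l' ∈ T, ‖κ l l'‖ ≤ B * K := by
    calc _ ≤ ∑ l ∈ T, ‖b l‖^2 * K := sum_le_sum fun l hl => mul_le_mul_of_nonneg_left (hK l hl) (by positivity)
      _ = (∑ l ∈ T, ‖b l‖^2) * K := by rw [sum_mul]
      _ ≤ B * K := mul_le_mul_of_nonneg_right hB hK0
  calc _ ≤ (∑ m ∈ S, ‖a m‖^2) * ∑ m ∈ S, ‖∑ l ∈ T, b l * F m l‖^2 := h2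
    _ ≤ A * (B * K) := by
        apply mul_le_mul hA _ (sum_nonneg fun _ _ => by positivity) hA0
        linarith
    _ = A * B * K := by ring

/-- the sequence -/
noncomputable def Eph (θ α : ℝ) (n : ℕ) : ℂ := e (θ * √(n:ℝ) + α * n)

lemma norm_Eph (θ α : ℝ) (n : ℕ) : ‖Eph θ α n‖ = 1 := norm_e _

/-- truncated entry -/
noncomputable def FF (θ α : ℝ) (N N' : ℕ) (m l : ℕ) : ℂ := if N < m * l ∧ m * l ≤ N' then Eph θ α (m * l) else 0

lemma FF_norm (θ α : ℝ) (N N' m l : ℕ) : ‖FF θ α N N' m l‖ ≤ 1 := by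
  unfold FF
  split_ifs
  · exact (norm_Eph _ _ _).le
  · simp

/-- a correlation is an interval sum -/
lemma corr_eq (θ α : ℝ) (N N' M l l' : ℕ) (hl : 0 < l) (hl' : 0 < l') :
    ∑ m ∈ Ioc M (2 * M), FF θ α N N' m l * (starRingEnd ℂ) (FF θ α N N' m l') =
      ∑ m ∈ Ioc (max M (max (N / l) (N / l'))) (min (2 * M) (min (N' / l) (N' / l'))),
        e ((θ * (√(l:ℝ) - √(l':ℝ))) * √(m:ℝ) + (α * ((l:ℝ) - l')) * m) := by
  have h1 : ∀ m ∈ Ioc M (2 * M), FF θ α N N' m l * (starRingEnd ℂ) (FF θ α N N' m l') =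
      if ((N < m * l ∧ m * l ≤ N') ∧ (N < m * l' ∧ m * l' ≤ N')) then
        e ((θ * (√(l:ℝ) - √(l':ℝ))) * √(m:ℝ) + (α * ((l:ℝ) - l')) * m) else 0 := by
    intro m _
    unfold FF
    by_cases c1 : N < m * l ∧ m * l ≤ N'
    · by_cases c2 : N < m * l' ∧ m * l' ≤ N'
      · rw [if_pos c1, if_pos c2, if_pos ⟨c1, c2⟩]
        unfold Eph
        rw [conj_e, ← e_add]
        congr 1
        push_cast
        rw [Real.sqrt_mul (Nat.cast_nonneg m), Real.sqrt_mul (Nat.cast_nonneg m)]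
        ring
      · rw [if_neg c2, map_zero, mul_zero, if_neg (fun h => c2 h.2)]
    · rw [if_neg c1, zero_mul, if_neg (fun h => c1 h.1)]
  rw [sum_congr rfl h1, ← sum_filter]
  apply sum_congr _ fun _ _ => rfl
  ext m
  simp only [mem_filter, mem_Ioc, max_lt_iff, le_min_iff, Nat.div_lt_iff_lt_mul hl, Nat.div_lt_iff_lt_mul hl',
    Nat.le_div_iff_mul_le hl, Nat.le_div_iff_mul_le hl']
  tauto

/-- off-diagonal correlations -/
lemma corr_le {θ : ℝ} (hθ : 0 < θ) (α : ℝ) (N N' M L l l' : ℕ) (hM : 1 ≤ M) (hL : 1 ≤ L) (hl : l ∈ Ioc L (2 * L))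
    (hl' : l' ∈ Ioc L (2 * L)) (hne : l ≠ l') :
    ‖∑ m ∈ Ioc M (2 * M), FF θ α N N' m l * (starRingEnd ℂ) (FF θ α N N' m l')‖^2 ≤
      524 * ((8 * M * √((M:ℝ) * L) / θ * (1 / |(l:ℝ) - l'|) + 2 * θ * √((M:ℝ) * L)) * (1 + Real.log (2 * M))) := by
  rw [mem_Ioc] at hl hl'
  have hM0 : (0:ℝ) < M := by exact_mod_cast hM
  have hM1 : (1:ℝ) ≤ M := by exact_mod_cast hM
  have hL0 : (0:ℝ) < L := by exact_mod_cast hL
  have hlog : 0 ≤ Real.log (2 * M) := Real.log_nonneg (by linarith)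
  have hd0 : (0:ℝ) < |(l:ℝ) - l'| := by
    rw [abs_pos, sub_ne_zero]; exact_mod_cast hne
  rw [corr_eq θ α N N' M l l' (by omega) (by omega)]
  set a' := max M (max (N / l) (N / l')) with ha'
  set b' := min (2 * M) (min (N' / l) (N' / l')) with hb'
  by_cases hab : a' < b'
  · have haM : M ≤ a' := le_max_left _ _
    have hbM : b' ≤ 2 * M := min_le_left _ _
    have ha2 : a' + 1 ≤ 2 * M := by omega
    have hsl : 0 < √(l:ℝ) := Real.sqrt_pos.mpr (by exact_mod_cast (by omega : 0 < l))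
    have hsl' : 0 < √(l':ℝ) := Real.sqrt_pos.mpr (by exact_mod_cast (by omega : 0 < l'))
    have q1 : √(l:ℝ) * √(l:ℝ) = l := Real.mul_self_sqrt (Nat.cast_nonneg l)
    have q2 : √(l':ℝ) * √(l':ℝ) = l' := Real.mul_self_sqrt (Nat.cast_nonneg l')
    have s1 : √(l:ℝ) ≤ √(2 * (L:ℝ)) := Real.sqrt_le_sqrt (by exact_mod_cast hl.2)
    have s2 : √(l':ℝ) ≤ √(2 * (L:ℝ)) := Real.sqrt_le_sqrt (by exact_mod_cast hl'.2)
    have hs2L : 0 < √(2 * (L:ℝ)) := Real.sqrt_pos.mpr (by positivity)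
    have hdiff : |(l:ℝ) - l'| = |√(l:ℝ) - √(l':ℝ)| * (√(l:ℝ) + √(l':ℝ)) := by
      rw [← abs_of_pos (by positivity : 0 < √(l:ℝ) + √(l':ℝ)), ← abs_mul]
      congr 1
      nlinarith
    set D := |√(l:ℝ) - √(l':ℝ)| with hD
    have hD1 : |(l:ℝ) - l'| ≤ D * (2 * √(2 * (L:ℝ))) := by
      rw [hdiff]
      apply mul_le_mul_of_nonneg_left _ (abs_nonneg _)
      linarith
    have hD0 : 0 < D := by
      by_contra hc
      have : D = 0 := le_antisymm (not_lt.mp hc) (abs_nonneg _)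
      rw [this, zero_mul] at hD1
      linarith
    have hD2 : D ≤ √(2 * (L:ℝ)) := by
      rw [hD, abs_le]; constructor <;> linarith
    have hh : θ * (√(l:ℝ) - √(l':ℝ)) ≠ 0 := by
      intro h
      rcases mul_eq_zero.mp h with h | h
      · linarith
      · rw [h, abs_zero] at hD; linarith
    have key := kerIabs hh (α * ((l:ℝ) - l')) a' b' (by omega)
    rw [abs_mul, abs_of_pos hθ, ← hD] at key
    refine key.trans ?_
    have hA : √((a' + 1 : ℕ):ℝ) ≤ √(2 * (M:ℝ)) := Real.sqrt_le_sqrt (by exact_mod_cast ha2)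
    have hlogA : Real.log ((a' + 1 : ℕ):ℝ) ≤ Real.log (2 * M) := by
      apply Real.log_le_log (by positivity)
      exact_mod_cast ha2
    have hlogA0 : 0 ≤ Real.log ((a' + 1 : ℕ):ℝ) := Real.log_nonneg (by exact_mod_cast (by omega : 1 ≤ a' + 1))
    have hsM : √(2 * (M:ℝ)) * √(2 * (L:ℝ)) = 2 * √((M:ℝ) * L) := by
      rw [← Real.sqrt_mul (by positivity), show 2 * (M:ℝ) * (2 * L) = 2^2 * (M * L) by ring,
        Real.sqrt_mul (by positivity), Real.sqrt_sq (by norm_num)]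
    have hsM2 : √(2 * (M:ℝ)) ^ 2 = 2 * M := Real.sq_sqrt (by positivity)
    have t1 : √((a' + 1 : ℕ):ℝ) ^ 3 / (θ * D) ≤ 8 * M * √((M:ℝ) * L) / θ * (1 / |(l:ℝ) - l'|) := by
      calc √((a' + 1 : ℕ):ℝ) ^ 3 / (θ * D) ≤ √(2 * (M:ℝ)) ^ 3 / (θ * D) := by gcongr
        _ ≤ √(2 * (M:ℝ)) ^ 3 / (θ * (|(l:ℝ) - l'| / (2 * √(2 * (L:ℝ))))) := by
            apply div_le_div_of_nonneg_left (by positivity) (by positivity)
            apply mul_le_mul_of_nonneg_left _ hθ.le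
            rw [div_le_iff₀ (by positivity)]
            exact hD1
        _ = (√(2 * (M:ℝ)) ^ 2) * (√(2 * (M:ℝ)) * √(2 * (L:ℝ))) * 2 / θ * (1 / |(l:ℝ) - l'|) := by
            field_simp
        _ = _ := by rw [hsM2, hsM]; ring
    have t2 : (θ * D) * √((a' + 1 : ℕ):ℝ) ≤ 2 * θ * √((M:ℝ) * L) := by
      calc (θ * D) * √((a' + 1 : ℕ):ℝ) ≤ (θ * √(2 * (L:ℝ))) * √(2 * (M:ℝ)) := by gcongr
        _ = θ * (√(2 * (M:ℝ)) * √(2 * (L:ℝ))) := by ring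
        _ = _ := by rw [hsM]; ring
    gcongr
  · rw [Ioc_eq_empty hab, sum_empty, norm_zero, zero_pow (by norm_num)]
    positivity

/-- the sum of the reciprocals of the distances -/
lemma recip_sum (L l : ℕ) (hl : l ∈ Ioc L (2 * L)) :
    ∑ l' ∈ (Ioc L (2 * L)).erase l, 1 / |(l:ℝ) - l'| ≤ 2 * (1 + Real.log L) := by
  rw [mem_Ioc] at hl
  have hsub : (Ioc L (2 * L)).erase l ⊆ (Ico 1 L).image (fun k => l + k) ∪ (Ico 1 L).image (fun k => l - k) := by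
    intro x hx
    rw [mem_erase, mem_Ioc] at hx
    rw [mem_union, mem_image, mem_image]
    rcases lt_or_gt_of_ne hx.1 with h | h
    · right
      exact ⟨l - x, by rw [mem_Ico]; omega, by omega⟩
    · left
      exact ⟨x - l, by rw [mem_Ico]; omega, by omega⟩
  have h1 : ∑ l' ∈ (Ioc L (2 * L)).erase l, 1 / |(l:ℝ) - l'| ≤
      ∑ l' ∈ (Ico 1 L).image (fun k => l + k) ∪ (Ico 1 L).image (fun k => l - k), 1 / |(l:ℝ) - l'| :=
    sum_le_sum_of_subset_of_nonneg hsub (fun _ _ _ => by positivity)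
  refine h1.trans ?_
  have h2 : ∑ l' ∈ (Ico 1 L).image (fun k => l + k) ∪ (Ico 1 L).image (fun k => l - k), 1 / |(l:ℝ) - l'| ≤
      ∑ l' ∈ (Ico 1 L).image (fun k => l + k), 1 / |(l:ℝ) - l'| + ∑ l' ∈ (Ico 1 L).image (fun k => l - k), 1 / |(l:ℝ) - l'| := by
    have := sum_union_inter (s₁ := (Ico 1 L).image (fun k => l + k)) (s₂ := (Ico 1 L).image (fun k => l - k))
      (f := fun l' : ℕ => 1 / |(l:ℝ) - l'|)
    have h0 : 0 ≤ ∑ l' ∈ (Ico 1 L).image (fun k => l + k) ∩ (Ico 1 L).image (fun k => l - k), 1 / |(l:ℝ) - l'| :=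
      sum_nonneg fun _ _ => by positivity
    linarith
  refine h2.trans ?_
  have h3 : ∑ l' ∈ (Ico 1 L).image (fun k => l + k), 1 / |(l:ℝ) - l'| = ∑ k ∈ Ico 1 L, (1:ℝ) / k := by
    rw [sum_image (fun x _ y _ h => by omega)]
    apply sum_congr rfl; intro k _
    push_cast
    rw [show (l:ℝ) - (l + k) = -k by ring, abs_neg, abs_of_nonneg (Nat.cast_nonneg k)]
  have h4 : ∑ l' ∈ (Ico 1 L).image (fun k => l - k), 1 / |(l:ℝ) - l'| = ∑ k ∈ Ico 1 L, (1:ℝ) / k := by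
    rw [sum_image (fun x hx y hy h => by
      rw [mem_coe, mem_Ico] at hx hy
      omega)]
    apply sum_congr rfl; intro k hk
    rw [mem_Ico] at hk
    rw [Nat.cast_sub (by omega), show (l:ℝ) - (l - k) = k by ring, abs_of_nonneg (Nat.cast_nonneg k)]
  rw [h3, h4]
  have := harm_le L
  linarith

/-- rows of the correlation matrix -/
lemma row_le {θ : ℝ} (hθ : 0 < θ) (α : ℝ) (N N' M L : ℕ) (hN : 1 ≤ N) (hN' : N' ≤ 2 * N) (hM : 1 ≤ M) (hL : 1 ≤ L)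
    (hML : M * L ≤ N') (hLM : L ≤ M) (l : ℕ) (hl : l ∈ Ioc L (2 * L)) :
    ∑ l' ∈ Ioc L (2 * L), ‖∑ m ∈ Ioc M (2 * M), FF θ α N N' m l * (starRingEnd ℂ) (FF θ α N N' m l')‖ ≤
      M + 160 * ((N:ℝ) ^ (3/4:ℝ) * √(θ + 1/θ) * (1 + Real.log (4 * N))) := by
  have hM0 : (0:ℝ) < M := by exact_mod_cast hM
  have hM1 : (1:ℝ) ≤ M := by exact_mod_cast hM
  have hL0 : (0:ℝ) < L := by exact_mod_cast hL
  have hL1 : (1:ℝ) ≤ L := by exact_mod_cast hL
  have hN0 : (1:ℝ) ≤ N := by exact_mod_cast hN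
  have hLM' : (L:ℝ) ≤ M := by exact_mod_cast hLM
  set Lg : ℝ := 1 + Real.log (4 * N) with hLg
  have hML' : (M:ℝ) * L ≤ 2 * N := by exact_mod_cast hML.trans hN'
  have hM2N : (M:ℝ) ≤ 2 * N := by nlinarith
  have hL2N : (L:ℝ) ≤ 2 * N := by linarith
  have hlogM : 1 + Real.log (2 * M) ≤ Lg := by
    have := Real.log_le_log (by positivity : 0 < 2 * (M:ℝ)) (by linarith : 2 * (M:ℝ) ≤ 4 * N)
    linarith
  have hlogL : 1 + Real.log L ≤ Lg := by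
    have := Real.log_le_log (by positivity : 0 < (L:ℝ)) (by linarith : (L:ℝ) ≤ 4 * N)
    linarith
  have hlogM0 : 0 ≤ Real.log (2 * M) := Real.log_nonneg (by linarith)
  have hlogL0 : 0 ≤ Real.log L := Real.log_nonneg hL1
  have hLg1 : 1 ≤ Lg := by linarith
  set k : ℕ → ℝ := fun l' => ‖∑ m ∈ Ioc M (2 * M), FF θ α N N' m l * (starRingEnd ℂ) (FF θ α N N' m l')‖ with hk
  rw [← add_sum_erase _ _ hl]
  have hdiag : k l ≤ M := by
    simp only [hk]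
    refine (norm_sum_le _ _).trans ?_
    calc ∑ m ∈ Ioc M (2 * M), ‖FF θ α N N' m l * (starRingEnd ℂ) (FF θ α N N' m l)‖ ≤ ∑ m ∈ Ioc M (2 * M), (1:ℝ) := by
          apply sum_le_sum; intro m _
          rw [norm_mul, Complex.norm_conj]
          exact mul_le_one₀ (FF_norm _ _ _ _ _ _) (norm_nonneg _) (FF_norm _ _ _ _ _ _)
      _ = M := by
          rw [sum_const, Nat.card_Ioc, nsmul_eq_mul, mul_one]
          congr 1; omega
  have hoff : (∑ l' ∈ (Ioc L (2 * L)).erase l, k l')^2 ≤ (160 * ((N:ℝ) ^ (3/4:ℝ) * √(θ + 1/θ) * Lg))^2 := by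
    have c1 : (∑ l' ∈ (Ioc L (2 * L)).erase l, k l')^2 ≤ L * ∑ l' ∈ (Ioc L (2 * L)).erase l, (k l')^2 := by
      have := sq_sum_le_card_mul_sum_sq (s := (Ioc L (2 * L)).erase l) (f := k)
      refine this.trans ?_
      apply mul_le_mul_of_nonneg_right _ (sum_nonneg fun _ _ => by positivity)
      have : ((Ioc L (2 * L)).erase l).card ≤ L := by
        refine (card_le_card (erase_subset _ _)).trans ?_
        rw [Nat.card_Ioc]; omega
      exact_mod_cast this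
    have c2 : ∑ l' ∈ (Ioc L (2 * L)).erase l, (k l')^2 ≤
        524 * ((8 * M * √((M:ℝ) * L) / θ * (2 * Lg) + L * (2 * θ * √((M:ℝ) * L))) * Lg) := by
      calc ∑ l' ∈ (Ioc L (2 * L)).erase l, (k l')^2 ≤ ∑ l' ∈ (Ioc L (2 * L)).erase l,
            524 * ((8 * M * √((M:ℝ) * L) / θ * (1 / |(l:ℝ) - l'|) + 2 * θ * √((M:ℝ) * L)) * Lg) := by
            apply sum_le_sum; intro l' hl'
            rw [mem_erase] at hl'
            have := corr_le hθ α N N' M L l l' hM hL hl hl'.2 (Ne.symm hl'.1)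
            refine this.trans ?_
            gcongr
        _ = 524 * ((8 * M * √((M:ℝ) * L) / θ * (∑ l' ∈ (Ioc L (2 * L)).erase l, 1 / |(l:ℝ) - l'|) +
              ((Ioc L (2 * L)).erase l).card * (2 * θ * √((M:ℝ) * L))) * Lg) := by
            rw [← mul_sum, ← sum_mul, sum_add_distrib, ← mul_sum, sum_const, nsmul_eq_mul]
        _ ≤ _ := by
            have r1 := recip_sum L l hl
            have r2 : (((Ioc L (2 * L)).erase l).card : ℝ) ≤ L := by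
              have : ((Ioc L (2 * L)).erase l).card ≤ L := by
                refine (card_le_card (erase_subset _ _)).trans ?_
                rw [Nat.card_Ioc]; omega
              exact_mod_cast this
            have r3 : ∑ l' ∈ (Ioc L (2 * L)).erase l, 1 / |(l:ℝ) - l'| ≤ 2 * Lg := by linarith
            gcongr
    set X := √((M:ℝ) * L) with hX
    have hX0 : 0 < X := Real.sqrt_pos.mpr (by positivity)
    have hX2 : X^2 = M * L := Real.sq_sqrt (by positivity)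
    have c3 : L * (524 * ((8 * M * X / θ * (2 * Lg) + L * (2 * θ * X)) * Lg)) ≤
        8384 * (X^3 * (θ + 1/θ) * Lg^2) := by
      have d1 : (L:ℝ) * (8 * M * X / θ * (2 * Lg)) = 16 * X^3 * (1/θ) * Lg := by
        have : X^3 = X^2 * X := by ring
        rw [this, hX2]; field_simp; ring
      have d2 : (L:ℝ) * (L * (2 * θ * X)) ≤ 16 * X^3 * θ * Lg := by
        have : (L:ℝ) * L ≤ X^2 := by rw [hX2]; gcongr
        calc (L:ℝ) * (L * (2 * θ * X)) = (L * L) * (2 * θ * X) := by ring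
          _ ≤ X^2 * (2 * θ * X) := by gcongr
          _ = 2 * (X^3 * θ) * 1 := by ring
          _ ≤ 16 * (X^3 * θ) * Lg := by gcongr; norm_num
          _ = _ := by ring
      calc L * (524 * ((8 * M * X / θ * (2 * Lg) + L * (2 * θ * X)) * Lg)) =
            524 * ((L * (8 * M * X / θ * (2 * Lg)) + L * (L * (2 * θ * X))) * Lg) := by ring
        _ ≤ 524 * ((16 * X^3 * (1/θ) * Lg + 16 * X^3 * θ * Lg) * Lg) := by
            rw [d1]; gcongr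
        _ = _ := by ring
    have c4 : X^3 ≤ 3 * ((N:ℝ) ^ (3/4:ℝ))^2 := by
      have x1 : X ≤ √(2 * (N:ℝ)) := Real.sqrt_le_sqrt hML'
      have x2 : √(2 * (N:ℝ)) ^ 3 = 2 * N * √(2 * (N:ℝ)) := by
        have : √(2 * (N:ℝ)) ^ 2 = 2 * N := Real.sq_sqrt (by positivity)
        calc √(2 * (N:ℝ)) ^ 3 = √(2 * (N:ℝ)) ^ 2 * √(2 * (N:ℝ)) := by ring
          _ = _ := by rw [this]
      have x3 : ((N:ℝ) ^ (3/4:ℝ))^2 = N * √(N:ℝ) := by
        rw [← Real.rpow_natCast, ← Real.rpow_mul (by positivity), Real.sqrt_eq_rpow]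
        nth_rewrite 2 [← Real.rpow_one (N:ℝ)]
        rw [← Real.rpow_add (by positivity)]; norm_num
      have x4 : √(2 * (N:ℝ)) = √2 * √(N:ℝ) := Real.sqrt_mul (by norm_num) _
      have x5 : √2 ≤ (1.5:ℝ) := by
        rw [Real.sqrt_le_left (by norm_num)]; norm_num
      calc X^3 ≤ √(2 * (N:ℝ)) ^ 3 := pow_le_pow_left₀ hX0.le x1 3
        _ = 2 * N * (√2 * √(N:ℝ)) := by rw [x2, x4]
        _ ≤ 2 * N * (1.5 * √(N:ℝ)) := by gcongr
        _ = _ := by rw [x3]; ring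
    have hsq : √(θ + 1/θ)^2 = θ + 1/θ := Real.sq_sqrt (by positivity)
    calc (∑ l' ∈ (Ioc L (2 * L)).erase l, k l')^2 ≤ L * ∑ l' ∈ (Ioc L (2 * L)).erase l, (k l')^2 := c1
      _ ≤ L * (524 * ((8 * M * X / θ * (2 * Lg) + L * (2 * θ * X)) * Lg)) := by gcongr
      _ ≤ 8384 * (X^3 * (θ + 1/θ) * Lg^2) := c3
      _ ≤ 8384 * ((3 * ((N:ℝ) ^ (3/4:ℝ))^2) * (θ + 1/θ) * Lg^2) := by gcongr
      _ ≤ _ := by
          rw [mul_pow, mul_pow, mul_pow, hsq]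
          have : 0 ≤ ((N:ℝ) ^ (3/4:ℝ))^2 * (θ + 1/θ) * Lg^2 := by positivity
          nlinarith
  have hoff2 : ∑ l' ∈ (Ioc L (2 * L)).erase l, k l' ≤ 160 * ((N:ℝ) ^ (3/4:ℝ) * √(θ + 1/θ) * Lg) :=
    (le_abs_self _).trans (abs_le_of_sq_le_sq hoff (by positivity))
  exact add_le_add hdiag hoff2

end Pool.Agent.W24.CP
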