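import Mathlib
import Pool.Agent.W24.CP.ES1
import Pool.Agent.H373R2.T7.VauMu

/-! Power saving in the sums of `Λ(n) e(θ√n + αn)` and `μ(n) e(θ√n + αn)`. -/

open Finset
open Pool.Agent.H469R2.NK
open Pool.Agent.H425R3.MM

namespace Pool.Agent.W24.CP

/-- Type I sums -/
lemma typeI {θ : ℝ} (hθ : 0 < θ) (α : ℝ) (N N' m b : ℕ) (hN : 1 ≤ N) (hN' : N' ≤ 2 * N) (hm : 1 ≤ m) (hmN : m ≤ N)
    (hb : b ≤ N' / m) :
    ‖∑ l ∈ Ioc (N / m) b, Eph θ α (m * l)‖ ≤ 80 * ((N:ℝ) ^ (3/4:ℝ) * √(θ + 1/θ) * (1 + Real.log (4 * N))) := by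
  have hN0 : (1:ℝ) ≤ N := by exact_mod_cast hN
  have hm0 : (0:ℝ) < m := by exact_mod_cast hm
  have hm1 : (1:ℝ) ≤ m := by exact_mod_cast hm
  have hmN' : (m:ℝ) ≤ N := by exact_mod_cast hmN
  have hsm : 0 < √(m:ℝ) := Real.sqrt_pos.mpr hm0
  set a := N / m with ha
  have hb2 : b ≤ 4 * a + 3 := by
    have h1 : N' / m ≤ (2 * N) / m := Nat.div_le_div_right hN'
    have h2 : (2 * N) / m < 2 * a + 2 := by
      rw [Nat.div_lt_iff_lt_mul (by omega)]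
      have h3 := Nat.lt_div_mul_add (a := N) (b := m) (by omega)
      rw [← ha] at h3
      nlinarith
    omega
  have e1 : ∑ l ∈ Ioc a b, Eph θ α (m * l) = ∑ l ∈ Ioc a b, e ((θ * √(m:ℝ)) * √(l:ℝ) + (α * m) * l) := by
    apply sum_congr rfl; intro l _
    unfold Eph
    congr 1
    push_cast
    rw [Real.sqrt_mul (Nat.cast_nonneg m)]
    ring
  rw [e1]
  have key := kerI (h := θ * √(m:ℝ)) (by positivity) (α * m) a b hb2
  have hA : ((a + 1 : ℕ):ℝ) ≤ 2 * N / m := by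
    have h1 : (a:ℝ) ≤ N / m := by rw [ha]; exact Nat.cast_div_le
    have h2 : (1:ℝ) ≤ N / m := by rw [le_div_iff₀ hm0]; linarith
    push_cast
    have : 2 * (N:ℝ) / m = N / m + N / m := by ring
    linarith
  set Lg : ℝ := 1 + Real.log (4 * N) with hLg
  have hlogA : 1 + Real.log ((a + 1 : ℕ):ℝ) ≤ Lg := by
    have h1 : ((a + 1 : ℕ):ℝ) ≤ 4 * N := by
      refine hA.trans ?_
      rw [div_le_iff₀ hm0]
      nlinarith
    have := Real.log_le_log (by positivity) h1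
    linarith
  have hlogA0 : 0 ≤ Real.log ((a + 1 : ℕ):ℝ) := Real.log_nonneg (by exact_mod_cast (by omega : 1 ≤ a + 1))
  have hLg1 : 1 ≤ Lg := by linarith
  have hsA : √((a + 1 : ℕ):ℝ) ≤ √(2 * (N:ℝ)) / √(m:ℝ) := by
    rw [← Real.sqrt_div (by positivity)]; exact Real.sqrt_le_sqrt hA
  have x5 : √2 ≤ (1.5:ℝ) := by
    rw [Real.sqrt_le_left (by norm_num)]; norm_num
  have hs2N : √(2 * (N:ℝ)) ≤ 1.5 * √(N:ℝ) := by
    rw [Real.sqrt_mul (by norm_num)]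
    exact mul_le_mul_of_nonneg_right x5 (Real.sqrt_nonneg _)
  have hsN2 : √(N:ℝ)^2 = N := Real.sq_sqrt (by positivity)
  have hsN1 : 1 ≤ √(N:ℝ) := by rw [Real.one_le_sqrt]; exact hN0
  have x3 : ((N:ℝ) ^ (3/4:ℝ))^2 = √(N:ℝ)^3 := by
    rw [← Real.rpow_natCast, ← Real.rpow_mul (by positivity), Real.sqrt_eq_rpow, ← Real.rpow_natCast, ← Real.rpow_mul (by positivity)]
    norm_num
  have t1 : √((a + 1 : ℕ):ℝ) ^ 3 / (θ * √(m:ℝ)) ≤ 4 * √(N:ℝ)^3 * (1/θ) := by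
    have h1 : √(2 * (N:ℝ)) / √(m:ℝ) ≤ 1.5 * √(N:ℝ) := by
      rw [div_le_iff₀ hsm]
      have h2 : 1 ≤ √(m:ℝ) := by rw [Real.one_le_sqrt]; exact hm1
      nlinarith
    have h2 : 1 ≤ √(m:ℝ) := by rw [Real.one_le_sqrt]; exact hm1
    calc √((a + 1 : ℕ):ℝ) ^ 3 / (θ * √(m:ℝ)) ≤ (1.5 * √(N:ℝ)) ^ 3 / (θ * 1) := by
          gcongr
          exact hsA.trans h1
      _ = 1.5^3 * √(N:ℝ)^3 * (1/θ) := by rw [mul_one]; ring
      _ ≤ _ := by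
          apply mul_le_mul_of_nonneg_right _ (by positivity)
          apply mul_le_mul_of_nonneg_right _ (by positivity)
          norm_num
  have t2 : (θ * √(m:ℝ)) * √((a + 1 : ℕ):ℝ) ≤ 4 * √(N:ℝ)^3 * θ := by
    calc (θ * √(m:ℝ)) * √((a + 1 : ℕ):ℝ) ≤ (θ * √(m:ℝ)) * (√(2 * (N:ℝ)) / √(m:ℝ)) := by gcongr
      _ = θ * √(2 * (N:ℝ)) := by field_simp
      _ ≤ θ * (1.5 * √(N:ℝ)) := by gcongr
      _ ≤ θ * (4 * √(N:ℝ)^3) := by
          apply mul_le_mul_of_nonneg_left _ hθ.le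
          have : √(N:ℝ) * 1 ≤ √(N:ℝ) * √(N:ℝ)^2 := by
            apply mul_le_mul_of_nonneg_left _ (by positivity)
            rw [hsN2]; exact hN0
          nlinarith
      _ = _ := by ring
  have hsq : √(θ + 1/θ)^2 = θ + 1/θ := Real.sq_sqrt (by positivity)
  have hfin : ‖∑ l ∈ Ioc a b, e ((θ * √(m:ℝ)) * √(l:ℝ) + (α * m) * l)‖^2 ≤
      (80 * ((N:ℝ) ^ (3/4:ℝ) * √(θ + 1/θ) * Lg))^2 := by
    refine key.trans ?_
    calc 524 * ((√((a + 1 : ℕ):ℝ) ^ 3 / (θ * √(m:ℝ)) + (θ * √(m:ℝ)) * √((a + 1 : ℕ):ℝ)) * (1 + Real.log ((a + 1 : ℕ):ℝ)))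
        ≤ 524 * ((4 * √(N:ℝ)^3 * (1/θ) + 4 * √(N:ℝ)^3 * θ) * Lg) := by gcongr
      _ = 2096 * (√(N:ℝ)^3 * (θ + 1/θ) * Lg) := by ring
      _ ≤ 2096 * (√(N:ℝ)^3 * (θ + 1/θ) * Lg^2) := by
          gcongr
          nlinarith
      _ ≤ _ := by
          rw [mul_pow, mul_pow, mul_pow, hsq, x3]
          have : 0 ≤ √(N:ℝ)^3 * (θ + 1/θ) * Lg^2 := by positivity
          nlinarith
  exact (le_abs_self _).trans (abs_le_of_sq_le_sq hfin (by positivity))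

/-- Type II sums -/
lemma typeII {θ : ℝ} (hθ : 0 < θ) (α : ℝ) (N N' U M L : ℕ) (hN : 1 ≤ N) (hN' : N' ≤ 2 * N) (hU : 1 ≤ U) (hM : 1 ≤ M) (hL : 1 ≤ L)
    (hUM : U < 2 * M) (hUL : U < 2 * L) (hML : M * L ≤ N') (a b : ℕ → ℂ) {A₂ B₂ : ℝ} (hA0 : 0 ≤ A₂) (hB0 : 0 ≤ B₂)
    (ha : ∑ m ∈ Ioc M (2 * M), ‖a m‖ ^ 2 ≤ A₂ * M) (hb : ∑ l ∈ Ioc L (2 * L), ‖b l‖ ^ 2 ≤ B₂ * L) :
    ‖∑ m ∈ Ioc M (2 * M), ∑ l ∈ Ioc L (2 * L), a m * b l * FF θ α N N' m l‖ ^ 2 ≤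
      A₂ * B₂ * (2 * N * (4 * N / U + 160 * ((N:ℝ) ^ (3/4:ℝ) * √(θ + 1/θ) * (1 + Real.log (4 * N))))) := by
  have hN0 : (1:ℝ) ≤ N := by exact_mod_cast hN
  have hM0 : (0:ℝ) < M := by exact_mod_cast hM
  have hL0 : (0:ℝ) < L := by exact_mod_cast hL
  have hU0 : (0:ℝ) < U := by exact_mod_cast hU
  have hML' : (M:ℝ) * L ≤ 2 * N := by exact_mod_cast hML.trans hN'
  have hlog : 0 ≤ Real.log (4 * N) := Real.log_nonneg (by linarith)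
  set Q : ℝ := 160 * ((N:ℝ) ^ (3/4:ℝ) * √(θ + 1/θ) * (1 + Real.log (4 * N))) with hQ
  have hQ0 : 0 ≤ Q := by positivity
  have hUM' : (U:ℝ) ≤ 2 * M := by exact_mod_cast hUM.le
  have hUL' : (U:ℝ) ≤ 2 * L := by exact_mod_cast hUL.le
  have hMb : (M:ℝ) ≤ 4 * N / U := by
    rw [le_div_iff₀ hU0]; nlinarith
  have hLb : (L:ℝ) ≤ 4 * N / U := by
    rw [le_div_iff₀ hU0]; nlinarith
  rcases le_total L M with h | h
  · have key := bil_cs (Ioc M (2 * M)) (Ioc L (2 * L)) a b (FF θ α N N') ha hb (K := M + Q) (by positivity)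
      (fun l hl => row_le hθ α N N' M L hN hN' hM hL hML h l hl)
    refine key.trans ?_
    calc A₂ * M * (B₂ * L) * (M + Q) = A₂ * B₂ * ((M * L) * (M + Q)) := by ring
      _ ≤ _ := by
          apply mul_le_mul_of_nonneg_left _ (by positivity)
          apply mul_le_mul hML' (by linarith) (by positivity) (by positivity)
  · have key := bil_cs (Ioc L (2 * L)) (Ioc M (2 * M)) b a (fun l m => FF θ α N N' l m) hb ha (K := L + Q) (by positivity)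
      (fun m hm => by
        have := row_le hθ α N N' L M hN hN' hL hM (by rw [mul_comm]; exact hML) h m hm
        exact this)
    have e1 : ∑ m ∈ Ioc M (2 * M), ∑ l ∈ Ioc L (2 * L), a m * b l * FF θ α N N' m l =
        ∑ l ∈ Ioc L (2 * L), ∑ m ∈ Ioc M (2 * M), b l * a m * FF θ α N N' l m := by
      rw [sum_comm]
      apply sum_congr rfl; intro l _
      apply sum_congr rfl; intro m _
      have : FF θ α N N' m l = FF θ α N N' l m := by unfold FF; rw [mul_comm m l]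
      rw [this]; ring
    rw [e1]
    refine key.trans ?_
    calc B₂ * L * (A₂ * M) * (L + Q) = A₂ * B₂ * ((M * L) * (L + Q)) := by ring
      _ ≤ _ := by
          apply mul_le_mul_of_nonneg_left _ (by positivity)
          apply mul_le_mul hML' (by linarith) (by positivity) (by positivity)

lemma Lg_pow (N : ℕ) (hN : 1 ≤ N) : (1 + Real.log (4 * N))^6 ≤ 1537^6 * (N:ℝ) ^ (1/128:ℝ) := by
  have hN0 : (1:ℝ) ≤ N := by exact_mod_cast hN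
  have h1 : Real.log (4 * N) ≤ (4 * N) ^ (1/768:ℝ) / (1/768) := Real.log_le_rpow_div (by positivity) (by norm_num)
  have h2 : (4 * (N:ℝ)) ^ (1/768:ℝ) ≤ 2 * (N:ℝ) ^ (1/768:ℝ) := by
    rw [Real.mul_rpow (by norm_num) (by positivity)]
    apply mul_le_mul_of_nonneg_right _ (by positivity)
    calc (4:ℝ) ^ (1/768:ℝ) ≤ (4:ℝ) ^ (1/2:ℝ) := Real.rpow_le_rpow_of_exponent_le (by norm_num) (by norm_num)
      _ = 2 := by rw [← Real.sqrt_eq_rpow, show (4:ℝ) = 2^2 by norm_num, Real.sqrt_sq (by norm_num)]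
  have h3 : 1 ≤ (N:ℝ) ^ (1/768:ℝ) := Real.one_le_rpow hN0 (by norm_num)
  have h4 : 1 + Real.log (4 * N) ≤ 1537 * (N:ℝ) ^ (1/768:ℝ) := by
    have : (4 * (N:ℝ)) ^ (1/768:ℝ) / (1/768) = 768 * (4 * (N:ℝ)) ^ (1/768:ℝ) := by ring
    rw [this] at h1
    linarith
  have h0 : 0 ≤ Real.log (4 * N) := Real.log_nonneg (by linarith)
  calc (1 + Real.log (4 * N))^6 ≤ (1537 * (N:ℝ) ^ (1/768:ℝ))^6 := pow_le_pow_left₀ (by linarith) h4 6
    _ = 1537^6 * ((N:ℝ) ^ (1/768:ℝ))^6 := by rw [mul_pow]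
    _ = _ := by
        congr 1
        rw [← Real.rpow_natCast, ← Real.rpow_mul (by positivity)]
        norm_num

theorem es_block : ∃ C : ℝ, 0 < C ∧ ∀ (N N' : ℕ), 1 ≤ N → N ≤ N' → N' ≤ 2 * N → ∀ θ : ℝ, 0 < θ →
    θ + 1/θ ≤ 2 * (N:ℝ) ^ (1/8:ℝ) → ∀ α : ℝ,
    ‖∑ n ∈ Ioc N N', ((ArithmeticFunction.vonMangoldt n : ℝ) : ℂ) * Eph θ α n‖ ≤ C * (N:ℝ) ^ (127/128:ℝ) ∧
    ‖∑ n ∈ Ioc N N', (((ArithmeticFunction.moebius n : ℤ) : ℝ) : ℂ) * Eph θ α n‖ ≤ C * (N:ℝ) ^ (127/128:ℝ) := by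
  refine ⟨1000 * 1537^6, by positivity, ?_⟩
  intro N N' hN hNN' hN' θ hθ hθN α
  have hN0 : (1:ℝ) ≤ N := by exact_mod_cast hN
  have hNpos : (0:ℝ) < N := by linarith
  set Lg : ℝ := 1 + Real.log (4 * N) with hLg
  have hlog : 0 ≤ Real.log (4 * N) := Real.log_nonneg (by linarith)
  have hLg1 : 1 ≤ Lg := by linarith
  set u : ℝ := (N:ℝ) ^ (1/32:ℝ) with hu
  have hu1 : 1 ≤ u := Real.one_le_rpow hN0 (by norm_num)
  set U : ℕ := ⌊u⌋₊ with hU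
  have hU1 : 1 ≤ U := by rw [hU, Nat.one_le_floor_iff]; exact hu1
  have hUu : (U:ℝ) ≤ u := Nat.floor_le (by linarith)
  have huU : u ≤ 2 * U := by
    have h1 := Nat.lt_floor_add_one u
    rw [← hU] at h1
    have h2 : (1:ℝ) ≤ U := by exact_mod_cast hU1
    linarith
  have hUr : (1:ℝ) ≤ U := by exact_mod_cast hU1
  have hu4 : u^4 = (N:ℝ) ^ (1/8:ℝ) := by
    rw [hu, ← Real.rpow_natCast, ← Real.rpow_mul hNpos.le]; norm_num
  have hUN : U * U ≤ N := by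
    have h1 : ((U * U : ℕ):ℝ) ≤ N := by
      push_cast
      calc (U:ℝ) * U ≤ u * u := mul_le_mul hUu hUu (by positivity) (by linarith)
        _ ≤ u^4 := by
            have : u * u * 1 ≤ u * u * (u * u) := by
              apply mul_le_mul_of_nonneg_left _ (by positivity)
              nlinarith
            calc u * u = u * u * 1 := by ring
              _ ≤ u * u * (u * u) := this
              _ = u^4 := by ring
        _ = (N:ℝ) ^ (1/8:ℝ) := hu4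
        _ ≤ (N:ℝ) ^ (1:ℝ) := Real.rpow_le_rpow_of_exponent_le hN0 (by norm_num)
        _ = N := Real.rpow_one _
    exact_mod_cast h1
  -- the size of Q
  have hsθ : √(θ + 1/θ) ≤ 1.5 * (N:ℝ) ^ (1/16:ℝ) := by
    have h1 : √(θ + 1/θ) ≤ √(2 * (N:ℝ) ^ (1/8:ℝ)) := Real.sqrt_le_sqrt hθN
    have h2 : √(2 * (N:ℝ) ^ (1/8:ℝ)) = √2 * (N:ℝ) ^ (1/16:ℝ) := by
      rw [Real.sqrt_mul (by norm_num), Real.sqrt_eq_rpow ((N:ℝ) ^ (1/8:ℝ)), ← Real.rpow_mul hNpos.le]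
      norm_num
    have x5 : √2 ≤ (1.5:ℝ) := by
      rw [Real.sqrt_le_left (by norm_num)]; norm_num
    rw [h2] at h1
    refine h1.trans ?_
    exact mul_le_mul_of_nonneg_right x5 (by positivity)
  set P : ℝ := (N:ℝ) ^ (3/4:ℝ) * √(θ + 1/θ) with hP
  have hP0 : 0 ≤ P := by positivity
  have hPle : P ≤ 1.5 * (N:ℝ) ^ (13/16:ℝ) := by
    calc P ≤ (N:ℝ) ^ (3/4:ℝ) * (1.5 * (N:ℝ) ^ (1/16:ℝ)) := by rw [hP]; gcongr
      _ = 1.5 * ((N:ℝ) ^ (3/4:ℝ) * (N:ℝ) ^ (1/16:ℝ)) := by ring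
      _ = _ := by rw [← Real.rpow_add hNpos]; norm_num
  set R : ℝ := 23 * ((N:ℝ) ^ (63/64:ℝ) * Lg) with hR
  have hR0 : 0 ≤ R := by positivity
  have hR2 : 2 * N * (4 * N / U + 160 * (P * Lg)) ≤ R^2 := by
    have h1 : 4 * (N:ℝ) / U ≤ 8 * (N:ℝ) ^ (31/32:ℝ) := by
      calc 4 * (N:ℝ) / U ≤ 4 * N / (u/2) := by
            apply div_le_div_of_nonneg_left (by positivity) (by positivity); linarith
        _ = 8 * (N * u⁻¹) := by field_simp; ring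
        _ = 8 * (N:ℝ) ^ (31/32:ℝ) := by
            congr 1
            rw [hu, ← Real.rpow_neg hNpos.le]
            nth_rewrite 1 [← Real.rpow_one (N:ℝ)]
            rw [← Real.rpow_add hNpos]; norm_num
    have h2 : (N:ℝ) ^ (13/16:ℝ) ≤ (N:ℝ) ^ (31/32:ℝ) := Real.rpow_le_rpow_of_exponent_le hN0 (by norm_num)
    have h3 : 160 * (P * Lg) ≤ 240 * ((N:ℝ) ^ (31/32:ℝ) * Lg) := by
      have : P * Lg ≤ (1.5 * (N:ℝ) ^ (31/32:ℝ)) * Lg := by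
        apply mul_le_mul_of_nonneg_right _ (by linarith); linarith
      linarith
    have h4 : 0 < (N:ℝ) ^ (31/32:ℝ) := by positivity
    calc 2 * N * (4 * N / U + 160 * (P * Lg)) ≤ 2 * N * (8 * (N:ℝ) ^ (31/32:ℝ) + 240 * ((N:ℝ) ^ (31/32:ℝ) * Lg)) := by gcongr
      _ ≤ 2 * N * (8 * ((N:ℝ) ^ (31/32:ℝ) * Lg^2) + 240 * ((N:ℝ) ^ (31/32:ℝ) * Lg^2)) := by
          have a1 : (N:ℝ) ^ (31/32:ℝ) ≤ (N:ℝ) ^ (31/32:ℝ) * Lg^2 := le_mul_of_one_le_right h4.le (by nlinarith)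
          have a2 : (N:ℝ) ^ (31/32:ℝ) * Lg ≤ (N:ℝ) ^ (31/32:ℝ) * Lg^2 := by
            apply mul_le_mul_of_nonneg_left _ h4.le; nlinarith
          gcongr
      _ = 496 * ((N * (N:ℝ) ^ (31/32:ℝ)) * Lg^2) := by ring
      _ = 496 * ((N:ℝ) ^ (63/32:ℝ) * Lg^2) := by
          congr 2
          nth_rewrite 1 [← Real.rpow_one (N:ℝ)]
          rw [← Real.rpow_add hNpos]; norm_num
      _ ≤ R^2 := by
          rw [hR, mul_pow, mul_pow]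
          have : ((N:ℝ) ^ (63/64:ℝ))^2 = (N:ℝ) ^ (63/32:ℝ) := by
            rw [← Real.rpow_natCast, ← Real.rpow_mul hNpos.le]; norm_num
          rw [this]
          have : 0 ≤ (N:ℝ) ^ (63/32:ℝ) * Lg^2 := by positivity
          nlinarith
  set Y : ℕ → ℝ := fun _ => 80 * (P * Lg) with hY
  have hY0 : ∀ m, 0 ≤ Y m := fun m => by simp only [hY]; positivity
  have hI : ∀ m ∈ Icc 1 (U * U), ∀ b, b ≤ N' / m → ‖∑ l ∈ Ioc (N / m) b, Eph θ α (m * l)‖ ≤ Y m := by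
    intro m hm b hb
    rw [mem_Icc] at hm
    exact typeI hθ α N N' m b hN hN' hm.1 (by omega) hb
  have hII : ∀ (a b : ℕ → ℂ) (A₂ B₂ : ℝ), 0 ≤ A₂ → 0 ≤ B₂ → ∀ M L : ℕ, 1 ≤ M → 1 ≤ L → U < 2 * M → U < 2 * L → M * L ≤ N' →
      ∑ m ∈ Ioc M (2 * M), ‖a m‖ ^ 2 ≤ A₂ * M → ∑ l ∈ Ioc L (2 * L), ‖b l‖ ^ 2 ≤ B₂ * L →
      ‖∑ m ∈ Ioc M (2 * M), ∑ l ∈ Ioc L (2 * L), a m * b l * (if N < m * l ∧ m * l ≤ N' then Eph θ α (m * l) else 0)‖ ^ 2 ≤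
        A₂ * B₂ * R ^ 2 := by
    intro a b A₂ B₂ hA hB M L hM hL hUM hUL hML ha hb
    have := typeII hθ α N N' U M L hN hN' hU1 hM hL hUM hUL hML a b hA hB ha hb
    refine this.trans ?_
    exact mul_le_mul_of_nonneg_left hR2 (by positivity)
  have hU2 : ((U * U : ℕ):ℝ) ≤ (N:ℝ) ^ (1/16:ℝ) := by
    push_cast
    have : u * u = (N:ℝ) ^ (1/16:ℝ) := by
      rw [hu, ← Real.rpow_add hNpos]; norm_num
    rw [← this]
    exact mul_le_mul hUu hUu (by positivity) (by linarith)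
  have hN15 : (N:ℝ) ^ (15/16:ℝ) ≤ (N:ℝ) ^ (63/64:ℝ) := Real.rpow_le_rpow_of_exponent_le hN0 (by norm_num)
  have hPLg : 0 ≤ P * Lg := by positivity
  have hLp := Lg_pow N hN
  rw [← hLg] at hLp
  have hfin : 544 * ((N:ℝ) ^ (63/64:ℝ) * Lg^6) ≤ 1000 * 1537^6 * (N:ℝ) ^ (127/128:ℝ) := by
    calc 544 * ((N:ℝ) ^ (63/64:ℝ) * Lg^6) ≤ 544 * ((N:ℝ) ^ (63/64:ℝ) * (1537^6 * (N:ℝ) ^ (1/128:ℝ))) := by gcongr
      _ = 544 * 1537^6 * ((N:ℝ) ^ (63/64:ℝ) * (N:ℝ) ^ (1/128:ℝ)) := by ring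
      _ = 544 * 1537^6 * (N:ℝ) ^ (127/128:ℝ) := by rw [← Real.rpow_add hNpos]; norm_num
      _ ≤ _ := by
          apply mul_le_mul_of_nonneg_right _ (by positivity)
          norm_num
  have hLpow : ∀ k : ℕ, k ≤ 6 → Lg^k ≤ Lg^6 := fun k hk => pow_le_pow_right₀ hLg1 hk
  constructor
  · have hv := Pool.Agent.H373R2.T7.vaughan_gen (Eph θ α) N N' U hN hNN' hN' hU1 hUN Y R hR0 hY0 hI hII
    refine hv.trans (le_trans ?_ hfin)
    have s1 : ∑ m ∈ Icc 1 (U * U), Y m ≤ 120 * ((N:ℝ) ^ (63/64:ℝ) * Lg) := by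
      simp only [hY, sum_const, Nat.card_Icc, nsmul_eq_mul]
      rw [Nat.add_sub_cancel]
      calc ((U * U : ℕ):ℝ) * (80 * (P * Lg)) ≤ (N:ℝ) ^ (1/16:ℝ) * (80 * ((1.5 * (N:ℝ) ^ (13/16:ℝ)) * Lg)) := by gcongr
        _ = 120 * (((N:ℝ) ^ (1/16:ℝ) * (N:ℝ) ^ (13/16:ℝ)) * Lg) := by ring
        _ = 120 * ((N:ℝ) ^ (7/8:ℝ) * Lg) := by rw [← Real.rpow_add hNpos]; norm_num
        _ ≤ _ := by
            have : (N:ℝ) ^ (7/8:ℝ) ≤ (N:ℝ) ^ (63/64:ℝ) := Real.rpow_le_rpow_of_exponent_le hN0 (by norm_num)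
            gcongr
    rw [← hLg]
    calc 8 * Lg ^ 5 * R + 3 * Lg * ∑ m ∈ Icc 1 (U * U), Y m ≤
          8 * Lg ^ 5 * R + 3 * Lg * (120 * ((N:ℝ) ^ (63/64:ℝ) * Lg)) := by gcongr
      _ = 184 * ((N:ℝ) ^ (63/64:ℝ) * Lg^6) + 360 * ((N:ℝ) ^ (63/64:ℝ) * Lg^2) := by rw [hR]; ring
      _ ≤ 184 * ((N:ℝ) ^ (63/64:ℝ) * Lg^6) + 360 * ((N:ℝ) ^ (63/64:ℝ) * Lg^6) := by
          have := hLpow 2 (by norm_num)
          gcongr
      _ = _ := by ring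
  · have hv := Pool.Agent.H373R2.T7.vaughan_mu (Eph θ α) N N' U hN hNN' hN' hU1 hUN Y R hR0 hY0 hI hII
    refine hv.trans (le_trans ?_ hfin)
    have s1 : ∑ m ∈ Icc 1 (U * U), (m.divisors.card : ℝ) * Y m ≤ 120 * ((N:ℝ) ^ (63/64:ℝ) * Lg) := by
      have s2 : ∀ m ∈ Icc 1 (U * U), (m.divisors.card : ℝ) * Y m ≤ ((U * U : ℕ):ℝ) * (80 * (P * Lg)) := by
        intro m hm
        rw [mem_Icc] at hm
        simp only [hY]
        apply mul_le_mul_of_nonneg_right _ (by positivity)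
        have : m.divisors.card ≤ m := Nat.card_divisors_le_self m
        exact_mod_cast this.trans hm.2
      calc ∑ m ∈ Icc 1 (U * U), (m.divisors.card : ℝ) * Y m ≤ ∑ m ∈ Icc 1 (U * U), ((U * U : ℕ):ℝ) * (80 * (P * Lg)) := sum_le_sum s2
        _ = ((U * U : ℕ):ℝ) * (((U * U : ℕ):ℝ) * (80 * (P * Lg))) := by
            rw [sum_const, Nat.card_Icc, nsmul_eq_mul, Nat.add_sub_cancel]
        _ ≤ (N:ℝ) ^ (1/16:ℝ) * ((N:ℝ) ^ (1/16:ℝ) * (80 * ((1.5 * (N:ℝ) ^ (13/16:ℝ)) * Lg))) := by gcongr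
        _ = 120 * (((N:ℝ) ^ (1/16:ℝ) * (N:ℝ) ^ (1/16:ℝ) * (N:ℝ) ^ (13/16:ℝ)) * Lg) := by ring
        _ = 120 * ((N:ℝ) ^ (15/16:ℝ) * Lg) := by rw [← Real.rpow_add hNpos, ← Real.rpow_add hNpos]; norm_num
        _ ≤ _ := by gcongr
    rw [← hLg]
    calc 8 * Lg ^ 4 * R + ∑ m ∈ Icc 1 (U * U), (m.divisors.card : ℝ) * Y m ≤
          8 * Lg ^ 4 * R + 120 * ((N:ℝ) ^ (63/64:ℝ) * Lg) := by gcongr
      _ = 184 * ((N:ℝ) ^ (63/64:ℝ) * Lg^5) + 120 * ((N:ℝ) ^ (63/64:ℝ) * Lg^1) := by rw [hR]; ring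
      _ ≤ 184 * ((N:ℝ) ^ (63/64:ℝ) * Lg^6) + 120 * ((N:ℝ) ^ (63/64:ℝ) * Lg^6) := by
          have := hLpow 5 (by norm_num)
          have := hLpow 1 (by norm_num)
          gcongr
      _ ≤ _ := by
          have : 0 ≤ (N:ℝ) ^ (63/64:ℝ) * Lg^6 := by positivity
          linarith

end Pool.Agent.W24.CP
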