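import Mathlib
import Pool.Agent.H452R2.Om.O5

/-! Mean-square approximation of the error term at all integers. -/

open Finset
open Pool.Agent.H383
open Pool.Agent.H383.Gen (Bd U)
open Pool.Agent.H452R2.Win Pool.Agent.H452R2.Om

namespace Pool.Agent.W24.CP

variable {E : ℝ → ℝ} {a : ℕ → ℝ} {φ : ℝ} {w : ℝ → ℂ}

lemma a_sqrt (ha : Bd a) : ∃ C : ℝ, 0 < C ∧ ∀ m : ℕ, 1 ≤ m → |a m| * √(m:ℝ) ≤ C ∧ |a m| ≤ C := by
  obtain ⟨C, hC, h⟩ := ha
  refine ⟨C, hC, fun m hm => ?_⟩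
  have h1 := h m hm
  have hm1 : (1:ℝ) ≤ m := by exact_mod_cast hm
  have hs1 : 1 ≤ √(m:ℝ) := by rw [Real.one_le_sqrt]; exact hm1
  have hs : 0 < √(m:ℝ) := by linarith
  have h2 : |a m| * √(m:ℝ) ≤ C := by
    calc |a m| * √(m:ℝ) ≤ (C * (√(m:ℝ)) ^ (-(37/25):ℝ)) * √(m:ℝ) := mul_le_mul_of_nonneg_right h1 hs.le
      _ = C * (√(m:ℝ)) ^ (-(12/25):ℝ) := by
          rw [mul_assoc]; congr 1
          nth_rewrite 2 [← Real.rpow_one (√(m:ℝ))]
          rw [← Real.rpow_add hs]; norm_num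
      _ ≤ C * 1 := by
          apply mul_le_mul_of_nonneg_left _ hC.le
          exact Real.rpow_le_one_of_one_le_of_nonpos hs1 (by norm_num)
      _ = C := mul_one _
  refine ⟨h2, le_trans ?_ h2⟩
  exact le_mul_of_one_le_right (abs_nonneg _) hs1

lemma U_lip (ha : Bd a) (φ : ℝ) : ∃ K : ℝ, 0 < K ∧ ∀ M : ℕ, ∀ R R' : ℝ, |U a φ R M - U a φ R' M| ≤ K * (M:ℝ)^2 * |R - R'| := by
  have hpi := Real.pi_pos
  obtain ⟨C, hC, h⟩ := a_sqrt ha
  refine ⟨2 * Real.pi * C, by positivity, fun M R R' => ?_⟩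
  unfold U
  rw [← sum_sub_distrib]
  refine (abs_sum_le_sum_abs _ _).trans ?_
  have hterm : ∀ m ∈ Icc 1 (M^2), |a m * Real.cos (2 * Real.pi * (R * √(m:ℝ)) - φ) - a m * Real.cos (2 * Real.pi * (R' * √(m:ℝ)) - φ)| ≤
      2 * Real.pi * C * |R - R'| := by
    intro m hm
    rw [mem_Icc] at hm
    rw [← mul_sub, abs_mul]
    have h1 := Real.abs_cos_sub_cos_le (2 * Real.pi * (R * √(m:ℝ)) - φ) (2 * Real.pi * (R' * √(m:ℝ)) - φ)
    have e : 2 * Real.pi * (R * √(m:ℝ)) - φ - (2 * Real.pi * (R' * √(m:ℝ)) - φ) = (2 * Real.pi * √(m:ℝ)) * (R - R') := by ring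
    rw [e, abs_mul, abs_of_nonneg (by positivity : 0 ≤ 2 * Real.pi * √(m:ℝ))] at h1
    calc _ ≤ |a m| * (2 * Real.pi * √(m:ℝ) * |R - R'|) := mul_le_mul_of_nonneg_left h1 (abs_nonneg _)
      _ = (|a m| * √(m:ℝ)) * (2 * Real.pi * |R - R'|) := by ring
      _ ≤ C * (2 * Real.pi * |R - R'|) := mul_le_mul_of_nonneg_right (h m hm.1).1 (by positivity)
      _ = _ := by ring
  refine (sum_le_sum hterm).trans (le_of_eq ?_)
  rw [sum_const, Nat.card_Icc, nsmul_eq_mul]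
  push_cast
  ring

/-- the cell data -/
noncomputable def sf (T n : ℕ) : ℕ := ⌊4 * (T:ℝ) * (√(n:ℝ) - (Nat.sqrt n : ℝ))⌋₊
def jf (T n : ℕ) : ℕ := Nat.sqrt n - T

lemma sqrt_bounds (n : ℕ) : (Nat.sqrt n : ℝ) ≤ √(n:ℝ) ∧ √(n:ℝ) < (Nat.sqrt n : ℝ) + 1 := by
  constructor
  · apply Real.le_sqrt_of_sq_le
    exact_mod_cast Nat.sqrt_le' n
  · rw [Real.sqrt_lt' (by positivity)]
    exact_mod_cast Nat.lt_succ_sqrt' n

lemma cell_mem {T n : ℕ} (hT : 1 ≤ T) (hn : n ∈ Ico (T^2) (4*T^2)) : sf T n < 4 * T ∧ jf T n < T ∧ Nat.sqrt n = T + jf T n := by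
  rw [mem_Ico] at hn
  have h1 : T ≤ Nat.sqrt n := by rw [Nat.le_sqrt']; exact hn.1
  have h2 : Nat.sqrt n < 2 * T := by rw [Nat.sqrt_lt']; rw [mul_pow]; simpa using hn.2
  obtain ⟨h3, h4⟩ := sqrt_bounds n
  refine ⟨?_, ?_, ?_⟩
  · unfold sf
    rw [Nat.floor_lt (by have : (0:ℝ) ≤ √(n:ℝ) - (Nat.sqrt n : ℝ) := by linarith
                         positivity)]
    push_cast
    have hT0 : (0:ℝ) < T := by exact_mod_cast hT
    nlinarith
  · unfold jf; omega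
  · unfold jf; omega

lemma cell_close {T n : ℕ} (hT : 1 ≤ T) (hn : n ∈ Ico (T^2) (4*T^2)) :
    0 ≤ √(n:ℝ) - ((T:ℝ) + (jf T n : ℝ) + (sf T n : ℝ) / (4 * T)) ∧ √(n:ℝ) - ((T:ℝ) + (jf T n : ℝ) + (sf T n : ℝ) / (4 * T)) < 1 / (4 * T) := by
  obtain ⟨h1, h2, h3⟩ := cell_mem hT hn
  obtain ⟨h4, h5⟩ := sqrt_bounds n
  have hT0 : (0:ℝ) < T := by exact_mod_cast hT
  have h3' : (Nat.sqrt n : ℝ) = T + jf T n := by exact_mod_cast h3
  rw [← h3']
  set y := √(n:ℝ) - (Nat.sqrt n : ℝ) with hy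
  have hy0 : 0 ≤ y := by linarith
  have f1 : (sf T n : ℝ) ≤ 4 * T * y := Nat.floor_le (by positivity)
  have f2 : 4 * T * y < (sf T n : ℝ) + 1 := Nat.lt_floor_add_one _
  have e1 : √(n:ℝ) - ((Nat.sqrt n : ℝ) + (sf T n : ℝ) / (4 * T)) = y - (sf T n : ℝ) / (4 * T) := by rw [hy]; ring
  rw [e1]
  constructor
  · rw [sub_nonneg, div_le_iff₀ (by positivity)]; linarith
  · rw [sub_lt_iff_lt_add, ← add_div, lt_div_iff₀ (by positivity)]; linarith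

lemma cell_inj {T n n' : ℕ} (hT : 1 ≤ T) (hn : n ∈ Ico (T^2) (4*T^2)) (hn' : n' ∈ Ico (T^2) (4*T^2))
    (hs : sf T n = sf T n') (hj : jf T n = jf T n') : n = n' := by
  have hT0 : (0:ℝ) < T := by exact_mod_cast hT
  have key : ∀ n n' : ℕ, n ∈ Ico (T^2) (4*T^2) → n' ∈ Ico (T^2) (4*T^2) → sf T n = sf T n' → jf T n = jf T n' → ¬ n < n' := by
    intro n n' hn hn' hs hj hlt
    have c1 := cell_close hT hn
    have c2 := cell_close hT hn'
    rw [hs, hj] at c1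
    rw [mem_Ico] at hn hn'
    have h1 : √(n':ℝ) - √(n:ℝ) < 1 / (4 * T) := by linarith
    have q1 : √(n:ℝ) * √(n:ℝ) = n := Real.mul_self_sqrt (Nat.cast_nonneg n)
    have q2 : √(n':ℝ) * √(n':ℝ) = n' := Real.mul_self_sqrt (Nat.cast_nonneg n')
    have hb : ∀ k : ℕ, k < 4 * T^2 → √(k:ℝ) ≤ 2 * T := by
      intro k hk
      rw [Real.sqrt_le_left (by positivity), mul_pow]
      have : (k:ℝ) ≤ 4 * (T:ℝ)^2 := by exact_mod_cast hk.le
      norm_num; linarith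
    have b1 := hb n hn.2
    have b2 := hb n' hn'.2
    have h2 : (1:ℝ) ≤ n' - n := by
      have : (n:ℝ) + 1 ≤ n' := by exact_mod_cast hlt
      linarith
    have h3 : (n':ℝ) - n = (√(n':ℝ) - √(n:ℝ)) * (√(n':ℝ) + √(n:ℝ)) := by nlinarith
    have h4 : (0:ℝ) ≤ √(n:ℝ) := Real.sqrt_nonneg _
    have h5 : 0 < √(n':ℝ) := Real.sqrt_pos.mpr (by linarith [(Nat.cast_nonneg n : (0:ℝ) ≤ n)])
    have h6 : (√(n':ℝ) - √(n:ℝ)) * (√(n':ℝ) + √(n:ℝ)) < 1 / (4 * T) * (√(n':ℝ) + √(n:ℝ)) :=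
      mul_lt_mul_of_pos_right h1 (by linarith)
    have h7 : 1 / (4 * (T:ℝ)) * (√(n':ℝ) + √(n:ℝ)) ≤ 1 := by
      rw [div_mul_eq_mul_div, one_mul, div_le_one (by positivity)]; linarith
    linarith
  rcases lt_trichotomy n n' with h | h | h
  · exact absurd h (key n n' hn hn' hs hj)
  · exact h
  · exact absurd h (key n' n hn' hn hs.symm hj.symm)

open Classical in
/-- mean-square approximation over all integers in `[T², 4T²)` -/
theorem ms_T (ha : Bdw a) (ha0 : a 0 = 0) (hw : GW.Wt w) {κ₁ κ₂ : ℝ} (hS : SandW E a φ w κ₁ κ₂) {c : ℝ} (hc : 0 < c) :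
    ∃ ω : ℝ, 0 < ω ∧ ω ≤ 1/200 ∧ ∃ C : ℝ, 0 < C ∧ ∃ T0 : ℕ, ∀ T : ℕ, T0 ≤ T → ∀ M : ℕ, 1 ≤ M →
    2 * ((M:ℝ) + 1) ≤ min 1 c * T →
    ∑ n ∈ Ico (T^2) (4*T^2), (E (c * √(n:ℝ)) - U a φ (c * √(n:ℝ)) M)^2 ≤
      C * (T:ℝ)^2 * ((M:ℝ) ^ (-ω) + (M:ℝ)^4 * (T:ℝ) ^ (-1:ℝ) + (T:ℝ) ^ (-ω)) := by
  obtain ⟨ω, hω, hω2, C, hC, N0, hq⟩ := ap_quant ha ha0 hw hS hc (ε := 1/4) (by norm_num)
  obtain ⟨K, hK, hlip⟩ := U_lip ha.Bd φ
  -- largeness conditions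
  have ev1 : ∀ᶠ T : ℕ in Filter.atTop, (2 * c) ^ (3/4:ℝ) ≤ (T:ℝ) ^ (1/4:ℝ) :=
    (((tendsto_rpow_atTop (by norm_num : (0:ℝ) < 1/4)).comp tendsto_natCast_atTop_atTop).eventually_ge_atTop _)
  have ev2 : ∀ᶠ T : ℕ in Filter.atTop, (c/4) * (2 * c + 1) ^ (51/100:ℝ) ≤ (T:ℝ) ^ (49/100:ℝ) :=
    (((tendsto_rpow_atTop (by norm_num : (0:ℝ) < 49/100)).comp tendsto_natCast_atTop_atTop).eventually_ge_atTop _)
  have ev3 : ∀ᶠ T : ℕ in Filter.atTop, 4 / c ≤ (T:ℝ) := tendsto_natCast_atTop_atTop.eventually_ge_atTop _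
  obtain ⟨T1, hT1⟩ := Filter.eventually_atTop.mp (ev1.and (ev2.and ev3))
  refine ⟨ω, hω, hω2, 8 * C * (1 + 1/ω) + 6 * (K * c)^2, by positivity, max (max T1 N0) 1, ?_⟩
  intro T hT M hM hMT
  have hTN : N0 ≤ T := le_trans (le_trans (le_max_right _ _) (le_max_left _ _)) hT
  have hT1' : T1 ≤ T := le_trans (le_trans (le_max_left _ _) (le_max_left _ _)) hT
  have hTone : 1 ≤ T := le_trans (le_max_right _ _) hT
  obtain ⟨g1, g2, g3⟩ := hT1 T hT1'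
  have hT0 : (0:ℝ) < T := by exact_mod_cast hTone
  have hTr : (1:ℝ) ≤ T := by exact_mod_cast hTone
  have hM1 : (1:ℝ) ≤ M := by exact_mod_cast hM
  have hM0 : (0:ℝ) < M := by linarith
  set I := Ico (T^2) (4*T^2) with hI
  set Xs : ℕ → ℝ := fun s => c * ((T:ℝ) + (s:ℝ) / (4 * T)) with hXs
  set Rn : ℕ → ℕ → ℝ := fun s j => if h : ∃ n ∈ I, sf T n = s ∧ jf T n = j then c * √((h.choose : ℕ):ℝ) else Xs s + j * c with hRn
  set W : ℝ := (M:ℝ) ^ (-ω) + (M:ℝ)^4 * (T:ℝ) ^ (-1:ℝ) + (T:ℝ) ^ (-ω) with hW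
  have hW0 : 0 ≤ W := by positivity
  have hclose : ∀ n ∈ I, |c * √(n:ℝ) - (Xs (sf T n) + jf T n * c)| ≤ c / (4 * T) := by
    intro n hn
    have h1 := cell_close hTone hn
    have e1 : c * √(n:ℝ) - (Xs (sf T n) + jf T n * c) = c * (√(n:ℝ) - ((T:ℝ) + (jf T n : ℝ) + (sf T n : ℝ) / (4 * T))) := by
      simp only [hXs]; ring
    rw [e1, abs_mul, abs_of_pos hc, abs_of_nonneg h1.1]
    calc c * _ ≤ c * (1 / (4 * T)) := mul_le_mul_of_nonneg_left h1.2.le hc.le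
      _ = _ := by ring
  have hRn_eq : ∀ n ∈ I, Rn (sf T n) (jf T n) = c * √(n:ℝ) := by
    intro n hn
    have hex : ∃ n' ∈ I, sf T n' = sf T n ∧ jf T n' = jf T n := ⟨n, hn, rfl, rfl⟩
    simp only [hRn]
    rw [dif_pos hex]
    have hsp := hex.choose_spec
    rw [cell_inj hTone hsp.1 hn hsp.2.1 hsp.2.2]
  have hcell : ∀ s ∈ range (4 * T), ∑ j ∈ range T, (E (Rn s j) - U a φ (Xs s + j * c) M)^2 ≤ C * T * ((1 + 1/ω) * W) := by
    intro s hs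
    rw [mem_range] at hs
    have hs' : (s:ℝ) / (4 * T) ≤ 1 := by
      rw [div_le_one (by positivity)]; exact_mod_cast hs.le
    have hs0 : 0 ≤ (s:ℝ) / (4 * T) := by positivity
    have hX4 : 4 ≤ Xs s := by
      simp only [hXs]
      rw [div_le_iff₀ hc] at g3
      nlinarith
    have hXle : Xs s ≤ 2 * c * T := by
      simp only [hXs]; nlinarith
    have hXN : Xs s ^ (1/2 + 1/4 : ℝ) ≤ T := by
      calc Xs s ^ (1/2 + 1/4 : ℝ) ≤ (2 * c * T) ^ (1/2 + 1/4:ℝ) := Real.rpow_le_rpow (by linarith) hXle (by norm_num)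
        _ = (2 * c) ^ (3/4:ℝ) * (T:ℝ) ^ (3/4:ℝ) := by rw [Real.mul_rpow (by positivity) hT0.le]; norm_num
        _ ≤ (T:ℝ) ^ (1/4:ℝ) * (T:ℝ) ^ (3/4:ℝ) := by gcongr
        _ = T := by rw [← Real.rpow_add hT0]; norm_num
    have hRc : ∀ j : ℕ, j < T → |Rn s j - (Xs s + j * c)| ≤ (Xs s + T) ^ (-(51/100):ℝ) := by
      intro j hj
      by_cases hex : ∃ n ∈ I, sf T n = s ∧ jf T n = j
      · have hsp := hex.choose_spec
        have e1 : Rn s j = c * √((hex.choose : ℕ):ℝ) := by simp only [hRn]; rw [dif_pos hex]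
        rw [e1]
        have h1 := hclose _ hsp.1
        rw [hsp.2.1, hsp.2.2] at h1
        refine h1.trans ?_
        have h2 : Xs s + T ≤ (2 * c + 1) * T := by linarith
        have h3 : ((2 * c + 1) * T) ^ (-(51/100):ℝ) ≤ (Xs s + T) ^ (-(51/100):ℝ) :=
          Real.rpow_le_rpow_of_nonpos (by linarith) h2 (by norm_num)
        refine le_trans ?_ h3
        rw [Real.rpow_neg (by positivity), ← one_div, le_div_iff₀ (by positivity), Real.mul_rpow (by positivity) hT0.le]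
        calc c / (4 * T) * ((2 * c + 1) ^ (51/100:ℝ) * (T:ℝ) ^ (51/100:ℝ)) =
              ((c/4) * (2 * c + 1) ^ (51/100:ℝ)) * ((T:ℝ) ^ (51/100:ℝ) / T) := by field_simp
          _ ≤ (T:ℝ) ^ (49/100:ℝ) * ((T:ℝ) ^ (51/100:ℝ) / T) := by gcongr
          _ = ((T:ℝ) ^ (49/100:ℝ) * (T:ℝ) ^ (51/100:ℝ)) / T := by ring
          _ = 1 := by
              rw [← Real.rpow_add hT0]; norm_num
              omega
      · have e1 : Rn s j = Xs s + j * c := by simp only [hRn]; rw [dif_neg hex]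
        rw [e1, sub_self, abs_zero]
        have : 0 < Xs s + T := by linarith
        positivity
    have key := hq M hM T hTN hMT (Xs s) hX4 hXN (Rn s) hRc
    refine key.trans ?_
    apply mul_le_mul_of_nonneg_left _ (by positivity)
    have h1 := Tw_le hω hM
    have h2 : 0 ≤ 1/ω := by positivity
    have h3 : 0 ≤ (M:ℝ)^4 * (T:ℝ) ^ (-1:ℝ) + (T:ℝ) ^ (-ω) := by positivity
    rw [hW]
    nlinarith
  have hfirst : ∑ n ∈ I, (E (c * √(n:ℝ)) - U a φ (Xs (sf T n) + jf T n * c) M)^2 ≤ 4 * C * (1 + 1/ω) * (T:ℝ)^2 * W := by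
    set F : ℕ × ℕ → ℝ := fun p => (E (Rn p.1 p.2) - U a φ (Xs p.1 + p.2 * c) M)^2 with hF
    have e1 : ∑ n ∈ I, (E (c * √(n:ℝ)) - U a φ (Xs (sf T n) + jf T n * c) M)^2 = ∑ n ∈ I, F (sf T n, jf T n) := by
      apply sum_congr rfl; intro n hn
      simp only [hF]; rw [hRn_eq n hn]
    have e2 : ∑ n ∈ I, F (sf T n, jf T n) = ∑ p ∈ I.image (fun n => (sf T n, jf T n)), F p := by
      rw [sum_image]
      intro x hx y hy hxy
      rw [Prod.mk.injEq] at hxy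
      exact cell_inj hTone hx hy hxy.1 hxy.2
    have e3 : ∑ p ∈ I.image (fun n => (sf T n, jf T n)), F p ≤ ∑ p ∈ range (4 * T) ×ˢ range T, F p := by
      apply sum_le_sum_of_subset_of_nonneg
      · intro p hp
        rw [mem_image] at hp
        obtain ⟨n, hn, rfl⟩ := hp
        rw [mem_product, mem_range, mem_range]
        obtain ⟨h1, h2, _⟩ := cell_mem hTone hn
        exact ⟨h1, h2⟩
      · intro p _ _
        exact sq_nonneg _
    rw [e1, e2]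
    refine e3.trans ?_
    rw [sum_product]
    refine (sum_le_sum hcell).trans (le_of_eq ?_)
    rw [sum_const, card_range, nsmul_eq_mul]
    push_cast; ring
  have hUd : ∀ n ∈ I, (U a φ (Xs (sf T n) + jf T n * c) M - U a φ (c * √(n:ℝ)) M)^2 ≤ (K * c)^2 * ((M:ℝ)^4 * (T:ℝ) ^ (-1:ℝ)) := by
    intro n hn
    have h1 := hlip M (Xs (sf T n) + jf T n * c) (c * √(n:ℝ))
    rw [abs_sub_comm (Xs (sf T n) + jf T n * c)] at h1
    have h2 := hclose n hn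
    have h3 : |U a φ (Xs (sf T n) + jf T n * c) M - U a φ (c * √(n:ℝ)) M| ≤ K * c * (M:ℝ)^2 / T := by
      calc _ ≤ K * (M:ℝ)^2 * (c / (4 * T)) := h1.trans (mul_le_mul_of_nonneg_left h2 (by positivity))
        _ = (K * c * (M:ℝ)^2 / T) / 4 := by field_simp
        _ ≤ _ := by
            have : 0 ≤ K * c * (M:ℝ)^2 / T := by positivity
            linarith
    rw [← sq_abs]
    calc _ ≤ (K * c * (M:ℝ)^2 / T)^2 := pow_le_pow_left₀ (abs_nonneg _) h3 2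
      _ = (K * c)^2 * ((M:ℝ)^4 * (1 / (T:ℝ)^2)) := by field_simp
      _ ≤ _ := by
          apply mul_le_mul_of_nonneg_left _ (by positivity)
          apply mul_le_mul_of_nonneg_left _ (by positivity)
          rw [Real.rpow_neg_one, ← one_div]
          apply div_le_div_of_nonneg_left (by norm_num) hT0
          nlinarith
  have hcard : ((I.card : ℕ):ℝ) ≤ 3 * (T:ℝ)^2 := by
    rw [hI, Nat.card_Ico]
    have : 4 * T^2 - T^2 = 3 * T^2 := by omega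
    rw [this]; push_cast; exact le_rfl
  calc ∑ n ∈ I, (E (c * √(n:ℝ)) - U a φ (c * √(n:ℝ)) M)^2 ≤
        ∑ n ∈ I, (2 * (E (c * √(n:ℝ)) - U a φ (Xs (sf T n) + jf T n * c) M)^2 +
          2 * ((K * c)^2 * ((M:ℝ)^4 * (T:ℝ) ^ (-1:ℝ)))) := by
        apply sum_le_sum; intro n hn
        have h1 := hUd n hn
        set x := E (c * √(n:ℝ)) - U a φ (Xs (sf T n) + jf T n * c) M
        set y := U a φ (Xs (sf T n) + jf T n * c) M - U a φ (c * √(n:ℝ)) M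
        have e1 : E (c * √(n:ℝ)) - U a φ (c * √(n:ℝ)) M = x + y := by ring
        rw [e1]
        nlinarith [sq_nonneg (x - y)]
    _ = 2 * ∑ n ∈ I, (E (c * √(n:ℝ)) - U a φ (Xs (sf T n) + jf T n * c) M)^2 +
          I.card * (2 * ((K * c)^2 * ((M:ℝ)^4 * (T:ℝ) ^ (-1:ℝ)))) := by
        rw [sum_add_distrib, ← mul_sum, sum_const, nsmul_eq_mul]
    _ ≤ 2 * (4 * C * (1 + 1/ω) * (T:ℝ)^2 * W) + (3 * (T:ℝ)^2) * (2 * ((K * c)^2 * W)) := by
        have : (M:ℝ)^4 * (T:ℝ) ^ (-1:ℝ) ≤ W := by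
          rw [hW]
          have : 0 ≤ (M:ℝ) ^ (-ω) := by positivity
          have : 0 ≤ (T:ℝ) ^ (-ω) := by positivity
          linarith
        gcongr
    _ = _ := by ring

end Pool.Agent.W24.CP
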