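import Mathlib
import Pool.Agent.W24.CP.MS
import Pool.Agent.W24.CP.ES2

/-! Assembly: power saving for weights with square-root cancellation. -/

open Finset
open Pool.Agent.H383
open Pool.Agent.H383.Gen (Bd U)
open Pool.Agent.H452R2.Win Pool.Agent.H452R2.Om
open Pool.Agent.H469R2.NK

namespace Pool.Agent.W24.CP

variable {E : ℝ → ℝ} {a : ℕ → ℝ} {φ : ℝ} {w : ℝ → ℂ}

/-- admissible weights -/
structure WV (v : ℕ → ℂ) (A : ℝ) : Prop where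
  bd : ∀ n : ℕ, 1 ≤ n → ‖v n‖ ≤ 1 + Real.log n
  es : ∀ N N' : ℕ, 1 ≤ N → N ≤ N' → N' ≤ 2 * N → ∀ θ : ℝ, θ ≠ 0 → |θ| + 1/|θ| ≤ 2 * (N:ℝ) ^ (1/8:ℝ) →
    ‖∑ n ∈ Ioc N N', v n * e (θ * √(n:ℝ))‖ ≤ A * (N:ℝ) ^ (127/128:ℝ)

lemma cos_split (θ φ x : ℝ) : ((Real.cos (2 * Real.pi * (θ * x) - φ) : ℝ) : ℂ) =
    (Complex.exp ((-φ : ℝ) * Complex.I) / 2) * e (θ * x) + (Complex.exp ((φ : ℝ) * Complex.I) / 2) * e (-θ * x) := by
  unfold e
  rw [Complex.ofReal_cos, Complex.cos]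
  rw [div_mul_eq_mul_div, div_mul_eq_mul_div, ← Complex.exp_add, ← Complex.exp_add, ← add_div]
  congr 2
  · congr 1; push_cast; ring
  · congr 1; push_cast; ring

/-- the weighted sum of the model -/
lemma model_sum {v : ℕ → ℂ} {A : ℝ} (hv : WV v A) {Ca : ℝ} (hCa : ∀ m : ℕ, 1 ≤ m → |a m| ≤ Ca)
    {c : ℝ} (hc : 0 < c) (N N' : ℕ) (hN : 1 ≤ N) (hNN' : N ≤ N') (hN' : N' ≤ 2 * N) (M : ℕ)
    (hM : c * M + 1/c ≤ 2 * (N:ℝ) ^ (1/8:ℝ)) :
    ‖∑ n ∈ Ioc N N', v n * ((U a φ (c * √(n:ℝ)) M : ℝ) : ℂ)‖ ≤ (M:ℝ)^2 * (Ca * (A * (N:ℝ) ^ (127/128:ℝ))) := by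
  have e1 : ∑ n ∈ Ioc N N', v n * ((U a φ (c * √(n:ℝ)) M : ℝ) : ℂ) =
      ∑ m ∈ Icc 1 (M^2), ((a m : ℝ) : ℂ) * ((Complex.exp ((-φ : ℝ) * Complex.I) / 2) * (∑ n ∈ Ioc N N', v n * e ((c * √(m:ℝ)) * √(n:ℝ))) +
        (Complex.exp ((φ : ℝ) * Complex.I) / 2) * (∑ n ∈ Ioc N N', v n * e ((-(c * √(m:ℝ))) * √(n:ℝ)))) := by
    have e2 : ∀ n ∈ Ioc N N', v n * ((U a φ (c * √(n:ℝ)) M : ℝ) : ℂ) = ∑ m ∈ Icc 1 (M^2), v n * (((a m : ℝ) : ℂ) *
        ((Complex.exp ((-φ : ℝ) * Complex.I) / 2) * e ((c * √(m:ℝ)) * √(n:ℝ)) +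
        (Complex.exp ((φ : ℝ) * Complex.I) / 2) * e ((-(c * √(m:ℝ))) * √(n:ℝ)))) := by
      intro n _
      unfold U
      push_cast
      rw [mul_sum]
      apply sum_congr rfl; intro m _
      congr 2
      have h := cos_split (c * √(m:ℝ)) φ √(n:ℝ)
      have e3 : (2 * Real.pi * (c * √(m:ℝ) * √(n:ℝ)) - φ) = 2 * Real.pi * (c * √(n:ℝ) * √(m:ℝ)) - φ := by ring
      rw [e3] at h
      push_cast at h ⊢
      exact h
    rw [sum_congr rfl e2, sum_comm]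
    apply sum_congr rfl; intro m _
    rw [mul_sum, mul_sum, ← sum_add_distrib, mul_sum]
    apply sum_congr rfl; intro n _
    ring
  rw [e1]
  refine (norm_sum_le _ _).trans ?_
  have hterm : ∀ m ∈ Icc 1 (M^2), ‖((a m : ℝ) : ℂ) * ((Complex.exp ((-φ : ℝ) * Complex.I) / 2) * (∑ n ∈ Ioc N N', v n * e ((c * √(m:ℝ)) * √(n:ℝ))) +
        (Complex.exp ((φ : ℝ) * Complex.I) / 2) * (∑ n ∈ Ioc N N', v n * e ((-(c * √(m:ℝ))) * √(n:ℝ))))‖ ≤
      Ca * (A * (N:ℝ) ^ (127/128:ℝ)) := by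
    intro m hm
    rw [mem_Icc] at hm
    have hm1 : (1:ℝ) ≤ m := by exact_mod_cast hm.1
    have hs1 : 1 ≤ √(m:ℝ) := by rw [Real.one_le_sqrt]; exact hm1
    have hsM : √(m:ℝ) ≤ M := by
      rw [Real.sqrt_le_left (by positivity)]; exact_mod_cast hm.2
    have hθ : 0 < c * √(m:ℝ) := by positivity
    have hcond : c * √(m:ℝ) + 1/(c * √(m:ℝ)) ≤ 2 * (N:ℝ) ^ (1/8:ℝ) := by
      have h1 : c * √(m:ℝ) ≤ c * M := mul_le_mul_of_nonneg_left hsM hc.le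
      have h2 : 1/(c * √(m:ℝ)) ≤ 1/c := by
        apply div_le_div_of_nonneg_left (by norm_num) hc
        nlinarith
      linarith
    have k1 := hv.es N N' hN hNN' hN' (c * √(m:ℝ)) hθ.ne' (by rw [abs_of_pos hθ]; exact hcond)
    have k2 := hv.es N N' hN hNN' hN' (-(c * √(m:ℝ))) (neg_ne_zero.mpr hθ.ne') (by rw [abs_neg, abs_of_pos hθ]; exact hcond)
    have n1 : ‖Complex.exp ((-φ : ℝ) * Complex.I) / 2‖ = 1/2 := by
      rw [norm_div, Complex.norm_exp_ofReal_mul_I]; norm_num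
    have n2 : ‖Complex.exp ((φ : ℝ) * Complex.I) / 2‖ = 1/2 := by
      rw [norm_div, Complex.norm_exp_ofReal_mul_I]; norm_num
    rw [norm_mul, Complex.norm_real, Real.norm_eq_abs]
    have hB : ‖(Complex.exp ((-φ : ℝ) * Complex.I) / 2) * (∑ n ∈ Ioc N N', v n * e ((c * √(m:ℝ)) * √(n:ℝ))) +
        (Complex.exp ((φ : ℝ) * Complex.I) / 2) * (∑ n ∈ Ioc N N', v n * e ((-(c * √(m:ℝ))) * √(n:ℝ)))‖ ≤ A * (N:ℝ) ^ (127/128:ℝ) := by
      refine (norm_add_le _ _).trans ?_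
      rw [norm_mul, norm_mul, n1, n2]
      linarith
    exact mul_le_mul (hCa m hm.1) hB (norm_nonneg _) (le_trans (abs_nonneg _) (hCa m hm.1))
  refine (sum_le_sum hterm).trans (le_of_eq ?_)
  rw [sum_const, Nat.card_Icc, nsmul_eq_mul]
  push_cast
  ring

/-- the block bound -/
theorem block_gen (ha : Bdw a) (ha0 : a 0 = 0) (hw : GW.Wt w) {κ₁ κ₂ : ℝ} (hS : SandW E a φ w κ₁ κ₂) {c : ℝ} (hc : 0 < c)
    {A : ℝ} (hA : 0 < A) :
    ∃ δ : ℝ, 0 < δ ∧ δ ≤ 1/2 ∧ ∃ C : ℝ, 0 < C ∧ ∀ v : ℕ → ℂ, WV v A → ∀ N N' : ℕ, 1 ≤ N → N ≤ N' → N' ≤ 2 * N →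
      ‖∑ n ∈ Ioc N N', v n * ((E (c * √(n:ℝ)) : ℝ) : ℂ)‖ ≤ C * (N:ℝ) ^ (1 - δ) := by
  obtain ⟨ω, hω, hω2, C, hC, T0, hms⟩ := ms_T ha ha0 hw hS hc
  obtain ⟨Ca, hCa0, hCa⟩ := a_sqrt ha.Bd
  set δ : ℝ := ω / 4096 with hδ
  have hδ0 : 0 < δ := by positivity
  have hδ1 : δ ≤ 1/819200 := by rw [hδ]; linarith
  have ev1 : ∀ᶠ N : ℕ in Filter.atTop, (c + 1/c) ≤ (N:ℝ) ^ (1/16:ℝ) :=
    (((tendsto_rpow_atTop (by norm_num : (0:ℝ) < 1/16)).comp tendsto_natCast_atTop_atTop).eventually_ge_atTop _)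
  have ev2 : ∀ᶠ N : ℕ in Filter.atTop, 8 / min 1 c ≤ (N:ℝ) ^ (1/4:ℝ) :=
    (((tendsto_rpow_atTop (by norm_num : (0:ℝ) < 1/4)).comp tendsto_natCast_atTop_atTop).eventually_ge_atTop _)
  obtain ⟨N1, hN1⟩ := Filter.eventually_atTop.mp (ev1.and ev2)
  set N2 : ℕ := max (max N1 ((T0 + 1)^2)) 16 with hN2
  set B0 : ℝ := ∑ n ∈ Ioc 0 (2 * N2), (1 + Real.log n) * |E (c * √(n:ℝ))| with hB0
  have hB00 : 0 ≤ B0 := sum_nonneg fun n hn => by
    rw [mem_Ioc] at hn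
    have : 0 ≤ Real.log n := Real.log_nonneg (by exact_mod_cast hn.1)
    positivity
  -- the constant for the logarithm
  set CL : ℝ := 1 + 4 / δ with hCL
  have hCL0 : 0 < CL := by positivity
  have hlogb : ∀ N : ℕ, 1 ≤ N → 1 + Real.log (2 * N) ≤ CL * (N:ℝ) ^ δ := by
    intro N hN
    have hN0 : (1:ℝ) ≤ N := by exact_mod_cast hN
    have h1 : Real.log (2 * N) ≤ (2 * N) ^ δ / δ := Real.log_le_rpow_div (by positivity) hδ0
    have h2 : (2 * (N:ℝ)) ^ δ ≤ 2 * (N:ℝ) ^ δ := by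
      rw [Real.mul_rpow (by norm_num) (by positivity)]
      apply mul_le_mul_of_nonneg_right _ (by positivity)
      calc (2:ℝ) ^ δ ≤ (2:ℝ) ^ (1:ℝ) := Real.rpow_le_rpow_of_exponent_le (by norm_num) (by linarith)
        _ = 2 := by norm_num
    have h3 : 1 ≤ (N:ℝ) ^ δ := Real.one_le_rpow hN0 hδ0.le
    have h4 : (2 * (N:ℝ)) ^ δ / δ ≤ 2 * (N:ℝ) ^ δ / δ := div_le_div_of_nonneg_right h2 hδ0.le
    have h5 : 2 * (N:ℝ) ^ δ / δ = (2/δ) * (N:ℝ) ^ δ := by ring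
    have h6 : (2/δ) * (N:ℝ) ^ δ ≤ (4/δ) * (N:ℝ) ^ δ := by
      apply mul_le_mul_of_nonneg_right _ (by positivity)
      apply div_le_div_of_nonneg_right (by norm_num) hδ0.le
    rw [hCL, add_mul, one_mul]
    linarith
  refine ⟨δ, hδ0, by linarith, CL * √(6 * C) + Ca * A + B0, by positivity, ?_⟩
  intro v hv N N' hN hNN' hN'
  have hN0 : (1:ℝ) ≤ N := by exact_mod_cast hN
  have hNpos : (0:ℝ) < N := by linarith
  have hpow1 : 1 ≤ (N:ℝ) ^ (1 - δ) := Real.one_le_rpow hN0 (by linarith)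
  by_cases hbig : N2 ≤ N
  swap
  · -- small N
    push Not at hbig
    have h1 : ‖∑ n ∈ Ioc N N', v n * ((E (c * √(n:ℝ)) : ℝ) : ℂ)‖ ≤ B0 := by
      refine (norm_sum_le _ _).trans ?_
      calc ∑ n ∈ Ioc N N', ‖v n * ((E (c * √(n:ℝ)) : ℝ) : ℂ)‖ ≤ ∑ n ∈ Ioc N N', (1 + Real.log n) * |E (c * √(n:ℝ))| := by
            apply sum_le_sum; intro n hn
            rw [mem_Ioc] at hn
            rw [norm_mul, Complex.norm_real, Real.norm_eq_abs]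
            exact mul_le_mul_of_nonneg_right (hv.bd n (by omega)) (abs_nonneg _)
        _ ≤ B0 := by
            apply sum_le_sum_of_subset_of_nonneg
            · intro n hn
              rw [mem_Ioc] at hn ⊢
              omega
            · intro n hn _
              rw [mem_Ioc] at hn
              have : 0 ≤ Real.log n := Real.log_nonneg (by exact_mod_cast hn.1)
              positivity
    have h2 : 0 ≤ CL * √(6 * C) + Ca * A := by positivity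
    calc _ ≤ B0 := h1
      _ ≤ (CL * √(6 * C) + Ca * A + B0) * 1 := by linarith
      _ ≤ _ := mul_le_mul_of_nonneg_left hpow1 (by positivity)
  · -- large N
    have hNN1 : N1 ≤ N := le_trans (le_trans (le_max_left _ _) (le_max_left _ _)) hbig
    have hNT : (T0 + 1)^2 ≤ N := le_trans (le_trans (le_max_right _ _) (le_max_left _ _)) hbig
    have hN16 : 16 ≤ N := le_trans (le_max_right _ _) hbig
    obtain ⟨g1, g2⟩ := hN1 N hNN1
    set T := Nat.sqrt N with hT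
    have hTT0 : T0 + 1 ≤ T := by rw [hT, Nat.le_sqrt']; exact hNT
    have hT4 : 4 ≤ T := by rw [hT, Nat.le_sqrt']; exact hN16
    have hTN : T^2 ≤ N := Nat.sqrt_le' N
    have hTN2 : N < (T+1)^2 := Nat.lt_succ_sqrt' N
    have hsub : Ioc N N' ⊆ Ico (T^2) (4 * T^2) := by
      intro n hn
      rw [mem_Ioc] at hn
      rw [mem_Ico]
      constructor
      · omega
      · nlinarith
    have hTr : (4:ℝ) ≤ T := by exact_mod_cast hT4
    have hTpos : (0:ℝ) < T := by linarith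
    have hTle : (T:ℝ)^2 ≤ N := by exact_mod_cast hTN
    have hTge : √(N:ℝ) / 2 ≤ T := by
      have h1 : √(N:ℝ) ≤ T + 1 := by
        rw [Real.sqrt_le_left (by positivity)]
        exact_mod_cast hTN2.le
      linarith
    -- the parameter
    set u : ℝ := (N:ℝ) ^ (1/1024:ℝ) with hu
    have hu1 : 1 ≤ u := Real.one_le_rpow hN0 (by norm_num)
    set M : ℕ := ⌊u⌋₊ with hM
    have hM1 : 1 ≤ M := by rw [hM, Nat.one_le_floor_iff]; exact hu1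
    have hMu : (M:ℝ) ≤ u := Nat.floor_le (by linarith)
    have hM1r : (1:ℝ) ≤ M := by exact_mod_cast hM1
    have huM : u / 2 ≤ M := by
      have h1 := Nat.lt_floor_add_one u
      rw [← hM] at h1
      linarith
    have hsN : √(N:ℝ) = (N:ℝ) ^ (1/2:ℝ) := Real.sqrt_eq_rpow _
    have hMT : 2 * ((M:ℝ) + 1) ≤ min 1 c * T := by
      have hm0 : 0 < min 1 c := by positivity
      rw [div_le_iff₀ hm0] at g2
      have h1 : 2 * ((M:ℝ) + 1) ≤ 4 * u := by linarith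
      have h2 : u ≤ (N:ℝ) ^ (1/4:ℝ) := Real.rpow_le_rpow_of_exponent_le hN0 (by norm_num)
      have h3 : (N:ℝ) ^ (1/4:ℝ) * (N:ℝ) ^ (1/4:ℝ) = √(N:ℝ) := by
        rw [← Real.rpow_add hNpos, hsN]; norm_num
      have h4 : 0 < (N:ℝ) ^ (1/4:ℝ) := by positivity
      calc 2 * ((M:ℝ) + 1) ≤ 4 * (N:ℝ) ^ (1/4:ℝ) := by linarith
        _ = (8 * (N:ℝ) ^ (1/4:ℝ)) / 2 := by ring
        _ ≤ (((N:ℝ) ^ (1/4:ℝ) * min 1 c) * (N:ℝ) ^ (1/4:ℝ)) / 2 := by gcongr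
        _ = min 1 c * (((N:ℝ) ^ (1/4:ℝ) * (N:ℝ) ^ (1/4:ℝ)) / 2) := by ring
        _ = min 1 c * (√(N:ℝ) / 2) := by rw [h3]
        _ ≤ min 1 c * T := mul_le_mul_of_nonneg_left hTge hm0.le
    have key := hms T (by omega) M hM1 hMT
    have hW : (M:ℝ) ^ (-ω) + (M:ℝ)^4 * (T:ℝ) ^ (-1:ℝ) + (T:ℝ) ^ (-ω) ≤ 6 * (N:ℝ) ^ (-(4 * δ)) := by
      have h2ω : (2:ℝ) ^ ω ≤ 2 := by
        calc (2:ℝ) ^ ω ≤ (2:ℝ) ^ (1:ℝ) := Real.rpow_le_rpow_of_exponent_le (by norm_num) (by linarith)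
          _ = 2 := by norm_num
      have w1 : (M:ℝ) ^ (-ω) ≤ 2 * (N:ℝ) ^ (-(4 * δ)) := by
        calc (M:ℝ) ^ (-ω) ≤ (u/2) ^ (-ω) := Real.rpow_le_rpow_of_nonpos (by linarith) huM (by linarith)
          _ = u ^ (-ω) * 2 ^ ω := by
              rw [Real.div_rpow (by linarith) (by norm_num), Real.rpow_neg (by norm_num : (0:ℝ) ≤ 2)]
              field_simp
          _ ≤ u ^ (-ω) * 2 := by gcongr
          _ = 2 * (N:ℝ) ^ (-(4 * δ)) := by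
              rw [hu, ← Real.rpow_mul hNpos.le, mul_comm]
              congr 2
              rw [hδ]; ring
      have w2 : (M:ℝ)^4 * (T:ℝ) ^ (-1:ℝ) ≤ 2 * (N:ℝ) ^ (-(4 * δ)) := by
        calc (M:ℝ)^4 * (T:ℝ) ^ (-1:ℝ) ≤ u^4 * (√(N:ℝ) / 2) ^ (-1:ℝ) := by
              apply mul_le_mul (pow_le_pow_left₀ (by linarith) hMu 4) _ (by positivity) (by positivity)
              exact Real.rpow_le_rpow_of_nonpos (by positivity) hTge (by norm_num)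
          _ = 2 * ((N:ℝ) ^ (1/256:ℝ) * (N:ℝ) ^ (-(1/2):ℝ)) := by
              rw [Real.rpow_neg_one, hu, ← Real.rpow_natCast, ← Real.rpow_mul hNpos.le, hsN, Real.rpow_neg hNpos.le]
              norm_num
              ring
          _ = 2 * (N:ℝ) ^ (-(127/256):ℝ) := by rw [← Real.rpow_add hNpos]; norm_num
          _ ≤ 2 * (N:ℝ) ^ (-(4 * δ)) := by
              apply mul_le_mul_of_nonneg_left _ (by norm_num)
              apply Real.rpow_le_rpow_of_exponent_le hN0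
              linarith
      have w3 : (T:ℝ) ^ (-ω) ≤ 2 * (N:ℝ) ^ (-(4 * δ)) := by
        calc (T:ℝ) ^ (-ω) ≤ (√(N:ℝ) / 2) ^ (-ω) := Real.rpow_le_rpow_of_nonpos (by positivity) hTge (by linarith)
          _ = √(N:ℝ) ^ (-ω) * 2 ^ ω := by
              rw [Real.div_rpow (by positivity) (by norm_num), Real.rpow_neg (by norm_num : (0:ℝ) ≤ 2)]
              field_simp
          _ ≤ √(N:ℝ) ^ (-ω) * 2 := by gcongr
          _ = 2 * (N:ℝ) ^ (-(ω/2)) := by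
              rw [hsN, ← Real.rpow_mul hNpos.le, mul_comm]
              congr 2
              ring
          _ ≤ 2 * (N:ℝ) ^ (-(4 * δ)) := by
              apply mul_le_mul_of_nonneg_left _ (by norm_num)
              apply Real.rpow_le_rpow_of_exponent_le hN0
              rw [hδ]; linarith
      linarith
    have hms2 : ∑ n ∈ Ioc N N', (E (c * √(n:ℝ)) - U a φ (c * √(n:ℝ)) M)^2 ≤ 6 * C * (N * (N:ℝ) ^ (-(4 * δ))) := by
      calc _ ≤ ∑ n ∈ Ico (T^2) (4*T^2), (E (c * √(n:ℝ)) - U a φ (c * √(n:ℝ)) M)^2 :=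
            sum_le_sum_of_subset_of_nonneg hsub (fun _ _ _ => sq_nonneg _)
        _ ≤ C * (T:ℝ)^2 * ((M:ℝ) ^ (-ω) + (M:ℝ)^4 * (T:ℝ) ^ (-1:ℝ) + (T:ℝ) ^ (-ω)) := key
        _ ≤ C * N * (6 * (N:ℝ) ^ (-(4 * δ))) := by gcongr
        _ = _ := by ring
    have hv2 : ∑ n ∈ Ioc N N', ‖v n‖^2 ≤ N * (CL * (N:ℝ) ^ δ)^2 := by
      calc ∑ n ∈ Ioc N N', ‖v n‖^2 ≤ ∑ n ∈ Ioc N N', (CL * (N:ℝ) ^ δ)^2 := by
            apply sum_le_sum; intro n hn
            rw [mem_Ioc] at hn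
            apply pow_le_pow_left₀ (norm_nonneg _)
            refine (hv.bd n (by omega)).trans (le_trans ?_ (hlogb N hN))
            have : Real.log n ≤ Real.log (2 * N) := by
              apply Real.log_le_log (by exact_mod_cast (by omega : 0 < n))
              exact_mod_cast hn.2.trans hN'
            linarith
        _ = ((N' - N : ℕ):ℝ) * (CL * (N:ℝ) ^ δ)^2 := by rw [sum_const, Nat.card_Ioc, nsmul_eq_mul]
        _ ≤ N * (CL * (N:ℝ) ^ δ)^2 := by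
            apply mul_le_mul_of_nonneg_right _ (by positivity)
            exact_mod_cast (by omega : N' - N ≤ N)
    have hdiff : ‖∑ n ∈ Ioc N N', v n * (((E (c * √(n:ℝ)) - U a φ (c * √(n:ℝ)) M : ℝ)) : ℂ)‖ ≤
        CL * √(6 * C) * (N:ℝ) ^ (1 - δ) := by
      have h1 : ‖∑ n ∈ Ioc N N', v n * (((E (c * √(n:ℝ)) - U a φ (c * √(n:ℝ)) M : ℝ)) : ℂ)‖ ≤
          ∑ n ∈ Ioc N N', ‖v n‖ * |E (c * √(n:ℝ)) - U a φ (c * √(n:ℝ)) M| := by
        refine (norm_sum_le _ _).trans (sum_le_sum fun n _ => ?_)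
        rw [norm_mul, Complex.norm_real, Real.norm_eq_abs]
      have h2 : (∑ n ∈ Ioc N N', ‖v n‖ * |E (c * √(n:ℝ)) - U a φ (c * √(n:ℝ)) M|)^2 ≤
          (CL * √(6 * C) * (N:ℝ) ^ (1 - δ))^2 := by
        refine (sum_mul_sq_le_sq_mul_sq _ _ _).trans ?_
        simp only [sq_abs]
        refine (mul_le_mul hv2 hms2 (sum_nonneg fun _ _ => sq_nonneg _) (by positivity)).trans (le_of_eq ?_)
        have hsC : √(6 * C)^2 = 6 * C := Real.sq_sqrt (by positivity)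
        rw [mul_pow, mul_pow, mul_pow, hsC]
        have e1 : (N:ℝ) * ((N:ℝ) ^ δ)^2 * (N * (N:ℝ) ^ (-(4 * δ))) = ((N:ℝ) ^ (1 - δ))^2 := by
          have h : ∀ x : ℝ, ((N:ℝ) ^ x)^2 = (N:ℝ) ^ (2 * x) := fun x => by
            rw [← Real.rpow_natCast, ← Real.rpow_mul hNpos.le, mul_comm]; norm_num
          rw [h, h]
          nth_rewrite 1 3 [← Real.rpow_one (N:ℝ)]
          rw [← Real.rpow_add hNpos, ← Real.rpow_add hNpos, ← Real.rpow_add hNpos]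
          congr 1; ring
        calc N * (CL^2 * ((N:ℝ) ^ δ)^2) * (6 * C * (N * (N:ℝ) ^ (-(4 * δ)))) =
              CL^2 * (6 * C) * ((N:ℝ) * ((N:ℝ) ^ δ)^2 * (N * (N:ℝ) ^ (-(4 * δ)))) := by ring
          _ = _ := by rw [e1]
      exact h1.trans ((le_abs_self _).trans (abs_le_of_sq_le_sq h2 (by positivity)))
    have hmod : ‖∑ n ∈ Ioc N N', v n * ((U a φ (c * √(n:ℝ)) M : ℝ) : ℂ)‖ ≤ Ca * A * (N:ℝ) ^ (1 - δ) := by
      have h1 := model_sum (a := a) (φ := φ) hv (fun m hm => (hCa m hm).2) hc N N' hN hNN' hN' M (by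
        have h2 : u ≤ (N:ℝ) ^ (1/16:ℝ) := Real.rpow_le_rpow_of_exponent_le hN0 (by norm_num)
        have h3 : (N:ℝ) ^ (1/16:ℝ) * (N:ℝ) ^ (1/16:ℝ) = (N:ℝ) ^ (1/8:ℝ) := by
          rw [← Real.rpow_add hNpos]; norm_num
        have h4 : 1/c ≤ (1/c) * (N:ℝ) ^ (1/16:ℝ) := le_mul_of_one_le_right (by positivity) (Real.one_le_rpow hN0 (by norm_num))
        calc c * M + 1/c ≤ c * (N:ℝ) ^ (1/16:ℝ) + (1/c) * (N:ℝ) ^ (1/16:ℝ) := by
              have : c * (M:ℝ) ≤ c * (N:ℝ) ^ (1/16:ℝ) := mul_le_mul_of_nonneg_left (hMu.trans h2) hc.le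
              linarith
          _ = (c + 1/c) * (N:ℝ) ^ (1/16:ℝ) := by ring
          _ ≤ (N:ℝ) ^ (1/16:ℝ) * (N:ℝ) ^ (1/16:ℝ) := by gcongr
          _ = (N:ℝ) ^ (1/8:ℝ) := h3
          _ ≤ _ := by
              have : 0 ≤ (N:ℝ) ^ (1/8:ℝ) := by positivity
              linarith)
      refine h1.trans ?_
      have h2 : (M:ℝ)^2 ≤ (N:ℝ) ^ (1/512:ℝ) := by
        calc (M:ℝ)^2 ≤ u^2 := pow_le_pow_left₀ (by linarith) hMu 2
          _ = _ := by rw [hu, ← Real.rpow_natCast, ← Real.rpow_mul hNpos.le]; norm_num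
      calc (M:ℝ)^2 * (Ca * (A * (N:ℝ) ^ (127/128:ℝ))) ≤ (N:ℝ) ^ (1/512:ℝ) * (Ca * (A * (N:ℝ) ^ (127/128:ℝ))) := by gcongr
        _ = Ca * A * ((N:ℝ) ^ (1/512:ℝ) * (N:ℝ) ^ (127/128:ℝ)) := by ring
        _ = Ca * A * (N:ℝ) ^ (509/512:ℝ) := by rw [← Real.rpow_add hNpos]; norm_num
        _ ≤ _ := by
            apply mul_le_mul_of_nonneg_left _ (by positivity)
            apply Real.rpow_le_rpow_of_exponent_le hN0
            linarith
    have hsplit : ∑ n ∈ Ioc N N', v n * ((E (c * √(n:ℝ)) : ℝ) : ℂ) =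
        ∑ n ∈ Ioc N N', v n * (((E (c * √(n:ℝ)) - U a φ (c * √(n:ℝ)) M : ℝ)) : ℂ) +
        ∑ n ∈ Ioc N N', v n * ((U a φ (c * √(n:ℝ)) M : ℝ) : ℂ) := by
      rw [← sum_add_distrib]
      apply sum_congr rfl; intro n _
      push_cast; ring
    rw [hsplit]
    refine (norm_add_le _ _).trans ?_
    have : 0 ≤ B0 * (N:ℝ) ^ (1 - δ) := by positivity
    calc _ ≤ CL * √(6 * C) * (N:ℝ) ^ (1 - δ) + Ca * A * (N:ℝ) ^ (1 - δ) := add_le_add hdiff hmod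
      _ ≤ _ := by
          rw [add_mul, add_mul]; linarith

end Pool.Agent.W24.CP
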