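import Mathlib
import Pool.Agent.W24.CP.Asm

/-! The power saving for the Möbius function and the primes. -/

open Finset
open Pool.Agent.H383
open Pool.Agent.H383.Gen (Bd U)
open Pool.Agent.H452R2.Win Pool.Agent.H452R2.Om
open Pool.Agent.H469R2.NK

namespace Pool.Agent.W24.CP

/-- from dyadic blocks to initial segments -/
lemma total_of_block (f : ℕ → ℂ) {C δ : ℝ} (hC : 0 ≤ C) (hδ : 0 ≤ δ) (hδ1 : δ ≤ 1/2)
    (h : ∀ N N' : ℕ, 1 ≤ N → N ≤ N' → N' ≤ 2 * N → ‖∑ n ∈ Ioc N N', f n‖ ≤ C * (N:ℝ) ^ (1 - δ)) (x : ℕ) (hx : 1 ≤ x) :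
    ‖∑ n ∈ Icc 1 x, f n‖ ≤ (7 * C + ‖f 1‖) * (x:ℝ) ^ (1 - δ) := by
  induction x using Nat.strong_induction_on with
  | _ x ih =>
    have hx0 : (1:ℝ) ≤ x := by exact_mod_cast hx
    rcases Nat.lt_or_ge x 2 with h2 | h2
    · have : x = 1 := by omega
      subst this
      simp only [Icc_self, sum_singleton, Nat.cast_one, Real.one_rpow, mul_one]
      linarith
    · set y := (x + 1) / 2 with hy
      have hy1 : 1 ≤ y := by omega
      have hyx : y < x := by omega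
      have hxy : x ≤ 2 * y := by omega
      have h1 := ih y hyx hy1
      have h3 := h y x hy1 hyx.le hxy
      have hsplit : ∑ n ∈ Icc 1 x, f n = ∑ n ∈ Icc 1 y, f n + ∑ n ∈ Ioc y x, f n := by
        rw [← sum_union]
        · apply sum_congr _ fun _ _ => rfl
          ext n; simp only [mem_union, mem_Icc, mem_Ioc]; omega
        · rw [disjoint_left]
          intro n hn hn2
          rw [mem_Icc] at hn
          rw [mem_Ioc] at hn2
          omega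
      have hyle : (y:ℝ) ≤ 3/4 * x := by
        have h4 : ((2 * y : ℕ):ℝ) ≤ ((x + 1 : ℕ):ℝ) := by exact_mod_cast (by omega : 2 * y ≤ x + 1)
        push_cast at h4
        have h5 : (2:ℝ) ≤ x := by exact_mod_cast h2
        linarith
      have hy0 : (0:ℝ) ≤ y := Nat.cast_nonneg y
      have hyp : (y:ℝ) ^ (1 - δ) ≤ 7/8 * (x:ℝ) ^ (1 - δ) := by
        calc (y:ℝ) ^ (1 - δ) ≤ (3/4 * (x:ℝ)) ^ (1 - δ) := Real.rpow_le_rpow hy0 hyle (by linarith)
          _ = (3/4:ℝ) ^ (1 - δ) * (x:ℝ) ^ (1 - δ) := Real.mul_rpow (by norm_num) (by linarith)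
          _ ≤ 7/8 * (x:ℝ) ^ (1 - δ) := by
              apply mul_le_mul_of_nonneg_right _ (by positivity)
              calc (3/4:ℝ) ^ (1 - δ) ≤ (3/4:ℝ) ^ (1/2:ℝ) :=
                    Real.rpow_le_rpow_of_exponent_ge (by norm_num) (by norm_num) (by linarith)
                _ ≤ 7/8 := by
                    rw [← Real.sqrt_eq_rpow, Real.sqrt_le_left (by norm_num)]; norm_num
      rw [hsplit]
      refine (norm_add_le _ _).trans ?_
      have hf1 := norm_nonneg (f 1)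
      have hxp : 0 ≤ (x:ℝ) ^ (1 - δ) := by positivity
      calc _ ≤ (7 * C + ‖f 1‖) * (y:ℝ) ^ (1 - δ) + C * (y:ℝ) ^ (1 - δ) := add_le_add h1 h3
        _ = (8 * C + ‖f 1‖) * (y:ℝ) ^ (1 - δ) := by ring
        _ ≤ (8 * C + ‖f 1‖) * (7/8 * (x:ℝ) ^ (1 - δ)) := mul_le_mul_of_nonneg_left hyp (by positivity)
        _ = (7 * C + 7/8 * ‖f 1‖) * (x:ℝ) ^ (1 - δ) := by ring
        _ ≤ _ := by
            apply mul_le_mul_of_nonneg_right _ hxp
            linarith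

lemma abel_id (f : ℕ → ℂ) (g : ℕ → ℝ) (N : ℕ) :
    ∑ n ∈ Icc 1 (N + 1), f n * ((g n : ℝ) : ℂ) =
      (∑ n ∈ Icc 1 (N + 1), f n) * ((g (N + 1) : ℝ) : ℂ) - ∑ n ∈ Icc 1 N, (∑ k ∈ Icc 1 n, f k) * (((g (n + 1) - g n : ℝ)) : ℂ) := by
  induction N with
  | zero => simp
  | succ N ih =>
    rw [sum_Icc_succ_top (by omega), ih, sum_Icc_succ_top (by omega : 1 ≤ N + 1 + 1),
      sum_Icc_succ_top (by omega : 1 ≤ N + 1) (fun n => (∑ k ∈ Icc 1 n, f k) * (((g (n + 1) - g n : ℝ)) : ℂ))]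
    push_cast
    ring

/-- partial summation -/
lemma abel_quarter (f : ℕ → ℂ) {D δ : ℝ} (hD : 0 ≤ D) (hδ1 : δ ≤ 1/2)
    (h : ∀ x : ℕ, 1 ≤ x → ‖∑ n ∈ Icc 1 x, f n‖ ≤ D * (x:ℝ) ^ (1 - δ)) (N : ℕ) (hN : 1 ≤ N) :
    ‖∑ n ∈ Icc 1 N, f n * (((n:ℝ) ^ (1/4:ℝ) : ℝ) : ℂ)‖ ≤ 2 * D * (N:ℝ) ^ (5/4 - δ) := by
  obtain ⟨K, rfl⟩ : ∃ K, N = K + 1 := ⟨N - 1, by omega⟩
  set g : ℕ → ℝ := fun n => (n:ℝ) ^ (1/4:ℝ) with hg
  have hmono : ∀ n : ℕ, g n ≤ g (n + 1) := by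
    intro n
    simp only [hg]
    apply Real.rpow_le_rpow (Nat.cast_nonneg n) _ (by norm_num)
    push_cast; linarith
  have hid := abel_id f g K
  simp only [hg] at hid
  rw [hid]
  have hN0 : (0:ℝ) < ((K + 1 : ℕ):ℝ) := by positivity
  have h1 : ‖(∑ n ∈ Icc 1 (K + 1), f n) * (((((K + 1 : ℕ):ℝ) ^ (1/4:ℝ) : ℝ)) : ℂ)‖ ≤ D * ((K + 1 : ℕ):ℝ) ^ (5/4 - δ) := by
    rw [norm_mul, Complex.norm_real, Real.norm_eq_abs, abs_of_nonneg (by positivity)]
    calc _ ≤ D * ((K + 1 : ℕ):ℝ) ^ (1 - δ) * ((K + 1 : ℕ):ℝ) ^ (1/4:ℝ) :=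
          mul_le_mul_of_nonneg_right (h (K + 1) hN) (by positivity)
      _ = D * (((K + 1 : ℕ):ℝ) ^ (1 - δ) * ((K + 1 : ℕ):ℝ) ^ (1/4:ℝ)) := by ring
      _ = _ := by
          rw [← Real.rpow_add hN0]
          congr 2; ring
  have h2 : ‖∑ n ∈ Icc 1 K, (∑ k ∈ Icc 1 n, f k) * (((((n + 1 : ℕ):ℝ) ^ (1/4:ℝ) - (n:ℝ) ^ (1/4:ℝ) : ℝ)) : ℂ)‖ ≤
      D * ((K + 1 : ℕ):ℝ) ^ (5/4 - δ) := by
    refine (norm_sum_le _ _).trans ?_
    have hterm : ∀ n ∈ Icc 1 K, ‖(∑ k ∈ Icc 1 n, f k) * (((((n + 1 : ℕ):ℝ) ^ (1/4:ℝ) - (n:ℝ) ^ (1/4:ℝ) : ℝ)) : ℂ)‖ ≤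
        D * ((K + 1 : ℕ):ℝ) ^ (1 - δ) * (g (n + 1) - g n) := by
      intro n hn
      rw [mem_Icc] at hn
      have hm := hmono n
      rw [norm_mul, Complex.norm_real, Real.norm_eq_abs, abs_of_nonneg (by simp only [hg] at hm; linarith)]
      apply mul_le_mul_of_nonneg_right _ (by linarith)
      refine (h n hn.1).trans ?_
      apply mul_le_mul_of_nonneg_left _ hD
      apply Real.rpow_le_rpow (Nat.cast_nonneg n) _ (by linarith)
      exact_mod_cast (by omega : n ≤ K + 1)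
    refine (sum_le_sum hterm).trans ?_
    rw [← mul_sum]
    have htel : ∑ n ∈ Icc 1 K, (g (n + 1) - g n) ≤ g (K + 1) := by
      have : ∀ K : ℕ, ∑ n ∈ Icc 1 K, (g (n + 1) - g n) = g (K + 1) - g 1 := by
        intro K
        induction K with
        | zero => simp
        | succ K ih => rw [sum_Icc_succ_top (by omega), ih]; ring
      rw [this]
      have : 0 ≤ g 1 := by simp only [hg]; positivity
      linarith
    calc _ ≤ D * ((K + 1 : ℕ):ℝ) ^ (1 - δ) * g (K + 1) := mul_le_mul_of_nonneg_left htel (by positivity)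
      _ = D * (((K + 1 : ℕ):ℝ) ^ (1 - δ) * ((K + 1 : ℕ):ℝ) ^ (1/4:ℝ)) := by simp only [hg]; ring
      _ = _ := by
          rw [← Real.rpow_add hN0]
          congr 2; ring
  refine (norm_sub_le _ _).trans ?_
  linarith

/-- the two weights -/
lemma wv_exists : ∃ A : ℝ, 0 < A ∧ ∀ α : ℝ,
    WV (fun n => ((ArithmeticFunction.vonMangoldt n : ℝ) : ℂ) * e (α * n)) A ∧
    WV (fun n => (((ArithmeticFunction.moebius n : ℤ) : ℝ) : ℂ) * e (α * n)) A := by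
  obtain ⟨A, hA, h⟩ := es_block
  refine ⟨A, hA, fun α => ⟨⟨?_, ?_⟩, ⟨?_, ?_⟩⟩⟩
  · intro n hn
    have hn1 : (1:ℝ) ≤ n := by exact_mod_cast hn
    rw [norm_mul, norm_e, mul_one, Complex.norm_real, Real.norm_eq_abs, abs_of_nonneg ArithmeticFunction.vonMangoldt_nonneg]
    have := ArithmeticFunction.vonMangoldt_le_log (n := n)
    linarith
  · intro N N' hN hNN' hN' θ hθ hθN
    have key : ∀ θ α : ℝ, 0 < θ → θ + 1/θ ≤ 2 * (N:ℝ) ^ (1/8:ℝ) →
        ‖∑ n ∈ Ioc N N', ((ArithmeticFunction.vonMangoldt n : ℝ) : ℂ) * e (α * n) * e (θ * √(n:ℝ))‖ ≤ A * (N:ℝ) ^ (127/128:ℝ) := by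
      intro θ α hθ hθN
      have h1 := (h N N' hN hNN' hN' θ hθ hθN α).1
      refine le_trans (le_of_eq ?_) h1
      congr 1
      apply sum_congr rfl; intro n _
      unfold Eph
      rw [mul_assoc, ← e_add, add_comm]
    rcases lt_or_gt_of_ne hθ with h0 | h0
    · rw [abs_of_neg h0] at hθN
      have h1 := key (-θ) (-α) (by linarith) hθN
      refine le_trans (le_of_eq ?_) h1
      rw [← Complex.norm_conj, map_sum]
      congr 1
      apply sum_congr rfl; intro n _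
      rw [map_mul, map_mul, conj_e, conj_e, Complex.conj_ofReal]
      congr 2
      · congr 1; ring
      · ring
    · rw [abs_of_pos h0] at hθN
      exact key θ α h0 hθN
  · intro n hn
    have hn1 : (1:ℝ) ≤ n := by exact_mod_cast hn
    have h0 : 0 ≤ Real.log n := Real.log_nonneg hn1
    rw [norm_mul, norm_e, mul_one, Complex.norm_real, Real.norm_eq_abs]
    have : |((ArithmeticFunction.moebius n : ℤ) : ℝ)| ≤ 1 := by exact_mod_cast ArithmeticFunction.abs_moebius_le_one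
    linarith
  · intro N N' hN hNN' hN' θ hθ hθN
    have key : ∀ θ α : ℝ, 0 < θ → θ + 1/θ ≤ 2 * (N:ℝ) ^ (1/8:ℝ) →
        ‖∑ n ∈ Ioc N N', (((ArithmeticFunction.moebius n : ℤ) : ℝ) : ℂ) * e (α * n) * e (θ * √(n:ℝ))‖ ≤ A * (N:ℝ) ^ (127/128:ℝ) := by
      intro θ α hθ hθN
      have h1 := (h N N' hN hNN' hN' θ hθ hθN α).2
      refine le_trans (le_of_eq ?_) h1
      congr 1
      apply sum_congr rfl; intro n _
      unfold Eph
      rw [mul_assoc, ← e_add, add_comm]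
    rcases lt_or_gt_of_ne hθ with h0 | h0
    · rw [abs_of_neg h0] at hθN
      have h1 := key (-θ) (-α) (by linarith) hθN
      refine le_trans (le_of_eq ?_) h1
      rw [← Complex.norm_conj, map_sum]
      congr 1
      apply sum_congr rfl; intro n _
      rw [map_mul, map_mul, conj_e, conj_e, Complex.conj_ofReal]
      congr 2
      · congr 1; ring
      · ring
    · rw [abs_of_pos h0] at hθN
      exact key θ α h0 hθN

variable {E : ℝ → ℝ} {a : ℕ → ℝ} {φ : ℝ} {w : ℝ → ℂ}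

/-- the generic theorem -/
theorem save_gen (ha : Bdw a) (ha0 : a 0 = 0) (hw : GW.Wt w) {κ₁ κ₂ : ℝ} (hS : SandW E a φ w κ₁ κ₂) {c : ℝ} (hc : 0 < c)
    (F : ℕ → ℝ) (hF : ∀ n : ℕ, 1 ≤ n → F n = (n:ℝ) ^ (1/4:ℝ) * E (c * √(n:ℝ))) :
    ∃ δ : ℝ, 0 < δ ∧ ∃ C : ℝ, ∀ (α : ℝ) (N : ℕ), 1 ≤ N →
      ‖∑ n ∈ Icc 1 N, ((ArithmeticFunction.moebius n : ℤ) : ℂ) * Complex.exp (2 * Real.pi * Complex.I * (α * n)) *
        ((F n : ℝ) : ℂ)‖ ≤ C * (N:ℝ) ^ (5/4 - δ) ∧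
      ‖∑ n ∈ Icc 1 N, ((ArithmeticFunction.vonMangoldt n : ℝ) : ℂ) * Complex.exp (2 * Real.pi * Complex.I * (α * n)) *
        ((F n : ℝ) : ℂ)‖ ≤ C * (N:ℝ) ^ (5/4 - δ) := by
  obtain ⟨A, hA, hwv⟩ := wv_exists
  obtain ⟨δ, hδ, hδ1, C, hC, hblk⟩ := block_gen ha ha0 hw hS hc hA
  have main : ∀ v : ℕ → ℂ, WV v A → ∀ N : ℕ, 1 ≤ N →
      ‖∑ n ∈ Icc 1 N, v n * ((F n : ℝ) : ℂ)‖ ≤ 2 * (7 * C + |E c|) * (N:ℝ) ^ (5/4 - δ) := by
    intro v hv N hN
    have h1 := total_of_block (fun n => v n * ((E (c * √(n:ℝ)) : ℝ) : ℂ)) hC.le hδ.le hδ1 (hblk v hv)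
    have hv1 : ‖v 1 * ((E (c * √((1:ℕ):ℝ)) : ℝ) : ℂ)‖ ≤ |E c| := by
      have h2 := hv.bd 1 le_rfl
      rw [Nat.cast_one, Real.log_one, add_zero] at h2
      rw [norm_mul, Complex.norm_real, Real.norm_eq_abs, Nat.cast_one, Real.sqrt_one, mul_one]
      exact mul_le_of_le_one_left (abs_nonneg _) h2
    have h3 : ∀ x : ℕ, 1 ≤ x → ‖∑ n ∈ Icc 1 x, v n * ((E (c * √(n:ℝ)) : ℝ) : ℂ)‖ ≤ (7 * C + |E c|) * (x:ℝ) ^ (1 - δ) := by
      intro x hx
      refine (h1 x hx).trans ?_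
      apply mul_le_mul_of_nonneg_right _ (by positivity)
      linarith
    have h4 := abel_quarter (fun n => v n * ((E (c * √(n:ℝ)) : ℝ) : ℂ)) (by positivity) hδ1 h3 N hN
    refine le_trans (le_of_eq ?_) h4
    congr 1
    apply sum_congr rfl; intro n hn
    rw [mem_Icc] at hn
    rw [hF n hn.1]
    push_cast; ring
  refine ⟨δ, hδ, 2 * (7 * C + |E c|), ?_⟩
  intro α N hN
  have he : ∀ n : ℕ, e (α * n) = Complex.exp (2 * Real.pi * Complex.I * (α * n)) := by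
    intro n
    unfold e
    congr 1
    push_cast; ring
  constructor
  · have h1 := main _ (hwv α).2 N hN
    simp only [he] at h1
    push_cast at h1 ⊢
    exact h1
  · have h1 := main _ (hwv α).1 N hN
    simp only [he] at h1
    exact h1

end Pool.Agent.W24.CP
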