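import Mathlib
import Pool.Agent.W24.CP.Fin
import Pool.Agent.H425R3.JL.F3

/-! The circle and the divisor problem as instances. -/

open Finset
open Pool.Agent.H383
open Pool.Agent.H452R2.Win
open Pool.Agent.H425R3.JL
open Pool.Agent.H387R2.Vor

namespace Pool.Agent.W24.CP

open Pool.Agent.H383.Gauss Pool.Agent.H383.Circ in
theorem circ_save : ∃ δ : ℝ, 0 < δ ∧ ∃ C : ℝ, ∀ (α : ℝ) (N : ℕ), 1 ≤ N →
      ‖∑ n ∈ Icc 1 N, ((ArithmeticFunction.moebius n : ℤ) : ℂ) * Complex.exp (2 * Real.pi * Complex.I * (α * n)) *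
        (((Nat.card {p : ℤ × ℤ // p.1 ^ 2 + p.2 ^ 2 ≤ (n : ℤ)} : ℝ) - Real.pi * n : ℝ) : ℂ)‖ ≤ C * (N:ℝ) ^ (5/4 - δ) ∧
      ‖∑ n ∈ Icc 1 N, ((ArithmeticFunction.vonMangoldt n : ℝ) : ℂ) * Complex.exp (2 * Real.pi * Complex.I * (α * n)) *
        (((Nat.card {p : ℤ × ℤ // p.1 ^ 2 + p.2 ^ 2 ≤ (n : ℤ)} : ℝ) - Real.pi * n : ℝ) : ℂ)‖ ≤ C * (N:ℝ) ^ (5/4 - δ) := by
  refine save_gen (E := En) ag_Bdw ag_zero wg_Wt En_SandW one_pos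
    (fun n => (Nat.card {p : ℤ × ℤ // p.1 ^ 2 + p.2 ^ 2 ≤ (n : ℤ)} : ℝ) - Real.pi * n) ?_
  intro n hn
  have hn0 : (0:ℝ) < n := by exact_mod_cast hn
  rw [one_mul, Ec_eq hn0.le]
  unfold Ec
  have hp : (0:ℝ) < (n:ℝ) ^ (1/4:ℝ) := by positivity
  rw [mul_div_cancel₀ _ hp.ne']
  have e : {p : ℤ × ℤ // (p.1 : ℝ) ^ 2 + (p.2 : ℝ) ^ 2 ≤ (n : ℝ)} = {p : ℤ × ℤ // p.1 ^ 2 + p.2 ^ 2 ≤ (n : ℤ)} := by
    congr 1
    funext p
    apply propext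
    constructor
    · intro h; exact_mod_cast h
    · intro h; exact_mod_cast h
  rw [e]

open Pool.Agent.H383.Div in
theorem div_save : ∃ δ : ℝ, 0 < δ ∧ ∃ C : ℝ, ∀ (α : ℝ) (N : ℕ), 1 ≤ N →
      ‖∑ n ∈ Icc 1 N, ((ArithmeticFunction.moebius n : ℤ) : ℂ) * Complex.exp (2 * Real.pi * Complex.I * (α * n)) *
        (((∑ k ∈ Icc 1 n, (k.divisors.card : ℝ)) - n * Real.log n
          - (2 * Real.eulerMascheroniConstant - 1) * n : ℝ) : ℂ)‖ ≤ C * (N:ℝ) ^ (5/4 - δ) ∧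
      ‖∑ n ∈ Icc 1 N, ((ArithmeticFunction.vonMangoldt n : ℝ) : ℂ) * Complex.exp (2 * Real.pi * Complex.I * (α * n)) *
        (((∑ k ∈ Icc 1 n, (k.divisors.card : ℝ)) - n * Real.log n
          - (2 * Real.eulerMascheroniConstant - 1) * n : ℝ) : ℂ)‖ ≤ C * (N:ℝ) ^ (5/4 - δ) := by
  refine save_gen (E := E2) ad_Bdw2 ad_zero wd_Wt (E2_SandW vor) two_pos
    (fun n => (∑ k ∈ Icc 1 n, (k.divisors.card : ℝ)) - n * Real.log n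
          - (2 * Real.eulerMascheroniConstant - 1) * n) ?_
  intro n hn
  have hn0 : (0:ℝ) < n := by exact_mod_cast hn
  have e2 : E2 (2 * √(n:ℝ)) = Edv n := by
    unfold E2
    rw [← Edv_eq hn0.le]
    congr 1
    ring
  rw [e2]
  unfold Edv
  have hp : (0:ℝ) < (n:ℝ) ^ (1/4:ℝ) := by positivity
  rw [mul_div_cancel₀ _ hp.ne', Nat.floor_natCast]

end Pool.Agent.W24.CP
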