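import Mathlib
import Pool.Agent.W24.CP.MS

/-! The total mean square over `1 ≤ k ≤ X`. -/

open Finset
open Pool.Agent.H383
open Pool.Agent.H383.Gen (Bd U)
open Pool.Agent.H452R2.Win Pool.Agent.H452R2.Om

namespace Pool.Agent.W24.CP.SM

lemma tot_real {f : ℕ → ℝ} (hf : ∀ n, 0 ≤ f n) {B : ℝ} (hB : 0 ≤ B) {N1 : ℕ} (hN1 : 1 ≤ N1)
    (h : ∀ N N' : ℕ, N1 ≤ N → N ≤ N' → N' ≤ 2 * N → ∑ n ∈ Ioc N N', f n ≤ B * N) (x : ℕ) :
    ∑ n ∈ Ioc N1 x, f n ≤ 8 * B * x := by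
  induction x using Nat.strong_induction_on with
  | _ x ih =>
    have hx0 : (0:ℝ) ≤ x := Nat.cast_nonneg x
    rcases Nat.lt_or_ge x (N1 + 1) with h1 | h1
    · rw [Ioc_eq_empty (by omega), sum_empty]; positivity
    · rcases Nat.lt_or_ge (2 * N1) x with h2 | h2
      · set y := (x + 1) / 2 with hy
        have hyx : y < x := by omega
        have hxy : x ≤ 2 * y := by omega
        have hyN : N1 ≤ y := by omega
        have i1 := ih y hyx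
        have i2 := h y x hyN hyx.le hxy
        have hsplit : ∑ n ∈ Ioc N1 x, f n = ∑ n ∈ Ioc N1 y, f n + ∑ n ∈ Ioc y x, f n := by
          rw [← sum_union]
          · apply sum_congr _ fun _ _ => rfl
            ext n; simp only [mem_union, mem_Ioc]; omega
          · rw [disjoint_left]
            intro n hn hn2
            rw [mem_Ioc] at hn hn2
            omega
        have hyle : (y:ℝ) ≤ 3/4 * x := by
          have h4 : ((2 * y : ℕ):ℝ) ≤ ((x + 1 : ℕ):ℝ) := by exact_mod_cast (by omega : 2 * y ≤ x + 1)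
          push_cast at h4
          have h5 : (2:ℝ) ≤ x := by exact_mod_cast (by omega : 2 ≤ x)
          linarith
        rw [hsplit]
        nlinarith [mul_le_mul_of_nonneg_left hyle hB]
      · have i1 := h N1 x le_rfl (by omega) h2
        have : (N1:ℝ) ≤ x := by exact_mod_cast (by omega : N1 ≤ x)
        nlinarith [mul_le_mul_of_nonneg_left this hB]

variable {E : ℝ → ℝ} {a : ℕ → ℝ} {φ : ℝ} {w : ℝ → ℂ}

lemma abs_U_le (a : ℕ → ℝ) (φ R : ℝ) (M : ℕ) : |U a φ R M| ≤ ∑ m ∈ Icc 1 (M^2), |a m| := by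
  unfold U
  refine (abs_sum_le_sum_abs _ _).trans (sum_le_sum fun m _ => ?_)
  rw [abs_mul]
  exact mul_le_of_le_one_right (abs_nonneg _) (Real.abs_cos_le_one _)

lemma U_bound (ha : Bd a) : ∃ C : ℝ, 0 < C ∧ ∀ (φ R : ℝ) (M : ℕ), |U a φ R M| ≤ C * (M:ℝ)^2 := by
  obtain ⟨C, hC, h⟩ := a_sqrt ha
  refine ⟨C, hC, fun φ R M => (abs_U_le a φ R M).trans ?_⟩
  calc ∑ m ∈ Icc 1 (M^2), |a m| ≤ ∑ m ∈ Icc 1 (M^2), C := sum_le_sum fun m hm => (h m (mem_Icc.mp hm).1).2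
    _ = _ := by
        rw [sum_const, Nat.card_Icc, nsmul_eq_mul]; push_cast; ring

/-- blocks -/
lemma ms_block (ha : Bdw a) (ha0 : a 0 = 0) (hw : GW.Wt w) {κ₁ κ₂ : ℝ} (hS : SandW E a φ w κ₁ κ₂) {c : ℝ} (hc : 0 < c) :
    ∃ ω : ℝ, 0 < ω ∧ ω ≤ 1/200 ∧ ∃ C : ℝ, 0 < C ∧ ∃ N2 : ℕ, 1 ≤ N2 ∧ ∀ M : ℕ, 1 ≤ M → ∀ N N' : ℕ, N2 ≤ N → M^16 ≤ N →
      N ≤ N' → N' ≤ 2 * N →
      ∑ n ∈ Ioc N N', (E (c * √(n:ℝ)) - U a φ (c * √(n:ℝ)) M)^2 ≤ C * (M:ℝ) ^ (-ω) * N := by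
  obtain ⟨ω, hω, hω2, C, hC, T0, hms⟩ := ms_T ha ha0 hw hS hc
  have ev2 : ∀ᶠ N : ℕ in Filter.atTop, 8 / min 1 c ≤ (N:ℝ) ^ (1/4:ℝ) :=
    (((tendsto_rpow_atTop (by norm_num : (0:ℝ) < 1/4)).comp tendsto_natCast_atTop_atTop).eventually_ge_atTop _)
  obtain ⟨N1, hN1⟩ := Filter.eventually_atTop.mp ev2
  refine ⟨ω, hω, hω2, C * 5, by positivity, max (max N1 ((T0 + 1)^2)) 16, by omega, ?_⟩
  intro M hM N N' hN hMN hNN' hN'
  have hNN1 : N1 ≤ N := le_trans (le_trans (le_max_left _ _) (le_max_left _ _)) hN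
  have hNT : (T0 + 1)^2 ≤ N := le_trans (le_trans (le_max_right _ _) (le_max_left _ _)) hN
  have hN16 : 16 ≤ N := le_trans (le_max_right _ _) hN
  have g2 := hN1 N hNN1
  have hN0 : (1:ℝ) ≤ N := by exact_mod_cast (by omega : 1 ≤ N)
  have hNpos : (0:ℝ) < N := by linarith
  have hM1 : (1:ℝ) ≤ M := by exact_mod_cast hM
  have hM0 : (0:ℝ) < M := by linarith
  have hMN' : (M:ℝ)^16 ≤ N := by exact_mod_cast hMN
  set T := Nat.sqrt N with hT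
  have hTT0 : T0 + 1 ≤ T := by rw [hT, Nat.le_sqrt']; exact hNT
  have hT4 : 4 ≤ T := by rw [hT, Nat.le_sqrt']; exact hN16
  have hTN : T^2 ≤ N := Nat.sqrt_le' N
  have hTN2 : N < (T+1)^2 := Nat.lt_succ_sqrt' N
  have hsub : Ioc N N' ⊆ Ico (T^2) (4 * T^2) := by
    intro n hn
    rw [mem_Ioc] at hn
    rw [mem_Ico]
    constructor
    · omega
    · nlinarith
  have hTr : (4:ℝ) ≤ T := by exact_mod_cast hT4
  have hTpos : (0:ℝ) < T := by linarith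
  have hTle : (T:ℝ)^2 ≤ N := by exact_mod_cast hTN
  have hTge : √(N:ℝ) / 2 ≤ T := by
    have h1 : √(N:ℝ) ≤ T + 1 := by
      rw [Real.sqrt_le_left (by positivity)]
      exact_mod_cast hTN2.le
    linarith
  have hsN : √(N:ℝ) = (N:ℝ) ^ (1/2:ℝ) := Real.sqrt_eq_rpow _
  -- powers of M
  have hM4 : (M:ℝ)^4 ≤ (N:ℝ) ^ (1/4:ℝ) := by
    calc (M:ℝ)^4 = ((M:ℝ)^16) ^ (1/4:ℝ) := by
          rw [← Real.rpow_natCast, ← Real.rpow_natCast, ← Real.rpow_mul hM0.le]; norm_num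
      _ ≤ _ := Real.rpow_le_rpow (by positivity) hMN' (by norm_num)
  have hM8 : (M:ℝ)^8 ≤ √(N:ℝ) := by
    apply Real.le_sqrt_of_sq_le
    have e8 : ((M:ℝ)^8)^2 = (M:ℝ)^16 := by ring
    rw [e8]; exact hMN'
  have hMT : 2 * ((M:ℝ) + 1) ≤ min 1 c * T := by
    have hm0 : 0 < min 1 c := by positivity
    rw [div_le_iff₀ hm0] at g2
    have h1 : (M:ℝ) ≤ (M:ℝ)^4 := by
      calc (M:ℝ) = (M:ℝ)^1 := (pow_one _).symm
        _ ≤ (M:ℝ)^4 := pow_le_pow_right₀ hM1 (by norm_num)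
    have h3 : (N:ℝ) ^ (1/4:ℝ) * (N:ℝ) ^ (1/4:ℝ) = √(N:ℝ) := by
      rw [← Real.rpow_add hNpos, hsN]; norm_num
    have h4 : 0 < (N:ℝ) ^ (1/4:ℝ) := by positivity
    calc 2 * ((M:ℝ) + 1) ≤ 4 * (N:ℝ) ^ (1/4:ℝ) := by linarith
      _ = (8 * (N:ℝ) ^ (1/4:ℝ)) / 2 := by ring
      _ ≤ (((N:ℝ) ^ (1/4:ℝ) * min 1 c) * (N:ℝ) ^ (1/4:ℝ)) / 2 := by gcongr
      _ = min 1 c * (((N:ℝ) ^ (1/4:ℝ) * (N:ℝ) ^ (1/4:ℝ)) / 2) := by ring
      _ = min 1 c * (√(N:ℝ) / 2) := by rw [h3]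
      _ ≤ min 1 c * T := mul_le_mul_of_nonneg_left hTge hm0.le
  have key := hms T (by omega) M hM hMT
  have hW : (M:ℝ) ^ (-ω) + (M:ℝ)^4 * (T:ℝ) ^ (-1:ℝ) + (T:ℝ) ^ (-ω) ≤ 5 * (M:ℝ) ^ (-ω) := by
    have h2ω : (2:ℝ) ^ ω ≤ 2 := by
      calc (2:ℝ) ^ ω ≤ (2:ℝ) ^ (1:ℝ) := Real.rpow_le_rpow_of_exponent_le (by norm_num) (by linarith)
        _ = 2 := by norm_num
    have hTM : (M:ℝ)^8 / 2 ≤ T := by linarith
    have w2 : (M:ℝ)^4 * (T:ℝ) ^ (-1:ℝ) ≤ 2 * (M:ℝ) ^ (-ω) := by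
      calc (M:ℝ)^4 * (T:ℝ) ^ (-1:ℝ) ≤ (M:ℝ)^4 * ((M:ℝ)^8 / 2) ^ (-1:ℝ) := by
            apply mul_le_mul_of_nonneg_left _ (by positivity)
            exact Real.rpow_le_rpow_of_nonpos (by positivity) hTM (by norm_num)
        _ = 2 * (M:ℝ) ^ (-4:ℝ) := by
            rw [Real.rpow_neg_one, Real.rpow_neg hM0.le, show ((4:ℝ)) = ((4:ℕ):ℝ) by norm_num, Real.rpow_natCast]
            field_simp
        _ ≤ 2 * (M:ℝ) ^ (-ω) := by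
            apply mul_le_mul_of_nonneg_left _ (by norm_num)
            apply Real.rpow_le_rpow_of_exponent_le hM1
            linarith
    have w3 : (T:ℝ) ^ (-ω) ≤ 2 * (M:ℝ) ^ (-ω) := by
      calc (T:ℝ) ^ (-ω) ≤ ((M:ℝ)^8 / 2) ^ (-ω) := Real.rpow_le_rpow_of_nonpos (by positivity) hTM (by linarith)
        _ = ((M:ℝ)^8) ^ (-ω) * 2 ^ ω := by
            rw [Real.div_rpow (by positivity) (by norm_num), Real.rpow_neg (by norm_num : (0:ℝ) ≤ 2)]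
            field_simp
        _ ≤ ((M:ℝ)^8) ^ (-ω) * 2 := by gcongr
        _ ≤ (M:ℝ) ^ (-ω) * 2 := by
            apply mul_le_mul_of_nonneg_right _ (by norm_num)
            apply Real.rpow_le_rpow_of_nonpos hM0 _ (by linarith)
            calc (M:ℝ) = (M:ℝ)^1 := (pow_one _).symm
              _ ≤ (M:ℝ)^8 := pow_le_pow_right₀ hM1 (by norm_num)
        _ = _ := by ring
    linarith
  calc _ ≤ ∑ n ∈ Ico (T^2) (4*T^2), (E (c * √(n:ℝ)) - U a φ (c * √(n:ℝ)) M)^2 :=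
        sum_le_sum_of_subset_of_nonneg hsub (fun _ _ _ => sq_nonneg _)
    _ ≤ C * (T:ℝ)^2 * ((M:ℝ) ^ (-ω) + (M:ℝ)^4 * (T:ℝ) ^ (-1:ℝ) + (T:ℝ) ^ (-ω)) := key
    _ ≤ C * N * (5 * (M:ℝ) ^ (-ω)) := by gcongr
    _ = _ := by ring

/-- the total mean square -/
theorem ms_total (ha : Bdw a) (ha0 : a 0 = 0) (hw : GW.Wt w) {κ₁ κ₂ : ℝ} (hS : SandW E a φ w κ₁ κ₂) {c : ℝ} (hc : 0 < c) :
    ∃ ω : ℝ, 0 < ω ∧ ω ≤ 1/200 ∧ ∃ C : ℝ, 0 < C ∧ ∀ M X : ℕ, 1 ≤ M → M^40 ≤ X →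
      ∑ n ∈ Icc 1 X, (E (c * √(n:ℝ)) - U a φ (c * √(n:ℝ)) M)^2 ≤ C * (M:ℝ) ^ (-ω) * X := by
  obtain ⟨ω, hω, hω2, C, hC, N2, hN2, hblk⟩ := ms_block ha ha0 hw hS hc
  obtain ⟨Cu, hCu, hUb⟩ := U_bound ha.Bd
  -- second moments
  set CE : ℝ := 16 * C + 16 * Cu^2 + ∑ n ∈ Icc 1 N2, (E (c * √(n:ℝ)))^2 with hCE
  have hs0 : 0 ≤ ∑ n ∈ Icc 1 N2, (E (c * √(n:ℝ)))^2 := sum_nonneg fun _ _ => sq_nonneg _
  have hCE0 : 0 < CE := by positivity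
  have hE2 : ∀ X : ℕ, 1 ≤ X → ∑ n ∈ Icc 1 X, (E (c * √(n:ℝ)))^2 ≤ CE * X := by
    intro X hX
    have hX1 : (1:ℝ) ≤ X := by exact_mod_cast hX
    have h1 := tot_real (f := fun n : ℕ => (E (c * √(n:ℝ)))^2) (fun n => sq_nonneg _) (B := 2 * C + 2 * Cu^2) (by positivity) hN2 (by
      intro N N' hN hNN' hN'
      have h1 := hblk 1 le_rfl N N' hN (by simp; omega) hNN' hN'
      rw [Nat.cast_one, Real.one_rpow, mul_one] at h1
      calc ∑ n ∈ Ioc N N', (E (c * √(n:ℝ)))^2 ≤ ∑ n ∈ Ioc N N', (2 * (E (c * √(n:ℝ)) - U a φ (c * √(n:ℝ)) 1)^2 + 2 * Cu^2) := by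
            apply sum_le_sum; intro n _
            have h2 := hUb φ (c * √(n:ℝ)) 1
            rw [Nat.cast_one, one_pow, mul_one] at h2
            have h3 : (U a φ (c * √(n:ℝ)) 1)^2 ≤ Cu^2 := by
              rw [← sq_abs]; exact pow_le_pow_left₀ (abs_nonneg _) h2 2
            nlinarith [sq_nonneg (E (c * √(n:ℝ)) - 2 * U a φ (c * √(n:ℝ)) 1)]
        _ = 2 * ∑ n ∈ Ioc N N', (E (c * √(n:ℝ)) - U a φ (c * √(n:ℝ)) 1)^2 + ((N' - N : ℕ):ℝ) * (2 * Cu^2) := by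
            rw [sum_add_distrib, ← mul_sum, sum_const, Nat.card_Ioc, nsmul_eq_mul]
        _ ≤ 2 * (C * N) + N * (2 * Cu^2) := by
            have : ((N' - N : ℕ):ℝ) ≤ N := by exact_mod_cast (by omega : N' - N ≤ N)
            gcongr
        _ = _ := by ring) X
    have h2 : ∑ n ∈ Icc 1 X, (E (c * √(n:ℝ)))^2 ≤ ∑ n ∈ Icc 1 N2, (E (c * √(n:ℝ)))^2 + ∑ n ∈ Ioc N2 X, (E (c * √(n:ℝ)))^2 := by
      rw [← sum_union (by
        rw [disjoint_left]; intro n hn hn2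
        rw [mem_Icc] at hn; rw [mem_Ioc] at hn2; omega)]
      apply sum_le_sum_of_subset_of_nonneg
      · intro n hn
        rw [mem_Icc] at hn
        rw [mem_union, mem_Icc, mem_Ioc]; omega
      · intro _ _ _; exact sq_nonneg _
    refine h2.trans ?_
    have h3 : ∑ n ∈ Icc 1 N2, (E (c * √(n:ℝ)))^2 ≤ (∑ n ∈ Icc 1 N2, (E (c * √(n:ℝ)))^2) * X := le_mul_of_one_le_right hs0 hX1
    rw [hCE, add_mul]
    have h4 : 8 * (2 * C + 2 * Cu^2) * (X:ℝ) = (16 * C + 16 * Cu^2) * X := by ring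
    linarith
  refine ⟨ω, hω, hω2, 8 * C + (2 * CE + 2 * Cu^2) * N2, by
    have : (0:ℝ) < N2 := by exact_mod_cast hN2
    positivity, ?_⟩
  intro M X hM hMX
  have hM1 : (1:ℝ) ≤ M := by exact_mod_cast hM
  have hM0 : (0:ℝ) < M := by linarith
  have hMX' : (M:ℝ)^40 ≤ X := by exact_mod_cast hMX
  set f : ℕ → ℝ := fun n => (E (c * √(n:ℝ)) - U a φ (c * √(n:ℝ)) M)^2 with hf
  have hMM : 1 ≤ M^16 := Nat.one_le_pow _ _ hM
  set K : ℕ := N2 * M^16 with hK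
  have hK1 : 1 ≤ K := Nat.mul_pos hN2 hMM
  have hKN2 : N2 ≤ K := Nat.le_mul_of_pos_right _ hMM
  have hKM : M^16 ≤ K := Nat.le_mul_of_pos_left _ hN2
  have h1 := tot_real (f := f) (fun n => sq_nonneg _) (B := C * (M:ℝ) ^ (-ω)) (by positivity) hK1 (by
    intro N N' hN hNN' hN'
    exact hblk M hM N N' (by omega) (by omega) hNN' hN') X
  have h2 : ∑ n ∈ Icc 1 X, f n ≤ ∑ n ∈ Icc 1 K, f n + ∑ n ∈ Ioc K X, f n := by
    rw [← sum_union (by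
      rw [disjoint_left]; intro n hn hn2
      rw [mem_Icc] at hn; rw [mem_Ioc] at hn2; omega)]
    apply sum_le_sum_of_subset_of_nonneg
    · intro n hn
      rw [mem_Icc] at hn
      rw [mem_union, mem_Icc, mem_Ioc]; omega
    · intro _ _ _; exact sq_nonneg _
  have h3 : ∑ n ∈ Icc 1 K, f n ≤ (2 * CE + 2 * Cu^2) * N2 * (M:ℝ)^20 := by
    calc ∑ n ∈ Icc 1 K, f n ≤ ∑ n ∈ Icc 1 K, (2 * (E (c * √(n:ℝ)))^2 + 2 * (Cu * (M:ℝ)^2)^2) := by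
          apply sum_le_sum; intro n _
          have h2 := hUb φ (c * √(n:ℝ)) M
          have h3 : (U a φ (c * √(n:ℝ)) M)^2 ≤ (Cu * (M:ℝ)^2)^2 := by
            rw [← sq_abs]; exact pow_le_pow_left₀ (abs_nonneg _) h2 2
          simp only [hf]
          nlinarith [sq_nonneg (E (c * √(n:ℝ)) + U a φ (c * √(n:ℝ)) M)]
      _ = 2 * ∑ n ∈ Icc 1 K, (E (c * √(n:ℝ)))^2 + K * (2 * (Cu * (M:ℝ)^2)^2) := by
          rw [sum_add_distrib, ← mul_sum, sum_const, Nat.card_Icc, nsmul_eq_mul, Nat.add_sub_cancel]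
      _ ≤ 2 * (CE * K) + K * (2 * (Cu * (M:ℝ)^2)^2) := by
          have := hE2 K hK1
          linarith
      _ ≤ 2 * (CE * K) * (M:ℝ)^4 + K * (2 * (Cu * (M:ℝ)^2)^2) := by
          have : 2 * (CE * (K:ℝ)) ≤ 2 * (CE * (K:ℝ)) * (M:ℝ)^4 :=
            le_mul_of_one_le_right (by positivity) (one_le_pow₀ hM1)
          linarith
      _ = _ := by rw [hK]; push_cast; ring
  have h4 : (M:ℝ)^20 ≤ (M:ℝ) ^ (-ω) * X := by
    have h5 : (M:ℝ)^20 ≤ (M:ℝ) ^ (-ω) * (M:ℝ)^40 := by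
      have e1 : (M:ℝ) ^ (-ω) * (M:ℝ)^40 = (M:ℝ) ^ (40 - ω) := by
        rw [← Real.rpow_natCast, ← Real.rpow_add hM0]
        congr 1; push_cast; ring
      have e2 : (M:ℝ)^20 = (M:ℝ) ^ (20:ℝ) := by
        rw [← Real.rpow_natCast]; norm_num
      rw [e1, e2]
      apply Real.rpow_le_rpow_of_exponent_le hM1
      linarith
    exact h5.trans (mul_le_mul_of_nonneg_left hMX' (by positivity))
  have h6 : (2 * CE + 2 * Cu^2) * N2 * (M:ℝ)^20 ≤ (2 * CE + 2 * Cu^2) * N2 * ((M:ℝ) ^ (-ω) * X) := by gcongr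
  calc ∑ n ∈ Icc 1 X, f n ≤ _ + _ := h2
    _ ≤ (2 * CE + 2 * Cu^2) * N2 * ((M:ℝ) ^ (-ω) * X) + 8 * (C * (M:ℝ) ^ (-ω)) * X := add_le_add (h3.trans h6) h1
    _ = _ := by ring

end Pool.Agent.W24.CP.SM
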