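import Mathlib
import Pool.Agent.W24.Katai

/-! Kátai's criterion, uniformly over a family. -/

open Finset Filter Topology
open Pool.Agent.W24.Katai

namespace Pool.Agent.W24.CP.SK

/-- the criterion of Daboussi and Kátai, uniformly over multiplicative functions -/
theorem katai_fam {FF : Set (ℕ → ℂ)} (hFF : ∀ F ∈ FF, ∀ n, ‖F n‖ ≤ 1)
    (hpq : ∀ p q : ℕ, p.Prime → q.Prime → p ≠ q → ∀ ε : ℝ, 0 < ε → ∃ K : ℕ, ∀ F ∈ FF, ∀ M : ℕ, ‖cor F p q M‖ ≤ ε * M + K)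
    {ε : ℝ} (hε : 0 < ε) :
    ∃ N0 : ℕ, ∀ N : ℕ, N0 ≤ N → ∀ F ∈ FF, ∀ g : ℕ → ℂ, Mul1 g → ‖∑ n ∈ Ioc 0 N, g n * F n‖ ≤ ε * N := by
  obtain ⟨P, hP, hS⟩ := exists_SS (max 1 (64 / ε^2))
  have hS1 : 1 ≤ SS P := (le_max_left _ _).trans hS
  have hS2 : 64 / ε^2 ≤ SS P := (le_max_right _ _).trans hS
  set S := SS P with hSdef
  have hS0 : 0 < S := by linarith
  set c : ℝ := (P.card : ℝ) with hc
  have hc0 : 0 ≤ c := Nat.cast_nonneg _
  -- correlations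
  have h1 : ∀ p ∈ P, ∀ q ∈ P, p ≠ q → ∃ K : ℕ, ∀ F ∈ FF, ∀ M : ℕ, ‖cor F p q M‖ ≤ 1 / (c^2 + 1) * M + K := by
    intro p hp q hq hne
    exact hpq p q (hP p hp) (hP q hq) hne _ (by positivity)
  choose! K hK using h1
  set K1 : ℕ := ∑ p ∈ P, ∑ q ∈ P, K p q with hK1
  have h2 : ∀ F ∈ FF, ∀ p ∈ P, ∀ q ∈ P, p ≠ q → ∀ M : ℕ, ∀ N : ℕ, M ≤ N → ‖cor F p q M‖ ≤ 1 / (c^2 + 1) * N + K1 := by
    intro F hFm p hp q hq hne M N hMN
    have h3 := hK p hp q hq hne F hFm M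
    have h4 : K p q ≤ K1 := by
      calc K p q ≤ ∑ q ∈ P, K p q := Finset.single_le_sum (f := fun q => K p q) (fun _ _ => Nat.zero_le _) hq
        _ ≤ K1 := Finset.single_le_sum (f := fun p => ∑ q ∈ P, K p q) (fun _ _ => Nat.zero_le _) hp
    have h5 : (K p q : ℝ) ≤ K1 := by exact_mod_cast h4
    have h6 : (M:ℝ) ≤ N := by exact_mod_cast hMN
    have h7 : 1 / (c^2 + 1) * (M:ℝ) ≤ 1 / (c^2 + 1) * N := by gcongr
    linarith
  obtain ⟨N1, hN1⟩ := exists_nat_ge (c^2 * K1)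
  obtain ⟨N2, hN2⟩ := exists_nat_ge (2 * c)
  refine ⟨max N1 N2, fun N hN F hFm g hg => ?_⟩
  have hF := hFF F hFm
  have hNN1 : c^2 * K1 ≤ N := hN1.trans (by exact_mod_cast (le_max_left _ _).trans hN)
  have hNN2 : 2 * c ≤ N := hN2.trans (by exact_mod_cast (le_max_right _ _).trans hN)
  have hN0 : (0:ℝ) ≤ N := Nat.cast_nonneg N
  have s1 := step1 hP hF hg N
  have s2 := step2 hP hF hg N
  have s5 := step5 hP hF hg N (B := 1 / (c^2 + 1) * N + K1) (by positivity)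
    (fun p hp q hq hne M hM => h2 F hFm p hp q hq hne M N hM)
  have s6 := sum_inv_sq_le hP
  rw [← hSdef, ← hc] at s1 s5
  -- the square roots
  have hsS : √S ≤ S := by
    rw [Real.sqrt_le_left hS0.le]; nlinarith
  have hs1 : 1 ≤ √S := by rw [Real.one_le_sqrt]; exact hS1
  have r1 : √(N * (N * S + 2 * S * c)) ≤ 2 * √S * N := by
    rw [Real.sqrt_le_left (by positivity)]
    have : (2 * √S * N)^2 = 4 * S * N^2 := by
      rw [mul_pow, mul_pow, Real.sq_sqrt hS0.le]; ring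
    rw [this]
    have : 2 * S * c ≤ S * N := by nlinarith
    nlinarith [mul_le_mul_of_nonneg_left this hN0]
  have r5 : √(N * (N * S + c^2 * (1 / (c^2 + 1) * N + K1))) ≤ 2 * √S * N := by
    rw [Real.sqrt_le_left (by positivity)]
    have : (2 * √S * N)^2 = 4 * S * N^2 := by
      rw [mul_pow, mul_pow, Real.sq_sqrt hS0.le]; ring
    rw [this]
    have e1 : c^2 * (1 / (c^2 + 1) * N) ≤ N := by
      have : c^2 / (c^2+1) ≤ 1 := by rw [div_le_one (by positivity)]; linarith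
      calc c^2 * (1 / (c^2 + 1) * (N:ℝ)) = c^2 / (c^2+1) * (N:ℝ) := by ring
        _ ≤ 1 * (N:ℝ) := by gcongr
        _ = N := one_mul _
    have e2 : N * S + c^2 * (1 / (c^2 + 1) * N + K1) ≤ 3 * S * N := by nlinarith
    nlinarith [mul_le_mul_of_nonneg_left e2 hN0, mul_nonneg hS0.le (sq_nonneg (N:ℝ))]
  have t1 : ‖(S : ℂ) * ∑ n ∈ Ioc 0 N, g n * F n‖ ≤ 2 * √S * N + 2 * N + 2 * √S * N := by
    have e1 : (S : ℂ) * ∑ n ∈ Ioc 0 N, g n * F n =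
        ((S : ℂ) * ∑ n ∈ Ioc 0 N, g n * F n - ∑ p ∈ P, ∑ m ∈ Ioc 0 (N / p), g (p * m) * F (p * m)) +
        (∑ p ∈ P, ∑ m ∈ Ioc 0 (N / p), g (p * m) * F (p * m) -
      ∑ p ∈ P, ∑ m ∈ Ioc 0 (N / p), g p * g m * F (p * m)) +
        ∑ p ∈ P, ∑ m ∈ Ioc 0 (N / p), g p * g m * F (p * m) := by ring
    rw [e1]
    refine (norm_add_le _ _).trans ?_
    refine (add_le_add (norm_add_le _ _) le_rfl).trans ?_
    have : 2 * (N:ℝ) * ∑ p ∈ P, 1 / (p:ℝ)^2 ≤ 2 * N * 1 := by gcongr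
    linarith
  rw [norm_mul, Complex.norm_real, Real.norm_eq_abs, abs_of_pos hS0] at t1
  have t2 : S * ‖∑ n ∈ Ioc 0 N, g n * F n‖ ≤ 8 * √S * N := by nlinarith
  have t3 : √S * ‖∑ n ∈ Ioc 0 N, g n * F n‖ ≤ 8 * N := by
    have e1 : S = √S * √S := (Real.mul_self_sqrt hS0.le).symm
    have hs0 : 0 < √S := by linarith
    have : √S * (√S * ‖∑ n ∈ Ioc 0 N, g n * F n‖) ≤ √S * (8 * N) := by
      calc √S * (√S * ‖∑ n ∈ Ioc 0 N, g n * F n‖) = S * ‖∑ n ∈ Ioc 0 N, g n * F n‖ := by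
            rw [← mul_assoc, ← e1]
        _ ≤ 8 * √S * N := t2
        _ = _ := by ring
    exact le_of_mul_le_mul_left this hs0
  have t4 : 8 / ε ≤ √S := by
    apply Real.le_sqrt_of_sq_le
    refine le_trans (le_of_eq ?_) hS2
    rw [div_pow]; norm_num
  have t5 : 8 / ε * ‖∑ n ∈ Ioc 0 N, g n * F n‖ ≤ 8 * N :=
    (mul_le_mul_of_nonneg_right t4 (norm_nonneg _)).trans t3
  have t6 : ‖∑ n ∈ Ioc 0 N, g n * F n‖ = ε / 8 * (8 / ε * ‖∑ n ∈ Ioc 0 N, g n * F n‖) := by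
    field_simp
  rw [t6]
  calc ε / 8 * (8 / ε * ‖∑ n ∈ Ioc 0 N, g n * F n‖) ≤ ε / 8 * (8 * N) := by gcongr
    _ = ε * N := by ring

end Pool.Agent.W24.CP.SK
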