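import Mathlib
import Pool.Agent.W24.CP.SK
import Pool.Agent.W24.CP.Fin

/-! Sums of `e(θ√n + αn)` over all integers, and against multiplicative functions. -/

open Finset
open Pool.Agent.H469R2.NK
open Pool.Agent.W24.Katai (Mul1 cor)

namespace Pool.Agent.W24.CP.SC

lemma log_le_quarter {x : ℝ} (hx : 1 ≤ x) : 1 + Real.log x ≤ 5 * x ^ (1/4:ℝ) := by
  have h1 : Real.log x ≤ x ^ (1/4:ℝ) / (1/4) := Real.log_le_rpow_div (by linarith) (by norm_num)
  have h2 : 1 ≤ x ^ (1/4:ℝ) := Real.one_le_rpow hx (by norm_num)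
  have : x ^ (1/4:ℝ) / (1/4) = 4 * x ^ (1/4:ℝ) := by ring
  linarith

/-- complete sums -/
lemma full_sum {h : ℝ} (hh : h ≠ 0) : ∃ C : ℝ, 0 < C ∧ ∀ β : ℝ, ∀ M : ℕ, 1 ≤ M →
    ‖∑ n ∈ Icc 1 M, e (h * √(n:ℝ) + β * n)‖ ≤ C * (M:ℝ) ^ (7/8:ℝ) := by
  have ha : 0 < |h| := abs_pos.mpr hh
  set D : ℝ := √(524 * 5 * (1/|h| + |h|)) with hD
  refine ⟨7 * (2 * D) + 1, by positivity, fun β M hM => ?_⟩
  have key := total_of_block (fun n => e (h * √(n:ℝ) + β * n)) (C := 2 * D) (δ := 1/8) (by positivity) (by norm_num) (by norm_num)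
    (by
      intro N N' hN hNN' hN'
      have hN0 : (1:ℝ) ≤ N := by exact_mod_cast hN
      have h1 := kerIabs hh β N N' (by omega)
      set A : ℝ := ((N + 1 : ℕ):ℝ) with hA
      have hA1 : 1 ≤ A := by rw [hA]; push_cast; linarith
      have hA0 : 0 < A := by linarith
      have hs1 : 1 ≤ √A := by rw [Real.one_le_sqrt]; exact hA1
      have hs3 : √A ^ 3 = A ^ (3/2:ℝ) := by
        rw [Real.sqrt_eq_rpow, ← Real.rpow_natCast, ← Real.rpow_mul hA0.le]; norm_num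
      have h2 : √A ^ 3 / |h| + |h| * √A ≤ (1/|h| + |h|) * A ^ (3/2:ℝ) := by
        rw [← hs3]
        have : √A ≤ √A ^ 3 := by
          calc √A = √A ^ 1 := (pow_one _).symm
            _ ≤ √A ^ 3 := pow_le_pow_right₀ hs1 (by norm_num)
        have h3 : |h| * √A ≤ |h| * √A ^ 3 := mul_le_mul_of_nonneg_left this ha.le
        have h4 : √A ^ 3 / |h| = 1/|h| * √A ^ 3 := by ring
        rw [h4, add_mul]; linarith
      have h3 := log_le_quarter hA1
      have hl0 : 0 ≤ Real.log A := Real.log_nonneg hA1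
      have h4 : ‖∑ n ∈ Ioc N N', e (h * √(n:ℝ) + β * n)‖^2 ≤ (D * A ^ (7/8:ℝ))^2 := by
        refine h1.trans ?_
        calc 524 * ((√A ^ 3 / |h| + |h| * √A) * (1 + Real.log A)) ≤
              524 * (((1/|h| + |h|) * A ^ (3/2:ℝ)) * (5 * A ^ (1/4:ℝ))) := by gcongr
          _ = (524 * 5 * (1/|h| + |h|)) * (A ^ (3/2:ℝ) * A ^ (1/4:ℝ)) := by ring
          _ = D^2 * (A ^ (7/8:ℝ))^2 := by
              rw [hD, Real.sq_sqrt (by positivity), ← Real.rpow_add hA0, ← Real.rpow_natCast, ← Real.rpow_mul hA0.le]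
              norm_num
          _ = _ := by ring
      have h5 := (le_abs_self _).trans (abs_le_of_sq_le_sq h4 (by positivity))
      refine h5.trans ?_
      have h6 : A ^ (7/8:ℝ) ≤ 2 * (N:ℝ) ^ (7/8:ℝ) := by
        calc A ^ (7/8:ℝ) ≤ (2 * (N:ℝ)) ^ (7/8:ℝ) := by
              apply Real.rpow_le_rpow hA0.le _ (by norm_num)
              rw [hA]; push_cast; linarith
          _ = (2:ℝ) ^ (7/8:ℝ) * (N:ℝ) ^ (7/8:ℝ) := Real.mul_rpow (by norm_num) (by linarith)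
          _ ≤ 2 * (N:ℝ) ^ (7/8:ℝ) := by
              apply mul_le_mul_of_nonneg_right _ (by positivity)
              calc (2:ℝ) ^ (7/8:ℝ) ≤ (2:ℝ) ^ (1:ℝ) := Real.rpow_le_rpow_of_exponent_le (by norm_num) (by norm_num)
                _ = 2 := by norm_num
      have h7 : (1:ℝ) - 1/8 = 7/8 := by norm_num
      rw [h7]
      calc D * A ^ (7/8:ℝ) ≤ D * (2 * (N:ℝ) ^ (7/8:ℝ)) := by gcongr
        _ = _ := by ring) M hM
  have h7 : (1:ℝ) - 1/8 = 7/8 := by norm_num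
  rw [h7, norm_e] at key
  exact key

/-- the family of the functions `e(θ√n + αn)`, `θ` fixed -/
def Fam (θ : ℝ) : Set (ℕ → ℂ) := {F | ∃ α : ℝ, F = fun n : ℕ => e (θ * √(n:ℝ) + α * n)}

theorem mult_sum {θ : ℝ} (hθ : θ ≠ 0) {ε : ℝ} (hε : 0 < ε) :
    ∃ N0 : ℕ, ∀ N : ℕ, N0 ≤ N → ∀ α : ℝ, ∀ g : ℕ → ℂ, Mul1 g →
      ‖∑ n ∈ Ioc 0 N, g n * e (θ * √(n:ℝ) + α * n)‖ ≤ ε * N := by
  obtain ⟨N0, h⟩ := SK.katai_fam (FF := Fam θ) (by
      rintro F ⟨α, rfl⟩ n
      exact (norm_e _).le) (by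
      intro p q hp hq hne η hη
      have hpq : θ * (√(p:ℝ) - √(q:ℝ)) ≠ 0 := by
        apply mul_ne_zero hθ
        rw [sub_ne_zero]
        intro h
        have h1 : (p:ℝ) = q := by
          have := congrArg (fun x => x^2) h
          simp only [Real.sq_sqrt (Nat.cast_nonneg p), Real.sq_sqrt (Nat.cast_nonneg q)] at this
          exact this
        exact hne (by exact_mod_cast h1)
      obtain ⟨C, hC, hfull⟩ := full_sum hpq
      -- C M^{7/8} ≤ η M + K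
      obtain ⟨K, hK⟩ := exists_nat_ge (C^8 / η^7)
      refine ⟨K, ?_⟩
      rintro F ⟨α, rfl⟩ M
      rcases Nat.eq_zero_or_pos M with rfl | hM
      · simp [cor]
      have hM0 : (0:ℝ) < M := by exact_mod_cast hM
      have e1 : cor (fun n : ℕ => e (θ * √(n:ℝ) + α * n)) p q M =
          ∑ m ∈ Icc 1 M, e ((θ * (√(p:ℝ) - √(q:ℝ))) * √(m:ℝ) + (α * ((p:ℝ) - q)) * m) := by
        unfold cor
        have : Ioc 0 M = Icc 1 M := by ext x; simp only [mem_Ioc, mem_Icc]; omega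
        rw [this]
        apply sum_congr rfl; intro m _
        rw [conj_e, ← e_add]
        congr 1
        push_cast
        rw [Real.sqrt_mul (Nat.cast_nonneg p), Real.sqrt_mul (Nat.cast_nonneg q)]
        ring
      rw [e1]
      refine (hfull _ M hM).trans ?_
      by_cases hc : C * (M:ℝ) ^ (7/8:ℝ) ≤ η * M
      · have : (0:ℝ) ≤ K := Nat.cast_nonneg K
        linarith
      · push Not at hc
        -- then M < (C/η)^8, so C M^{7/8} < C (C/η)^7 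
        have h1 : η * (M:ℝ) ^ (1/8:ℝ) < C := by
          have e2 : (M:ℝ) = (M:ℝ) ^ (7/8:ℝ) * (M:ℝ) ^ (1/8:ℝ) := by
            rw [← Real.rpow_add hM0]; norm_num
          have h2 : (M:ℝ) ^ (7/8:ℝ) * (η * (M:ℝ) ^ (1/8:ℝ)) < (M:ℝ) ^ (7/8:ℝ) * C := by
            calc (M:ℝ) ^ (7/8:ℝ) * (η * (M:ℝ) ^ (1/8:ℝ)) = η * ((M:ℝ) ^ (7/8:ℝ) * (M:ℝ) ^ (1/8:ℝ)) := by ring
              _ = η * M := by rw [← e2]
              _ < C * (M:ℝ) ^ (7/8:ℝ) := hc
              _ = _ := by ring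
          exact lt_of_mul_lt_mul_left h2 (by positivity)
        have h2 : (M:ℝ) ^ (1/8:ℝ) ≤ C / η := by rw [le_div_iff₀ hη]; linarith
        have h3 : (M:ℝ) ^ (7/8:ℝ) ≤ (C/η)^7 := by
          have e3 : (M:ℝ) ^ (7/8:ℝ) = ((M:ℝ) ^ (1/8:ℝ))^7 := by
            rw [← Real.rpow_natCast, ← Real.rpow_mul hM0.le]; norm_num
          rw [e3]
          exact pow_le_pow_left₀ (by positivity) h2 7
        have h4 : C * (M:ℝ) ^ (7/8:ℝ) ≤ C^8 / η^7 := by
          calc C * (M:ℝ) ^ (7/8:ℝ) ≤ C * (C/η)^7 := by gcongr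
            _ = C^8 / η^7 := by rw [div_pow]; ring
        have h5 : 0 ≤ η * (M:ℝ) := by positivity
        linarith) hε
  exact ⟨N0, fun N hN α g hg => h N hN _ ⟨α, rfl⟩ g hg⟩

end Pool.Agent.W24.CP.SC
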