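import Mathlib
import Pool.Agent.W24.CP.SC
import Pool.Agent.H425R3.JL.P1

/-! Sums over primes. -/

open Finset
open Pool.Agent.H469R2.NK
open Pool.Agent.H425R3.JL (PR to_primes)

namespace Pool.Agent.W24.CP.SP

/-- sums over primes of `e(θ√p + αp)` -/
theorem prime_es : ∃ C : ℝ, 0 < C ∧ ∀ N : ℕ, 9 ≤ N → ∀ θ : ℝ, θ ≠ 0 → |θ| + 1/|θ| ≤ 2 * (N:ℝ) ^ (1/32:ℝ) → ∀ α : ℝ,
    ‖∑ p ∈ PR N, e (α * p) * e (θ * √(p:ℝ))‖ ≤ C * (N:ℝ) ^ (127/128:ℝ) := by
  obtain ⟨A, hA, hwv⟩ := wv_exists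
  refine ⟨9 + 4 * (7 * A + 20), by positivity, ?_⟩
  intro N hN θ hθ hθN α
  have hN0 : (9:ℝ) ≤ N := by exact_mod_cast hN
  have hNpos : (0:ℝ) < N := by linarith
  have hN1 : (1:ℝ) ≤ N := by linarith
  set y : ℕ := ⌈(N:ℝ) ^ (1/4:ℝ)⌉₊ with hy
  have hyge : (N:ℝ) ^ (1/4:ℝ) ≤ y := Nat.le_ceil _
  have hq1 : 1 ≤ (N:ℝ) ^ (1/4:ℝ) := Real.one_le_rpow hN1 (by norm_num)
  have hyle : (y:ℝ) ≤ 2 * (N:ℝ) ^ (1/4:ℝ) := by
    have := Nat.ceil_lt_add_one (by positivity : 0 ≤ (N:ℝ) ^ (1/4:ℝ))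
    rw [← hy] at this
    linarith
  have hy1 : 1 ≤ y := by
    have : (1:ℝ) ≤ y := hq1.trans hyge
    exact_mod_cast this
  have hy1r : (1:ℝ) ≤ y := by exact_mod_cast hy1
  have hθy : |θ| + 1/|θ| ≤ 2 * (y:ℝ) ^ (1/8:ℝ) := by
    refine hθN.trans ?_
    apply mul_le_mul_of_nonneg_left _ (by norm_num)
    calc (N:ℝ) ^ (1/32:ℝ) = ((N:ℝ) ^ (1/4:ℝ)) ^ (1/8:ℝ) := by rw [← Real.rpow_mul hNpos.le]; norm_num
      _ ≤ _ := Real.rpow_le_rpow (by positivity) hyge (by norm_num)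
  set v : ℕ → ℂ := fun n => ((ArithmeticFunction.vonMangoldt n : ℝ) : ℂ) * e (α * n) * e (θ * √(n:ℝ)) with hv
  have hwvα := (hwv α).1
  -- the tail
  have htail : ∀ x : ℕ, ‖∑ n ∈ Ioc y x, v n‖ ≤ 7 * A * (x:ℝ) ^ (127/128:ℝ) := by
    intro x
    induction x using Nat.strong_induction_on with
    | _ x ih =>
      rcases Nat.lt_or_ge x (y + 1) with h1 | h1
      · rw [Ioc_eq_empty (by omega), sum_empty, norm_zero]; positivity
      · have hes : ∀ z : ℕ, y ≤ z → z ≤ x → x ≤ 2 * z → ‖∑ n ∈ Ioc z x, v n‖ ≤ A * (z:ℝ) ^ (127/128:ℝ) := by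
          intro z hyz hzx hxz
          refine hwvα.es z x (by omega) hzx hxz θ hθ (hθy.trans ?_)
          apply mul_le_mul_of_nonneg_left _ (by norm_num)
          exact Real.rpow_le_rpow (by positivity) (by exact_mod_cast hyz) (by norm_num)
        have hx0 : (0:ℝ) ≤ x := Nat.cast_nonneg x
        rcases Nat.lt_or_ge (2 * y) x with h2 | h2
        · set z := (x + 1) / 2 with hz
          have hzx : z < x := by omega
          have hxz : x ≤ 2 * z := by omega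
          have hyz : y ≤ z := by omega
          have i1 := ih z hzx
          have i2 := hes z hyz hzx.le hxz
          have hsplit : ∑ n ∈ Ioc y x, v n = ∑ n ∈ Ioc y z, v n + ∑ n ∈ Ioc z x, v n := by
            rw [← sum_union]
            · apply sum_congr _ fun _ _ => rfl
              ext n; simp only [mem_union, mem_Ioc]; omega
            · rw [disjoint_left]
              intro n hn hn2
              rw [mem_Ioc] at hn hn2
              omega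
          have hzle : (z:ℝ) ≤ 3/4 * x := by
            have h4 : ((2 * z : ℕ):ℝ) ≤ ((x + 1 : ℕ):ℝ) := by exact_mod_cast (by omega : 2 * z ≤ x + 1)
            push_cast at h4
            have h5 : (2:ℝ) ≤ x := by exact_mod_cast (by omega : 2 ≤ x)
            linarith
          have hzp : (z:ℝ) ^ (127/128:ℝ) ≤ 7/8 * (x:ℝ) ^ (127/128:ℝ) := by
            calc (z:ℝ) ^ (127/128:ℝ) ≤ (3/4 * (x:ℝ)) ^ (127/128:ℝ) := Real.rpow_le_rpow (Nat.cast_nonneg z) hzle (by norm_num)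
              _ = (3/4:ℝ) ^ (127/128:ℝ) * (x:ℝ) ^ (127/128:ℝ) := Real.mul_rpow (by norm_num) hx0
              _ ≤ 7/8 * (x:ℝ) ^ (127/128:ℝ) := by
                  apply mul_le_mul_of_nonneg_right _ (by positivity)
                  calc (3/4:ℝ) ^ (127/128:ℝ) ≤ (3/4:ℝ) ^ (1/2:ℝ) :=
                        Real.rpow_le_rpow_of_exponent_ge (by norm_num) (by norm_num) (by norm_num)
                    _ ≤ 7/8 := by
                        rw [← Real.sqrt_eq_rpow, Real.sqrt_le_left (by norm_num)]; norm_num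
          rw [hsplit]
          refine (norm_add_le _ _).trans ?_
          calc _ ≤ 7 * A * (z:ℝ) ^ (127/128:ℝ) + A * (z:ℝ) ^ (127/128:ℝ) := add_le_add i1 i2
            _ = 8 * A * (z:ℝ) ^ (127/128:ℝ) := by ring
            _ ≤ 8 * A * (7/8 * (x:ℝ) ^ (127/128:ℝ)) := mul_le_mul_of_nonneg_left hzp (by positivity)
            _ = _ := by ring
        · have i1 := hes y le_rfl (by omega) h2
          refine i1.trans ?_
          have h3 : (y:ℝ) ^ (127/128:ℝ) ≤ (x:ℝ) ^ (127/128:ℝ) :=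
            Real.rpow_le_rpow (by positivity) (by exact_mod_cast (by omega : y ≤ x)) (by norm_num)
          have h4 : A * (y:ℝ) ^ (127/128:ℝ) ≤ A * (x:ℝ) ^ (127/128:ℝ) := mul_le_mul_of_nonneg_left h3 hA.le
          have h5 : 0 ≤ A * (x:ℝ) ^ (127/128:ℝ) := by positivity
          linarith
  -- the head
  have hhead : ∀ x : ℕ, ‖∑ n ∈ Icc 1 (min x y), v n‖ ≤ 20 * (N:ℝ) ^ (127/128:ℝ) := by
    intro x
    calc ‖∑ n ∈ Icc 1 (min x y), v n‖ ≤ ∑ n ∈ Icc 1 (min x y), (1 + Real.log y) := by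
          refine (norm_sum_le _ _).trans (sum_le_sum fun n hn => ?_)
          rw [mem_Icc] at hn
          have h1 := hwvα.bd n hn.1
          simp only [hv]
          rw [norm_mul, norm_e, mul_one]
          refine h1.trans ?_
          have : Real.log n ≤ Real.log y := by
            apply Real.log_le_log (by exact_mod_cast (by omega : 0 < n))
            exact_mod_cast (by omega : n ≤ y)
          linarith
      _ = (min x y : ℕ) * (1 + Real.log y) := by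
          rw [sum_const, Nat.card_Icc, nsmul_eq_mul, Nat.add_sub_cancel]
      _ ≤ y * (5 * (y:ℝ) ^ (1/4:ℝ)) := by
          have h1 := SC.log_le_quarter hy1r
          have h2 : ((min x y : ℕ):ℝ) ≤ y := by exact_mod_cast min_le_right x y
          have h3 : 0 ≤ Real.log (y:ℝ) := Real.log_nonneg hy1r
          gcongr
      _ ≤ (2 * (N:ℝ) ^ (1/4:ℝ)) * (5 * (2 * (N:ℝ) ^ (1/4:ℝ))) := by
          have : (y:ℝ) ^ (1/4:ℝ) ≤ 2 * (N:ℝ) ^ (1/4:ℝ) := by
            refine le_trans ?_ hyle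
            calc (y:ℝ) ^ (1/4:ℝ) ≤ (y:ℝ) ^ (1:ℝ) := Real.rpow_le_rpow_of_exponent_le hy1r (by norm_num)
              _ = y := Real.rpow_one _
          gcongr
      _ = 20 * ((N:ℝ) ^ (1/4:ℝ) * (N:ℝ) ^ (1/4:ℝ)) := by ring
      _ = 20 * (N:ℝ) ^ (1/2:ℝ) := by rw [← Real.rpow_add hNpos]; norm_num
      _ ≤ _ := by
          apply mul_le_mul_of_nonneg_left _ (by norm_num)
          exact Real.rpow_le_rpow_of_exponent_le hN1 (by norm_num)
  have hall : ∀ t : ℕ, Nat.sqrt N ≤ t → t ≤ N →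
      ‖∑ n ∈ Icc 1 t, ((ArithmeticFunction.vonMangoldt n : ℝ) : ℂ) * (e (α * n) * e (θ * √(n:ℝ)))‖ ≤
        (7 * A + 20) * (N:ℝ) ^ (127/128:ℝ) := by
    intro t _ htN
    have hsplit : ∑ n ∈ Icc 1 t, ((ArithmeticFunction.vonMangoldt n : ℝ) : ℂ) * (e (α * n) * e (θ * √(n:ℝ))) =
        ∑ n ∈ Icc 1 (min t y), v n + ∑ n ∈ Ioc y t, v n := by
      rw [← sum_union]
      · apply sum_congr
        · ext n; simp only [mem_union, mem_Icc, mem_Ioc, le_min_iff]; omega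
        · intro n _
          simp only [hv]; ring
      · rw [disjoint_left]
        intro n hn hn2
        rw [mem_Icc, le_min_iff] at hn
        rw [mem_Ioc] at hn2
        omega
    rw [hsplit]
    refine (norm_add_le _ _).trans ?_
    have h1 := hhead t
    have h2 := htail t
    have h3 : 7 * A * (t:ℝ) ^ (127/128:ℝ) ≤ 7 * A * (N:ℝ) ^ (127/128:ℝ) := by
      apply mul_le_mul_of_nonneg_left _ (by positivity)
      exact Real.rpow_le_rpow (Nat.cast_nonneg t) (by exact_mod_cast htN) (by norm_num)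
    linarith
  have key := to_primes (g := fun n : ℕ => e (α * n) * e (θ * √(n:ℝ))) (fun n => by rw [norm_mul, norm_e, norm_e, one_mul]) hN hall
  refine key.trans ?_
  have hlog : 1 ≤ Real.log N := by
    rw [Real.le_log_iff_exp_le hNpos]
    have := Real.exp_one_lt_d9
    linarith
  have h1 : √(N:ℝ) ≤ (N:ℝ) ^ (127/128:ℝ) := by
    rw [Real.sqrt_eq_rpow]; exact Real.rpow_le_rpow_of_exponent_le hN1 (by norm_num)
  have h2 : 4 * ((7 * A + 20) * (N:ℝ) ^ (127/128:ℝ)) / Real.log N ≤ 4 * ((7 * A + 20) * (N:ℝ) ^ (127/128:ℝ)) :=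
    div_le_self (by positivity) hlog
  calc _ ≤ 9 * (N:ℝ) ^ (127/128:ℝ) + 4 * ((7 * A + 20) * (N:ℝ) ^ (127/128:ℝ)) := by linarith
    _ = _ := by ring

/-- quadratic form -/
lemma quad_sum (P T : Finset ℕ) (a θ : ℕ → ℝ) {B : ℝ}
    (hB : ∀ m ∈ T, ∀ m' ∈ T, m ≠ m' → ‖∑ p ∈ P, e ((θ m - θ m') * √(p:ℝ))‖ ≤ B) (hB0 : 0 ≤ B) :
    ∑ p ∈ P, ‖∑ m ∈ T, ((a m : ℝ) : ℂ) * e (θ m * √(p:ℝ))‖^2 ≤ P.card * ∑ m ∈ T, (a m)^2 + (∑ m ∈ T, |a m|)^2 * B := by
  have e1 : ((∑ p ∈ P, ‖∑ m ∈ T, ((a m : ℝ) : ℂ) * e (θ m * √(p:ℝ))‖^2 : ℝ) : ℂ) =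
      ∑ m ∈ T, ∑ m' ∈ T, ((a m * a m' : ℝ) : ℂ) * ∑ p ∈ P, e ((θ m - θ m') * √(p:ℝ)) := by
    have h1 : ∀ p ∈ P, ((‖∑ m ∈ T, ((a m : ℝ) : ℂ) * e (θ m * √(p:ℝ))‖^2 : ℝ) : ℂ) =
        ∑ m ∈ T, ∑ m' ∈ T, ((a m * a m' : ℝ) : ℂ) * e ((θ m - θ m') * √(p:ℝ)) := by
      intro p _
      have : ((‖∑ m ∈ T, ((a m : ℝ) : ℂ) * e (θ m * √(p:ℝ))‖^2 : ℝ) : ℂ) =
          (∑ m ∈ T, ((a m : ℝ) : ℂ) * e (θ m * √(p:ℝ))) * (starRingEnd ℂ) (∑ m ∈ T, ((a m : ℝ) : ℂ) * e (θ m * √(p:ℝ))) := by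
        rw [Complex.mul_conj, Complex.normSq_eq_norm_sq]
      rw [this, map_sum, sum_mul_sum]
      apply sum_congr rfl; intro m _
      apply sum_congr rfl; intro m' _
      rw [map_mul, conj_e, Complex.conj_ofReal, sub_mul, sub_eq_add_neg, e_add]
      push_cast; ring
    push_cast
    push_cast at h1
    rw [sum_congr rfl h1, sum_comm]
    apply sum_congr rfl; intro m _
    rw [sum_comm]
    apply sum_congr rfl; intro m' _
    rw [mul_sum]
  have e2 : ∑ p ∈ P, ‖∑ m ∈ T, ((a m : ℝ) : ℂ) * e (θ m * √(p:ℝ))‖^2 =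
      ‖((∑ p ∈ P, ‖∑ m ∈ T, ((a m : ℝ) : ℂ) * e (θ m * √(p:ℝ))‖^2 : ℝ) : ℂ)‖ := by
    rw [Complex.norm_real, Real.norm_eq_abs, abs_of_nonneg (sum_nonneg fun _ _ => by positivity)]
  rw [e2, e1]
  have h3 : ∀ m ∈ T, ∀ m' ∈ T, ‖((a m * a m' : ℝ) : ℂ) * ∑ p ∈ P, e ((θ m - θ m') * √(p:ℝ))‖ ≤
      (if m = m' then (P.card:ℝ) * (a m)^2 else 0) + |a m| * |a m'| * B := by
    intro m hm m' hm'
    rw [norm_mul, Complex.norm_real, Real.norm_eq_abs, abs_mul]
    by_cases h : m = m'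
    · subst h
      rw [if_pos rfl]
      have h4 : ‖∑ p ∈ P, e ((θ m - θ m) * √(p:ℝ))‖ ≤ P.card := by
        refine (norm_sum_le _ _).trans ?_
        simp only [norm_e, sum_const, nsmul_eq_mul, mul_one, le_refl]
      have h5 : |a m| * |a m| = (a m)^2 := by rw [← sq, sq_abs]
      rw [h5]
      have h6 := mul_le_mul_of_nonneg_left h4 (sq_nonneg (a m))
      have h7 : 0 ≤ (a m)^2 * B := by positivity
      linarith
    · rw [if_neg h, zero_add]
      exact mul_le_mul_of_nonneg_left (hB m hm m' hm' h) (by positivity)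
  calc _ ≤ ∑ m ∈ T, ∑ m' ∈ T, ((if m = m' then (P.card:ℝ) * (a m)^2 else 0) + |a m| * |a m'| * B) := by
        refine (norm_sum_le _ _).trans (sum_le_sum fun m hm => ?_)
        exact (norm_sum_le _ _).trans (sum_le_sum fun m' hm' => h3 m hm m' hm')
    _ = P.card * ∑ m ∈ T, (a m)^2 + (∑ m ∈ T, |a m|)^2 * B := by
        have h4 : ∀ m ∈ T, ∑ m' ∈ T, ((if m = m' then (P.card:ℝ) * (a m)^2 else 0) + |a m| * |a m'| * B) =
            (P.card:ℝ) * (a m)^2 + |a m| * (∑ m' ∈ T, |a m'|) * B := by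
          intro m hm
          rw [sum_add_distrib, sum_ite_eq, if_pos hm, ← sum_mul, ← mul_sum]
        rw [sum_congr rfl h4, sum_add_distrib, ← mul_sum, ← sum_mul, ← sum_mul]
        ring

end Pool.Agent.W24.CP.SP
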