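import Mathlib
import Pool.Agent.W24.CP.SM
import Pool.Agent.W24.CP.SP

/-! Mean-square approximation along linear forms, over the integers and over the primes. -/

open Finset Filter Topology
open Pool.Agent.H383
open Pool.Agent.H383.Gen (Bd U)
open Pool.Agent.H452R2.Win Pool.Agent.H452R2.Om
open Pool.Agent.H469R2.NK
open Pool.Agent.H425R3.JL (PR pi_low)

namespace Pool.Agent.W24.CP.SA

variable {E : ℝ → ℝ} {af : ℕ → ℝ} {φ : ℝ} {w : ℝ → ℂ}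

lemma lin_diff {c : ℝ} (hc : 0 < c) {A : ℕ} (hA : 1 ≤ A) (B : ℕ) {n : ℕ} (hn : 1 ≤ n) :
    |c * √((A * n + B : ℕ):ℝ) - (c * √(A:ℝ)) * √(n:ℝ)| ≤ c * B / √(n:ℝ) := by
  have hA1 : (1:ℝ) ≤ A := by exact_mod_cast hA
  have hn1 : (1:ℝ) ≤ n := by exact_mod_cast hn
  have hB0 : (0:ℝ) ≤ B := Nat.cast_nonneg B
  have hsn : 0 < √(n:ℝ) := Real.sqrt_pos.mpr (by linarith)
  set x := √((A * n + B : ℕ):ℝ) with hx
  set y := √((A:ℝ) * n) with hy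
  have hxy : y = √(A:ℝ) * √(n:ℝ) := Real.sqrt_mul (by linarith) _
  have hx2 : x * x = A * n + B := by
    rw [hx, Real.mul_self_sqrt (Nat.cast_nonneg _)]; push_cast; ring
  have hy2 : y * y = A * n := Real.mul_self_sqrt (by positivity)
  have hyn : √(n:ℝ) ≤ y := Real.sqrt_le_sqrt (by nlinarith)
  have hy0 : 0 < y := by linarith
  have hx0 : 0 ≤ x := Real.sqrt_nonneg _
  have hyx : y ≤ x := by
    apply Real.sqrt_le_sqrt; push_cast; linarith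
  have e1 : c * x - (c * √(A:ℝ)) * √(n:ℝ) = c * (x - y) := by rw [hxy]; ring
  rw [e1, abs_mul, abs_of_pos hc, abs_of_nonneg (by linarith), mul_div_assoc]
  apply mul_le_mul_of_nonneg_left _ hc.le
  rw [le_div_iff₀ hsn]
  calc (x - y) * √(n:ℝ) ≤ (x - y) * (x + y) := by
        apply mul_le_mul_of_nonneg_left _ (by linarith)
        linarith
    _ = B := by nlinarith

lemma harm_Icc (N : ℕ) (hN : 1 ≤ N) : ∑ n ∈ Icc 1 N, (1:ℝ) / n ≤ 1 + Real.log N := by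
  have h1 : ∑ n ∈ Icc 1 N, (1:ℝ) / n = ((harmonic N : ℚ) : ℝ) := by
    rw [harmonic_eq_sum_Icc]; push_cast
    apply sum_congr rfl; intro x _; simp
  rw [h1]
  exact harmonic_le_one_add_log N

/-- the mean square along a linear form -/
theorem lin_ms (ha : Bdw af) (ha0 : af 0 = 0) (hw : GW.Wt w) {κ₁ κ₂ : ℝ} (hS : SandW E af φ w κ₁ κ₂) {c : ℝ} (hc : 0 < c) :
    ∃ ω : ℝ, 0 < ω ∧ ω ≤ 1/200 ∧ ∀ A B : ℕ, 1 ≤ A → ∃ C : ℝ, 0 < C ∧ ∀ M N : ℕ, 1 ≤ M → M^40 ≤ N →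
      ∑ n ∈ Icc 1 N, (E (c * √((A * n + B : ℕ):ℝ)) - U af φ ((c * √(A:ℝ)) * √(n:ℝ)) M)^2 ≤ C * (M:ℝ) ^ (-ω) * N := by
  obtain ⟨ω, hω, hω2, C, hC, hms⟩ := SM.ms_total ha ha0 hw hS hc
  obtain ⟨K, hK, hlip⟩ := U_lip ha.Bd φ
  refine ⟨ω, hω, hω2, fun A B hA => ⟨2 * C * (A + B) + 10 * (K * c * B)^2 , by
    have : (1:ℝ) ≤ A := by exact_mod_cast hA
    positivity, ?_⟩⟩
  intro M N hM hMN
  have hN : 1 ≤ N := le_trans (Nat.one_le_pow _ _ hM) hMN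
  have hN1 : (1:ℝ) ≤ N := by exact_mod_cast hN
  have hN0 : (0:ℝ) < N := by linarith
  have hM1 : (1:ℝ) ≤ M := by exact_mod_cast hM
  have hM0 : (0:ℝ) < M := by linarith
  have hMN' : (M:ℝ)^40 ≤ N := by exact_mod_cast hMN
  set f : ℕ → ℝ := fun k => (E (c * √(k:ℝ)) - U af φ (c * √(k:ℝ)) M)^2 with hf
  set X : ℕ := (A + B) * N with hX
  have h1 : ∑ n ∈ Icc 1 N, f (A * n + B) ≤ C * (M:ℝ) ^ (-ω) * X := by
    have e1 : ∑ n ∈ Icc 1 N, f (A * n + B) = ∑ k ∈ (Icc 1 N).image (fun n => A * n + B), f k := by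
      rw [sum_image]
      intro x _ y _ hxy
      simp only at hxy
      have : A * x = A * y := by omega
      exact Nat.eq_of_mul_eq_mul_left (by omega) this
    rw [e1]
    refine le_trans ?_ (hms M X hM (hMN.trans (Nat.le_mul_of_pos_left _ (by omega))))
    apply sum_le_sum_of_subset_of_nonneg
    · intro k hk
      rw [mem_image] at hk
      obtain ⟨n, hn, rfl⟩ := hk
      rw [mem_Icc] at hn ⊢
      constructor
      · nlinarith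
      · rw [hX]; nlinarith
    · intro _ _ _; exact sq_nonneg _
  have h2 : ∀ n ∈ Icc 1 N, (E (c * √((A * n + B : ℕ):ℝ)) - U af φ ((c * √(A:ℝ)) * √(n:ℝ)) M)^2 ≤
      2 * f (A * n + B) + 2 * ((K * c * B)^2 * (M:ℝ)^4 * (1 / (n:ℝ))) := by
    intro n hn
    rw [mem_Icc] at hn
    have hn0 : (0:ℝ) < n := by exact_mod_cast hn.1
    set x := E (c * √((A * n + B : ℕ):ℝ)) - U af φ (c * √((A * n + B : ℕ):ℝ)) M with hx
    set y := U af φ (c * √((A * n + B : ℕ):ℝ)) M - U af φ ((c * √(A:ℝ)) * √(n:ℝ)) M with hy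
    have e1 : E (c * √((A * n + B : ℕ):ℝ)) - U af φ ((c * √(A:ℝ)) * √(n:ℝ)) M = x + y := by rw [hx, hy]; ring
    have h3 : |y| ≤ K * (M:ℝ)^2 * (c * B / √(n:ℝ)) :=
      (hlip M _ _).trans (mul_le_mul_of_nonneg_left (lin_diff hc hA B hn.1) (by positivity))
    have h4 : y^2 ≤ (K * c * B)^2 * (M:ℝ)^4 * (1 / (n:ℝ)) := by
      rw [← sq_abs]
      refine (pow_le_pow_left₀ (abs_nonneg _) h3 2).trans (le_of_eq ?_)
      rw [mul_pow, mul_pow, div_pow, Real.sq_sqrt hn0.le]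
      ring
    have h5 : f (A * n + B) = x^2 := rfl
    rw [e1, h5]
    nlinarith [sq_nonneg (x - y)]
  have h3 : (M:ℝ)^4 * (1 + Real.log N) ≤ 5 * ((M:ℝ) ^ (-ω) * N) := by
    have h4 := SC.log_le_quarter hN1
    have h5 : (M:ℝ)^4 * (N:ℝ) ^ (1/4:ℝ) ≤ (M:ℝ) ^ (-ω) * N := by
      have e1 : (N:ℝ) = (N:ℝ) ^ (3/4:ℝ) * (N:ℝ) ^ (1/4:ℝ) := by rw [← Real.rpow_add hN0]; norm_num
      have h6 : (M:ℝ)^4 ≤ (M:ℝ) ^ (-ω) * (N:ℝ) ^ (3/4:ℝ) := by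
        have h7 : (M:ℝ) ^ (30:ℝ) ≤ (N:ℝ) ^ (3/4:ℝ) := by
          calc (M:ℝ) ^ (30:ℝ) = ((M:ℝ)^40) ^ (3/4:ℝ) := by
                rw [← Real.rpow_natCast, ← Real.rpow_mul hM0.le]; norm_num
            _ ≤ _ := Real.rpow_le_rpow (by positivity) hMN' (by norm_num)
        calc (M:ℝ)^4 = (M:ℝ) ^ (4:ℝ) := by rw [← Real.rpow_natCast]; norm_num
          _ ≤ (M:ℝ) ^ (-ω + 30) := Real.rpow_le_rpow_of_exponent_le hM1 (by linarith)
          _ = (M:ℝ) ^ (-ω) * (M:ℝ) ^ (30:ℝ) := Real.rpow_add hM0 _ _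
          _ ≤ _ := mul_le_mul_of_nonneg_left h7 (by positivity)
      calc (M:ℝ)^4 * (N:ℝ) ^ (1/4:ℝ) ≤ ((M:ℝ) ^ (-ω) * (N:ℝ) ^ (3/4:ℝ)) * (N:ℝ) ^ (1/4:ℝ) := by gcongr
        _ = (M:ℝ) ^ (-ω) * ((N:ℝ) ^ (3/4:ℝ) * (N:ℝ) ^ (1/4:ℝ)) := by ring
        _ = _ := by rw [← e1]
    calc (M:ℝ)^4 * (1 + Real.log N) ≤ (M:ℝ)^4 * (5 * (N:ℝ) ^ (1/4:ℝ)) := by gcongr
      _ = 5 * ((M:ℝ)^4 * (N:ℝ) ^ (1/4:ℝ)) := by ring
      _ ≤ _ := mul_le_mul_of_nonneg_left h5 (by norm_num)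
  calc _ ≤ ∑ n ∈ Icc 1 N, (2 * f (A * n + B) + 2 * ((K * c * B)^2 * (M:ℝ)^4 * (1 / (n:ℝ)))) := sum_le_sum h2
    _ = 2 * ∑ n ∈ Icc 1 N, f (A * n + B) + 2 * ((K * c * B)^2 * (M:ℝ)^4 * ∑ n ∈ Icc 1 N, (1:ℝ) / n) := by
        rw [sum_add_distrib, ← mul_sum, ← mul_sum, ← mul_sum]
    _ ≤ 2 * (C * (M:ℝ) ^ (-ω) * X) + 2 * ((K * c * B)^2 * (M:ℝ)^4 * (1 + Real.log N)) := by
        have := harm_Icc N hN
        gcongr
    _ = 2 * (C * (M:ℝ) ^ (-ω) * X) + 2 * ((K * c * B)^2 * ((M:ℝ)^4 * (1 + Real.log N))) := by ring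
    _ ≤ 2 * (C * (M:ℝ) ^ (-ω) * X) + 2 * ((K * c * B)^2 * (5 * ((M:ℝ) ^ (-ω) * N))) := by gcongr
    _ = _ := by rw [hX]; push_cast; ring

lemma U_sub (R : ℝ) {M M' : ℕ} (hMM : M ≤ M') :
    U af φ R M' - U af φ R M = ∑ m ∈ Ioc (M^2) (M'^2), af m * Real.cos (2 * Real.pi * (R * √(m:ℝ)) - φ) := by
  unfold U
  have h : M^2 ≤ M'^2 := Nat.pow_le_pow_left hMM 2
  have : Icc 1 (M'^2) = Icc 1 (M^2) ∪ Ioc (M^2) (M'^2) := by
    ext n; simp only [mem_union, mem_Icc, mem_Ioc]; omega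
  rw [this, sum_union (by
    rw [disjoint_left]; intro n hn hn2
    rw [mem_Icc] at hn; rw [mem_Ioc] at hn2; omega)]
  ring

lemma U_sub_le (c : ℝ) (n : ℕ) {M M' : ℕ} (hMM : M ≤ M') :
    (U af φ (c * √(n:ℝ)) M' - U af φ (c * √(n:ℝ)) M)^2 ≤
      ‖∑ m ∈ Ioc (M^2) (M'^2), ((af m : ℝ) : ℂ) * e ((c * √(m:ℝ)) * √(n:ℝ))‖^2 := by
  rw [U_sub _ hMM, ← sq_abs]
  apply pow_le_pow_left₀ (abs_nonneg _)
  have e1 : ∑ m ∈ Ioc (M^2) (M'^2), af m * Real.cos (2 * Real.pi * ((c * √(n:ℝ)) * √(m:ℝ)) - φ) =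
      (Complex.exp ((-φ : ℝ) * Complex.I) * ∑ m ∈ Ioc (M^2) (M'^2), ((af m : ℝ) : ℂ) * e ((c * √(m:ℝ)) * √(n:ℝ))).re := by
    rw [mul_sum, Complex.re_sum]
    apply sum_congr rfl; intro m _
    unfold e
    have h1 : ((-φ : ℝ) : ℂ) * Complex.I + ((2 * Real.pi * (c * √(m:ℝ) * √(n:ℝ)) : ℝ) : ℂ) * Complex.I =
        ((2 * Real.pi * (c * √(n:ℝ) * √(m:ℝ)) - φ : ℝ) : ℂ) * Complex.I := by push_cast; ring
    have h2 : Complex.exp ((-φ : ℝ) * Complex.I) * (((af m : ℝ) : ℂ) *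
        Complex.exp (((2 * Real.pi * (c * √(m:ℝ) * √(n:ℝ)) : ℝ) : ℂ) * Complex.I)) =
        ((af m : ℝ) : ℂ) * Complex.exp (((2 * Real.pi * (c * √(n:ℝ) * √(m:ℝ)) - φ : ℝ) : ℂ) * Complex.I) := by
      rw [← h1, Complex.exp_add]; ring
    rw [h2, Complex.re_ofReal_mul, Complex.exp_ofReal_mul_I_re]
  rw [e1]
  refine (Complex.abs_re_le_norm _).trans ?_
  rw [norm_mul, Complex.norm_exp_ofReal_mul_I, one_mul]

/-- the mean square over the primes -/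
theorem prime_ms (ha : Bdw af) (ha0 : af 0 = 0) (hw : GW.Wt w) {κ₁ κ₂ : ℝ} (hS : SandW E af φ w κ₁ κ₂) {c : ℝ} (hc : 0 < c)
    (A B : ℕ) (hA : 1 ≤ A) {η : ℝ} (hη : 0 < η) : ∃ M0 : ℕ, ∀ M : ℕ, M0 ≤ M → ∃ N0 : ℕ, ∀ N : ℕ, N0 ≤ N →
      ∑ p ∈ PR N, (E (c * √((A * p + B : ℕ):ℝ)) - U af φ ((c * √(A:ℝ)) * √(p:ℝ)) M)^2 ≤ η * (PR N).card := by
  obtain ⟨ω, hω, hω2, hlin⟩ := lin_ms ha ha0 hw hS hc
  obtain ⟨C, hC, hlin⟩ := hlin A B hA
  obtain ⟨Ca, hCa0, hCa⟩ := a_sqrt ha.Bd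
  obtain ⟨Ces, hCes, hes⟩ := SP.prime_es
  obtain ⟨N00, hpi⟩ := pi_low
  have hA1 : (1:ℝ) ≤ A := by exact_mod_cast hA
  set c' : ℝ := c * √(A:ℝ) with hc'
  have hsA : 0 < √(A:ℝ) := Real.sqrt_pos.mpr (by linarith)
  have hc'0 : 0 < c' := by positivity
  -- the tail of the coefficients
  have hsum : Summable (fun m : ℕ => (af m)^2) := by
    obtain ⟨Cb, hCb, hb⟩ := ha.Bd
    have h1 : Summable (fun m : ℕ => Cb^2 * (m:ℝ) ^ (-(37/25):ℝ)) := by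
      apply Summable.mul_left
      rw [Real.summable_nat_rpow]; norm_num
    apply Summable.of_nonneg_of_le (fun m => sq_nonneg _) _ h1
    intro m
    rcases Nat.eq_zero_or_pos m with rfl | hm
    · rw [ha0, zero_pow (by norm_num)]; positivity
    · have h2 := hb m hm
      have hm0 : (0:ℝ) < m := by exact_mod_cast hm
      rw [← sq_abs]
      calc |af m|^2 ≤ (Cb * (√(m:ℝ)) ^ (-(37/25):ℝ))^2 := pow_le_pow_left₀ (abs_nonneg _) h2 2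
        _ = Cb^2 * ((√(m:ℝ)) ^ (-(37/25):ℝ))^2 := by ring
        _ = _ := by
            congr 1
            rw [Real.sqrt_eq_rpow, ← Real.rpow_mul hm0.le, ← Real.rpow_natCast, ← Real.rpow_mul hm0.le]
            norm_num
  rw [summable_iff_vanishing_norm] at hsum
  obtain ⟨s, hs⟩ := hsum (η/4) (by positivity)
  obtain ⟨K0, hK0⟩ : ∃ K0 : ℕ, ∀ m ∈ s, m ≤ K0 := ⟨s.sup id, fun m hm => Finset.le_sup (f := id) hm⟩
  refine ⟨K0 + 1, fun M hM => ?_⟩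
  have hM1 : 1 ≤ M := by omega
  have htail : ∀ M' : ℕ, ∑ m ∈ Ioc (M^2) (M'^2), (af m)^2 ≤ η/4 := by
    intro M'
    have h1 := hs (Ioc (M^2) (M'^2)) (by
      rw [disjoint_left]
      intro m hm hm2
      rw [mem_Ioc] at hm
      have := hK0 m hm2
      nlinarith)
    rw [Real.norm_eq_abs] at h1
    exact (le_abs_self _).trans h1.le
  set δ : ℝ := ω / 1024 with hδ
  have hδ0 : 0 < δ := by positivity
  have hδ1 : δ ≤ 1/204800 := by rw [hδ]; linarith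
  set D : ℝ := 4 * C + 2 * Ca^2 * Ces with hD
  have hD0 : 0 < D := by positivity
  have ev1 : ∀ᶠ N : ℕ in Filter.atTop, 8 * D / (δ * η) ≤ (N:ℝ) ^ (δ/2) :=
    (((tendsto_rpow_atTop (by positivity : (0:ℝ) < δ/2)).comp tendsto_natCast_atTop_atTop).eventually_ge_atTop _)
  have ev2 : ∀ᶠ N : ℕ in Filter.atTop, c' + 2/c' ≤ (N:ℝ) ^ (1/64:ℝ) :=
    (((tendsto_rpow_atTop (by norm_num : (0:ℝ) < 1/64)).comp tendsto_natCast_atTop_atTop).eventually_ge_atTop _)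
  obtain ⟨N1, hN1⟩ := Filter.eventually_atTop.mp (ev1.and ev2)
  refine ⟨max (max N1 N00) (max (M^1024) 9), fun N hN => ?_⟩
  have hNN1 : N1 ≤ N := le_trans (le_trans (le_max_left _ _) (le_max_left _ _)) hN
  have hNN00 : N00 ≤ N := le_trans (le_trans (le_max_right _ _) (le_max_left _ _)) hN
  have hNM : M^1024 ≤ N := le_trans (le_trans (le_max_left _ _) (le_max_right _ _)) hN
  have hN9 : 9 ≤ N := le_trans (le_trans (le_max_right _ _) (le_max_right _ _)) hN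
  obtain ⟨g1, g2⟩ := hN1 N hNN1
  have hNr : (9:ℝ) ≤ N := by exact_mod_cast hN9
  have hNone : (1:ℝ) ≤ N := by linarith
  have hNpos : (0:ℝ) < N := by linarith
  set u : ℝ := (N:ℝ) ^ (1/1024:ℝ) with hu
  have hu1 : 1 ≤ u := Real.one_le_rpow hNone (by norm_num)
  set M' : ℕ := ⌊u⌋₊ with hM'
  have hMr : (1:ℝ) ≤ M := by exact_mod_cast hM1
  have hMM : M ≤ M' := by
    rw [hM', Nat.le_floor_iff (by linarith), hu]
    calc (M:ℝ) = ((M:ℝ)^1024) ^ (1/1024:ℝ) := by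
          rw [← Real.rpow_natCast, ← Real.rpow_mul (by linarith)]; norm_num
      _ ≤ _ := Real.rpow_le_rpow (by positivity) (by exact_mod_cast hNM) (by norm_num)
  have hM'1 : 1 ≤ M' := by omega
  have hM'u : (M':ℝ) ≤ u := Nat.floor_le (by linarith)
  have hM'r : (1:ℝ) ≤ M' := by exact_mod_cast hM'1
  have huM' : u / 2 ≤ M' := by
    have h1 := Nat.lt_floor_add_one u
    rw [← hM'] at h1
    linarith
  have hM'40 : M'^40 ≤ N := by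
    have : (M':ℝ)^40 ≤ N := by
      calc (M':ℝ)^40 ≤ u^40 := pow_le_pow_left₀ (by linarith) hM'u 40
        _ = (N:ℝ) ^ (40/1024:ℝ) := by rw [hu, ← Real.rpow_natCast, ← Real.rpow_mul hNpos.le]; norm_num
        _ ≤ (N:ℝ) ^ (1:ℝ) := Real.rpow_le_rpow_of_exponent_le hNone (by norm_num)
        _ = N := Real.rpow_one _
    exact_mod_cast this
  -- first part
  have h1 : ∑ p ∈ PR N, (E (c * √((A * p + B : ℕ):ℝ)) - U af φ (c' * √(p:ℝ)) M')^2 ≤ 2 * C * (N:ℝ) ^ (1 - δ) := by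
    calc _ ≤ ∑ n ∈ Icc 1 N, (E (c * √((A * n + B : ℕ):ℝ)) - U af φ (c' * √(n:ℝ)) M')^2 := by
          apply sum_le_sum_of_subset_of_nonneg
          · unfold PR; exact filter_subset _ _
          · intro _ _ _; exact sq_nonneg _
      _ ≤ C * (M':ℝ) ^ (-ω) * N := hlin M' N hM'1 hM'40
      _ ≤ C * (2 * (N:ℝ) ^ (-δ)) * N := by
          have h2ω : (2:ℝ) ^ ω ≤ 2 := by
            calc (2:ℝ) ^ ω ≤ (2:ℝ) ^ (1:ℝ) := Real.rpow_le_rpow_of_exponent_le (by norm_num) (by linarith)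
              _ = 2 := by norm_num
          have w1 : (M':ℝ) ^ (-ω) ≤ 2 * (N:ℝ) ^ (-δ) := by
            calc (M':ℝ) ^ (-ω) ≤ (u/2) ^ (-ω) := Real.rpow_le_rpow_of_nonpos (by linarith) huM' (by linarith)
              _ = u ^ (-ω) * 2 ^ ω := by
                  rw [Real.div_rpow (by linarith) (by norm_num), Real.rpow_neg (by norm_num : (0:ℝ) ≤ 2)]
                  field_simp
              _ ≤ u ^ (-ω) * 2 := by gcongr
              _ = 2 * (N:ℝ) ^ (-δ) := by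
                  rw [hu, ← Real.rpow_mul hNpos.le, mul_comm]
                  congr 2
                  rw [hδ]; ring
          gcongr
      _ = 2 * C * ((N:ℝ) ^ (-δ) * N) := by ring
      _ = 2 * C * (N:ℝ) ^ (1 - δ) := by
          congr 1
          nth_rewrite 2 [← Real.rpow_one (N:ℝ)]
          rw [← Real.rpow_add hNpos]; congr 1; ring
  -- second part
  have hoff : ∀ m ∈ Ioc (M^2) (M'^2), ∀ m' ∈ Ioc (M^2) (M'^2), m ≠ m' →
      ‖∑ p ∈ PR N, e ((c' * √(m:ℝ) - c' * √(m':ℝ)) * √(p:ℝ))‖ ≤ Ces * (N:ℝ) ^ (127/128:ℝ) := by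
    intro m hm m' hm' hne
    rw [mem_Ioc] at hm hm'
    have hm0 : (0:ℝ) < m := by exact_mod_cast (by omega : 0 < m)
    have hm'0 : (0:ℝ) < m' := by exact_mod_cast (by omega : 0 < m')
    have q1 : √(m:ℝ) * √(m:ℝ) = m := Real.mul_self_sqrt hm0.le
    have q2 : √(m':ℝ) * √(m':ℝ) = m' := Real.mul_self_sqrt hm'0.le
    have s1 : √(m:ℝ) ≤ M' := by
      rw [Real.sqrt_le_left (by positivity)]; exact_mod_cast hm.2
    have s2 : √(m':ℝ) ≤ M' := by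
      rw [Real.sqrt_le_left (by positivity)]; exact_mod_cast hm'.2
    have p1 : 0 < √(m:ℝ) := Real.sqrt_pos.mpr hm0
    have p2 : 0 < √(m':ℝ) := Real.sqrt_pos.mpr hm'0
    set d := |√(m:ℝ) - √(m':ℝ)| with hd
    have hd1 : d ≤ M' := by rw [hd, abs_le]; constructor <;> linarith
    have hd2 : 1 / (2 * (M':ℝ)) ≤ d := by
      have h3 : (1:ℝ) ≤ |(m:ℝ) - m'| := by
        have : (1:ℤ) ≤ |(m:ℤ) - m'| := Int.one_le_abs (by omega)
        exact_mod_cast this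
      have h4 : |(m:ℝ) - m'| = d * (√(m:ℝ) + √(m':ℝ)) := by
        rw [hd, ← abs_of_pos (by positivity : 0 < √(m:ℝ) + √(m':ℝ)), ← abs_mul]
        congr 1
        nlinarith
      rw [div_le_iff₀ (by positivity)]
      have h5 : d * (√(m:ℝ) + √(m':ℝ)) ≤ d * (2 * M') := mul_le_mul_of_nonneg_left (by linarith) (abs_nonneg _)
      linarith
    have hd0 : 0 < d := lt_of_lt_of_le (by positivity) hd2
    have e1 : c' * √(m:ℝ) - c' * √(m':ℝ) = c' * (√(m:ℝ) - √(m':ℝ)) := by ring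
    have hne0 : c' * √(m:ℝ) - c' * √(m':ℝ) ≠ 0 := by
      rw [e1]
      apply mul_ne_zero hc'0.ne'
      intro h
      rw [h, abs_zero] at hd
      linarith
    have habs : |c' * √(m:ℝ) - c' * √(m':ℝ)| = c' * d := by rw [e1, abs_mul, abs_of_pos hc'0]
    have hcond : |c' * √(m:ℝ) - c' * √(m':ℝ)| + 1/|c' * √(m:ℝ) - c' * √(m':ℝ)| ≤ 2 * (N:ℝ) ^ (1/32:ℝ) := by
      rw [habs]
      have h3 : c' * d ≤ c' * M' := mul_le_mul_of_nonneg_left hd1 hc'0.le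
      have h4 : 1 / (c' * d) ≤ 2/c' * M' := by
        rw [div_le_iff₀ (by positivity)]
        rw [div_le_iff₀ (by positivity)] at hd2
        have : 2/c' * M' * (c' * d) = d * (2 * M') := by field_simp
        rw [this]; exact hd2
      have h5 : (M':ℝ) ≤ (N:ℝ) ^ (1/64:ℝ) := hM'u.trans (Real.rpow_le_rpow_of_exponent_le hNone (by norm_num))
      have h6 : (N:ℝ) ^ (1/64:ℝ) * (N:ℝ) ^ (1/64:ℝ) = (N:ℝ) ^ (1/32:ℝ) := by rw [← Real.rpow_add hNpos]; norm_num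
      have h7 : 0 < (N:ℝ) ^ (1/32:ℝ) := by positivity
      calc c' * d + 1/(c' * d) ≤ (c' + 2/c') * M' := by rw [add_mul]; linarith
        _ ≤ (N:ℝ) ^ (1/64:ℝ) * (N:ℝ) ^ (1/64:ℝ) := by gcongr
        _ = (N:ℝ) ^ (1/32:ℝ) := h6
        _ ≤ _ := by linarith
    have key := hes N hN9 _ hne0 hcond 0
    refine le_trans (le_of_eq ?_) key
    congr 1
    apply sum_congr rfl; intro p _
    have : e (0 * (p:ℝ)) = 1 := by unfold e; simp
    rw [this, one_mul]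
  have h2 : ∑ p ∈ PR N, (U af φ (c' * √(p:ℝ)) M' - U af φ (c' * √(p:ℝ)) M)^2 ≤
      (PR N).card * (η/4) + Ca^2 * Ces * (N:ℝ) ^ (1 - δ) := by
    calc _ ≤ ∑ p ∈ PR N, ‖∑ m ∈ Ioc (M^2) (M'^2), ((af m : ℝ) : ℂ) * e ((c' * √(m:ℝ)) * √(p:ℝ))‖^2 :=
          sum_le_sum fun p _ => U_sub_le c' p hMM
      _ ≤ (PR N).card * ∑ m ∈ Ioc (M^2) (M'^2), (af m)^2 + (∑ m ∈ Ioc (M^2) (M'^2), |af m|)^2 * (Ces * (N:ℝ) ^ (127/128:ℝ)) :=
          SP.quad_sum (PR N) (Ioc (M^2) (M'^2)) af (fun m => c' * √(m:ℝ)) hoff (by positivity)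
      _ ≤ (PR N).card * (η/4) + (Ca * (M':ℝ)^2)^2 * (Ces * (N:ℝ) ^ (127/128:ℝ)) := by
          have t1 := htail M'
          have t2 : ∑ m ∈ Ioc (M^2) (M'^2), |af m| ≤ Ca * (M':ℝ)^2 := by
            calc ∑ m ∈ Ioc (M^2) (M'^2), |af m| ≤ ∑ m ∈ Ioc (M^2) (M'^2), Ca := by
                  apply sum_le_sum; intro m hm
                  rw [mem_Ioc] at hm
                  exact (hCa m (by omega)).2
              _ = ((M'^2 - M^2 : ℕ):ℝ) * Ca := by rw [sum_const, Nat.card_Ioc, nsmul_eq_mul]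
              _ ≤ ((M'^2 : ℕ):ℝ) * Ca := by
                  apply mul_le_mul_of_nonneg_right _ hCa0.le
                  exact_mod_cast Nat.sub_le _ _
              _ = _ := by push_cast; ring
          have t3 : 0 ≤ ∑ m ∈ Ioc (M^2) (M'^2), |af m| := sum_nonneg fun _ _ => abs_nonneg _
          gcongr
      _ ≤ (PR N).card * (η/4) + Ca^2 * Ces * (N:ℝ) ^ (1 - δ) := by
          have t4 : (M':ℝ)^4 ≤ (N:ℝ) ^ (1/256:ℝ) := by
            calc (M':ℝ)^4 ≤ u^4 := pow_le_pow_left₀ (by linarith) hM'u 4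
              _ = _ := by rw [hu, ← Real.rpow_natCast, ← Real.rpow_mul hNpos.le]; norm_num
          have t5 : (N:ℝ) ^ (1/256:ℝ) * (N:ℝ) ^ (127/128:ℝ) ≤ (N:ℝ) ^ (1 - δ) := by
            rw [← Real.rpow_add hNpos]
            apply Real.rpow_le_rpow_of_exponent_le hNone
            linarith
          have t6 : (Ca * (M':ℝ)^2)^2 * (Ces * (N:ℝ) ^ (127/128:ℝ)) = Ca^2 * Ces * ((M':ℝ)^4 * (N:ℝ) ^ (127/128:ℝ)) := by ring
          rw [t6]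
          have t7 : (M':ℝ)^4 * (N:ℝ) ^ (127/128:ℝ) ≤ (N:ℝ) ^ (1 - δ) :=
            (mul_le_mul_of_nonneg_right t4 (by positivity)).trans t5
          have t8 : Ca^2 * Ces * ((M':ℝ)^4 * (N:ℝ) ^ (127/128:ℝ)) ≤ Ca^2 * Ces * (N:ℝ) ^ (1 - δ) :=
            mul_le_mul_of_nonneg_left t7 (by positivity)
          linarith
  -- conclusion
  have hcard := hpi N hNN00
  have hlog1 : 1 ≤ Real.log N := by
    rw [Real.le_log_iff_exp_le hNpos]
    have := Real.exp_one_lt_d9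
    linarith
  have hDN : D * (N:ℝ) ^ (1 - δ) ≤ (η/2) * (PR N).card := by
    have h3 : Real.log N ≤ (N:ℝ) ^ (δ/2) / (δ/2) := Real.log_le_rpow_div hNpos.le (by positivity)
    have h4 : 4 * D * Real.log N ≤ η * (N:ℝ) ^ δ := by
      have e1 : (N:ℝ) ^ δ = (N:ℝ) ^ (δ/2) * (N:ℝ) ^ (δ/2) := by rw [← Real.rpow_add hNpos]; congr 1; ring
      rw [div_le_iff₀ (by positivity)] at g1
      calc 4 * D * Real.log N ≤ 4 * D * ((N:ℝ) ^ (δ/2) / (δ/2)) := by gcongr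
        _ = (8 * D) * (N:ℝ) ^ (δ/2) / δ := by ring
        _ ≤ ((N:ℝ) ^ (δ/2) * (δ * η)) * (N:ℝ) ^ (δ/2) / δ := by gcongr
        _ = η * ((N:ℝ) ^ (δ/2) * (N:ℝ) ^ (δ/2)) := by field_simp
        _ = _ := by rw [e1]
    have e2 : (N:ℝ) = (N:ℝ) ^ (1 - δ) * (N:ℝ) ^ δ := by rw [← Real.rpow_add hNpos]; norm_num
    calc D * (N:ℝ) ^ (1 - δ) = (4 * D * Real.log N) * (N:ℝ) ^ (1 - δ) / (4 * Real.log N) := by field_simp
      _ ≤ (η * (N:ℝ) ^ δ) * (N:ℝ) ^ (1 - δ) / (4 * Real.log N) := by gcongr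
      _ = η * ((N:ℝ) ^ (1 - δ) * (N:ℝ) ^ δ) / (4 * Real.log N) := by ring
      _ = η * N / (4 * Real.log N) := by rw [← e2]
      _ = (η/2) * (N / (2 * Real.log N)) := by field_simp; ring
      _ ≤ (η/2) * (PR N).card := by gcongr
  calc ∑ p ∈ PR N, (E (c * √((A * p + B : ℕ):ℝ)) - U af φ (c' * √(p:ℝ)) M)^2 ≤
        ∑ p ∈ PR N, (2 * (E (c * √((A * p + B : ℕ):ℝ)) - U af φ (c' * √(p:ℝ)) M')^2 +
          2 * (U af φ (c' * √(p:ℝ)) M' - U af φ (c' * √(p:ℝ)) M)^2) := by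
        apply sum_le_sum; intro p _
        set x := E (c * √((A * p + B : ℕ):ℝ)) - U af φ (c' * √(p:ℝ)) M'
        set y := U af φ (c' * √(p:ℝ)) M' - U af φ (c' * √(p:ℝ)) M
        have e1 : E (c * √((A * p + B : ℕ):ℝ)) - U af φ (c' * √(p:ℝ)) M = x + y := by ring
        rw [e1]
        nlinarith [sq_nonneg (x - y)]
    _ = 2 * ∑ p ∈ PR N, (E (c * √((A * p + B : ℕ):ℝ)) - U af φ (c' * √(p:ℝ)) M')^2 +
          2 * ∑ p ∈ PR N, (U af φ (c' * √(p:ℝ)) M' - U af φ (c' * √(p:ℝ)) M)^2 := by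
        rw [sum_add_distrib, mul_sum, mul_sum]
    _ ≤ 2 * (2 * C * (N:ℝ) ^ (1 - δ)) + 2 * ((PR N).card * (η/4) + Ca^2 * Ces * (N:ℝ) ^ (1 - δ)) := by gcongr
    _ = D * (N:ℝ) ^ (1 - δ) + (η/2) * (PR N).card := by rw [hD]; ring
    _ ≤ _ := by linarith

end Pool.Agent.W24.CP.SA
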