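import Mathlib
import Pool.Agent.H425R3.JL.L2
import Pool.Agent.H469R2.NK.KL

/-! Limit laws for functions of `√n`: the framework of `H425R3.JL.L1`, `L2` with the characters `e(θ√n)`. -/

open Filter Topology MeasureTheory
open Pool.Agent.H383.AP
open Pool.Agent.H425R3.JL
open Pool.Agent.H469R2.NK

namespace Pool.Agent.W24.CP.SL

/-- the characters -/
noncomputable def chS (θ : ℝ) : ℕ → ℂ := fun n => e (θ * √(n:ℝ))

lemma norm_chS (θ : ℝ) (n : ℕ) : ‖chS θ n‖ = 1 := norm_e _

lemma chS_mul (θ θ' : ℝ) : chS θ * chS θ' = chS (θ + θ') := by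
  funext n
  simp only [chS, Pi.mul_apply]
  rw [← e_add, add_mul]

lemma chS_zero : chS 0 = 1 := by
  funext n; simp [chS, e]

/-- the mean value of a character -/
noncomputable def mcS (θ : ℝ) : ℂ := if θ = 0 then 1 else 0

/-- trigonometric polynomials in `√n` -/
def TS : Submodule ℂ (ℕ → ℂ) := Submodule.span ℂ (Set.range chS)

lemma TS_chr (θ : ℝ) : chS θ ∈ TS := Submodule.subset_span ⟨θ, rfl⟩

lemma TS_one : (1 : ℕ → ℂ) ∈ TS := by rw [← chS_zero]; exact TS_chr 0

lemma TS_mul {a b : ℕ → ℂ} (ha : a ∈ TS) (hb : b ∈ TS) : a * b ∈ TS := by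
  have h : ∀ θ, ∀ b ∈ TS, chS θ * b ∈ TS := by
    intro θ b hb
    unfold TS at hb
    induction hb using Submodule.span_induction with
    | mem x hx =>
      obtain ⟨θ', rfl⟩ := hx
      rw [chS_mul]; exact TS_chr _
    | zero => rw [mul_zero]; exact TS.zero_mem
    | add x y _ _ hx hy => rw [mul_add]; exact TS.add_mem hx hy
    | smul c x _ hx => rw [mul_smul_comm]; exact TS.smul_mem c hx
  unfold TS at ha
  induction ha using Submodule.span_induction with
  | mem x hx =>
    obtain ⟨θ, rfl⟩ := hx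
    exact h θ b hb
  | zero => rw [zero_mul]; exact TS.zero_mem
  | add x y _ _ hx hy => rw [add_mul]; exact TS.add_mem hx hy
  | smul c x _ hx => rw [smul_mul_assoc]; exact TS.smul_mem c hx

lemma TS_bdd {a : ℕ → ℂ} (h : a ∈ TS) : ∃ B : ℝ, 0 ≤ B ∧ ∀ n, ‖a n‖ ≤ B := by
  unfold TS at h
  induction h using Submodule.span_induction with
  | mem x hx =>
    obtain ⟨θ, rfl⟩ := hx
    exact ⟨1, zero_le_one, fun n => (norm_chS θ n).le⟩
  | zero => exact ⟨0, le_refl _, fun n => by simp⟩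
  | add x y _ _ hx hy =>
    obtain ⟨B, hB0, hB⟩ := hx
    obtain ⟨B', hB0', hB'⟩ := hy
    exact ⟨B + B', by positivity, fun n => (norm_add_le _ _).trans (add_le_add (hB n) (hB' n))⟩
  | smul c x _ hx =>
    obtain ⟨B, hB0, hB⟩ := hx
    refine ⟨‖c‖ * B, by positivity, fun n => ?_⟩
    rw [Pi.smul_apply, norm_smul]
    exact mul_le_mul_of_nonneg_left (hB n) (norm_nonneg _)

/-- averages of characters along a sequence of finite sets are the mean values -/
def AvS (S : ℕ → Finset ℕ) : Prop :=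
  ∀ θ : ℝ, Tendsto (fun j => cav (S j) (chS θ)) atTop (𝓝 (mcS θ))

lemma TS_lim {t : ℕ → ℂ} (ht : t ∈ TS) : ∃ L,
    ∀ S, AvS S → Tendsto (fun j => cav (S j) t) atTop (𝓝 L) := by
  unfold TS at ht
  induction ht using Submodule.span_induction with
  | mem x hx =>
    obtain ⟨θ, rfl⟩ := hx
    exact ⟨mcS θ, fun S hS => hS θ⟩
  | zero => exact ⟨0, fun S _ => by
      have : ∀ j, cav (S j) 0 = 0 := fun j => by simp [cav]
      simp only [this]; exact tendsto_const_nhds⟩
  | add x y _ _ hx hy =>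
    obtain ⟨L, hS⟩ := hx
    obtain ⟨L', hS'⟩ := hy
    refine ⟨L + L', fun S h => ?_⟩
    simp only [cav_add]
    exact (hS S h).add (hS' S h)
  | smul c x _ hx =>
    obtain ⟨L, hS⟩ := hx
    refine ⟨c * L, fun S h => ?_⟩
    simp only [cav_smul]
    exact (hS S h).const_mul c

variable {ι : Type*} [Fintype ι]

lemma U_bdd {u : ℕ → ι → ℝ} (hu : ∀ i, (fun n => ((u n i : ℝ) : ℂ)) ∈ TS) :
    ∃ B : ℝ, 0 ≤ B ∧ ∀ n i, |u n i| ≤ B := by
  have h : ∀ i, ∃ B : ℝ, 0 ≤ B ∧ ∀ n, |u n i| ≤ B := by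
    intro i
    obtain ⟨B, hB0, hB⟩ := TS_bdd (hu i)
    refine ⟨B, hB0, fun n => ?_⟩
    have := hB n
    rwa [Complex.norm_real, Real.norm_eq_abs] at this
  choose B hB0 hB using h
  refine ⟨∑ i, B i, Finset.sum_nonneg (fun i _ => hB0 i), fun n i => (hB i n).trans ?_⟩
  exact Finset.single_le_sum (fun i _ => hB0 i) (Finset.mem_univ i)

/-- Weierstrass approximation on bounded trigonometric sequences -/
theorem weier {u : ℕ → ι → ℝ} (hu : ∀ i, (fun n => ((u n i : ℝ) : ℂ)) ∈ TS)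
    {f : (ι → ℝ) → ℝ} (hf : Continuous f) {η : ℝ} (hη : 0 < η) :
    ∃ t : ℕ → ℂ, t ∈ TS ∧ ∀ n, ‖((f (u n) : ℝ) : ℂ) - t n‖ ≤ η := by
  obtain ⟨B, hB0, hB⟩ := U_bdd hu
  set K : Set (ι → ℝ) := Set.Icc (fun _ => -B) (fun _ => B) with hK
  have hKc : IsCompact K := isCompact_Icc
  haveI : CompactSpace K := isCompact_iff_compactSpace.mp hKc
  have hmem : ∀ n, u n ∈ K := fun n => ⟨fun i => (abs_le.mp (hB n i)).1, fun i => (abs_le.mp (hB n i)).2⟩
  set v : ℕ → K := fun n => ⟨u n, hmem n⟩ with hv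
  let A : Subalgebra ℝ C(K, ℝ) :=
    { carrier := {g | (fun n => ((g (v n) : ℝ) : ℂ)) ∈ TS}
      mul_mem' := by
        intro a b ha hb
        simp only [Set.mem_setOf_eq] at ha hb ⊢
        have := TS_mul ha hb
        convert this using 1
        funext n; simp
      add_mem' := by
        intro a b ha hb
        simp only [Set.mem_setOf_eq] at ha hb ⊢
        have := TS.add_mem ha hb
        convert this using 1
        funext n; simp
      algebraMap_mem' := by
        intro r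
        simp only [Set.mem_setOf_eq]
        have := TS.smul_mem (r : ℂ) TS_one
        convert this using 1
        funext n; simp }
  have hsep : A.SeparatesPoints := by
    intro x y hxy
    have : ∃ i, (x : ι → ℝ) i ≠ (y : ι → ℝ) i := by
      by_contra hcon
      push Not at hcon
      exact hxy (Subtype.ext (funext hcon))
    obtain ⟨i, hi⟩ := this
    refine ⟨fun z => (z : ι → ℝ) i, ⟨⟨fun z => (z : ι → ℝ) i, (continuous_apply i).comp continuous_subtype_val⟩, ?_, rfl⟩, hi⟩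
    exact hu i
  have htop := ContinuousMap.subalgebra_topologicalClosure_eq_top_of_separatesPoints A hsep
  have hfK : (⟨fun z : K => f z, by fun_prop⟩ : C(K, ℝ)) ∈ A.topologicalClosure := by
    rw [htop]; exact Algebra.mem_top
  rw [← SetLike.mem_coe, Subalgebra.topologicalClosure_coe, Metric.mem_closure_iff] at hfK
  obtain ⟨g, hg, hd⟩ := hfK η hη
  refine ⟨fun n => ((g (v n) : ℝ) : ℂ), hg, fun n => ?_⟩
  rw [← Complex.ofReal_sub, Complex.norm_real, Real.norm_eq_abs, ← Real.dist_eq]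
  have h1 := ContinuousMap.dist_apply_le_dist (f := (⟨fun z : K => f z, by fun_prop⟩ : C(K, ℝ))) (g := g) (v n)
  exact h1.trans hd.le

/-- uniform integrability consequence and approximation of functions of the sequence -/
theorem approx {U : ℕ → ℕ → ι → ℝ} (hU : ∀ M i, (fun n => ((U M n i : ℝ) : ℂ)) ∈ TS)
    {e : ℕ → ι → ℝ} {S : ℕ → Finset ℕ} (hne : ∀ j, (S j).Nonempty) (h : ApU U e S)
    {f : (ι → ℝ) → ℝ} (hf : Continuous f) (hC : ∃ C : ℝ, ∀ x, |f x| ≤ C * (1 + q x)) {η : ℝ} (hη : 0 < η) :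
    ∃ t : ℕ → ℂ, t ∈ TS ∧ ∃ j0 : ℕ, ∀ j, j0 ≤ j → fav (S j) (fun n => ‖((f (e n) : ℝ) : ℂ) - t n‖) ≤ η := by
  obtain ⟨C, hC⟩ := hC
  have hC0 : 0 ≤ C := by
    have h1 := hC 0
    have h2 := abs_nonneg (f 0)
    have h3 : q (0 : ι → ℝ) = 0 := by simp [q]
    rw [h3] at h1; linarith
  -- first approximation, for the large values
  obtain ⟨M0, hM0⟩ := h (η / (32 * (C + 1))) (by positivity)
  obtain ⟨j1, hj1⟩ := hM0 M0 le_rfl
  obtain ⟨B, hB0, hB⟩ := U_bdd (hU M0)
  set B2 : ℝ := (Fintype.card ι) * B^2 with hB2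
  have hB20 : 0 ≤ B2 := by positivity
  have hqU : ∀ n, q (U M0 n) ≤ B2 := by
    intro n
    unfold q
    calc ∑ i, (U M0 n i)^2 ≤ ∑ i : ι, B^2 := Finset.sum_le_sum (fun i _ => by
          rw [← sq_abs]; exact pow_le_pow_left₀ (abs_nonneg _) (hB n i) 2)
      _ = B2 := by rw [Finset.sum_const, Finset.card_univ, nsmul_eq_mul]
  set T : ℝ := 4 * B2 + 1 with hT
  have hT1 : 1 ≤ T := by linarith
  have hT0 : 0 < T := by linarith
  set χ : (ι → ℝ) → ℝ := fun x => max 0 (min 1 (2 - q x / T)) with hχ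
  have hχc : Continuous χ := by
    have : Continuous (fun x : ι → ℝ => q x / T) := q_cont.div_const _
    simp only [hχ]; fun_prop
  have hχ0 : ∀ x, 0 ≤ χ x := fun x => le_max_left _ _
  have hχ1 : ∀ x, χ x ≤ 1 := fun x => max_le (by norm_num) (min_le_left _ _)
  have hχeq : ∀ x, q x ≤ T → χ x = 1 := by
    intro x hx
    have : q x / T ≤ 1 := by rw [div_le_one hT0]; exact hx
    simp only [hχ]
    rw [min_eq_left (by linarith), max_eq_right (by norm_num)]
  have hχz : ∀ x, 2 * T ≤ q x → χ x = 0 := by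
    intro x hx
    have : 2 ≤ q x / T := by rw [le_div_iff₀ hT0]; exact hx
    simp only [hχ]
    rw [max_eq_left]
    exact (min_le_right _ _).trans (by linarith)
  set fK : (ι → ℝ) → ℝ := fun x => f x * χ x with hfK
  have hfKc : Continuous fK := hf.mul hχc
  set Bf : ℝ := C * (1 + 2 * T) with hBf
  have hBf0 : 0 ≤ Bf := by positivity
  have hfKb : ∀ x, |fK x| ≤ Bf := by
    intro x
    simp only [hfK]
    rw [abs_mul, abs_of_nonneg (hχ0 x)]
    by_cases hx : 2 * T ≤ q x
    · rw [hχz x hx, mul_zero]; positivity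
    · push Not at hx
      calc |f x| * χ x ≤ |f x| * 1 := mul_le_mul_of_nonneg_left (hχ1 x) (abs_nonneg _)
        _ ≤ C * (1 + q x) := by rw [mul_one]; exact hC x
        _ ≤ Bf := by rw [hBf]; gcongr
  have hsupp : HasCompactSupport fK := by
    apply HasCompactSupport.intro (K := Metric.closedBall 0 (√(2*T))) (isCompact_closedBall _ _)
    intro x hx
    simp only [hfK]
    rw [hχz x, mul_zero]
    by_contra hcon
    push Not at hcon
    apply hx
    rw [Metric.mem_closedBall, dist_zero_right, pi_norm_le_iff_of_nonneg (Real.sqrt_nonneg _)]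
    intro i
    rw [Real.norm_eq_abs]
    apply Real.abs_le_sqrt
    refine le_trans ?_ hcon.le
    unfold q
    exact Finset.single_le_sum (f := fun i => (x i)^2) (fun i _ => sq_nonneg _) (Finset.mem_univ i)
  have huc : UniformContinuous fK := hsupp.uniformContinuous_of_continuous hfKc
  rw [Metric.uniformContinuous_iff] at huc
  obtain ⟨δ, hδ, huc⟩ := huc (η/4) (by positivity)
  -- second approximation
  obtain ⟨M1, hM1⟩ := h (η / 4 * δ^2 / (2 * (Bf + 1))) (by positivity)
  obtain ⟨j2, hj2⟩ := hM1 M1 le_rfl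
  obtain ⟨t, ht, htn⟩ := weier (hU M1) hfKc (η := η/4) (by positivity)
  refine ⟨t, ht, max j1 j2, fun j hj => ?_⟩
  have a1 := hj1 j (by omega)
  have a2 := hj2 j (by omega)
  have hpt : ∀ n, ‖((f (e n) : ℝ) : ℂ) - t n‖ ≤
      8 * C * q (e n - U M0 n) + 2 * Bf / δ^2 * q (e n - U M1 n) + (η/4 + η/4) := by
    intro n
    have b1 : |f (e n) - fK (e n)| ≤ 8 * C * q (e n - U M0 n) := by
      by_cases hx : q (e n) ≤ T
      · simp only [hfK]
        rw [hχeq _ hx, mul_one, sub_self, abs_zero]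
        have := q_nonneg (e n - U M0 n)
        positivity
      · push Not at hx
        have c1 := q_far (hqU n) (x := e n) (by linarith)
        simp only [hfK]
        have c2 : f (e n) - f (e n) * χ (e n) = f (e n) * (1 - χ (e n)) := by ring
        rw [c2, abs_mul, abs_of_nonneg (by linarith [hχ1 (e n)] : 0 ≤ 1 - χ (e n))]
        calc |f (e n)| * (1 - χ (e n)) ≤ |f (e n)| * 1 :=
              mul_le_mul_of_nonneg_left (by linarith [hχ0 (e n)]) (abs_nonneg _)
          _ ≤ C * (1 + q (e n)) := by rw [mul_one]; exact hC _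
          _ ≤ C * (2 * q (e n)) := by gcongr; linarith
          _ ≤ C * (2 * (4 * q (e n - U M0 n))) := by gcongr
          _ = _ := by ring
    have b2 : |fK (e n) - fK (U M1 n)| ≤ 2 * Bf / δ^2 * q (e n - U M1 n) + η/4 := by
      by_cases hx : dist (e n) (U M1 n) < δ
      · have := (huc hx).le
        rw [Real.dist_eq] at this
        have h2 := q_nonneg (e n - U M1 n)
        have h3 : 0 ≤ 2 * Bf / δ^2 * q (e n - U M1 n) := by positivity
        linarith
      · push Not at hx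
        have c1 : δ^2 ≤ q (e n - U M1 n) := by
          rw [dist_eq_norm] at hx
          by_contra hcon
          push Not at hcon
          have : ‖e n - U M1 n‖ < δ := by
            rw [pi_norm_lt_iff hδ]
            intro i
            rw [Real.norm_eq_abs]
            apply abs_lt_of_sq_lt_sq _ hδ.le
            refine lt_of_le_of_lt ?_ hcon
            unfold q
            exact Finset.single_le_sum (f := fun i => ((e n - U M1 n) i)^2) (fun i _ => sq_nonneg _) (Finset.mem_univ i)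
          linarith
        have c2 : |fK (e n) - fK (U M1 n)| ≤ 2 * Bf := by
          refine (abs_sub _ _).trans ?_
          linarith [hfKb (e n), hfKb (U M1 n)]
        have c3 : 2 * Bf ≤ 2 * Bf / δ^2 * q (e n - U M1 n) := by
          rw [div_mul_eq_mul_div, le_div_iff₀ (by positivity)]
          gcongr
        linarith
    have b3 := htn n
    have e1 : ((f (e n) : ℝ) : ℂ) - t n = ((f (e n) - fK (e n) : ℝ) : ℂ) + ((fK (e n) - fK (U M1 n) : ℝ) : ℂ) +
        (((fK (U M1 n) : ℝ) : ℂ) - t n) := by push_cast; ring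
    rw [e1]
    refine (norm_add_le _ _).trans ?_
    refine (add_le_add (norm_add_le _ _) le_rfl).trans ?_
    rw [Complex.norm_real, Complex.norm_real, Real.norm_eq_abs, Real.norm_eq_abs]
    linarith
  refine (fav_mono hpt).trans ?_
  rw [fav_add, fav_add, fav_mul, fav_mul, fav_const (hne j)]
  have d1 : 8 * C * fav (S j) (fun n => q (e n - U M0 n)) ≤ η/4 := by
    calc 8 * C * fav (S j) (fun n => q (e n - U M0 n)) ≤ 8 * C * (η / (32 * (C + 1))) := by gcongr
      _ ≤ η/4 := by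
        rw [mul_div_assoc', div_le_div_iff₀ (by positivity) (by norm_num)]
        nlinarith
  have d2 : 2 * Bf / δ^2 * fav (S j) (fun n => q (e n - U M1 n)) ≤ η/4 := by
    calc 2 * Bf / δ^2 * fav (S j) (fun n => q (e n - U M1 n)) ≤ 2 * Bf / δ^2 * (η / 4 * δ^2 / (2 * (Bf + 1))) := by gcongr
      _ = (η/4) * (Bf / (Bf + 1)) := by field_simp
      _ ≤ (η/4) * 1 := by
        apply mul_le_mul_of_nonneg_left _ (by positivity)
        rw [div_le_one (by positivity)]; linarith
      _ = η/4 := mul_one _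
  linarith

/-- convergence of the averages -/
theorem conv {U : ℕ → ℕ → ι → ℝ} (hU : ∀ M i, (fun n => ((U M n i : ℝ) : ℂ)) ∈ TS)
    {e : ℕ → ι → ℝ} {S : ℕ → Finset ℕ} (hne : ∀ j, (S j).Nonempty) (hS : AvS S) (h : ApU U e S)
    {f : (ι → ℝ) → ℝ} (hf : Continuous f) (hC : ∃ C : ℝ, ∀ x, |f x| ≤ C * (1 + q x)) :
    ∃ L : ℝ, Tendsto (fun j => fav (S j) (fun n => f (e n))) atTop (𝓝 L) := by
  apply cauchySeq_tendsto_of_complete
  rw [Metric.cauchySeq_iff]
  intro ε hε
  obtain ⟨t, ht, j1, hj1⟩ := approx hU hne h hf hC (η := ε/4) (by positivity)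
  obtain ⟨L, hL⟩ := TS_lim ht
  have hc : CauchySeq (fun j => cav (S j) t) := (hL S hS).cauchySeq
  rw [Metric.cauchySeq_iff] at hc
  obtain ⟨j2, hj2⟩ := hc (ε/4) (by positivity)
  refine ⟨max j1 j2, fun m hm n hn => ?_⟩
  have a1 := (norm_cav_sub_le (S m) (fun n => ((f (e n) : ℝ) : ℂ)) t).trans (hj1 m (by omega))
  have a2 := (norm_cav_sub_le (S n) (fun n => ((f (e n) : ℝ) : ℂ)) t).trans (hj1 n (by omega))
  have a3 := hj2 m (by omega) n (by omega)
  rw [cav_ofReal] at a1 a2
  rw [dist_eq_norm] at a3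
  rw [Real.dist_eq, ← Real.norm_eq_abs, ← Complex.norm_real, Complex.ofReal_sub]
  have e1 : ((fav (S m) (fun n => f (e n)) : ℝ) : ℂ) - ((fav (S n) (fun n => f (e n)) : ℝ) : ℂ) =
      (((fav (S m) (fun n => f (e n)) : ℝ) : ℂ) - cav (S m) t) + (cav (S m) t - cav (S n) t) -
      (((fav (S n) (fun n => f (e n)) : ℝ) : ℂ) - cav (S n) t) := by ring
  rw [e1]
  refine lt_of_le_of_lt (norm_sub_le _ _) ?_
  refine lt_of_le_of_lt (add_le_add (norm_add_le _ _) le_rfl) ?_
  linarith


lemma sq_bdd {U : ℕ → ℕ → ι → ℝ} (hU : ∀ M i, (fun n => ((U M n i : ℝ) : ℂ)) ∈ TS)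
    {e : ℕ → ι → ℝ} {S : ℕ → Finset ℕ} (hne : ∀ j, (S j).Nonempty) (h : ApU U e S) :
    ∃ A : ℝ, 0 ≤ A ∧ ∀ j, fav (S j) (fun n => q (e n)) ≤ A := by
  obtain ⟨M0, hM0⟩ := h 1 one_pos
  obtain ⟨j1, hj1⟩ := hM0 M0 le_rfl
  obtain ⟨B, hB0, hB⟩ := U_bdd (hU M0)
  set B2 : ℝ := (Fintype.card ι) * B^2 with hB2
  have hB20 : 0 ≤ B2 := by positivity
  have hqU : ∀ n, q (U M0 n) ≤ B2 := by
    intro n
    unfold q
    calc ∑ i, (U M0 n i)^2 ≤ ∑ i : ι, B^2 := Finset.sum_le_sum (fun i _ => by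
          rw [← sq_abs]; exact pow_le_pow_left₀ (abs_nonneg _) (hB n i) 2)
      _ = B2 := by rw [Finset.sum_const, Finset.card_univ, nsmul_eq_mul]
  have hnn : ∀ j, 0 ≤ fav (S j) (fun n => q (e n)) := fun j => fav_nonneg (fun n => q_nonneg _)
  refine ⟨(2 + 2 * B2) + ∑ j ∈ Finset.range j1, fav (S j) (fun n => q (e n)), ?_, fun j => ?_⟩
  · have : 0 ≤ ∑ j ∈ Finset.range j1, fav (S j) (fun n => q (e n)) := Finset.sum_nonneg (fun j _ => hnn j)
    positivity
  · by_cases hj : j1 ≤ j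
    · have h1 : fav (S j) (fun n => q (e n)) ≤ 2 + 2 * B2 := by
        calc _ ≤ fav (S j) (fun n => 2 * q (e n - U M0 n) + 2 * B2) := fav_mono (fun n => by
              have := q_le_two (e n) (U M0 n)
              linarith [hqU n])
          _ = 2 * fav (S j) (fun n => q (e n - U M0 n)) + 2 * B2 := by
              rw [fav_add, fav_mul, fav_const (hne j)]
          _ ≤ _ := by linarith [hj1 j hj]
      have : 0 ≤ ∑ j ∈ Finset.range j1, fav (S j) (fun n => q (e n)) := Finset.sum_nonneg (fun j _ => hnn j)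
      linarith
    · push Not at hj
      have : fav (S j) (fun n => q (e n)) ≤ ∑ j ∈ Finset.range j1, fav (S j) (fun n => q (e n)) :=
        Finset.single_le_sum (f := fun j => fav (S j) (fun n => q (e n))) (fun j _ => hnn j) (Finset.mem_range.mpr hj)
      linarith


lemma unif {U : ℕ → ℕ → ι → ℝ} (hU : ∀ M i, (fun n => ((U M n i : ℝ) : ℂ)) ∈ TS)
    {e : ℕ → ι → ℝ} {S : ℕ → Finset ℕ} (h : ApU U e S) {η : ℝ} (hη : 0 < η) :
    ∃ T : ℝ, 1 ≤ T ∧ ∃ j0, ∀ j, j0 ≤ j → fav (S j) (fun n => if T < q (e n) then q (e n) else 0) ≤ η := by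
  obtain ⟨M0, hM0⟩ := h (η/4) (by positivity)
  obtain ⟨j1, hj1⟩ := hM0 M0 le_rfl
  obtain ⟨B, hB0, hB⟩ := U_bdd (hU M0)
  set B2 : ℝ := (Fintype.card ι) * B^2 with hB2
  have hB20 : 0 ≤ B2 := by positivity
  have hqU : ∀ n, q (U M0 n) ≤ B2 := by
    intro n
    unfold q
    calc ∑ i, (U M0 n i)^2 ≤ ∑ i : ι, B^2 := Finset.sum_le_sum (fun i _ => by
          rw [← sq_abs]; exact pow_le_pow_left₀ (abs_nonneg _) (hB n i) 2)
      _ = B2 := by rw [Finset.sum_const, Finset.card_univ, nsmul_eq_mul]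
  refine ⟨4 * B2 + 1, by linarith, j1, fun j hj => ?_⟩
  calc _ ≤ fav (S j) (fun n => 4 * q (e n - U M0 n)) := fav_mono (fun n => by
        split_ifs with hx
        · exact q_far (hqU n) (by linarith)
        · have := q_nonneg (e n - U M0 n); positivity)
    _ = 4 * fav (S j) (fun n => q (e n - U M0 n)) := fav_mul _ _ _
    _ ≤ η := by linarith [hj1 j hj]


/-- from bounded test functions to test functions of quadratic growth -/
theorem law_of {U : ℕ → ℕ → ι → ℝ} (hU : ∀ M i, (fun n => ((U M n i : ℝ) : ℂ)) ∈ TS)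
    {e : ℕ → ι → ℝ} {S : ℕ → Finset ℕ} (hne : ∀ j, (S j).Nonempty) (h : ApU U e S)
    {μ : ProbabilityMeasure (ι → ℝ)}
    (hb : ∀ g : (ι → ℝ) → ℝ, Continuous g → (∃ B, ∀ x, |g x| ≤ B) →
      Tendsto (fun j => fav (S j) (fun n => g (e n))) atTop (𝓝 (∫ x, g x ∂(μ : Measure (ι → ℝ))))) :
    Integrable q (μ : Measure (ι → ℝ)) ∧
    ∀ f : (ι → ℝ) → ℝ, Continuous f → (∃ C, ∀ x, |f x| ≤ C * (1 + q x)) →
      Tendsto (fun j => fav (S j) (fun n => f (e n))) atTop (𝓝 (∫ x, f x ∂(μ : Measure (ι → ℝ)))) := by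
  obtain ⟨A, hA0, hA⟩ := sq_bdd hU hne h
  -- cutoffs
  set χ : ℕ → (ι → ℝ) → ℝ := fun K x => max 0 (min 1 (2 - q x / (K+1))) with hχ
  have hχc : ∀ K, Continuous (χ K) := by
    intro K
    simp only [hχ]
    have : Continuous (fun x : ι → ℝ => q x / ((K:ℝ)+1)) := q_cont.div_const _
    fun_prop
  have hχ0 : ∀ K x, 0 ≤ χ K x := fun K x => le_max_left _ _
  have hχ1 : ∀ K x, χ K x ≤ 1 := fun K x => max_le (by norm_num) (min_le_left _ _)
  have hχeq : ∀ (K : ℕ) (x : ι → ℝ), q x ≤ K + 1 → χ K x = 1 := by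
    intro K x hx
    have : q x / ((K:ℝ)+1) ≤ 1 := by rw [div_le_one (by positivity)]; exact hx
    simp only [hχ]
    rw [min_eq_left (by linarith), max_eq_right (by norm_num)]
  have hχz : ∀ (K : ℕ) (x : ι → ℝ), 2 * (K + 1) ≤ q x → χ K x = 0 := by
    intro K x hx
    have : 2 ≤ q x / ((K:ℝ)+1) := by rw [le_div_iff₀ (by positivity)]; exact hx
    simp only [hχ]
    rw [max_eq_left]
    exact (min_le_right _ _).trans (by linarith)
  have hcut : ∀ (f : (ι → ℝ) → ℝ), Continuous f → ∀ C : ℝ, 0 ≤ C → (∀ x, |f x| ≤ C * (1 + q x)) → ∀ K : ℕ,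
      (∀ x, |f x * χ K x| ≤ C * (1 + 2 * (K + 1))) := by
    intro f hf C hC0 hC K x
    rw [abs_mul, abs_of_nonneg (hχ0 K x)]
    by_cases hx : 2 * ((K:ℝ) + 1) ≤ q x
    · rw [hχz K x hx, mul_zero]; positivity
    · push Not at hx
      have h1 : |f x| ≤ C * (1 + 2 * (K + 1)) := by
        refine (hC x).trans ?_
        gcongr
      have h2 := hχ1 K x
      have h3 := abs_nonneg (f x)
      nlinarith [hχ0 K x]
  -- integrability of q
  have hq : Integrable (q : (ι → ℝ) → ℝ) (μ : Measure (ι → ℝ)) := by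
    have h1 : ∀ K : ℕ, ∫ x, q x * χ K x ∂(μ : Measure (ι → ℝ)) ≤ A := by
      intro K
      have h2 := hb (fun x => q x * χ K x) (q_cont.mul (hχc K)) ⟨_, hcut q q_cont 1 zero_le_one (fun x => by
        rw [abs_of_nonneg (q_nonneg x)]; linarith) K⟩
      apply le_of_tendsto h2
      refine Eventually.of_forall (fun j => ?_)
      refine le_trans (fav_mono (fun n => ?_)) (hA j)
      calc q (e n) * χ K (e n) ≤ q (e n) * 1 := mul_le_mul_of_nonneg_left (hχ1 K _) (q_nonneg _)
        _ = q (e n) := mul_one _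
    refine ⟨q_cont.aestronglyMeasurable, ?_⟩
    rw [hasFiniteIntegral_iff_ofReal (Eventually.of_forall (fun x => q_nonneg x))]
    have h2 : ∫⁻ x, ENNReal.ofReal (q x) ∂(μ : Measure (ι → ℝ)) ≤
        liminf (fun K : ℕ => ∫⁻ x, ENNReal.ofReal (q x * χ K x) ∂(μ : Measure (ι → ℝ))) atTop := by
      have h3 : ∀ x, ENNReal.ofReal (q x) = liminf (fun K : ℕ => ENNReal.ofReal (q x * χ K x)) atTop := by
        intro x
        symm
        apply Tendsto.liminf_eq
        apply tendsto_const_nhds.congr'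
        obtain ⟨K0, hK0⟩ := exists_nat_ge (q x)
        filter_upwards [eventually_ge_atTop K0] with K hK
        have : (K0:ℝ) ≤ K := by exact_mod_cast hK
        rw [hχeq K x (by linarith), mul_one]
      simp only [h3]
      apply lintegral_liminf_le
      intro K
      exact (q_cont.mul (hχc K)).measurable.ennreal_ofReal
    refine lt_of_le_of_lt h2 ?_
    have h4 : ∀ K : ℕ, ∫⁻ x, ENNReal.ofReal (q x * χ K x) ∂(μ : Measure (ι → ℝ)) ≤ ENNReal.ofReal A := by
      intro K
      rw [← ofReal_integral_eq_lintegral_ofReal]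
      · exact ENNReal.ofReal_le_ofReal (h1 K)
      · apply Integrable.of_bound (q_cont.mul (hχc K)).aestronglyMeasurable (1 * (1 + 2 * (K + 1)))
        refine Eventually.of_forall (fun x => ?_)
        rw [Real.norm_eq_abs]
        exact hcut q q_cont 1 zero_le_one (fun x => by rw [abs_of_nonneg (q_nonneg x)]; linarith) K x
      · exact Eventually.of_forall (fun x => mul_nonneg (q_nonneg x) (hχ0 K x))
    have h5 : liminf (fun K : ℕ => ∫⁻ x, ENNReal.ofReal (q x * χ K x) ∂(μ : Measure (ι → ℝ))) atTop ≤ ENNReal.ofReal A := by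
      refine (liminf_le_liminf (v := fun _ => ENNReal.ofReal A) (Eventually.of_forall h4)).trans ?_
      rw [liminf_const]
    exact lt_of_le_of_lt h5 ENNReal.ofReal_lt_top
  refine ⟨hq, ?_⟩
  intro f hf hC
  obtain ⟨C, hC⟩ := hC
  have hC0 : 0 ≤ C := by
    have h1 := hC 0
    have h2 := abs_nonneg (f 0)
    have h3 : q (0 : ι → ℝ) = 0 := by simp [q]
    rw [h3] at h1; linarith
  have hintf : Integrable f (μ : Measure (ι → ℝ)) := by
    apply Integrable.mono' ((integrable_const (1:ℝ)).add hq |>.const_mul C) hf.aestronglyMeasurable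
    exact Eventually.of_forall (fun x => by
      rw [Real.norm_eq_abs]
      simpa using hC x)
  have hfK : ∀ K : ℕ, Tendsto (fun j => fav (S j) (fun n => f (e n) * χ K (e n))) atTop
      (𝓝 (∫ x, f x * χ K x ∂(μ : Measure (ι → ℝ)))) := fun K =>
    hb (fun x => f x * χ K x) (hf.mul (hχc K)) ⟨_, hcut f hf C hC0 hC K⟩
  have hDCT : Tendsto (fun K : ℕ => ∫ x, f x * χ K x ∂(μ : Measure (ι → ℝ))) atTop (𝓝 (∫ x, f x ∂(μ : Measure (ι → ℝ)))) := by
    apply tendsto_integral_of_dominated_convergence (fun x => |f x|)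
    · intro K; exact (hf.mul (hχc K)).aestronglyMeasurable
    · exact hintf.abs
    · intro K
      refine Eventually.of_forall (fun x => ?_)
      rw [Real.norm_eq_abs, abs_mul, abs_of_nonneg (hχ0 K x)]
      exact mul_le_of_le_one_right (abs_nonneg _) (hχ1 K x)
    · refine Eventually.of_forall (fun x => ?_)
      apply tendsto_const_nhds.congr'
      obtain ⟨K0, hK0⟩ := exists_nat_ge (q x)
      filter_upwards [eventually_ge_atTop K0] with K hK
      have : (K0:ℝ) ≤ K := by exact_mod_cast hK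
      rw [hχeq K x (by linarith), mul_one]
  rw [Metric.tendsto_atTop]
  intro ε hε
  obtain ⟨K1, hK1, N1, hN1⟩ := unif hU h (η := ε / (8 * (C + 1))) (by positivity)
  rw [Metric.tendsto_atTop] at hDCT
  obtain ⟨K2, hK2⟩ := hDCT (ε/4) (by positivity)
  obtain ⟨K3, hK3⟩ := exists_nat_ge K1
  set K := max K2 K3 with hK
  have hKK1 : K1 ≤ (K:ℝ) + 1 := by
    have : (K3:ℝ) ≤ K := by exact_mod_cast le_max_right _ _
    linarith
  have hfK' := hfK K
  rw [Metric.tendsto_atTop] at hfK'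
  obtain ⟨N2, hN2⟩ := hfK' (ε/4) (by positivity)
  refine ⟨max N1 N2, ?_⟩
  intro N hN
  have a1 := hN1 N (by omega)
  have a2 := hN2 N (by omega)
  have a3 := hK2 K (le_max_left _ _)
  rw [Real.dist_eq] at a2 a3 ⊢
  have a4 : |fav (S N) (fun n => f (e n)) - fav (S N) (fun n => f (e n) * χ K (e n))| ≤ ε/4 := by
    rw [← fav_sub]
    have e2 := abs_fav_le (S N) (fun n => f (e n) - f (e n) * χ K (e n))
    have e3 : ∀ n, |f (e n) - f (e n) * χ K (e n)| ≤ (2 * C) * (if K1 < q (e n) then q (e n) else 0) := by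
      intro n
      by_cases hx : q (e n) ≤ K + 1
      · rw [hχeq K _ hx, mul_one, sub_self, abs_zero]
        have := q_nonneg (e n)
        split_ifs <;> positivity
      · push Not at hx
        have hx1 : K1 < q (e n) := by linarith
        rw [if_pos hx1]
        have b1 : f (e n) - f (e n) * χ K (e n) = f (e n) * (1 - χ K (e n)) := by ring
        rw [b1, abs_mul, abs_of_nonneg (by linarith [hχ1 K (e n)] : 0 ≤ 1 - χ K (e n))]
        have b2 : |f (e n)| * (1 - χ K (e n)) ≤ |f (e n)| * 1 :=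
          mul_le_mul_of_nonneg_left (by linarith [hχ0 K (e n)]) (abs_nonneg _)
        have b3 : 1 ≤ q (e n) := by
          have : (0:ℝ) ≤ K := Nat.cast_nonneg K
          linarith
        have b4 := hC (e n)
        nlinarith
    refine e2.trans ((fav_mono e3).trans ?_)
    rw [fav_mul]
    calc 2 * C * fav (S N) (fun n => if K1 < q (e n) then q (e n) else 0) ≤ 2 * C * (ε / (8 * (C + 1))) :=
          mul_le_mul_of_nonneg_left a1 (by positivity)
      _ ≤ ε/4 := by
          rw [mul_div_assoc', div_le_div_iff₀ (by positivity) (by norm_num)]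
          nlinarith
  have e5 : fav (S N) (fun n => f (e n)) - ∫ x, f x ∂(μ : Measure (ι → ℝ)) =
      (fav (S N) (fun n => f (e n)) - fav (S N) (fun n => f (e n) * χ K (e n))) +
      (fav (S N) (fun n => f (e n) * χ K (e n)) - ∫ x, f x * χ K x ∂(μ : Measure (ι → ℝ))) +
      (∫ x, f x * χ K x ∂(μ : Measure (ι → ℝ)) - ∫ x, f x ∂(μ : Measure (ι → ℝ))) := by ring
  rw [e5]
  refine lt_of_le_of_lt (abs_add_le _ _) ?_
  refine lt_of_le_of_lt (add_le_add (abs_add_le _ _) le_rfl) ?_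
  linarith

/-- existence of the limit law -/
theorem law {U : ℕ → ℕ → ι → ℝ} (hU : ∀ M i, (fun n => ((U M n i : ℝ) : ℂ)) ∈ TS)
    {e : ℕ → ι → ℝ} {S : ℕ → Finset ℕ} (hne : ∀ j, (S j).Nonempty) (hS : AvS S) (h : ApU U e S) :
    ∃ μ : ProbabilityMeasure (ι → ℝ), Integrable q (μ : Measure (ι → ℝ)) ∧
    ∀ f : (ι → ℝ) → ℝ, Continuous f → (∃ C, ∀ x, |f x| ≤ C * (1 + q x)) →
      Tendsto (fun j => fav (S j) (fun n => f (e n))) atTop (𝓝 (∫ x, f x ∂(μ : Measure (ι → ℝ)))) := by
  obtain ⟨A, hA0, hA⟩ := sq_bdd hU hne h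
  have hlim : ∀ g : (ι → ℝ) → ℝ, Continuous g → (∃ B, ∀ x, |g x| ≤ B) →
      ∃ L : ℝ, Tendsto (fun j => fav (S j) (fun n => g (e n))) atTop (𝓝 L) := by
    intro g hg hB
    obtain ⟨B, hB⟩ := hB
    refine conv hU hne hS h hg ⟨B, fun x => ?_⟩
    have h1 := hB x
    have h2 : 0 ≤ B := (abs_nonneg _).trans h1
    nlinarith [q_nonneg x]
  haveI : ∀ j, IsProbabilityMeasure (emp (S j) e) := fun j => emp_prob (hne j) e
  set P : ℕ → ProbabilityMeasure (ι → ℝ) := fun j => ⟨emp (S j) e, inferInstance⟩ with hP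
  have htight : IsTightMeasureSet {((ν : ProbabilityMeasure (ι → ℝ)) : Measure (ι → ℝ)) | ν ∈ Set.range P} := by
    rw [isTightMeasureSet_iff_exists_isCompact_measure_compl_le]
    intro ε hε
    by_cases hεt : ε = ⊤
    · refine ⟨∅, isCompact_empty, fun ν _ => ?_⟩
      rw [hεt]; exact le_top
    set T : ℝ := (A + 1) / ε.toReal with hT
    have hε' : 0 < ε.toReal := ENNReal.toReal_pos hε.ne' hεt
    have hT0 : 0 < T := by positivity
    refine ⟨{x | q x ≤ T}, K_compact T, ?_⟩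
    rintro _ ⟨ν, ⟨j, rfl⟩, rfl⟩
    have h1 := mul_meas_ge_le_lintegral (μ := emp (S j) e) (f := fun x => ENNReal.ofReal (q x))
      (q_cont.measurable.ennreal_ofReal) (ENNReal.ofReal T)
    rw [emp_lint (hne j) e q_cont q_nonneg] at h1
    have h2 : (emp (S j) e) {x | q x ≤ T}ᶜ ≤ (emp (S j) e) {x | ENNReal.ofReal T ≤ ENNReal.ofReal (q x)} := by
      apply measure_mono
      intro x hx
      simp only [Set.mem_compl_iff, Set.mem_setOf_eq, not_le] at hx ⊢
      exact ENNReal.ofReal_le_ofReal hx.le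
    have h3 : ENNReal.ofReal T * (emp (S j) e) {x | q x ≤ T}ᶜ ≤ ENNReal.ofReal (A + 1) := by
      refine (mul_le_mul_right h2 _).trans (h1.trans ?_)
      apply ENNReal.ofReal_le_ofReal
      linarith [hA j]
    have h4 : ENNReal.ofReal (A + 1) = ENNReal.ofReal T * ε := by
      conv_rhs => rw [← ENNReal.ofReal_toReal hεt, ← ENNReal.ofReal_mul hT0.le]
      congr 1
      rw [hT]
      field_simp
    rw [h4] at h3
    exact (ENNReal.mul_le_mul_iff_right (by simpa using hT0) ENNReal.ofReal_ne_top).mp h3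
  have hcomp : IsCompact (closure (Set.range P)) := isCompact_closure_of_isTightMeasureSet htight
  let W : Ultrafilter ℕ := Ultrafilter.of atTop
  obtain ⟨μ, -, hμ⟩ := hcomp.ultrafilter_le_nhds (W.map P)
    (by
      rw [Filter.le_principal_iff]
      apply Filter.mem_of_superset (Filter.range_mem_map)
      exact subset_closure)
  have hW : (W : Filter ℕ) ≤ atTop := Ultrafilter.of_le atTop
  have hμ' : Tendsto P (W : Filter ℕ) (𝓝 μ) := hμ
  rw [ProbabilityMeasure.tendsto_iff_forall_integral_tendsto] at hμ'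
  refine ⟨μ, ?_⟩
  apply law_of hU hne h
  intro g hg hB
  obtain ⟨L, hL⟩ := hlim g hg hB
  obtain ⟨B, hB⟩ := hB
  have h1 := hμ' (BoundedContinuousFunction.ofNormedAddCommGroup g hg B hB)
  have h2 : Tendsto (fun j => fav (S j) (fun n => g (e n))) (W : Filter ℕ) (𝓝 (∫ x, g x ∂(μ : Measure (ι → ℝ)))) := by
    refine h1.congr ?_
    intro j
    exact emp_int (S j) e hg
  have h3 := hL.mono_left hW
  rw [← tendsto_nhds_unique h3 h2]
  exact hL

/-- two admissible families give the same law -/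
theorem law_transfer {U : ℕ → ℕ → ι → ℝ} (hU : ∀ M i, (fun n => ((U M n i : ℝ) : ℂ)) ∈ TS)
    {e : ℕ → ι → ℝ} {S S' : ℕ → Finset ℕ} (hne : ∀ j, (S j).Nonempty) (hS : AvS S) (h : ApU U e S)
    (hne' : ∀ j, (S' j).Nonempty) (hS' : AvS S') (h' : ApU U e S')
    {f : (ι → ℝ) → ℝ} (hf : Continuous f) (hC : ∃ C, ∀ x, |f x| ≤ C * (1 + q x)) {L : ℝ}
    (hL : Tendsto (fun j => fav (S j) (fun n => f (e n))) atTop (𝓝 L)) :
    Tendsto (fun j => fav (S' j) (fun n => f (e n))) atTop (𝓝 L) := by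
  have hne2 : ∀ j, (il S S' j).Nonempty := by
    intro j; unfold il; split_ifs
    · exact hne _
    · exact hne' _
  have hS2 : AvS (il S S') := fun θ => il_tendsto (F := fun A => cav A (chS θ)) (hS θ) (hS' θ)
  have h2 : ApU U e (il S S') := by
    intro η hη
    obtain ⟨M1, h1⟩ := h η hη
    obtain ⟨M2, h2⟩ := h' η hη
    refine ⟨max M1 M2, fun M hM => ?_⟩
    obtain ⟨j1, hj1⟩ := h1 M (by omega)
    obtain ⟨j2, hj2⟩ := h2 M (by omega)
    refine ⟨2 * j1 + 2 * j2 + 2, fun j hj => ?_⟩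
    unfold il
    split_ifs
    · exact hj1 _ (by omega)
    · exact hj2 _ (by omega)
  obtain ⟨L2, hL2⟩ := conv hU hne2 hS2 h2 hf hC
  have h3 : Tendsto (fun j => fav (il S S' (2*j)) (fun n => f (e n))) atTop (𝓝 L2) :=
    hL2.comp (tendsto_atTop_mono (fun j => by simp only [id]; omega) tendsto_id : Tendsto (fun j : ℕ => 2*j) atTop atTop)
  have h4 : Tendsto (fun j => fav (il S S' (2*j+1)) (fun n => f (e n))) atTop (𝓝 L2) :=
    hL2.comp (tendsto_atTop_mono (fun j => by simp only [id]; omega) tendsto_id : Tendsto (fun j : ℕ => 2*j+1) atTop atTop)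
  simp only [il_even] at h3
  simp only [il_odd] at h4
  rw [tendsto_nhds_unique hL h3]
  exact h4


end Pool.Agent.W24.CP.SL
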