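import Mathlib
import Pool.Agent.W24.CP.SA
import Pool.Agent.W24.CP.SL

/-! Uniform orthogonality and the limit law. -/

open Finset Filter Topology MeasureTheory
open Pool.Agent.H383
open Pool.Agent.H383.Gen (Bd U)
open Pool.Agent.H452R2.Win Pool.Agent.H452R2.Om
open Pool.Agent.H469R2.NK
open Pool.Agent.H425R3.JL (PR pi_low fav cav q ApU fav_const fav_add fav_mul fav_mono fav_nonneg cav_add cav_smul cav_ofReal norm_cav_sub_le q_nonneg q_cont)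
open Pool.Agent.W24.CP.SL (chS chS_zero norm_chS mcS TS TS_chr TS_one TS_lim AvS)
open Pool.Agent.W24.Katai (Mul1)

namespace Pool.Agent.W24.CP.SU

variable {ι : Type*} [Fintype ι]

lemma norm_cav_le (S : Finset ℕ) (g : ℕ → ℂ) : ‖cav S g‖ ≤ fav S (fun n => ‖g n‖) := by
  unfold cav fav
  rw [norm_div, Complex.norm_natCast]
  exact div_le_div_of_nonneg_right (norm_sum_le _ _) (Nat.cast_nonneg _)

lemma cav_const {S : Finset ℕ} (hS : S.Nonempty) (c : ℂ) : cav S (fun _ => c) = c := by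
  unfold cav
  rw [sum_const, nsmul_eq_mul, mul_comm, mul_div_assoc, div_self, mul_one]
  exact_mod_cast (Finset.card_pos.mpr hS).ne'

/-- orthogonality of trigonometric polynomials in `√n` -/
lemma uo_TS {S : ℕ → Finset ℕ} {V : ℕ → Set (ℕ → ℂ)}
    (hor : ∀ θ : ℝ, θ ≠ 0 → ∀ η : ℝ, 0 < η → ∃ j0 : ℕ, ∀ j, j0 ≤ j → ∀ v ∈ V j, ‖cav (S j) (fun n => v n * chS θ n)‖ ≤ η)
    {t : ℕ → ℂ} (ht : t ∈ TS) : ∃ L : ℂ, (∀ S, AvS S → Tendsto (fun j => cav (S j) t) atTop (𝓝 L)) ∧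
      ∀ η : ℝ, 0 < η → ∃ j0 : ℕ, ∀ j, j0 ≤ j → ∀ v ∈ V j, ‖cav (S j) (fun n => v n * (t n - L))‖ ≤ η := by
  unfold TS at ht
  induction ht using Submodule.span_induction with
  | mem x hx =>
    obtain ⟨θ, rfl⟩ := hx
    refine ⟨mcS θ, fun S hS => hS θ, ?_⟩
    intro η hη
    by_cases hθ : θ = 0
    · refine ⟨0, fun j _ v _ => ?_⟩
      have : (fun n => v n * (chS θ n - mcS θ)) = fun _ => 0 := by
        funext n
        rw [hθ, chS_zero]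
        simp [mcS]
      rw [this]
      unfold cav; simp [hη.le]
    · obtain ⟨j0, h⟩ := hor θ hθ η hη
      refine ⟨j0, fun j hj v hv => ?_⟩
      have e1 : (fun n => v n * (chS θ n - mcS θ)) = fun n => v n * chS θ n := by
        funext n; simp [mcS, hθ]
      rw [e1]
      exact h j hj v hv
  | zero =>
    refine ⟨0, fun S _ => ?_, fun η hη => ⟨0, fun j _ v _ => ?_⟩⟩
    · have : ∀ j, cav (S j) 0 = 0 := fun j => by simp [cav]
      simp only [this]; exact tendsto_const_nhds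
    · unfold cav; simp [hη.le]
  | add x y _ _ hx hy =>
    obtain ⟨L, hL, h⟩ := hx
    obtain ⟨L', hL', h'⟩ := hy
    refine ⟨L + L', fun S hS => ?_, fun η hη => ?_⟩
    · simp only [cav_add]
      exact (hL S hS).add (hL' S hS)
    · obtain ⟨j1, h1⟩ := h (η/2) (by positivity)
      obtain ⟨j2, h2⟩ := h' (η/2) (by positivity)
      refine ⟨max j1 j2, fun j hj v hv => ?_⟩
      have e1 : (fun n => v n * ((x + y) n - (L + L'))) = (fun n => v n * (x n - L)) + (fun n => v n * (y n - L')) := by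
        funext n; simp only [Pi.add_apply]; ring
      rw [e1, cav_add]
      have a1 := h1 j (by omega) v hv
      have a2 := h2 j (by omega) v hv
      exact (norm_add_le _ _).trans (by linarith)
  | smul c x _ hx =>
    obtain ⟨L, hL, h⟩ := hx
    refine ⟨c * L, fun S hS => ?_, fun η hη => ?_⟩
    · simp only [cav_smul]
      exact (hL S hS).const_mul c
    · obtain ⟨j1, h1⟩ := h (η / (‖c‖ + 1)) (by positivity)
      refine ⟨j1, fun j hj v hv => ?_⟩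
      have e1 : (fun n => v n * ((c • x) n - c * L)) = c • (fun n => v n * (x n - L)) := by
        funext n; simp only [Pi.smul_apply, smul_eq_mul]; ring
      rw [e1, cav_smul, norm_smul]
      calc ‖c‖ * ‖cav (S j) (fun n => v n * (x n - L))‖ ≤ ‖c‖ * (η / (‖c‖ + 1)) :=
            mul_le_mul_of_nonneg_left (h1 j hj v hv) (norm_nonneg _)
        _ = η * (‖c‖ / (‖c‖ + 1)) := by ring
        _ ≤ η * 1 := by
            apply mul_le_mul_of_nonneg_left _ hη.le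
            rw [div_le_one (by positivity)]; linarith
        _ = η := mul_one _

/-- orthogonality of functions of the sequence -/
theorem uo {S : ℕ → Finset ℕ} (hne : ∀ j, (S j).Nonempty) (hAv : AvS S) {V : ℕ → Set (ℕ → ℂ)}
    (hbd : ∀ j, ∀ v ∈ V j, ∀ n, ‖v n‖ ≤ 1)
    (hor : ∀ θ : ℝ, θ ≠ 0 → ∀ η : ℝ, 0 < η → ∃ j0 : ℕ, ∀ j, j0 ≤ j → ∀ v ∈ V j, ‖cav (S j) (fun n => v n * chS θ n)‖ ≤ η)
    {Um : ℕ → ℕ → ι → ℝ} (hU : ∀ M i, (fun n => ((Um M n i : ℝ) : ℂ)) ∈ TS)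
    {e : ℕ → ι → ℝ} (h : ApU Um e S)
    {f : (ι → ℝ) → ℝ} (hf : Continuous f) (hC : ∃ C : ℝ, ∀ x, |f x| ≤ C * (1 + q x))
    {L : ℝ} (hL : Tendsto (fun j => fav (S j) (fun n => f (e n))) atTop (𝓝 L)) {η : ℝ} (hη : 0 < η) :
    ∃ j0 : ℕ, ∀ j, j0 ≤ j → ∀ v ∈ V j, ‖cav (S j) (fun n => v n * ((f (e n) - L : ℝ) : ℂ))‖ ≤ η := by
  obtain ⟨t, ht, j1, hj1⟩ := SL.approx hU hne h hf hC (η := η/4) (by positivity)
  obtain ⟨Lt, hLt, huo⟩ := uo_TS hor ht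
  obtain ⟨j2, hj2⟩ := huo (η/4) (by positivity)
  -- the two limits are close
  have hclose : ‖Lt - ((L : ℝ) : ℂ)‖ ≤ η/4 := by
    have h1 : Tendsto (fun j => cav (S j) t - ((fav (S j) (fun n => f (e n)) : ℝ) : ℂ)) atTop (𝓝 (Lt - ((L : ℝ) : ℂ))) :=
      (hLt S hAv).sub ((Complex.continuous_ofReal.tendsto L).comp hL)
    refine le_of_tendsto h1.norm ?_
    filter_upwards [eventually_ge_atTop j1] with j hj
    have a1 := hj1 j hj
    rw [← cav_ofReal, norm_sub_rev]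
    exact (norm_cav_sub_le _ _ _).trans a1
  refine ⟨max j1 j2, fun j hj v hv => ?_⟩
  have a1 := hj1 j (by omega)
  have a2 := hj2 j (by omega) v hv
  have e1 : (fun n => v n * ((f (e n) - L : ℝ) : ℂ)) = (fun n => v n * (((f (e n) : ℝ) : ℂ) - t n)) + ((fun n => v n * (t n - Lt)) +
      (fun n => v n * (Lt - ((L:ℝ):ℂ)))) := by
    funext n; simp only [Pi.add_apply]; push_cast; ring
  rw [e1, cav_add, cav_add]
  have b1 : ‖cav (S j) (fun n => v n * (((f (e n) : ℝ) : ℂ) - t n))‖ ≤ η/4 := by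
    refine (norm_cav_le _ _).trans (le_trans (fav_mono fun n => ?_) a1)
    rw [norm_mul]
    exact mul_le_of_le_one_left (norm_nonneg _) (hbd j v hv n)
  have b3 : ‖cav (S j) (fun n => v n * (Lt - ((L:ℝ):ℂ)))‖ ≤ η/4 := by
    refine (norm_cav_le _ _).trans ?_
    calc fav (S j) (fun n => ‖v n * (Lt - ((L:ℝ):ℂ))‖) ≤ fav (S j) (fun _ => η/4) := by
          apply fav_mono; intro n
          rw [norm_mul]
          calc ‖v n‖ * ‖Lt - ((L:ℝ):ℂ)‖ ≤ 1 * (η/4) := mul_le_mul (hbd j v hv n) hclose (norm_nonneg _) zero_le_one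
            _ = η/4 := one_mul _
      _ = η/4 := fav_const (hne j) _
  refine (norm_add_le _ _).trans ?_
  refine (add_le_add le_rfl (norm_add_le _ _)).trans ?_
  linarith

/-- the integers -/
def SI (j : ℕ) : Finset ℕ := Icc 1 (j + 1)

lemma SI_ne (j : ℕ) : (SI j).Nonempty := ⟨1, by unfold SI; rw [mem_Icc]; omega⟩

lemma SI_card (j : ℕ) : (SI j).card = j + 1 := by unfold SI; rw [Nat.card_Icc]; omega

/-- the weights over the integers: multiplicative times additive character -/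
def VI (_ : ℕ) : Set (ℕ → ℂ) := {v | ∃ g : ℕ → ℂ, Mul1 g ∧ ∃ α : ℝ, v = fun n : ℕ => g n * e (α * n)}

lemma VI_bd (j : ℕ) (v : ℕ → ℂ) (hv : v ∈ VI j) (n : ℕ) : ‖v n‖ ≤ 1 := by
  obtain ⟨g, hg, α, rfl⟩ := hv
  simp only [norm_mul, norm_e, mul_one]
  exact hg.1 n

lemma VI_or (θ : ℝ) (hθ : θ ≠ 0) (η : ℝ) (hη : 0 < η) : ∃ j0 : ℕ, ∀ j, j0 ≤ j → ∀ v ∈ VI j,
    ‖cav (SI j) (fun n => v n * chS θ n)‖ ≤ η := by
  obtain ⟨N0, h⟩ := SC.mult_sum hθ hη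
  refine ⟨N0, fun j hj v hv => ?_⟩
  obtain ⟨g, hg, α, rfl⟩ := hv
  have h1 := h (j + 1) (by omega) α g hg
  unfold cav
  rw [norm_div, Complex.norm_natCast, SI_card, div_le_iff₀ (by positivity)]
  refine le_trans (le_of_eq ?_) h1
  congr 1
  unfold SI
  have : Icc 1 (j + 1) = Ioc 0 (j + 1) := by ext x; simp only [mem_Icc, mem_Ioc]; omega
  rw [this]
  apply sum_congr rfl; intro n _
  show (g n * e (α * n)) * chS θ n = _
  unfold chS
  rw [mul_assoc, ← e_add, add_comm (α * (n:ℝ))]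

lemma SI_Av : AvS SI := by
  intro θ
  by_cases hθ : θ = 0
  · subst hθ
    have : ∀ j, cav (SI j) (chS 0) = 1 := by
      intro j
      rw [chS_zero]
      exact cav_const (SI_ne j) 1
    simp only [this, mcS, if_pos]
    exact tendsto_const_nhds
  · simp only [mcS, if_neg hθ]
    rw [Metric.tendsto_atTop]
    intro ε hε
    obtain ⟨j0, h⟩ := VI_or θ hθ (ε/2) (by positivity)
    refine ⟨j0, fun j hj => ?_⟩
    rw [dist_zero_right]
    have h1 := h j hj (fun n : ℕ => (1:ℂ) * e (0 * n)) ⟨fun _ => 1, ⟨fun n => by simp, fun m n _ => by simp⟩, 0, rfl⟩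
    have e1 : (fun n : ℕ => ((1:ℂ) * e (0 * n)) * chS θ n) = chS θ := by
      funext n
      have : e (0 * (n:ℝ)) = 1 := by unfold e; simp
      rw [this]; ring
    simp only [e1] at h1
    linarith

/-- the primes -/
noncomputable def SQ (j : ℕ) : Finset ℕ := PR (j + 2)

lemma SQ_ne (j : ℕ) : (SQ j).Nonempty := ⟨2, by
  unfold SQ PR; rw [mem_filter, mem_Icc]; exact ⟨⟨by omega, by omega⟩, Nat.prime_two⟩⟩

/-- the weights over the primes -/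
def VQ (_ : ℕ) : Set (ℕ → ℂ) := {v | ∃ α : ℝ, v = fun n : ℕ => e (α * n)}

lemma VQ_bd (j : ℕ) (v : ℕ → ℂ) (hv : v ∈ VQ j) (n : ℕ) : ‖v n‖ ≤ 1 := by
  obtain ⟨α, rfl⟩ := hv
  exact (norm_e _).le

lemma VQ_or (θ : ℝ) (hθ : θ ≠ 0) (η : ℝ) (hη : 0 < η) : ∃ j0 : ℕ, ∀ j, j0 ≤ j → ∀ v ∈ VQ j,
    ‖cav (SQ j) (fun n => v n * chS θ n)‖ ≤ η := by
  obtain ⟨C, hC, h⟩ := SP.prime_es
  obtain ⟨N00, hpi⟩ := pi_low
  have ev1 : ∀ᶠ N : ℕ in Filter.atTop, |θ| + 1/|θ| ≤ (N:ℝ) ^ (1/32:ℝ) :=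
    (((tendsto_rpow_atTop (by norm_num : (0:ℝ) < 1/32)).comp tendsto_natCast_atTop_atTop).eventually_ge_atTop _)
  have ev2 : ∀ᶠ N : ℕ in Filter.atTop, 512 * C / η ≤ (N:ℝ) ^ (1/256:ℝ) :=
    (((tendsto_rpow_atTop (by norm_num : (0:ℝ) < 1/256)).comp tendsto_natCast_atTop_atTop).eventually_ge_atTop _)
  obtain ⟨N1, hN1⟩ := Filter.eventually_atTop.mp (ev1.and ev2)
  refine ⟨max (max N1 N00) 9, fun j hj v hv => ?_⟩
  obtain ⟨α, rfl⟩ := hv
  set N := j + 2 with hN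
  have hN9 : 9 ≤ N := by omega
  obtain ⟨g1, g2⟩ := hN1 N (by omega)
  have hNr : (9:ℝ) ≤ N := by exact_mod_cast hN9
  have hNpos : (0:ℝ) < N := by linarith
  have hNone : (1:ℝ) ≤ N := by linarith
  have h1 := h N hN9 θ hθ (by
    have : 0 ≤ (N:ℝ) ^ (1/32:ℝ) := by positivity
    linarith) α
  have hcard := hpi N (by omega)
  have hlog1 : 1 ≤ Real.log N := by
    rw [Real.le_log_iff_exp_le hNpos]
    have := Real.exp_one_lt_d9
    linarith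
  have hc0 : (0:ℝ) < (PR N).card := lt_of_lt_of_le (by positivity) hcard
  unfold cav
  have e0 : SQ j = PR N := rfl
  rw [e0, norm_div, Complex.norm_natCast, div_le_iff₀ hc0]
  have e1 : ∑ n ∈ PR N, e (α * n) * chS θ n = ∑ p ∈ PR N, e (α * p) * e (θ * √(p:ℝ)) := rfl
  rw [e1]
  refine h1.trans ?_
  have h3 : Real.log N ≤ (N:ℝ) ^ (1/256:ℝ) / (1/256) := Real.log_le_rpow_div hNpos.le (by norm_num)
  have e2 : (N:ℝ) = (N:ℝ) ^ (127/128:ℝ) * ((N:ℝ) ^ (1/256:ℝ) * (N:ℝ) ^ (1/256:ℝ)) := by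
    rw [← Real.rpow_add hNpos, ← Real.rpow_add hNpos]; norm_num
  rw [div_le_iff₀ hη] at g2
  have h4 : 2 * C * Real.log N ≤ η * ((N:ℝ) ^ (1/256:ℝ) * (N:ℝ) ^ (1/256:ℝ)) := by
    calc 2 * C * Real.log N ≤ 2 * C * ((N:ℝ) ^ (1/256:ℝ) / (1/256)) := by gcongr
      _ = (512 * C) * (N:ℝ) ^ (1/256:ℝ) := by ring
      _ ≤ ((N:ℝ) ^ (1/256:ℝ) * η) * (N:ℝ) ^ (1/256:ℝ) := by gcongr
      _ = _ := by ring
  calc C * (N:ℝ) ^ (127/128:ℝ) = (2 * C * Real.log N) * (N:ℝ) ^ (127/128:ℝ) / (2 * Real.log N) := by field_simp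
    _ ≤ (η * ((N:ℝ) ^ (1/256:ℝ) * (N:ℝ) ^ (1/256:ℝ))) * (N:ℝ) ^ (127/128:ℝ) / (2 * Real.log N) := by gcongr
    _ = η * ((N:ℝ) ^ (127/128:ℝ) * ((N:ℝ) ^ (1/256:ℝ) * (N:ℝ) ^ (1/256:ℝ))) / (2 * Real.log N) := by ring
    _ = η * N / (2 * Real.log N) := by rw [← e2]
    _ = η * (N / (2 * Real.log N)) := by ring
    _ ≤ η * (PR N).card := by gcongr

lemma SQ_Av : AvS SQ := by
  intro θ
  by_cases hθ : θ = 0
  · subst hθ
    have : ∀ j, cav (SQ j) (chS 0) = 1 := by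
      intro j
      rw [chS_zero]
      exact cav_const (SQ_ne j) 1
    simp only [this, mcS, if_pos]
    exact tendsto_const_nhds
  · simp only [mcS, if_neg hθ]
    rw [Metric.tendsto_atTop]
    intro ε hε
    obtain ⟨j0, h⟩ := VQ_or θ hθ (ε/2) (by positivity)
    refine ⟨j0, fun j hj => ?_⟩
    rw [dist_zero_right]
    have h1 := h j hj (fun n : ℕ => e (0 * n)) ⟨0, rfl⟩
    have e1 : (fun n : ℕ => (e (0 * n)) * chS θ n) = chS θ := by
      funext n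
      have : e (0 * (n:ℝ)) = 1 := by unfold e; simp
      rw [this]; ring
    simp only [e1] at h1
    linarith

variable {E : ℝ → ℝ} {af : ℕ → ℝ} {φ : ℝ} {w : ℝ → ℂ}

lemma U_TS (af : ℕ → ℝ) (φ c' : ℝ) (M : ℕ) : (fun n : ℕ => ((U af φ (c' * √(n:ℝ)) M : ℝ) : ℂ)) ∈ TS := by
  have e1 : (fun n : ℕ => ((U af φ (c' * √(n:ℝ)) M : ℝ) : ℂ)) =
      ∑ m ∈ Icc 1 (M^2), (((af m : ℝ) : ℂ) * (Complex.exp ((-φ : ℝ) * Complex.I) / 2)) • chS (c' * √(m:ℝ)) +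
      ∑ m ∈ Icc 1 (M^2), (((af m : ℝ) : ℂ) * (Complex.exp ((φ : ℝ) * Complex.I) / 2)) • chS (-(c' * √(m:ℝ))) := by
    funext n
    unfold U
    rw [Pi.add_apply, Finset.sum_apply, Finset.sum_apply, ← sum_add_distrib]
    push_cast
    apply sum_congr rfl; intro m _
    have h := cos_split (c' * √(m:ℝ)) φ √(n:ℝ)
    have e3 : (2 * Real.pi * (c' * √(m:ℝ) * √(n:ℝ)) - φ) = 2 * Real.pi * (c' * √(n:ℝ) * √(m:ℝ)) - φ := by ring
    rw [e3] at h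
    push_cast at h
    rw [h]
    simp only [Pi.smul_apply, smul_eq_mul, chS]
    push_cast
    ring
  rw [e1]
  apply TS.add_mem
  · exact TS.sum_mem fun m _ => TS.smul_mem _ (TS_chr _)
  · exact TS.sum_mem fun m _ => TS.smul_mem _ (TS_chr _)

/-- the vectors of values -/
noncomputable def ev (E : ℝ → ℝ) (c : ℝ) (A B : ι → ℕ) (n : ℕ) (i : ι) : ℝ := E (c * √((A i * n + B i : ℕ):ℝ))
/-- and their models -/
noncomputable def Ux (af : ℕ → ℝ) (φ c : ℝ) (A : ι → ℕ) (M n : ℕ) (i : ι) : ℝ := U af φ ((c * √(A i:ℝ)) * √(n:ℝ)) M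

lemma ApU_SI (ha : Bdw af) (ha0 : af 0 = 0) (hw : GW.Wt w) {κ₁ κ₂ : ℝ} (hS : SandW E af φ w κ₁ κ₂) {c : ℝ} (hc : 0 < c)
    (A B : ι → ℕ) (hA : ∀ i, 1 ≤ A i) : ApU (Ux af φ c A) (ev E c A B) SI := by
  obtain ⟨ω, hω, hω2, hlin⟩ := SA.lin_ms ha ha0 hw hS hc
  choose C hC hlin using fun i => hlin (A i) (B i) (hA i)
  intro η hη
  have hCs : 0 ≤ ∑ i, C i := sum_nonneg fun i _ => (hC i).le
  have ht : Tendsto (fun M : ℕ => (∑ i, C i) * (M:ℝ) ^ (-ω)) atTop (𝓝 ((∑ i, C i) * 0)) :=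
    ((tendsto_rpow_neg_atTop hω).comp tendsto_natCast_atTop_atTop).const_mul _
  rw [mul_zero] at ht
  obtain ⟨M0, hM0⟩ := eventually_atTop.mp (ht.eventually (gt_mem_nhds hη))
  refine ⟨max M0 1, fun M hM => ⟨M^40, fun j hj => ?_⟩⟩
  have h1 := hM0 M (by omega)
  unfold fav
  rw [SI_card, div_le_iff₀ (by positivity)]
  unfold SI q
  rw [sum_comm]
  calc ∑ i, ∑ n ∈ Icc 1 (j + 1), ((ev E c A B n - Ux af φ c A M n) i)^2 ≤ ∑ i, C i * (M:ℝ) ^ (-ω) * ((j + 1 : ℕ):ℝ) := by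
        apply sum_le_sum; intro i _
        exact hlin i M (j + 1) (by omega) (by omega)
    _ = ((∑ i, C i) * (M:ℝ) ^ (-ω)) * ((j + 1 : ℕ):ℝ) := by rw [sum_mul, sum_mul]
    _ ≤ η * ((j + 1 : ℕ):ℝ) := mul_le_mul_of_nonneg_right h1.le (by positivity)

lemma ApU_SQ (ha : Bdw af) (ha0 : af 0 = 0) (hw : GW.Wt w) {κ₁ κ₂ : ℝ} (hS : SandW E af φ w κ₁ κ₂) {c : ℝ} (hc : 0 < c)
    (A B : ι → ℕ) (hA : ∀ i, 1 ≤ A i) : ApU (Ux af φ c A) (ev E c A B) SQ := by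
  intro η hη
  have hη' : 0 < η / (Fintype.card ι + 1) := by positivity
  choose M0 hM0 using fun i => SA.prime_ms ha ha0 hw hS hc (A i) (B i) (hA i) hη'
  refine ⟨univ.sup M0, fun M hM => ?_⟩
  have h1 : ∀ i, ∃ N0 : ℕ, ∀ N : ℕ, N0 ≤ N →
      ∑ p ∈ PR N, (E (c * √((A i * p + B i : ℕ):ℝ)) - U af φ ((c * √(A i:ℝ)) * √(p:ℝ)) M)^2 ≤ η / (Fintype.card ι + 1) * (PR N).card :=
    fun i => hM0 i M ((Finset.le_sup (f := M0) (mem_univ i)).trans hM)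
  choose N0 hN0 using h1
  refine ⟨univ.sup N0, fun j hj => ?_⟩
  have hc0 : (0:ℝ) < (SQ j).card := by exact_mod_cast Finset.card_pos.mpr (SQ_ne j)
  unfold fav
  rw [div_le_iff₀ hc0]
  unfold q
  rw [sum_comm]
  calc ∑ i, ∑ n ∈ SQ j, ((ev E c A B n - Ux af φ c A M n) i)^2 ≤ ∑ i : ι, η / (Fintype.card ι + 1) * (SQ j).card := by
        apply sum_le_sum; intro i _
        have := (Finset.le_sup (f := N0) (mem_univ i)).trans hj
        exact hN0 i (j + 2) (by omega)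
    _ = η * ((Fintype.card ι : ℝ) / (Fintype.card ι + 1)) * (SQ j).card := by
        rw [sum_const, card_univ, nsmul_eq_mul]; ring
    _ ≤ η * 1 * (SQ j).card := by
        apply mul_le_mul_of_nonneg_right _ hc0.le
        apply mul_le_mul_of_nonneg_left _ hη.le
        rw [div_le_one (by positivity)]; linarith
    _ = _ := by rw [mul_one]

/-- the limit law with both kinds of orthogonality -/
theorem law_gen (ha : Bdw af) (ha0 : af 0 = 0) (hw : GW.Wt w) {κ₁ κ₂ : ℝ} (hS : SandW E af φ w κ₁ κ₂) {c : ℝ} (hc : 0 < c)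
    (A B : ι → ℕ) (hA : ∀ i, 1 ≤ A i) :
    ∃ μ : ProbabilityMeasure (ι → ℝ), Integrable q (μ : Measure (ι → ℝ)) ∧
    (∀ f : (ι → ℝ) → ℝ, Continuous f → (∃ C, ∀ x, |f x| ≤ C * (1 + q x)) →
      Tendsto (fun j => fav (SI j) (fun n => f (ev E c A B n))) atTop (𝓝 (∫ x, f x ∂(μ : Measure (ι → ℝ))))) ∧
    ∀ f : (ι → ℝ) → ℝ, Continuous f → (∃ C, ∀ x, |f x| ≤ C * (1 + q x)) → ∀ η : ℝ, 0 < η → ∃ N0 : ℕ, ∀ N : ℕ, N0 ≤ N →
      (∀ g : ℕ → ℂ, Mul1 g → ∀ α : ℝ,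
        ‖∑ n ∈ Icc 1 N, g n * e (α * n) * ((f (ev E c A B n) - ∫ x, f x ∂(μ : Measure (ι → ℝ)) : ℝ) : ℂ)‖ ≤ η * N) ∧
      (∀ α : ℝ,
        ‖∑ p ∈ PR N, e (α * p) * ((f (ev E c A B p) - ∫ x, f x ∂(μ : Measure (ι → ℝ)) : ℝ) : ℂ)‖ ≤ η * (PR N).card) := by
  have hU : ∀ M i, (fun n => ((Ux af φ c A M n i : ℝ) : ℂ)) ∈ TS := fun M i => U_TS af φ (c * √(A i:ℝ)) M
  have h1 := ApU_SI ha ha0 hw hS hc A B hA
  have h2 := ApU_SQ ha ha0 hw hS hc A B hA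
  obtain ⟨μ, hμ1, hμ2⟩ := SL.law hU SI_ne SI_Av h1
  refine ⟨μ, hμ1, hμ2, ?_⟩
  intro f hf hC η hη
  have hL := hμ2 f hf hC
  have hL2 := SL.law_transfer hU SI_ne SI_Av h1 SQ_ne SQ_Av h2 hf hC hL
  obtain ⟨j1, hj1⟩ := uo SI_ne SI_Av (V := VI) VI_bd VI_or hU h1 hf hC hL hη
  obtain ⟨j2, hj2⟩ := uo SQ_ne SQ_Av (V := VQ) VQ_bd VQ_or hU h2 hf hC hL2 hη
  refine ⟨j1 + j2 + 2, fun N hN => ⟨fun g hg α => ?_, fun α => ?_⟩⟩
  · obtain ⟨j, rfl⟩ : ∃ j, N = j + 1 := ⟨N - 1, by omega⟩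
    have h3 := hj1 j (by omega) (fun n : ℕ => g n * e (α * n)) ⟨g, hg, α, rfl⟩
    unfold cav at h3
    rw [norm_div, Complex.norm_natCast, SI_card, div_le_iff₀ (by positivity)] at h3
    exact h3
  · obtain ⟨j, rfl⟩ : ∃ j, N = j + 2 := ⟨N - 2, by omega⟩
    have h3 := hj2 j (by omega) (fun n : ℕ => e (α * n)) ⟨α, rfl⟩
    unfold cav at h3
    have hc0 : (0:ℝ) < (SQ j).card := by exact_mod_cast Finset.card_pos.mpr (SQ_ne j)
    rw [norm_div, Complex.norm_natCast, div_le_iff₀ hc0] at h3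
    exact h3

end Pool.Agent.W24.CP.SU
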