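import Mathlib
import Pool.Agent.W24.CP.SU
import Pool.Agent.H425R3.JL.F1

/-! Weights and sets. -/

open Finset Filter Topology MeasureTheory
open Pool.Agent.H425R3.JL (fav cav q portm fav_const fav_add fav_sub fav_mul fav_mono fav_nonneg cav_add cav_smul q_nonneg q_cont)
open Pool.Agent.W24.CP.SU

namespace Pool.Agent.W24.CP.SV

variable {ι : Type*} [Fintype ι]

open Classical in
theorem uoA {S : ℕ → Finset ℕ} (hne : ∀ j, (S j).Nonempty) {V : ℕ → Set (ℕ → ℂ)}
    (hbd : ∀ j, ∀ v ∈ V j, ∀ n, ‖v n‖ ≤ 1)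
    {e : ℕ → ι → ℝ} {μ : ProbabilityMeasure (ι → ℝ)}
    (hμ : ∀ f : (ι → ℝ) → ℝ, Continuous f → (∃ C, ∀ x, |f x| ≤ C * (1 + q x)) →
      Tendsto (fun j => fav (S j) (fun n => f (e n))) atTop (𝓝 (∫ x, f x ∂(μ : Measure (ι → ℝ)))))
    (hu : ∀ f : (ι → ℝ) → ℝ, Continuous f → (∃ C, ∀ x, |f x| ≤ C * (1 + q x)) → ∀ η : ℝ, 0 < η →
      ∃ j0 : ℕ, ∀ j, j0 ≤ j → ∀ v ∈ V j, ‖cav (S j) (fun n => v n * ((f (e n) - ∫ x, f x ∂(μ : Measure (ι → ℝ)) : ℝ) : ℂ))‖ ≤ η)
    {A : Set (ι → ℝ)} (hA : (μ : Measure (ι → ℝ)) (frontier A) = 0) {η : ℝ} (hη : 0 < η) :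
    ∃ j0 : ℕ, ∀ j, j0 ≤ j → ∀ v ∈ V j,
      ‖cav (S j) (fun n => v n * (((if e n ∈ A then (1:ℝ) else 0) - (μ : Measure (ι → ℝ)).real A : ℝ) : ℂ))‖ ≤ η := by
  have hcl : (μ : Measure (ι → ℝ)) (closure A) = (μ : Measure (ι → ℝ)) A := by
    apply le_antisymm _ (measure_mono subset_closure)
    rw [closure_eq_self_union_frontier]
    refine (measure_union_le _ _).trans ?_
    rw [hA, add_zero]
  have hAc : IsClosed (closure A) := isClosed_closure
  have h1 := HasOuterApproxClosed.tendsto_lintegral_apprSeq hAc (μ : Measure (ι → ℝ))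
  have h2 : Tendsto (fun m : ℕ => ∫ x, ((hAc.apprSeq m x : NNReal) : ℝ) ∂(μ : Measure (ι → ℝ))) atTop
      (𝓝 ((μ : Measure (ι → ℝ)).real A)) := by
    have h3 := (ENNReal.tendsto_toReal (measure_ne_top _ _)).comp h1
    rw [hcl] at h3
    refine h3.congr (fun m => ?_)
    simp only [Function.comp_apply]
    rw [integral_eq_lintegral_of_nonneg_ae (Eventually.of_forall (fun x => NNReal.coe_nonneg _))
      (by fun_prop)]
    congr 1
    apply lintegral_congr
    intro x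
    rw [ENNReal.ofReal_coe_nnreal]
  rw [Metric.tendsto_atTop] at h2
  obtain ⟨m, hm⟩ := h2 (η/4) (by positivity)
  have hm' := hm m le_rfl
  rw [Real.dist_eq] at hm'
  set f : (ι → ℝ) → ℝ := fun x => ((hAc.apprSeq m x : NNReal) : ℝ) with hf
  have hfc : Continuous f := by
    simp only [hf]
    exact NNReal.continuous_coe.comp (hAc.apprSeq m).continuous
  have hf0 : ∀ x, 0 ≤ f x := fun x => NNReal.coe_nonneg _
  have hf1 : ∀ x, f x ≤ 1 := fun x => by
    simp only [hf]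
    exact_mod_cast HasOuterApproxClosed.apprSeq_apply_le_one hAc m x
  have hfA : ∀ x, x ∈ A → f x = 1 := fun x hx => by
    simp only [hf]
    exact_mod_cast HasOuterApproxClosed.apprSeq_apply_eq_one hAc m (subset_closure hx)
  have hfC : ∃ C : ℝ, ∀ x, |f x| ≤ C * (1 + q x) := ⟨1, fun x => by
    rw [abs_of_nonneg (hf0 x)]
    have := q_nonneg x
    linarith [hf1 x]⟩
  have hI := hμ f hfc hfC
  obtain ⟨j2, hj2⟩ := hu f hfc hfC (η/4) (by positivity)
  have hport := portm hne hμ hA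
  have hdiff := hI.sub hport
  have hlt : ∫ x, f x ∂(μ : Measure (ι → ℝ)) - (μ : Measure (ι → ℝ)).real A < η/4 := (abs_lt.mp hm').2
  obtain ⟨j1, hj1⟩ := (hdiff.eventually_lt_const hlt).exists_forall_of_atTop
  refine ⟨max j1 j2, fun j hj v hv => ?_⟩
  have a1 := hj2 j (by omega) v hv
  have a2 := hj1 j (by omega)
  have hw1 : ∀ n, ‖v n‖ ≤ 1 := hbd j v hv
  have e2 : (((S j).filter (fun n => e n ∈ A)).card : ℝ) / (S j).card =
      fav (S j) (fun n => if e n ∈ A then (1:ℝ) else 0) := by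
    unfold fav
    rw [← Finset.sum_filter, Finset.sum_const, nsmul_eq_mul, mul_one]
  rw [e2, ← fav_sub] at a2
  have e1 : (fun n => v n * (((if e n ∈ A then (1:ℝ) else 0) - (μ : Measure (ι → ℝ)).real A : ℝ) : ℂ)) =
      (fun n => v n * (((f (e n) - ∫ x, f x ∂(μ : Measure (ι → ℝ)) : ℝ)) : ℂ)) +
      ((fun n => v n * (((-(f (e n) - (if e n ∈ A then (1:ℝ) else 0)) : ℝ)) : ℂ)) +
      (fun n => v n * ((∫ x, f x ∂(μ : Measure (ι → ℝ)) - (μ : Measure (ι → ℝ)).real A : ℝ) : ℂ))) := by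
    funext n
    simp only [Pi.add_apply]
    push_cast; ring
  rw [e1, cav_add, cav_add]
  have b2 : ‖cav (S j) (fun n => v n * (((-(f (e n) - (if e n ∈ A then (1:ℝ) else 0)) : ℝ)) : ℂ))‖ ≤ η/4 := by
    refine (norm_cav_le _ _).trans (le_trans (fav_mono (fun n => ?_)) a2.le)
    rw [norm_mul, Complex.norm_real, Real.norm_eq_abs, abs_neg]
    have : 0 ≤ f (e n) - (if e n ∈ A then (1:ℝ) else 0) := by
      split_ifs with hx
      · rw [hfA _ hx]; norm_num
      · linarith [hf0 (e n)]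
    rw [abs_of_nonneg this]
    calc _ ≤ 1 * (f (e n) - (if e n ∈ A then (1:ℝ) else 0)) := by gcongr; exact hw1 n
      _ = _ := one_mul _
  have b3 : ‖cav (S j) (fun n => v n * ((∫ x, f x ∂(μ : Measure (ι → ℝ)) - (μ : Measure (ι → ℝ)).real A : ℝ) : ℂ))‖ ≤ η/4 := by
    refine (norm_cav_le _ _).trans ?_
    calc fav (S j) (fun n => ‖v n * ((∫ x, f x ∂(μ : Measure (ι → ℝ)) - (μ : Measure (ι → ℝ)).real A : ℝ) : ℂ)‖)
        ≤ fav (S j) (fun _ => η/4) := by
          apply fav_mono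
          intro n
          rw [norm_mul, Complex.norm_real, Real.norm_eq_abs]
          calc _ ≤ 1 * (η/4) := by
                apply mul_le_mul (hw1 n) hm'.le (abs_nonneg _) zero_le_one
            _ = _ := one_mul _
      _ = η/4 := fav_const (hne j) _
  refine (norm_add_le _ _).trans ?_
  refine (add_le_add le_rfl (norm_add_le _ _)).trans ?_
  linarith

end Pool.Agent.W24.CP.SV
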