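import Mathlib
import Pool.Agent.W24.CP.SU
import Pool.Agent.H425R3.JL.F3

/-! The marginals of the limit law: comparison with a non-resonant sequence of quadratic arguments. -/

open Finset Filter Topology MeasureTheory
open Pool.Agent.H383
open Pool.Agent.H383.Gen (Bd U Ap)
open Pool.Agent.H383.AP (chr mc chr_mean HasMean cm rm)
open Pool.Agent.H469R2.NK
open Pool.Agent.H425R3.JL (fav cav q ApU fav_const fav_add fav_sub fav_mul fav_mono fav_nonneg abs_fav_le cav_add cav_smul cav_ofReal norm_cav_sub_le q_nonneg q_cont RS RS_ne AvOK_RS)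
open Pool.Agent.W24.CP.SL (chS chS_zero norm_chS mcS TS TS_chr TS_one TS_lim AvS)
open Pool.Agent.W24.CP.SU

namespace Pool.Agent.W24.CP.SW

/-- trigonometric polynomials on the line with algebraic frequencies -/
def TT : Submodule ℂ (ℝ → ℂ) :=
  Submodule.span ℂ (Set.range (fun ω : {ω : ℝ // IsAlgebraic ℤ ω} => fun t : ℝ => e (ω.1 * t)))

lemma TT_chr {ω : ℝ} (h : IsAlgebraic ℤ ω) : (fun t : ℝ => e (ω * t)) ∈ TT := Submodule.subset_span ⟨⟨ω, h⟩, rfl⟩

lemma TT_one : (1 : ℝ → ℂ) ∈ TT := by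
  have : (1 : ℝ → ℂ) = fun t : ℝ => e (0 * t) := by funext t; simp [e]
  rw [this]; exact TT_chr isAlgebraic_zero

lemma TT_mul {a b : ℝ → ℂ} (ha : a ∈ TT) (hb : b ∈ TT) : a * b ∈ TT := by
  have h : ∀ ω : {ω : ℝ // IsAlgebraic ℤ ω}, ∀ b ∈ TT, (fun t : ℝ => e (ω.1 * t)) * b ∈ TT := by
    intro ω b hb
    unfold TT at hb
    induction hb using Submodule.span_induction with
    | mem x hx =>
      obtain ⟨ω', rfl⟩ := hx
      have : (fun t : ℝ => e (ω.1 * t)) * (fun t : ℝ => e (ω'.1 * t)) = fun t : ℝ => e ((ω.1 + ω'.1) * t) := by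
        funext t; simp only [Pi.mul_apply]; rw [← e_add, add_mul]
      rw [this]; exact TT_chr (ω.2.add ω'.2)
    | zero => rw [mul_zero]; exact TT.zero_mem
    | add x y _ _ hx hy => rw [mul_add]; exact TT.add_mem hx hy
    | smul c x _ hx => rw [mul_smul_comm]; exact TT.smul_mem c hx
  unfold TT at ha
  induction ha using Submodule.span_induction with
  | mem x hx =>
    obtain ⟨θ, rfl⟩ := hx
    exact h θ b hb
  | zero => rw [zero_mul]; exact TT.zero_mem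
  | add x y _ _ hx hy => rw [add_mul]; exact TT.add_mem hx hy
  | smul c x _ hx => rw [smul_mul_assoc]; exact TT.smul_mem c hx

lemma TT_pow {a : ℝ → ℂ} (ha : a ∈ TT) (k : ℕ) : a ^ k ∈ TT := by
  induction k with
  | zero => rw [pow_zero]; exact TT_one
  | succ k ih => rw [pow_succ]; exact TT_mul ih ha

lemma TT_poly {g : ℝ → ℝ} (hg : (fun t => ((g t : ℝ) : ℂ)) ∈ TT) (p : Polynomial ℝ) :
    (fun t => ((p.eval (g t) : ℝ) : ℂ)) ∈ TT := by
  induction p using Polynomial.induction_on' with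
  | add p r hp hr =>
    have : (fun t => (((p + r).eval (g t) : ℝ) : ℂ)) = (fun t => ((p.eval (g t) : ℝ) : ℂ)) + (fun t => ((r.eval (g t) : ℝ) : ℂ)) := by
      funext t; rw [Pi.add_apply, Polynomial.eval_add]; push_cast; rfl
    rw [this]; exact TT.add_mem hp hr
  | monomial k c =>
    have : (fun t => (((Polynomial.monomial k c).eval (g t) : ℝ) : ℂ)) = (c : ℂ) • (fun t => ((g t : ℝ) : ℂ)) ^ k := by
      funext t; rw [Pi.smul_apply, Polynomial.eval_monomial, Pi.pow_apply]; push_cast; rfl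
    rw [this]; exact TT.smul_mem _ (TT_pow hg k)

lemma sqrt_alg (m : ℕ) : IsAlgebraic ℤ √(m:ℝ) := by
  apply IsAlgebraic.of_pow (n := 2) (by norm_num)
  rw [Real.sq_sqrt (Nat.cast_nonneg m)]
  exact isAlgebraic_natCast m

lemma U_TT (af : ℕ → ℝ) (φ : ℝ) (M : ℕ) : (fun t : ℝ => ((U af φ t M : ℝ) : ℂ)) ∈ TT := by
  have e1 : (fun t : ℝ => ((U af φ t M : ℝ) : ℂ)) =
      ∑ m ∈ Icc 1 (M^2), (((af m : ℝ) : ℂ) * (Complex.exp ((-φ : ℝ) * Complex.I) / 2)) • (fun t : ℝ => e (√(m:ℝ) * t)) +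
      ∑ m ∈ Icc 1 (M^2), (((af m : ℝ) : ℂ) * (Complex.exp ((φ : ℝ) * Complex.I) / 2)) • (fun t : ℝ => e (-√(m:ℝ) * t)) := by
    funext t
    unfold U
    rw [Pi.add_apply, Finset.sum_apply, Finset.sum_apply, ← sum_add_distrib, Complex.ofReal_sum]
    apply sum_congr rfl; intro m _
    have h := cos_split √(m:ℝ) φ t
    have e3 : (2 * Real.pi * (√(m:ℝ) * t) - φ) = 2 * Real.pi * (t * √(m:ℝ)) - φ := by ring
    rw [e3] at h
    rw [Complex.ofReal_mul, h]
    simp only [Pi.smul_apply, smul_eq_mul]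
    ring
  rw [e1]
  apply TT.add_mem
  · exact TT.sum_mem fun m _ => TT.smul_mem _ (TT_chr (sqrt_alg m))
  · exact TT.sum_mem fun m _ => TT.smul_mem _ (TT_chr (sqrt_alg m).neg)

lemma U_le (af : ℕ → ℝ) (φ t : ℝ) (M : ℕ) : |U af φ t M| ≤ ∑ m ∈ Icc 1 (M^2), |af m| := by
  unfold U
  refine (Finset.abs_sum_le_sum_abs _ _).trans (sum_le_sum fun m _ => ?_)
  rw [abs_mul]
  exact mul_le_of_le_one_right (abs_nonneg _) (Real.abs_cos_le_one _)

/-- means of trigonometric polynomials with algebraic frequencies along two sequences -/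
lemma TT_lim {κ₁ κ₂ : ℝ} (h1 : 0 < κ₁) (h2 : Transcendental ℤ κ₂) {T : ℝ → ℂ} (hT : T ∈ TT) :
    ∃ L : ℂ, Tendsto (fun j => cav (SI j) (fun n => T (κ₁ * √(n:ℝ)))) atTop (𝓝 L) ∧
      Tendsto (fun j => cav (RS j) (fun n => T (κ₂ + n * κ₂))) atTop (𝓝 L) := by
  unfold TT at hT
  induction hT using Submodule.span_induction with
  | mem x hx =>
    obtain ⟨⟨ω, hω⟩, rfl⟩ := hx
    refine ⟨mcS ω, ?_, ?_⟩
    · have h := SI_Av (ω * κ₁)
      have e1 : mcS (ω * κ₁) = mcS ω := by unfold mcS; simp [h1.ne']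
      rw [e1] at h
      refine h.congr (fun j => ?_)
      congr 1; funext n; simp only [chS]; rw [mul_assoc]
    · by_cases hω0 : ω = 0
      · subst hω0
        have e1 : ∀ j, cav (RS j) (fun n => (fun t : ℝ => e ((0:ℝ) * t)) (κ₂ + n * κ₂)) = 1 := by
          intro j
          have : (fun n : ℕ => (fun t : ℝ => e ((0:ℝ) * t)) (κ₂ + n * κ₂)) = fun _ => (1:ℂ) := by
            funext n; simp [e]
          rw [this]
          exact cav_const (RS_ne j) 1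
        simp only [e1]
        unfold mcS
        rw [if_pos rfl]
        exact tendsto_const_nhds
      · have hni : ¬ ∃ k : ℤ, ω * κ₂ = k := by
          rintro ⟨k, hk⟩
          apply h2
          have : κ₂ = ω⁻¹ * (k:ℝ) := by rw [← hk, ← mul_assoc, inv_mul_cancel₀ hω0, one_mul]
          rw [this]
          exact (IsAlgebraic.inv hω).mul (isAlgebraic_intCast k)
        have h := AvOK_RS ⊤ (ω * κ₂) trivial
        have e1 : mc (ω * κ₂) = 0 := by unfold mc; rw [if_neg hni]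
        rw [e1] at h
        have h' := h.const_mul (e (ω * κ₂))
        rw [mul_zero] at h'
        have e2 : mcS ω = 0 := by unfold mcS; rw [if_neg hω0]
        rw [e2]
        refine h'.congr (fun j => ?_)
        rw [← smul_eq_mul, ← cav_smul]
        congr 1; funext n
        simp only [Pi.smul_apply, smul_eq_mul]
        have : chr (ω * κ₂) n = e (n * (ω * κ₂)) := by unfold chr e; rfl
        rw [this, ← e_add]
        congr 1; ring
  | zero =>
    refine ⟨0, ?_, ?_⟩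
    · have : ∀ j, cav (SI j) (fun n => (0 : ℝ → ℂ) (κ₁ * √(n:ℝ))) = 0 := fun j => by simp [cav]
      simp only [this]; exact tendsto_const_nhds
    · have : ∀ j, cav (RS j) (fun n => (0 : ℝ → ℂ) (κ₂ + n * κ₂)) = 0 := fun j => by simp [cav]
      simp only [this]; exact tendsto_const_nhds
  | add x y _ _ hx hy =>
    obtain ⟨L, ha, hb⟩ := hx
    obtain ⟨L', ha', hb'⟩ := hy
    refine ⟨L + L', ?_, ?_⟩
    · refine (ha.add ha').congr (fun j => ?_)
      rw [← cav_add]; rfl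
    · refine (hb.add hb').congr (fun j => ?_)
      rw [← cav_add]; rfl
  | smul c x _ hx =>
    obtain ⟨L, ha, hb⟩ := hx
    refine ⟨c * L, ?_, ?_⟩
    · refine (ha.const_mul c).congr (fun j => ?_)
      rw [← smul_eq_mul, ← cav_smul]; rfl
    · refine (hb.const_mul c).congr (fun j => ?_)
      rw [← smul_eq_mul, ← cav_smul]; rfl

lemma one_side {S : ℕ → Finset ℕ} (hne : ∀ j, (S j).Nonempty) {ea u : ℕ → ℝ} {p : Polynomial ℝ} {f : ℝ → ℝ} {K δ B : ℝ}
    (hK : 0 ≤ K) (hδ : 0 < δ) (hu : ∀ n, |u n| ≤ B) (hp : ∀ x ∈ Set.Icc (-B) B, |p.eval x - f x| < δ)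
    (hL : ∀ x y, |f x - f y| ≤ K * |x - y|) {j0 : ℕ} (h : ∀ j, j0 ≤ j → fav (S j) (fun n => (ea n - u n)^2) ≤ δ^2)
    {L1 : ℝ} (hL1 : Tendsto (fun j => fav (S j) (fun n => f (ea n))) atTop (𝓝 L1))
    {L : ℂ} (hL' : Tendsto (fun j => cav (S j) (fun n => ((p.eval (u n) : ℝ) : ℂ))) atTop (𝓝 L)) :
    ‖(L1:ℂ) - L‖ ≤ (K + 1) * δ := by
  have h1 : Tendsto (fun j => ‖cav (S j) (fun n => ((f (ea n) : ℝ) : ℂ)) - cav (S j) (fun n => ((p.eval (u n) : ℝ) : ℂ))‖) atTop (𝓝 ‖(L1:ℂ) - L‖) := by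
    apply Tendsto.norm
    apply Tendsto.sub _ hL'
    simp only [cav_ofReal]
    exact (Complex.continuous_ofReal.tendsto L1).comp hL1
  apply le_of_tendsto h1
  filter_upwards [eventually_ge_atTop j0] with j hj
  refine (norm_cav_sub_le _ _ _).trans ?_
  have h2 : ∀ n, ‖((f (ea n) : ℝ) : ℂ) - ((p.eval (u n) : ℝ) : ℂ)‖ ≤ K * ((ea n - u n)^2 * (1/(2*δ)) + δ/2) + δ := by
    intro n
    rw [← Complex.ofReal_sub, Complex.norm_real, Real.norm_eq_abs]
    have a1 := hL (ea n) (u n)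
    have a2 := hp (u n) (abs_le.mp (hu n))
    have a3 : |ea n - u n| ≤ (ea n - u n)^2 * (1/(2*δ)) + δ/2 := by
      have e1 : (ea n - u n)^2 * (1/(2*δ)) + δ/2 - |ea n - u n| = (|ea n - u n| - δ)^2 / (2*δ) := by
        rw [← sq_abs (ea n - u n)]; field_simp; ring
      have : 0 ≤ (|ea n - u n| - δ)^2 / (2*δ) := by positivity
      linarith
    have a4 : K * |ea n - u n| ≤ K * ((ea n - u n)^2 * (1/(2*δ)) + δ/2) := mul_le_mul_of_nonneg_left a3 hK
    have a5 : f (ea n) - p.eval (u n) = (f (ea n) - f (u n)) - (p.eval (u n) - f (u n)) := by ring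
    rw [a5]
    refine (abs_sub _ _).trans ?_
    linarith
  refine (fav_mono h2).trans ?_
  have e3 : fav (S j) (fun n => K * ((ea n - u n)^2 * (1/(2*δ)) + δ/2) + δ) =
      K * (fav (S j) (fun n => (ea n - u n)^2) * (1/(2*δ)) + δ/2) + δ := by
    rw [fav_add, fav_mul, fav_add, fav_const (hne j), fav_const (hne j)]
    congr 3
    have : (fun n => (ea n - u n)^2 * (1/(2*δ))) = fun n => (1/(2*δ)) * (ea n - u n)^2 := by funext n; ring
    rw [this, fav_mul, mul_comm]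
  rw [e3]
  have h4 := h j hj
  have h5 : fav (S j) (fun n => (ea n - u n)^2) * (1/(2*δ)) ≤ δ/2 := by
    calc _ ≤ δ^2 * (1/(2*δ)) := mul_le_mul_of_nonneg_right h4 (by positivity)
      _ = δ/2 := by field_simp
  nlinarith [mul_le_mul_of_nonneg_left h5 hK]

lemma law_match {af : ℕ → ℝ} {φ κ₁ κ₂ : ℝ} (h1 : 0 < κ₁) (h2 : Transcendental ℤ κ₂) {ea eb : ℕ → ℝ}
    (ha : ∀ η : ℝ, 0 < η → ∃ M0 : ℕ, ∀ M, M0 ≤ M → ∃ j0 : ℕ, ∀ j, j0 ≤ j → fav (SI j) (fun n => (ea n - U af φ (κ₁ * √(n:ℝ)) M)^2) ≤ η)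
    (hb : ∀ η : ℝ, 0 < η → ∃ M0 : ℕ, ∀ M, M0 ≤ M → ∃ j0 : ℕ, ∀ j, j0 ≤ j → fav (RS j) (fun n => (eb n - U af φ (κ₂ + n * κ₂) M)^2) ≤ η)
    {f : ℝ → ℝ} (hf : Continuous f) {K : ℝ} (hK : 0 ≤ K) (hL : ∀ x y, |f x - f y| ≤ K * |x - y|)
    {L1 L2 : ℝ} (hL1 : Tendsto (fun j => fav (SI j) (fun n => f (ea n))) atTop (𝓝 L1))
    (hL2 : Tendsto (fun j => fav (RS j) (fun n => f (eb n))) atTop (𝓝 L2)) : L1 = L2 := by
  have key : ∀ δ : ℝ, 0 < δ → |L1 - L2| ≤ 2 * (K + 1) * δ := by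
    intro δ hδ
    obtain ⟨M1, hM1⟩ := ha (δ^2) (by positivity)
    obtain ⟨M2, hM2⟩ := hb (δ^2) (by positivity)
    set M := max M1 M2 with hM
    obtain ⟨j1, hj1⟩ := hM1 M (le_max_left _ _)
    obtain ⟨j2, hj2⟩ := hM2 M (le_max_right _ _)
    set B := ∑ m ∈ Icc 1 (M^2), |af m| with hB
    obtain ⟨p, hp⟩ := exists_polynomial_near_of_continuousOn (-B) B f hf.continuousOn δ hδ
    obtain ⟨L, hLa, hLb⟩ := TT_lim h1 h2 (TT_poly (U_TT af φ M) p)
    have b1 := one_side SI_ne (ea := ea) (u := fun n => U af φ (κ₁ * √(n:ℝ)) M) hK hδ (fun n => U_le af φ _ M) hp hL hj1 hL1 hLa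
    have b2 := one_side RS_ne (ea := eb) (u := fun n => U af φ (κ₂ + n * κ₂) M) hK hδ (fun n => U_le af φ _ M) hp hL hj2 hL2 hLb
    have e1 : |L1 - L2| = ‖((L1:ℂ) - L) - ((L2:ℂ) - L)‖ := by
      rw [show ((L1:ℂ) - L) - ((L2:ℂ) - L) = ((L1 - L2 : ℝ) : ℂ) by push_cast; ring, Complex.norm_real, Real.norm_eq_abs]
    rw [e1]
    exact (norm_sub_le _ _).trans (by linarith)
  by_contra hne
  have h3 : 0 < |L1 - L2| := abs_pos.mpr (sub_ne_zero.mpr hne)
  have h4 := key (|L1 - L2| / (4 * (K + 1))) (by positivity)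
  have h5 : 2 * (K + 1) * (|L1 - L2| / (4 * (K + 1))) = |L1 - L2| / 2 := by field_simp; ring
  linarith

variable {ι : Type*} [Fintype ι]

/-- the marginals -/
theorem marg_eq {af : ℕ → ℝ} {φ κ₁ κ₂ : ℝ} (hκ1 : 0 < κ₁) (hκ2 : Transcendental ℤ κ₂) {ev : ℕ → ι → ℝ} {eb : ℕ → ℝ}
    {μ : ProbabilityMeasure (ι → ℝ)} {ν : ProbabilityMeasure ℝ} (i : ι)
    (ha : ∀ η : ℝ, 0 < η → ∃ M0 : ℕ, ∀ M, M0 ≤ M → ∃ j0 : ℕ, ∀ j, j0 ≤ j → fav (SI j) (fun n => (ev n i - U af φ (κ₁ * √(n:ℝ)) M)^2) ≤ η)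
    (hb : ∀ η : ℝ, 0 < η → ∃ M0 : ℕ, ∀ M, M0 ≤ M → ∃ j0 : ℕ, ∀ j, j0 ≤ j → fav (RS j) (fun n => (eb n - U af φ (κ₂ + n * κ₂) M)^2) ≤ η)
    (h1 : ∀ f : (ι → ℝ) → ℝ, Continuous f → (∃ C, ∀ x, |f x| ≤ C * (1 + q x)) →
      Tendsto (fun j => fav (SI j) (fun n => f (ev n))) atTop (𝓝 (∫ x, f x ∂(μ : Measure (ι → ℝ)))))
    (h2 : ∀ f : ℝ → ℝ, Continuous f → (∃ C, ∀ x, |f x| ≤ C) →
      Tendsto (fun j => fav (RS j) (fun n => f (eb n))) atTop (𝓝 (∫ x, f x ∂(ν : Measure ℝ)))) :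
    (μ : Measure (ι → ℝ)).map (fun x => x i) = (ν : Measure ℝ) := by
  have : IsProbabilityMeasure ((μ : Measure (ι → ℝ)).map (fun x => x i)) :=
    Measure.isProbabilityMeasure_map (measurable_pi_apply i).aemeasurable
  have main : ∀ f : ℝ → ℝ, Continuous f → (∀ x, |f x| ≤ 1) → (∃ K : ℝ, 0 ≤ K ∧ ∀ x y, |f x - f y| ≤ K * |x - y|) →
      ∫ x, f x ∂((μ : Measure (ι → ℝ)).map (fun x => x i)) = ∫ x, f x ∂(ν : Measure ℝ) := by
    intro f hf hb1 ⟨K, hK, hL⟩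
    rw [integral_map (measurable_pi_apply i).aemeasurable hf.aestronglyMeasurable]
    have a1 := h1 (fun x => f (x i)) (hf.comp (continuous_apply i)) ⟨1, fun x => by
      have := hb1 (x i)
      have := q_nonneg x
      linarith⟩
    exact law_match hκ1 hκ2 ha hb hf hK hL a1 (h2 f hf ⟨1, hb1⟩)
  apply Measure.ext_of_charFun
  funext t
  rw [charFun_apply_real, charFun_apply_real]
  have hexp : ∀ x : ℝ, Complex.exp ((t:ℂ) * (x:ℂ) * Complex.I) = ((Real.cos (t * x) : ℝ) : ℂ) + ((Real.sin (t * x) : ℝ) : ℂ) * Complex.I := by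
    intro x
    rw [← Complex.ofReal_mul, Complex.exp_mul_I, Complex.ofReal_cos, Complex.ofReal_sin]
  have hc : Continuous (fun x : ℝ => Real.cos (t * x)) := by fun_prop
  have hs : Continuous (fun x : ℝ => Real.sin (t * x)) := by fun_prop
  have split : ∀ (ρ : Measure ℝ) [IsProbabilityMeasure ρ], ∫ x, Complex.exp ((t:ℂ) * (x:ℂ) * Complex.I) ∂ρ =
      ((∫ x, Real.cos (t * x) ∂ρ : ℝ) : ℂ) + ((∫ x, Real.sin (t * x) ∂ρ : ℝ) : ℂ) * Complex.I := by
    intro ρ _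
    simp only [hexp]
    have i1 : Integrable (fun x : ℝ => Real.cos (t * x)) ρ :=
      Integrable.of_bound hc.aestronglyMeasurable 1 (Eventually.of_forall fun x => by
        rw [Real.norm_eq_abs]; exact Real.abs_cos_le_one _)
    have i2 : Integrable (fun x : ℝ => Real.sin (t * x)) ρ :=
      Integrable.of_bound hs.aestronglyMeasurable 1 (Eventually.of_forall fun x => by
        rw [Real.norm_eq_abs]; exact Real.abs_sin_le_one _)
    rw [integral_add i1.ofReal (i2.ofReal.mul_const _), integral_mul_const, integral_complex_ofReal, integral_complex_ofReal]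
  have lip : ∀ x y : ℝ, |t * x - t * y| ≤ |t| * |x - y| := by
    intro x y; rw [← mul_sub, abs_mul]
  rw [split, split]
  rw [main _ hc (fun x => Real.abs_cos_le_one _) ⟨|t|, abs_nonneg _, fun x y => (Real.abs_cos_sub_cos_le _ _).trans (lip x y)⟩,
    main _ hs (fun x => Real.abs_sin_le_one _) ⟨|t|, abs_nonneg _, fun x y => (Real.abs_sin_sub_sin_le _ _).trans (lip x y)⟩]

end Pool.Agent.W24.CP.SW
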