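import Mathlib
import Pool.Agent.W24.CP.SU

/-! Means and covariances of the limit law. -/

open Finset Filter Topology MeasureTheory
open Pool.Agent.H383
open Pool.Agent.H383.Gen (Bd U)
open Pool.Agent.H469R2.NK
open Pool.Agent.H425R3.JL (fav cav q ApU fav_const fav_add fav_sub fav_mul fav_mono fav_nonneg abs_fav_le cav_add cav_smul cav_ofReal norm_cav_sub_le q_nonneg q_cont)
open Pool.Agent.W24.CP.SL (chS chS_zero norm_chS mcS TS TS_chr TS_one TS_lim AvS)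
open Pool.Agent.W24.CP.SU

namespace Pool.Agent.W24.CP.SX

/-- the truncated covariances -/
noncomputable def GM (af : ℕ → ℝ) (a b M : ℕ) : ℝ :=
  ∑ m ∈ Icc 1 (M^2), ∑ m' ∈ Icc 1 (M^2), if a * m = b * m' then af m * af m' / 2 else 0

lemma bd_prod {af : ℕ → ℝ} (hb : Bd af) (ha0 : af 0 = 0) {u v : ℕ} (hu : 1 ≤ u) (hv : 1 ≤ v) :
    Summable (fun h : ℕ => af (u * h) * af (v * h) / 2) := by
  obtain ⟨C, hC, h⟩ := hb
  have hsum : Summable (fun h : ℕ => (h:ℝ) ^ (-(37/25):ℝ)) := by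
    rw [Real.summable_nat_rpow]; norm_num
  apply Summable.of_norm_bounded (hsum.mul_left (C^2))
  intro n
  rw [Real.norm_eq_abs]
  rcases Nat.eq_zero_or_pos n with h0 | h0
  · subst h0
    rw [mul_zero, ha0]
    simp only [zero_mul, zero_div, abs_zero]
    positivity
  · have hn0 : (0:ℝ) < n := by exact_mod_cast h0
    have hs : 0 < √(n:ℝ) := Real.sqrt_pos.mpr hn0
    have key : ∀ w : ℕ, 1 ≤ w → |af (w * n)| ≤ C * (√(n:ℝ)) ^ (-(37/25):ℝ) := by
      intro w hw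
      have h1 := h (w * n) (Nat.mul_pos hw h0)
      refine h1.trans (mul_le_mul_of_nonneg_left ?_ hC.le)
      apply Real.rpow_le_rpow_of_nonpos hs _ (by norm_num)
      apply Real.sqrt_le_sqrt
      have : n ≤ w * n := Nat.le_mul_of_pos_left _ hw
      exact_mod_cast this
    have k1 := key u hu
    have k2 := key v hv
    have hp : (√(n:ℝ)) ^ (-(37/25):ℝ) * (√(n:ℝ)) ^ (-(37/25):ℝ) = (n:ℝ) ^ (-(37/25):ℝ) := by
      rw [← Real.mul_rpow hs.le hs.le, Real.mul_self_sqrt hn0.le]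
    rw [abs_div, abs_mul, abs_of_pos (by norm_num : (0:ℝ) < 2)]
    have k3 : |af (u * n)| * |af (v * n)| ≤ (C * (√(n:ℝ)) ^ (-(37/25):ℝ)) * (C * (√(n:ℝ)) ^ (-(37/25):ℝ)) :=
      mul_le_mul k1 k2 (abs_nonneg _) ((abs_nonneg _).trans k1)
    have k4 : (C * (√(n:ℝ)) ^ (-(37/25):ℝ)) * (C * (√(n:ℝ)) ^ (-(37/25):ℝ)) = C^2 * (n:ℝ) ^ (-(37/25):ℝ) := by
      rw [← hp]; ring
    rw [k4] at k3
    have k5 : 0 ≤ |af (u * n)| * |af (v * n)| := by positivity
    linarith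

lemma GM_lim {af : ℕ → ℝ} (hb : Bd af) (ha0 : af 0 = 0) {a b : ℕ} (ha : 1 ≤ a) (hb1 : 1 ≤ b) :
    Tendsto (GM af a b) atTop (𝓝 (∑' h : ℕ, af (b / Nat.gcd a b * h) * af (a / Nat.gcd a b * h) / 2)) := by
  set g := Nat.gcd a b with hg
  have hg0 : 0 < g := Nat.gcd_pos_of_pos_left _ ha
  set u := b / g with hu
  set v := a / g with hv
  have hbu : b = g * u := (Nat.mul_div_cancel' (Nat.gcd_dvd_right a b)).symm
  have hav : a = g * v := (Nat.mul_div_cancel' (Nat.gcd_dvd_left a b)).symm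
  have hu1 : 1 ≤ u := by
    rcases Nat.eq_zero_or_pos u with h | h
    · rw [h, mul_zero] at hbu; omega
    · exact h
  have hv1 : 1 ≤ v := by
    rcases Nat.eq_zero_or_pos v with h | h
    · rw [h, mul_zero] at hav; omega
    · exact h
  have hco : Nat.Coprime v u := Nat.coprime_div_gcd_div_gcd hg0
  have hsum := bd_prod hb ha0 hu1 hv1
  set F : ℕ → ℝ := fun h => af (u * h) * af (v * h) / 2 with hF
  set s : ℕ → Finset ℕ := fun M => (range (M^2+1)).filter (fun h => u * h ≤ M^2 ∧ v * h ≤ M^2) with hs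
  have hst : Tendsto s atTop atTop := by
    apply tendsto_atTop_finset_of_monotone
    · intro M M' hM h hh
      simp only [hs, mem_filter, mem_range] at hh ⊢
      have : M^2 ≤ M'^2 := Nat.pow_le_pow_left hM 2
      exact ⟨by omega, by omega, by omega⟩
    · intro h
      refine ⟨u * h + v * h + h + 1, ?_⟩
      simp only [hs, mem_filter, mem_range]
      have : u * h + v * h + h + 1 ≤ (u * h + v * h + h + 1)^2 := Nat.le_self_pow (by norm_num) _
      refine ⟨by omega, by omega, by omega⟩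
  have hlim : Tendsto (fun M => ∑ h ∈ s M, F h) atTop (𝓝 (∑' h, F h)) := hsum.hasSum.comp hst
  refine hlim.congr (fun M => ?_)
  have hF0 : F 0 = 0 := by simp only [hF, mul_zero, ha0, zero_div]
  set t : Finset ℕ := (Icc 1 (M^2)).filter (fun h => u * h ≤ M^2 ∧ v * h ≤ M^2) with ht
  have e1 : ∑ h ∈ t, F h = ∑ h ∈ s M, F h := by
    apply Finset.sum_subset
    · intro h hh
      simp only [ht, hs, mem_filter, mem_range, mem_Icc] at hh ⊢
      exact ⟨by omega, hh.2⟩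
    · intro h hh hn
      simp only [ht, hs, mem_filter, mem_range, mem_Icc] at hh hn
      have : h = 0 := by
        by_contra h0
        exact hn ⟨⟨by omega, by omega⟩, hh.2⟩
      rw [this, hF0]
  rw [← e1]
  unfold GM
  rw [← Finset.sum_product', ← Finset.sum_filter]
  apply Finset.sum_nbij' (fun h => (u * h, v * h)) (fun x => x.1 / u)
  · intro h hh
    simp only [ht, mem_filter, mem_Icc] at hh
    simp only [mem_filter, mem_product, mem_Icc]
    refine ⟨⟨⟨Nat.mul_pos hu1 hh.1.1, hh.2.1⟩, ⟨Nat.mul_pos hv1 hh.1.1, hh.2.2⟩⟩, ?_⟩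
    rw [hav, hbu]; ring
  · intro x hx
    simp only [mem_filter, mem_product, mem_Icc] at hx
    obtain ⟨⟨⟨h1, h2⟩, ⟨h3, h4⟩⟩, h5⟩ := hx
    rw [hav, hbu, mul_assoc, mul_assoc] at h5
    have h6 : v * x.1 = u * x.2 := Nat.eq_of_mul_eq_mul_left hg0 h5
    have h7 : u ∣ x.1 := hco.symm.dvd_of_dvd_mul_left ⟨x.2, h6⟩
    obtain ⟨h, hh⟩ := h7
    have h8 : x.1 / u = h := by rw [hh, Nat.mul_div_cancel_left _ hu1]
    have h9 : x.2 = v * h := by
      rw [hh] at h6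
      have : u * x.2 = u * (v * h) := by rw [← h6]; ring
      exact Nat.eq_of_mul_eq_mul_left hu1 this
    simp only [ht, mem_filter, mem_Icc]
    rw [h8]
    have hpos : 1 ≤ h := by
      rcases Nat.eq_zero_or_pos h with h0 | h0
      · rw [h0, mul_zero] at hh; omega
      · exact h0
    have : h ≤ u * h := Nat.le_mul_of_pos_left _ hu1
    refine ⟨⟨hpos, by omega⟩, by omega, by omega⟩
  · intro h hh
    simp only
    rw [Nat.mul_div_cancel_left _ hu1]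
  · intro x hx
    simp only [mem_filter, mem_product, mem_Icc] at hx
    obtain ⟨⟨⟨h1, h2⟩, ⟨h3, h4⟩⟩, h5⟩ := hx
    rw [hav, hbu, mul_assoc, mul_assoc] at h5
    have h6 : v * x.1 = u * x.2 := Nat.eq_of_mul_eq_mul_left hg0 h5
    have h7 : u ∣ x.1 := hco.symm.dvd_of_dvd_mul_left ⟨x.2, h6⟩
    obtain ⟨h, hh⟩ := h7
    have h8 : x.1 / u = h := by rw [hh, Nat.mul_div_cancel_left _ hu1]
    have h9 : x.2 = v * h := by
      rw [hh] at h6
      have : u * x.2 = u * (v * h) := by rw [← h6]; ring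
      exact Nat.eq_of_mul_eq_mul_left hu1 this
    simp only [h8]
    exact Prod.ext hh.symm h9.symm
  · intro h hh
    rfl

lemma re_cav (S : Finset ℕ) (g : ℕ → ℂ) : (cav S g).re = fav S (fun n => (g n).re) := by
  unfold cav fav
  rw [Complex.div_natCast_re, Complex.re_sum]

lemma cosmean (θ ψ : ℝ) : Tendsto (fun j => fav (SI j) (fun n => Real.cos (2 * Real.pi * (θ * √(n:ℝ)) - ψ))) atTop
    (𝓝 (if θ = 0 then Real.cos ψ else 0)) := by
  have h := (SI_Av θ).const_mul (Complex.exp ((-ψ : ℝ) * Complex.I))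
  have h2 := (Complex.continuous_re.tendsto _).comp h
  have e1 : (Complex.exp ((-ψ : ℝ) * Complex.I) * mcS θ).re = if θ = 0 then Real.cos ψ else 0 := by
    unfold mcS
    split_ifs with h0
    · rw [mul_one, Complex.exp_ofReal_mul_I_re, Real.cos_neg]
    · rw [mul_zero, Complex.zero_re]
  rw [e1] at h2
  refine h2.congr (fun j => ?_)
  simp only [Function.comp_apply]
  rw [← smul_eq_mul, ← cav_smul, re_cav]
  congr 1; funext n
  simp only [Pi.smul_apply, smul_eq_mul, chS]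
  unfold e
  rw [← Complex.exp_add, ← add_mul, ← Complex.ofReal_add, Complex.exp_ofReal_mul_I_re]
  congr 1; ring

lemma fav_sum {κ : Type*} (S : Finset ℕ) (T : Finset κ) (g : κ → ℕ → ℝ) :
    fav S (fun n => ∑ m ∈ T, g m n) = ∑ m ∈ T, fav S (g m) := by
  unfold fav
  rw [sum_comm, sum_div]

lemma U_mean0 (af : ℕ → ℝ) (φ : ℝ) {κ : ℝ} (hκ : 0 < κ) (M : ℕ) :
    Tendsto (fun j => fav (SI j) (fun n => U af φ (κ * √(n:ℝ)) M)) atTop (𝓝 0) := by
  unfold U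
  have h1 : ∀ j, fav (SI j) (fun n : ℕ => ∑ m ∈ Icc 1 (M^2), af m * Real.cos (2 * Real.pi * (κ * √(n:ℝ) * √(m:ℝ)) - φ)) =
      ∑ m ∈ Icc 1 (M^2), af m * fav (SI j) (fun n : ℕ => Real.cos (2 * Real.pi * ((κ * √(m:ℝ)) * √(n:ℝ)) - φ)) := by
    intro j
    rw [fav_sum]
    apply sum_congr rfl; intro m _
    rw [← fav_mul]
    congr 1; funext n
    congr 3; ring
  simp only [h1]
  have h2 : (0:ℝ) = ∑ m ∈ Icc 1 (M^2), af m * 0 := by simp
  rw [h2]
  apply tendsto_finsetSum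
  intro m hm
  rw [mem_Icc] at hm
  apply Tendsto.const_mul
  have h3 := cosmean (κ * √(m:ℝ)) φ
  have hm0 : (0:ℝ) < m := by exact_mod_cast hm.1
  rw [if_neg (by positivity)] at h3
  exact h3

lemma U_prod (af : ℕ → ℝ) (φ : ℝ) {c : ℝ} (hc : 0 < c) {a b : ℕ} (ha : 1 ≤ a) (hb : 1 ≤ b) (M : ℕ) :
    Tendsto (fun j => fav (SI j) (fun n => U af φ ((c * √(a:ℝ)) * √(n:ℝ)) M * U af φ ((c * √(b:ℝ)) * √(n:ℝ)) M)) atTop
      (𝓝 (GM af a b M)) := by
  have ha0 : (0:ℝ) < a := by exact_mod_cast ha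
  have hb0 : (0:ℝ) < b := by exact_mod_cast hb
  unfold U GM
  have h1 : ∀ j, fav (SI j) (fun n : ℕ => (∑ m ∈ Icc 1 (M^2), af m * Real.cos (2 * Real.pi * ((c * √(a:ℝ)) * √(n:ℝ) * √(m:ℝ)) - φ)) *
        (∑ m' ∈ Icc 1 (M^2), af m' * Real.cos (2 * Real.pi * ((c * √(b:ℝ)) * √(n:ℝ) * √(m':ℝ)) - φ))) =
      ∑ m ∈ Icc 1 (M^2), ∑ m' ∈ Icc 1 (M^2), (af m * af m' / 2) *
        (fav (SI j) (fun n : ℕ => Real.cos (2 * Real.pi * ((c * √(a:ℝ) * √(m:ℝ) - c * √(b:ℝ) * √(m':ℝ)) * √(n:ℝ)) - 0)) +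
         fav (SI j) (fun n : ℕ => Real.cos (2 * Real.pi * ((c * √(a:ℝ) * √(m:ℝ) + c * √(b:ℝ) * √(m':ℝ)) * √(n:ℝ)) - 2 * φ))) := by
    intro j
    have e1 : (fun n : ℕ => (∑ m ∈ Icc 1 (M^2), af m * Real.cos (2 * Real.pi * ((c * √(a:ℝ)) * √(n:ℝ) * √(m:ℝ)) - φ)) *
        (∑ m' ∈ Icc 1 (M^2), af m' * Real.cos (2 * Real.pi * ((c * √(b:ℝ)) * √(n:ℝ) * √(m':ℝ)) - φ))) =
        fun n : ℕ => ∑ m ∈ Icc 1 (M^2), ∑ m' ∈ Icc 1 (M^2),
          (af m * Real.cos (2 * Real.pi * ((c * √(a:ℝ)) * √(n:ℝ) * √(m:ℝ)) - φ)) * (af m' * Real.cos (2 * Real.pi * ((c * √(b:ℝ)) * √(n:ℝ) * √(m':ℝ)) - φ)) := by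
      funext n; rw [Finset.sum_mul_sum]
    rw [e1, fav_sum]
    apply sum_congr rfl; intro m _
    rw [fav_sum]
    apply sum_congr rfl; intro m' _
    rw [← fav_add, ← fav_mul]
    congr 1; funext n
    have e2 : 2 * Real.pi * ((c * √(a:ℝ) * √(m:ℝ) - c * √(b:ℝ) * √(m':ℝ)) * √(n:ℝ)) - 0 =
        (2 * Real.pi * ((c * √(a:ℝ)) * √(n:ℝ) * √(m:ℝ)) - φ) - (2 * Real.pi * ((c * √(b:ℝ)) * √(n:ℝ) * √(m':ℝ)) - φ) := by ring
    have e3 : 2 * Real.pi * ((c * √(a:ℝ) * √(m:ℝ) + c * √(b:ℝ) * √(m':ℝ)) * √(n:ℝ)) - 2 * φ =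
        (2 * Real.pi * ((c * √(a:ℝ)) * √(n:ℝ) * √(m:ℝ)) - φ) + (2 * Real.pi * ((c * √(b:ℝ)) * √(n:ℝ) * √(m':ℝ)) - φ) := by ring
    have e6 : ∀ p r : ℝ, (af m * Real.cos p) * (af m' * Real.cos r) = (af m * af m'/2) * (Real.cos (p - r) + Real.cos (p + r)) := by
      intro p r; rw [Real.cos_sub, Real.cos_add]; ring
    rw [e2, e3]; exact e6 _ _
  simp only [h1]
  apply tendsto_finsetSum
  intro m hm
  apply tendsto_finsetSum
  intro m' hm'
  rw [mem_Icc] at hm hm'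
  have hm0 : (0:ℝ) < m := by exact_mod_cast hm.1
  have hm0' : (0:ℝ) < m' := by exact_mod_cast hm'.1
  have h2 := cosmean (c * √(a:ℝ) * √(m:ℝ) - c * √(b:ℝ) * √(m':ℝ)) 0
  have h3 := cosmean (c * √(a:ℝ) * √(m:ℝ) + c * √(b:ℝ) * √(m':ℝ)) (2 * φ)
  rw [if_neg (by positivity)] at h3
  have h4 := (h2.add h3).const_mul (af m * af m' / 2)
  have hiff : (c * √(a:ℝ) * √(m:ℝ) - c * √(b:ℝ) * √(m':ℝ) = 0) ↔ a * m = b * m' := by
    rw [sub_eq_zero, mul_assoc, mul_assoc, ← Real.sqrt_mul ha0.le, ← Real.sqrt_mul hb0.le]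
    constructor
    · intro h
      have h5 := mul_left_cancel₀ hc.ne' h
      have h6 := (Real.sqrt_inj (by positivity) (by positivity)).mp h5
      exact_mod_cast h6
    · intro h
      have : (a:ℝ) * m = b * m' := by exact_mod_cast h
      rw [this]
  have e5 : (af m * af m' / 2) * ((if c * √(a:ℝ) * √(m:ℝ) - c * √(b:ℝ) * √(m':ℝ) = 0 then Real.cos 0 else 0) + 0) =
      if a * m = b * m' then af m * af m' / 2 else 0 := by
    rw [if_congr hiff rfl rfl]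
    split_ifs
    · rw [Real.cos_zero]; ring
    · ring
  rw [e5] at h4
  exact h4

lemma am (x y δ : ℝ) (hδ : 0 < δ) : |x| * |y| ≤ x^2 * (1/(2*δ)) + y^2 * (δ/2) := by
  have e1 : x^2 * (1/(2*δ)) + y^2 * (δ/2) - |x| * |y| = (|x| - δ * |y|)^2 / (2*δ) := by
    rw [← sq_abs x, ← sq_abs y]; field_simp; ring
  have : 0 ≤ (|x| - δ * |y|)^2 / (2*δ) := by positivity
  linarith

/-- limits of means of products under mean-square approximation -/
lemma prod_lim {S : ℕ → Finset ℕ} {x y : ℕ → ℝ} {u v : ℕ → ℕ → ℝ}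
    (hx : ∀ η : ℝ, 0 < η → ∃ M0 : ℕ, ∀ M, M0 ≤ M → ∃ j0 : ℕ, ∀ j, j0 ≤ j → fav (S j) (fun n => (x n - u M n)^2) ≤ η)
    (hy : ∀ η : ℝ, 0 < η → ∃ M0 : ℕ, ∀ M, M0 ≤ M → ∃ j0 : ℕ, ∀ j, j0 ≤ j → fav (S j) (fun n => (y n - v M n)^2) ≤ η)
    {X2 Y2 L : ℝ} (hX : Tendsto (fun j => fav (S j) (fun n => (x n)^2)) atTop (𝓝 X2))
    (hY : Tendsto (fun j => fav (S j) (fun n => (y n)^2)) atTop (𝓝 Y2))
    (hL : Tendsto (fun j => fav (S j) (fun n => x n * y n)) atTop (𝓝 L)) {G : ℕ → ℝ}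
    (hG : ∀ M, Tendsto (fun j => fav (S j) (fun n => u M n * v M n)) atTop (𝓝 (G M))) :
    Tendsto G atTop (𝓝 L) := by
  rw [Metric.tendsto_atTop]
  intro ε hε
  have hX0 : 0 ≤ X2 := ge_of_tendsto' hX fun j => fav_nonneg fun n => sq_nonneg _
  have hY0 : 0 ≤ Y2 := ge_of_tendsto' hY fun j => fav_nonneg fun n => sq_nonneg _
  set δ : ℝ := min 1 (ε / (4 * (X2 + Y2 + 4))) with hδ
  have hδ0 : 0 < δ := by rw [hδ]; apply lt_min one_pos; positivity
  have hδ1 : δ ≤ 1 := min_le_left _ _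
  have hδ2 : δ * (X2 + Y2 + 4) ≤ ε / 4 := by
    have : δ ≤ ε / (4 * (X2 + Y2 + 4)) := min_le_right _ _
    calc δ * (X2 + Y2 + 4) ≤ ε / (4 * (X2 + Y2 + 4)) * (X2 + Y2 + 4) := mul_le_mul_of_nonneg_right this (by positivity)
      _ = ε / 4 := by field_simp
  obtain ⟨M1, hM1⟩ := hx (δ^2) (by positivity)
  obtain ⟨M2, hM2⟩ := hy (δ^2) (by positivity)
  refine ⟨max M1 M2, fun M hM => ?_⟩
  obtain ⟨j1, hj1⟩ := hM1 M ((le_max_left _ _).trans hM)
  obtain ⟨j2, hj2⟩ := hM2 M ((le_max_right _ _).trans hM)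
  have h1 : Tendsto (fun j => |fav (S j) (fun n => u M n * v M n) - fav (S j) (fun n => x n * y n)|) atTop (𝓝 |G M - L|) :=
    ((hG M).sub hL).abs
  rw [Real.dist_eq]
  refine lt_of_le_of_lt (le_of_tendsto h1 (b := ε/2) ?_) (by linarith)
  filter_upwards [eventually_ge_atTop (max j1 j2), hX.eventually (gt_mem_nhds (show X2 < X2 + 1 by linarith)),
    hY.eventually (gt_mem_nhds (show Y2 < Y2 + 1 by linarith))] with j hj hXj hYj
  have b1 := hj1 j ((le_max_left _ _).trans hj)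
  have b2 := hj2 j ((le_max_right _ _).trans hj)
  rw [← fav_sub]
  refine (abs_fav_le _ _).trans ?_
  have hpt : ∀ n, |u M n * v M n - x n * y n| ≤ ((x n - u M n)^2 + (y n - v M n)^2) * (1/(2*δ) + 1/2) + ((x n)^2 + (y n)^2) * (δ/2) := by
    intro n
    have e1 : u M n * v M n - x n * y n = -((x n - u M n) * y n) + ((x n - u M n) * (y n - v M n)) - ((y n - v M n) * x n) := by ring
    rw [e1]
    have c1 := am (x n - u M n) (y n) δ hδ0
    have c2 := am (y n - v M n) (x n) δ hδ0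
    have c3 : |x n - u M n| * |y n - v M n| ≤ ((x n - u M n)^2 + (y n - v M n)^2) / 2 := by
      have := sq_nonneg (|x n - u M n| - |y n - v M n|)
      rw [← sq_abs (x n - u M n), ← sq_abs (y n - v M n)]
      nlinarith
    have c4 : |-((x n - u M n) * y n) + ((x n - u M n) * (y n - v M n)) - ((y n - v M n) * x n)| ≤
        |x n - u M n| * |y n| + |x n - u M n| * |y n - v M n| + |y n - v M n| * |x n| := by
      refine (abs_sub _ _).trans ?_
      refine (add_le_add (abs_add_le _ _) le_rfl).trans ?_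
      rw [abs_neg, abs_mul, abs_mul, abs_mul]
    refine c4.trans ?_
    nlinarith
  refine (fav_mono hpt).trans ?_
  have e4 : fav (S j) (fun n => ((x n - u M n)^2 + (y n - v M n)^2) * (1/(2*δ) + 1/2) + ((x n)^2 + (y n)^2) * (δ/2)) =
      (1/(2*δ) + 1/2) * (fav (S j) (fun n => (x n - u M n)^2) + fav (S j) (fun n => (y n - v M n)^2)) +
      (δ/2) * (fav (S j) (fun n => (x n)^2) + fav (S j) (fun n => (y n)^2)) := by
    rw [← fav_add, ← fav_add, ← fav_mul, ← fav_mul, ← fav_add]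
    congr 1; funext n; ring
  rw [e4]
  have d1 : (1/(2*δ) + 1/2) * (fav (S j) (fun n => (x n - u M n)^2) + fav (S j) (fun n => (y n - v M n)^2)) ≤
      (1/(2*δ) + 1/2) * (δ^2 + δ^2) := mul_le_mul_of_nonneg_left (add_le_add b1 b2) (by positivity)
  have d2 : (1/(2*δ) + 1/2) * (δ^2 + δ^2) = δ + δ^2 := by field_simp; norm_num
  have d3 : (δ/2) * (fav (S j) (fun n => (x n)^2) + fav (S j) (fun n => (y n)^2)) ≤ (δ/2) * ((X2 + 1) + (Y2 + 1)) :=
    mul_le_mul_of_nonneg_left (add_le_add hXj.le hYj.le) (by positivity)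
  nlinarith [mul_nonneg hδ0.le hX0, mul_nonneg hδ0.le hY0]

end Pool.Agent.W24.CP.SX
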