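import Mathlib
import Pool.Agent.W24.CP.SU
import Pool.Agent.W24.CP.SV
import Pool.Agent.W24.CP.SW
import Pool.Agent.W24.CP.SX

/-! The limit law at linear arguments: assembly. -/

open Finset Filter Topology MeasureTheory
open Pool.Agent.H383
open Pool.Agent.H383.Gen (Bd U Ap)
open Pool.Agent.H383.AP (rm)
open Pool.Agent.H452R2.Win Pool.Agent.H452R2.Om
open Pool.Agent.H469R2.NK
open Pool.Agent.H425R3.JL (PR fav cav q ApU fav_const fav_add fav_sub fav_mul fav_mono fav_nonneg cav_add cav_smul cav_ofReal norm_cav_sub_le q_nonneg q_cont RS RS_ne RS_fav)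
open Pool.Agent.W24.CP.SL (chS chS_zero norm_chS mcS TS TS_chr TS_one TS_lim AvS)
open Pool.Agent.W24.Katai (Mul1)
open Pool.Agent.W24.CP.SU Pool.Agent.W24.CP.SX

namespace Pool.Agent.W24.CP.SF

variable {ι : Type*} [Fintype ι]

lemma unI {X : ℕ → ℂ} {η : ℝ}
    (h : ∃ j0 : ℕ, ∀ j, j0 ≤ j → ∀ v ∈ VI j, ‖cav (SI j) (fun n => v n * X n)‖ ≤ η) :
    ∃ N0 : ℕ, ∀ N : ℕ, N0 ≤ N → ∀ α : ℝ, ∀ g : ℕ → ℂ, Mul1 g →
      ‖∑ n ∈ Icc 1 N, g n * e (α * n) * X n‖ ≤ η * N := by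
  obtain ⟨j1, hj1⟩ := h
  refine ⟨j1 + 1, fun N hN α g hg => ?_⟩
  obtain ⟨j, rfl⟩ : ∃ j, N = j + 1 := ⟨N - 1, by omega⟩
  have h3 := hj1 j (by omega) (fun n : ℕ => g n * e (α * n)) ⟨g, hg, α, rfl⟩
  unfold cav at h3
  rw [norm_div, Complex.norm_natCast, SI_card, div_le_iff₀ (by positivity)] at h3
  exact h3

lemma unQ {X : ℕ → ℂ} {η : ℝ}
    (h : ∃ j0 : ℕ, ∀ j, j0 ≤ j → ∀ v ∈ VQ j, ‖cav (SQ j) (fun n => v n * X n)‖ ≤ η) :
    ∃ N0 : ℕ, ∀ N : ℕ, N0 ≤ N → ∀ α : ℝ,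
      ‖∑ p ∈ PR N, e (α * p) * X p‖ ≤ η * (PR N).card := by
  obtain ⟨j1, hj1⟩ := h
  refine ⟨j1 + 2, fun N hN α => ?_⟩
  obtain ⟨j, rfl⟩ : ∃ j, N = j + 2 := ⟨N - 2, by omega⟩
  have h3 := hj1 j (by omega) (fun n : ℕ => e (α * n)) ⟨α, rfl⟩
  unfold cav at h3
  have hc0 : (0:ℝ) < (SQ j).card := by exact_mod_cast Finset.card_pos.mpr (SQ_ne j)
  rw [norm_div, Complex.norm_natCast, div_le_iff₀ hc0] at h3
  exact h3

lemma ApU_comp1 {Um : ℕ → ℕ → ι → ℝ} {x : ℕ → ι → ℝ} {S : ℕ → Finset ℕ} (h : ApU Um x S) (i : ι) {η : ℝ} (hη : 0 < η) :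
    ∃ M0 : ℕ, ∀ M, M0 ≤ M → ∃ j0 : ℕ, ∀ j, j0 ≤ j → fav (S j) (fun n => (x n i - Um M n i)^2) ≤ η := by
  obtain ⟨M0, h1⟩ := h η hη
  refine ⟨M0, fun M hM => ?_⟩
  obtain ⟨j0, h2⟩ := h1 M hM
  refine ⟨j0, fun j hj => le_trans (fav_mono fun n => ?_) (h2 j hj)⟩
  unfold q
  exact Finset.single_le_sum (f := fun i => ((x n - Um M n) i)^2) (fun i _ => sq_nonneg _) (mem_univ i)

variable {E : ℝ → ℝ} {af : ℕ → ℝ} {φ : ℝ} {w : ℝ → ℂ}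

open Classical in
/-- everything about the joint law -/
theorem main (hb : Bd af) (ha : Bdw af) (ha0 : af 0 = 0) (hw : GW.Wt w) {κ₁ κ₂ : ℝ} (hS : SandW E af φ w κ₁ κ₂) {c : ℝ} (hc : 0 < c)
    {t : ℝ} (ht : Transcendental ℤ t) {eb : ℕ → ℝ} (hAp : Ap af φ eb t t) {ν : ProbabilityMeasure ℝ}
    (hν : ∀ f : ℝ → ℝ, Continuous f → (∃ C, ∀ x, |f x| ≤ C) →
      Tendsto (fun j => fav (RS j) (fun n => f (eb n))) atTop (𝓝 (∫ x, f x ∂(ν : Measure ℝ))))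
    (A B : ι → ℕ) (hA : ∀ i, 1 ≤ A i) :
    ∃ μ : ProbabilityMeasure (ι → ℝ), Integrable q (μ : Measure (ι → ℝ)) ∧
    (∀ i, (μ : Measure (ι → ℝ)).map (fun x => x i) = (ν : Measure ℝ)) ∧
    (∀ i, ∫ x, x i ∂(μ : Measure (ι → ℝ)) = 0) ∧
    (∀ i k, Summable (fun h : ℕ => af (A k / Nat.gcd (A i) (A k) * h) * af (A i / Nat.gcd (A i) (A k) * h) / 2) ∧
      ∫ x, x i * x k ∂(μ : Measure (ι → ℝ)) = ∑' h : ℕ, af (A k / Nat.gcd (A i) (A k) * h) * af (A i / Nat.gcd (A i) (A k) * h) / 2) ∧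
    (∀ f : (ι → ℝ) → ℝ, Continuous f → (∃ C, ∀ x, |f x| ≤ C * (1 + q x)) → ∀ η : ℝ, 0 < η → ∃ N0 : ℕ, ∀ N : ℕ, N0 ≤ N → ∀ α : ℝ,
      (∀ g : ℕ → ℂ, Mul1 g →
        ‖∑ n ∈ Icc 1 N, g n * e (α * n) * ((f (ev E c A B n) - ∫ x, f x ∂(μ : Measure (ι → ℝ)) : ℝ) : ℂ)‖ ≤ η * N) ∧
        ‖∑ p ∈ PR N, e (α * p) * ((f (ev E c A B p) - ∫ x, f x ∂(μ : Measure (ι → ℝ)) : ℝ) : ℂ)‖ ≤ η * (PR N).card) ∧
    (∀ D : Set (ι → ℝ), (μ : Measure (ι → ℝ)) (frontier D) = 0 → ∀ η : ℝ, 0 < η → ∃ N0 : ℕ, ∀ N : ℕ, N0 ≤ N → ∀ α : ℝ,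
      (∀ g : ℕ → ℂ, Mul1 g →
        ‖∑ n ∈ Icc 1 N, g n * e (α * n) * (((if ev E c A B n ∈ D then (1:ℝ) else 0) - (μ : Measure (ι → ℝ)).real D : ℝ) : ℂ)‖ ≤ η * N) ∧
        ‖∑ p ∈ PR N, e (α * p) * (((if ev E c A B p ∈ D then (1:ℝ) else 0) - (μ : Measure (ι → ℝ)).real D : ℝ) : ℂ)‖ ≤ η * (PR N).card) := by
  have hU : ∀ M i, (fun n => ((Ux af φ c A M n i : ℝ) : ℂ)) ∈ TS := fun M i => U_TS af φ (c * √(A i:ℝ)) M
  have h1 := ApU_SI ha ha0 hw hS hc A B hA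
  have h2 := ApU_SQ ha ha0 hw hS hc A B hA
  obtain ⟨μ, hμ1, hμ2⟩ := SL.law hU SI_ne SI_Av h1
  have hpos : ∀ i, (0:ℝ) < A i := fun i => by exact_mod_cast hA i
  have hsq : ∀ i, 0 < c * √(A i:ℝ) := fun i => mul_pos hc (Real.sqrt_pos.mpr (hpos i))
  have hQ2 : ∀ f : (ι → ℝ) → ℝ, Continuous f → (∃ C, ∀ x, |f x| ≤ C * (1 + q x)) →
      Tendsto (fun j => fav (SQ j) (fun n => f (ev E c A B n))) atTop (𝓝 (∫ x, f x ∂(μ : Measure (ι → ℝ)))) :=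
    fun f hf hC => SL.law_transfer hU SI_ne SI_Av h1 SQ_ne SQ_Av h2 hf hC (hμ2 f hf hC)
  have huI : ∀ f : (ι → ℝ) → ℝ, Continuous f → (∃ C, ∀ x, |f x| ≤ C * (1 + q x)) → ∀ η : ℝ, 0 < η →
      ∃ j0 : ℕ, ∀ j, j0 ≤ j → ∀ v ∈ VI j, ‖cav (SI j) (fun n => v n * ((f (ev E c A B n) - ∫ x, f x ∂(μ : Measure (ι → ℝ)) : ℝ) : ℂ))‖ ≤ η :=
    fun f hf hC η hη => uo SI_ne SI_Av (V := VI) VI_bd VI_or hU h1 hf hC (hμ2 f hf hC) hη
  have huQ : ∀ f : (ι → ℝ) → ℝ, Continuous f → (∃ C, ∀ x, |f x| ≤ C * (1 + q x)) → ∀ η : ℝ, 0 < η →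
      ∃ j0 : ℕ, ∀ j, j0 ≤ j → ∀ v ∈ VQ j, ‖cav (SQ j) (fun n => v n * ((f (ev E c A B n) - ∫ x, f x ∂(μ : Measure (ι → ℝ)) : ℝ) : ℂ))‖ ≤ η :=
    fun f hf hC η hη => uo SQ_ne SQ_Av (V := VQ) VQ_bd VQ_or hU h2 hf hC (hQ2 f hf hC) hη
  refine ⟨μ, hμ1, ?_, ?_, ?_, ?_, ?_⟩
  · intro i
    refine SW.marg_eq (af := af) (φ := φ) (eb := eb) (hsq i) ht i (fun η hη => ApU_comp1 h1 i hη) ?_ hμ2 hν
    intro η hη
    obtain ⟨M0, h3⟩ := hAp η hη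
    refine ⟨M0, fun M hM => ?_⟩
    obtain ⟨N0, h4⟩ := h3 M hM
    refine ⟨N0, fun j hj => ?_⟩
    rw [RS_fav]
    exact h4 (j+1) (by omega)
  · intro i
    have hgr : ∃ C : ℝ, ∀ x : ι → ℝ, |x i| ≤ C * (1 + q x) := ⟨1, fun x => by
      have h5 : (x i)^2 ≤ q x := Finset.single_le_sum (f := fun i => (x i)^2) (fun i _ => sq_nonneg _) (mem_univ i)
      have := sq_nonneg (|x i| - 1)
      rw [← sq_abs (x i)] at h5
      nlinarith [abs_nonneg (x i)]⟩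
    have hgr2 : ∃ C : ℝ, ∀ x : ι → ℝ, |(x i)^2| ≤ C * (1 + q x) := ⟨1, fun x => by
      have h5 : (x i)^2 ≤ q x := Finset.single_le_sum (f := fun i => (x i)^2) (fun i _ => sq_nonneg _) (mem_univ i)
      rw [abs_of_nonneg (sq_nonneg _)]
      linarith⟩
    have hX := hμ2 (fun x => x i) (continuous_apply i) hgr
    have hX2 := hμ2 (fun x => (x i)^2) ((continuous_apply i).pow 2) hgr2
    have hone : Tendsto (fun j => fav (SI j) (fun _ => (1:ℝ)^2)) atTop (𝓝 1) := by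
      simp only [one_pow, fun j => fav_const (SI_ne j) 1]; exact tendsto_const_nhds
    have hL : Tendsto (fun j => fav (SI j) (fun n => ev E c A B n i * (1:ℝ))) atTop (𝓝 (∫ x, x i ∂(μ : Measure (ι → ℝ)))) := by
      simp only [mul_one]; exact hX
    have hG : ∀ M : ℕ, Tendsto (fun j => fav (SI j) (fun n => Ux af φ c A M n i * (1:ℝ))) atTop (𝓝 0) := by
      intro M
      simp only [mul_one]
      exact U_mean0 af φ (hsq i) M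
    have := prod_lim (S := SI) (x := fun n => ev E c A B n i) (y := fun _ => 1) (u := fun M n => Ux af φ c A M n i) (v := fun _ _ => 1)
      (fun η hη => ApU_comp1 h1 i hη) (fun η hη => ⟨0, fun M _ => ⟨0, fun j _ => by
        simp only [sub_self]
        rw [fav_const (SI_ne j)]
        norm_num; exact hη.le⟩⟩) hX2 hone hL (G := fun _ => 0) hG
    exact tendsto_nhds_unique this tendsto_const_nhds
  · intro i k
    have hgr : ∀ i : ι, ∃ C : ℝ, ∀ x : ι → ℝ, |(x i)^2| ≤ C * (1 + q x) := fun i => ⟨1, fun x => by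
      have h5 : (x i)^2 ≤ q x := Finset.single_le_sum (f := fun i => (x i)^2) (fun i _ => sq_nonneg _) (mem_univ i)
      rw [abs_of_nonneg (sq_nonneg _)]
      linarith⟩
    have hgr3 : ∃ C : ℝ, ∀ x : ι → ℝ, |x i * x k| ≤ C * (1 + q x) := ⟨1, fun x => by
      have h5 : (x i)^2 ≤ q x := Finset.single_le_sum (f := fun i => (x i)^2) (fun i _ => sq_nonneg _) (mem_univ i)
      have h6 : (x k)^2 ≤ q x := Finset.single_le_sum (f := fun i => (x i)^2) (fun i _ => sq_nonneg _) (mem_univ k)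
      have := sq_nonneg (|x i| - |x k|)
      rw [abs_mul]
      rw [← sq_abs (x i)] at h5
      rw [← sq_abs (x k)] at h6
      nlinarith [abs_nonneg (x i), abs_nonneg (x k)]⟩
    have hX := hμ2 (fun x => (x i)^2) ((continuous_apply i).pow 2) (hgr i)
    have hY := hμ2 (fun x => (x k)^2) ((continuous_apply k).pow 2) (hgr k)
    have hL := hμ2 (fun x => x i * x k) ((continuous_apply i).mul (continuous_apply k)) hgr3
    have hlim := prod_lim (S := SI) (x := fun n => ev E c A B n i) (y := fun n => ev E c A B n k)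
      (u := fun M n => Ux af φ c A M n i) (v := fun M n => Ux af φ c A M n k)
      (fun η hη => ApU_comp1 h1 i hη) (fun η hη => ApU_comp1 h1 k hη) hX hY hL
      (G := GM af (A i) (A k)) (fun M => U_prod af φ hc (hA i) (hA k) M)
    refine ⟨?_, tendsto_nhds_unique hlim (GM_lim hb ha0 (hA i) (hA k))⟩
    apply bd_prod hb ha0
    · exact Nat.div_pos (Nat.gcd_le_right _ (hA k)) (Nat.gcd_pos_of_pos_left _ (hA i))
    · exact Nat.div_pos (Nat.gcd_le_left _ (hA i)) (Nat.gcd_pos_of_pos_left _ (hA i))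
  · intro f hf hC η hη
    obtain ⟨N1, k1⟩ := unI (X := fun n => ((f (ev E c A B n) - ∫ x, f x ∂(μ : Measure (ι → ℝ)) : ℝ) : ℂ)) (huI f hf hC η hη)
    obtain ⟨N2, k2⟩ := unQ (X := fun n => ((f (ev E c A B n) - ∫ x, f x ∂(μ : Measure (ι → ℝ)) : ℝ) : ℂ)) (huQ f hf hC η hη)
    exact ⟨max N1 N2, fun N hN α => ⟨fun g hg => k1 N (by omega) α g hg, k2 N (by omega) α⟩⟩
  · intro D hD η hη
    obtain ⟨N1, k1⟩ := unI (X := fun n => (((if ev E c A B n ∈ D then (1:ℝ) else 0) - (μ : Measure (ι → ℝ)).real D : ℝ) : ℂ))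
      (SV.uoA SI_ne VI_bd hμ2 huI hD hη)
    obtain ⟨N2, k2⟩ := unQ (X := fun n => (((if ev E c A B n ∈ D then (1:ℝ) else 0) - (μ : Measure (ι → ℝ)).real D : ℝ) : ℂ))
      (SV.uoA SQ_ne VQ_bd hQ2 huQ hD hη)
    exact ⟨max N1 N2, fun N hN α => ⟨fun g hg => k1 N (by omega) α g hg, k2 N (by omega) α⟩⟩

end Pool.Agent.W24.CP.SF
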