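import Mathlib
import Pool.Agent.W24.CP.SF
import Pool.Agent.W24.CP.Two

/-! The circle problem at linear arguments. -/

open Filter Topology MeasureTheory
open Pool.Agent.H383
open Pool.Agent.H383.Gen (Bd U Ap)
open Pool.Agent.H452R2.Win Pool.Agent.H452R2.Om
open Pool.Agent.H469R2.NK
open Pool.Agent.H425R3.JL

namespace Pool.Agent.W24.CP.SR

lemma exists_tr : ∃ t : ℝ, 0 < t ∧ Transcendental ℤ t := by
  have h := transcendental_liouvilleNumber (m := 2) le_rfl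
  set x : ℝ := liouvilleNumber ((2:ℕ):ℝ) with hx
  have hx0 : x ≠ 0 := by
    intro h0
    apply h
    rw [h0]; exact isAlgebraic_zero
  rcases lt_or_gt_of_ne hx0 with h1 | h1
  · refine ⟨-x, by linarith, fun h2 => h ?_⟩
    have := h2.neg
    rwa [neg_neg] at this
  · exact ⟨x, h1, h⟩

open Pool.Agent.H383.Gauss Pool.Agent.H383.Circ in
lemma ag_all (m : ℕ) : ag m = (Nat.card {p : ℤ × ℤ // p.1 ^ 2 + p.2 ^ 2 = (m : ℤ)} : ℝ) / Real.pi * (m : ℝ) ^ (-(3 / 4) : ℝ) := by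
  rcases Nat.eq_zero_or_pos m with rfl | hm
  · have h0 : ((0:ℕ):ℝ) ^ (-(3 / 4) : ℝ) = 0 := by
      rw [Nat.cast_zero]; exact Real.zero_rpow (by norm_num)
    rw [ag_zero, h0, mul_zero]
  · have hm0 : (0:ℝ) < m := by exact_mod_cast hm
    unfold ag
    rw [rA_card, Real.sqrt_eq_rpow, ← Real.rpow_mul hm0.le]; norm_num

open Classical in
open Pool.Agent.H383.Gauss Pool.Agent.H383.Circ in
theorem circ_lin (r : ℕ → ℕ) (hr : ∀ m : ℕ, r m = Nat.card {p : ℤ × ℤ // p.1 ^ 2 + p.2 ^ 2 = (m : ℤ)}) :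
    ∃ (ν : ProbabilityMeasure ℝ) (G : ℂ → ℂ),
      Differentiable ℂ G ∧ (∀ x : ℝ, 0 ≤ (G x).re ∧ (G x).im = 0) ∧
      (ν : Measure ℝ) = volume.withDensity (fun x : ℝ => ENNReal.ofReal (G x).re) ∧
      (∀ u v : ℝ, u < v → 0 < (ν : Measure ℝ) (Set.Ioo u v)) ∧
      ∀ (k : ℕ) (a b : Fin k → ℕ), (∀ i, 0 < a i) →
      ∃ μ : ProbabilityMeasure (Fin k → ℝ),
        Integrable (fun x : Fin k → ℝ => ∑ i, x i ^ 2) (μ : Measure (Fin k → ℝ)) ∧
        (∀ i, (μ : Measure (Fin k → ℝ)).map (fun x => x i) = (ν : Measure ℝ)) ∧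
        (∀ i, ∫ x, x i ∂(μ : Measure (Fin k → ℝ)) = 0) ∧
        (∀ i j, ∀ u v d : ℕ, a i = d * v → a j = d * u → Nat.Coprime u v →
          Summable (fun h : ℕ => (r (u * h) : ℝ) * r (v * h) / ((u : ℝ) * v * (h : ℝ) ^ 2) ^ (3 / 4 : ℝ)) ∧
          ∫ x, x i * x j ∂(μ : Measure (Fin k → ℝ)) =
            (∑' h : ℕ, (r (u * h) : ℝ) * r (v * h) / ((u : ℝ) * v * (h : ℝ) ^ 2) ^ (3 / 4 : ℝ)) / (2 * Real.pi ^ 2)) ∧
        (∀ f : (Fin k → ℝ) → ℝ, Continuous f → (∃ C : ℝ, ∀ x, |f x| ≤ C * (1 + ∑ i, x i ^ 2)) →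
          ∀ η : ℝ, 0 < η → ∃ N₀ : ℕ, ∀ N : ℕ, N₀ ≤ N → ∀ α : ℝ,
            (∀ g : ℕ → ℂ, (∀ n, ‖g n‖ ≤ 1) → (∀ m n : ℕ, Nat.Coprime m n → g (m * n) = g m * g n) →
              ‖∑ n ∈ Finset.Icc 1 N, g n * Complex.exp (2 * Real.pi * Complex.I * (α * n)) *
                ((f (fun i => Ec ((a i : ℝ) * n + b i)) - ∫ x, f x ∂(μ : Measure (Fin k → ℝ)) : ℝ) : ℂ)‖ ≤ η * N) ∧
            ‖∑ p ∈ (Finset.Icc 1 N).filter Nat.Prime, Complex.exp (2 * Real.pi * Complex.I * (α * p)) *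
                ((f (fun i => Ec ((a i : ℝ) * p + b i)) - ∫ x, f x ∂(μ : Measure (Fin k → ℝ)) : ℝ) : ℂ)‖
              ≤ η * ((Finset.Icc 1 N).filter Nat.Prime).card) ∧
        (∀ D : Set (Fin k → ℝ), (μ : Measure (Fin k → ℝ)) (frontier D) = 0 →
          ∀ η : ℝ, 0 < η → ∃ N₀ : ℕ, ∀ N : ℕ, N₀ ≤ N → ∀ α : ℝ,
            (∀ g : ℕ → ℂ, (∀ n, ‖g n‖ ≤ 1) → (∀ m n : ℕ, Nat.Coprime m n → g (m * n) = g m * g n) →
              ‖∑ n ∈ Finset.Icc 1 N, g n * Complex.exp (2 * Real.pi * Complex.I * (α * n)) *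
                (((if (fun i => Ec ((a i : ℝ) * n + b i)) ∈ D then (1 : ℝ) else 0)
                  - (μ : Measure (Fin k → ℝ)).real D : ℝ) : ℂ)‖ ≤ η * N) ∧
            ‖∑ p ∈ (Finset.Icc 1 N).filter Nat.Prime, Complex.exp (2 * Real.pi * Complex.I * (α * p)) *
                (((if (fun i => Ec ((a i : ℝ) * p + b i)) ∈ D then (1 : ℝ) else 0)
                  - (μ : Measure (Fin k → ℝ)).real D : ℝ) : ℂ)‖
              ≤ η * ((Finset.Icc 1 N).filter Nat.Prime).card) := by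
  obtain ⟨t, ht0, ht⟩ := exists_tr
  have ht2 : 0 < t^2 := by positivity
  have hP : ∀ n : ℕ, 0 < t^2 * (n:ℝ)^2 + (2 * t^2) * n + t^2 := fun n => by positivity
  have hsq : √(t^2) = t := Real.sqrt_sq ht0.le
  have hAp := quad_Ap (a := t^2) (b := 2 * t^2) (c := t^2) ht2 (fun n => (hP n).le)
  have e0 : 2 * t^2 / (2 * √(t^2)) = t := by rw [hsq]; field_simp
  rw [hsq] at e0
  rw [hsq, e0] at hAp
  obtain ⟨ν, G, g1, g2, g3, g4, g5, g6, -⟩ := distr3 (a := t^2) (b := 2 * t^2) (c := t^2) ht2 hP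
  have hν : ∀ f : ℝ → ℝ, Continuous f → (∃ C, ∀ x, |f x| ≤ C) →
      Tendsto (fun j => fav (RS j) (fun n : ℕ => f (En √(t^2 * (n:ℝ)^2 + (2 * t^2) * n + t^2)))) atTop (𝓝 (∫ x, f x ∂(ν : Measure ℝ))) := by
    intro f hf hC
    obtain ⟨C, hC⟩ := hC
    have h7 := g6 f hf ⟨C, fun x => by
      have := hC x
      have h8 : 0 ≤ C := (abs_nonneg _).trans this
      nlinarith [sq_nonneg x]⟩ 1 one_pos
    rw [Metric.tendsto_atTop]
    intro η hη
    obtain ⟨N0, h8⟩ := h7 (η/2) (by positivity)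
    refine ⟨N0, fun j hj => ?_⟩
    have h9 := h8 (j+1) (by omega) 0 (by
      rw [Nat.cast_zero, Real.zero_rpow (by norm_num)]; exact Nat.cast_nonneg _)
    rw [Real.dist_eq]
    refine lt_of_le_of_lt (le_of_eq ?_) (lt_of_le_of_lt h9 (by linarith))
    congr 2
    unfold fav RS
    rw [Finset.card_range, Nat.zero_add, ← Finset.range_eq_Ico]
    congr 1
    apply Finset.sum_congr rfl
    intro n _
    beta_reduce
    rw [En_quad (hP n).le]
  refine ⟨ν, G, g1, g2, g3, g4, ?_⟩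
  intro k a b ha
  obtain ⟨μ, m1, m2, m3, m4, m5, m6⟩ := SF.main (E := En) ag_Bd ag_Bdw ag_zero wg_Wt En_SandW one_pos ht hAp hν a b (fun i => ha i)
  have hev : ∀ n : ℕ, SU.ev En 1 a b n = fun i => Ec ((a i : ℝ) * n + b i) := by
    intro n; funext i
    unfold SU.ev
    rw [one_mul, Ec_eq (Nat.cast_nonneg _)]
    congr 1; push_cast; ring
  have he : ∀ (α : ℝ) (n : ℕ), e (α * n) = Complex.exp (2 * Real.pi * Complex.I * (α * n)) := by
    intro α n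
    unfold e
    congr 1; push_cast; ring
  refine ⟨μ, m1, m2, m3, ?_, ?_, ?_⟩
  · intro i j u v d hi hj huv
    obtain ⟨n1, n2⟩ := m4 i j
    have hd : 0 < d := by
      rcases Nat.eq_zero_or_pos d with h | h
      · have := ha i; rw [hi, h, zero_mul] at this; omega
      · exact h
    have hg : Nat.gcd (a i) (a j) = d := by
      rw [hi, hj, Nat.gcd_mul_left, Nat.Coprime.symm huv, mul_one]
    have hu : a j / Nat.gcd (a i) (a j) = u := by rw [hg, hj, Nat.mul_div_cancel_left _ hd]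
    have hv : a i / Nat.gcd (a i) (a j) = v := by rw [hg, hi, Nat.mul_div_cancel_left _ hd]
    rw [hu, hv] at n1 n2
    have hterm : ∀ h : ℕ, ag (u * h) * ag (v * h) / 2 =
        ((r (u * h) : ℝ) * r (v * h) / ((u : ℝ) * v * (h : ℝ) ^ 2) ^ (3 / 4 : ℝ)) / (2 * Real.pi ^ 2) := by
      intro h
      rw [ag_all, ag_all, hr, hr]
      have e1 : (((u * h : ℕ) : ℝ)) ^ (-(3 / 4) : ℝ) * (((v * h : ℕ) : ℝ)) ^ (-(3 / 4) : ℝ) =
          1 / ((u : ℝ) * v * (h : ℝ) ^ 2) ^ (3 / 4 : ℝ) := by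
        rw [← Real.mul_rpow (Nat.cast_nonneg _) (Nat.cast_nonneg _), Real.rpow_neg (by positivity), one_div]
        congr 2
        push_cast; ring
      have hpi : Real.pi ≠ 0 := Real.pi_ne_zero
      have e2 : ∀ x y z w p : ℝ, x / Real.pi * y * (z / Real.pi * w) / 2 = x * z * (y * w) / (2 * Real.pi^2) := by
        intro x y z w p; field_simp
      rw [e2 _ _ _ _ 0, e1]
      ring
    simp only [hterm] at n1 n2
    constructor
    · have h3 := n1.mul_right (2 * Real.pi ^ 2)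
      refine h3.congr (fun h => ?_)
      have hpi : Real.pi ≠ 0 := Real.pi_ne_zero
      field_simp
    · rw [n2, tsum_div_const]
  · intro f hf hC η hη
    obtain ⟨N0, h⟩ := m5 f hf hC η hη
    refine ⟨N0, fun N hN α => ?_⟩
    obtain ⟨h1, h2⟩ := h N hN α
    simp only [hev, he] at h1 h2
    exact ⟨fun g hg1 hg2 => h1 g ⟨hg1, hg2⟩, h2⟩
  · intro D hD η hη
    obtain ⟨N0, h⟩ := m6 D hD η hη
    refine ⟨N0, fun N hN α => ?_⟩
    obtain ⟨h1, h2⟩ := h N hN α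
    simp only [hev, he] at h1 h2
    exact ⟨fun g hg1 hg2 => h1 g ⟨hg1, hg2⟩, h2⟩

end Pool.Agent.W24.CP.SR
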