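import Mathlib
import Pool.Agent.W24.CP.SF
import Pool.Agent.W24.CP.Two
import Pool.Agent.W24.CP.SR

/-! The divisor problem at linear arguments. -/

open Filter Topology MeasureTheory
open Pool.Agent.H383
open Pool.Agent.H383.Gen (Bd U Ap)
open Pool.Agent.H452R2.Win Pool.Agent.H452R2.Om
open Pool.Agent.H469R2.NK
open Pool.Agent.H425R3.JL
open Pool.Agent.H387R2.Vor

namespace Pool.Agent.W24.CP.SRD

open Pool.Agent.H383.Div in
lemma ad_all (m : ℕ) : ad m = (m.divisors.card : ℝ) * (m : ℝ) ^ (-(3 / 4) : ℝ) * (1 / (Real.pi * √2)) := rfl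

open Classical in
open Pool.Agent.H383.Div in
theorem div_lin :
    ∃ (ν : ProbabilityMeasure ℝ) (G : ℂ → ℂ),
      Differentiable ℂ G ∧ (∀ x : ℝ, 0 ≤ (G x).re ∧ (G x).im = 0) ∧
      (ν : Measure ℝ) = volume.withDensity (fun x : ℝ => ENNReal.ofReal (G x).re) ∧
      (∀ u v : ℝ, u < v → 0 < (ν : Measure ℝ) (Set.Ioo u v)) ∧
      ∀ (k : ℕ) (a b : Fin k → ℕ), (∀ i, 0 < a i) →
      ∃ μ : ProbabilityMeasure (Fin k → ℝ),
        Integrable (fun x : Fin k → ℝ => ∑ i, x i ^ 2) (μ : Measure (Fin k → ℝ)) ∧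
        (∀ i, (μ : Measure (Fin k → ℝ)).map (fun x => x i) = (ν : Measure ℝ)) ∧
        (∀ i, ∫ x, x i ∂(μ : Measure (Fin k → ℝ)) = 0) ∧
        (∀ i j, ∀ u v d : ℕ, a i = d * v → a j = d * u → Nat.Coprime u v →
          Summable (fun h : ℕ => ((u * h).divisors.card : ℝ) * (v * h).divisors.card / ((u : ℝ) * v * (h : ℝ) ^ 2) ^ (3 / 4 : ℝ)) ∧
          ∫ x, x i * x j ∂(μ : Measure (Fin k → ℝ)) =
            (∑' h : ℕ, ((u * h).divisors.card : ℝ) * (v * h).divisors.card / ((u : ℝ) * v * (h : ℝ) ^ 2) ^ (3 / 4 : ℝ)) / (4 * Real.pi ^ 2)) ∧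
        (∀ f : (Fin k → ℝ) → ℝ, Continuous f → (∃ C : ℝ, ∀ x, |f x| ≤ C * (1 + ∑ i, x i ^ 2)) →
          ∀ η : ℝ, 0 < η → ∃ N₀ : ℕ, ∀ N : ℕ, N₀ ≤ N → ∀ α : ℝ,
            (∀ g : ℕ → ℂ, (∀ n, ‖g n‖ ≤ 1) → (∀ m n : ℕ, Nat.Coprime m n → g (m * n) = g m * g n) →
              ‖∑ n ∈ Finset.Icc 1 N, g n * Complex.exp (2 * Real.pi * Complex.I * (α * n)) *
                ((f (fun i => Edv ((a i : ℝ) * n + b i)) - ∫ x, f x ∂(μ : Measure (Fin k → ℝ)) : ℝ) : ℂ)‖ ≤ η * N) ∧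
            ‖∑ p ∈ (Finset.Icc 1 N).filter Nat.Prime, Complex.exp (2 * Real.pi * Complex.I * (α * p)) *
                ((f (fun i => Edv ((a i : ℝ) * p + b i)) - ∫ x, f x ∂(μ : Measure (Fin k → ℝ)) : ℝ) : ℂ)‖
              ≤ η * ((Finset.Icc 1 N).filter Nat.Prime).card) ∧
        (∀ D : Set (Fin k → ℝ), (μ : Measure (Fin k → ℝ)) (frontier D) = 0 →
          ∀ η : ℝ, 0 < η → ∃ N₀ : ℕ, ∀ N : ℕ, N₀ ≤ N → ∀ α : ℝ,
            (∀ g : ℕ → ℂ, (∀ n, ‖g n‖ ≤ 1) → (∀ m n : ℕ, Nat.Coprime m n → g (m * n) = g m * g n) →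
              ‖∑ n ∈ Finset.Icc 1 N, g n * Complex.exp (2 * Real.pi * Complex.I * (α * n)) *
                (((if (fun i => Edv ((a i : ℝ) * n + b i)) ∈ D then (1 : ℝ) else 0)
                  - (μ : Measure (Fin k → ℝ)).real D : ℝ) : ℂ)‖ ≤ η * N) ∧
            ‖∑ p ∈ (Finset.Icc 1 N).filter Nat.Prime, Complex.exp (2 * Real.pi * Complex.I * (α * p)) *
                (((if (fun i => Edv ((a i : ℝ) * p + b i)) ∈ D then (1 : ℝ) else 0)
                  - (μ : Measure (Fin k → ℝ)).real D : ℝ) : ℂ)‖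
              ≤ η * ((Finset.Icc 1 N).filter Nat.Prime).card) := by
  obtain ⟨t, ht0, ht⟩ := SR.exists_tr
  have ht2 : 0 < t^2/4 := by positivity
  have hP : ∀ n : ℕ, 0 < t^2/4 * (n:ℝ)^2 + (t^2/2) * n + t^2/4 := fun n => by positivity
  have hsq : √(t^2/4) = t/2 := by
    rw [show t^2/4 = (t/2)^2 by ring]; exact Real.sqrt_sq (by positivity)
  have hAp := quad_Ap vor (a := t^2/4) (b := t^2/2) (c := t^2/4) ht2 (fun n => (hP n).le)
  have e0 : t^2/2 / √(t^2/4) = t := by rw [hsq]; field_simp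
  have e00 : 2 * √(t^2/4) = t := by rw [hsq]; ring
  rw [e0, e00] at hAp
  obtain ⟨ν, G, g1, g2, g3, g4, g5, g6, -⟩ := distr3 vor (a := t^2/4) (b := t^2/2) (c := t^2/4) ht2 hP
  have hν : ∀ f : ℝ → ℝ, Continuous f → (∃ C, ∀ x, |f x| ≤ C) →
      Tendsto (fun j => fav (RS j) (fun n : ℕ => f (Ed √(t^2/4 * (n:ℝ)^2 + (t^2/2) * n + t^2/4)))) atTop (𝓝 (∫ x, f x ∂(ν : Measure ℝ))) := by
    intro f hf hC
    obtain ⟨C, hC⟩ := hC
    have h7 := g6 f hf ⟨C, fun x => by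
      have := hC x
      have h8 : 0 ≤ C := (abs_nonneg _).trans this
      nlinarith [sq_nonneg x]⟩ 1 one_pos
    rw [Metric.tendsto_atTop]
    intro η hη
    obtain ⟨N0, h8⟩ := h7 (η/2) (by positivity)
    refine ⟨N0, fun j hj => ?_⟩
    have h9 := h8 (j+1) (by omega) 0 (by
      rw [Nat.cast_zero, Real.zero_rpow (by norm_num)]; exact Nat.cast_nonneg _)
    rw [Real.dist_eq]
    refine lt_of_le_of_lt (le_of_eq ?_) (lt_of_le_of_lt h9 (by linarith))
    congr 2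
    unfold fav RS
    rw [Finset.card_range, Nat.zero_add, ← Finset.range_eq_Ico]
    congr 1
    apply Finset.sum_congr rfl
    intro n _
    beta_reduce
    rw [Ed_quad (hP n).le]
  refine ⟨ν, G, g1, g2, g3, g4, ?_⟩
  intro k a b ha
  obtain ⟨μ, m1, m2, m3, m4, m5, m6⟩ := SF.main (E := E2) ad_Bd ad_Bdw2 ad_zero wd_Wt (E2_SandW vor) two_pos ht hAp hν a b (fun i => ha i)
  have hev : ∀ n : ℕ, SU.ev E2 2 a b n = fun i => Edv ((a i : ℝ) * n + b i) := by
    intro n; funext i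
    unfold SU.ev E2
    rw [mul_div_cancel_left₀ _ (two_ne_zero), Edv_eq (Nat.cast_nonneg _)]
    congr 1; push_cast; ring
  have he : ∀ (α : ℝ) (n : ℕ), e (α * n) = Complex.exp (2 * Real.pi * Complex.I * (α * n)) := by
    intro α n
    unfold e
    congr 1; push_cast; ring
  refine ⟨μ, m1, m2, m3, ?_, ?_, ?_⟩
  · intro i j u v d hi hj huv
    obtain ⟨n1, n2⟩ := m4 i j
    have hd : 0 < d := by
      rcases Nat.eq_zero_or_pos d with h | h
      · have := ha i; rw [hi, h, zero_mul] at this; omega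
      · exact h
    have hg : Nat.gcd (a i) (a j) = d := by
      rw [hi, hj, Nat.gcd_mul_left, Nat.Coprime.symm huv, mul_one]
    have hu : a j / Nat.gcd (a i) (a j) = u := by rw [hg, hj, Nat.mul_div_cancel_left _ hd]
    have hv : a i / Nat.gcd (a i) (a j) = v := by rw [hg, hi, Nat.mul_div_cancel_left _ hd]
    rw [hu, hv] at n1 n2
    have hpi : Real.pi ≠ 0 := Real.pi_ne_zero
    have hterm : ∀ h : ℕ, ad (u * h) * ad (v * h) / 2 =
        (((u * h).divisors.card : ℝ) * (v * h).divisors.card / ((u : ℝ) * v * (h : ℝ) ^ 2) ^ (3 / 4 : ℝ)) / (4 * Real.pi ^ 2) := by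
      intro h
      rw [ad_all, ad_all]
      have e1 : (((u * h : ℕ) : ℝ)) ^ (-(3 / 4) : ℝ) * (((v * h : ℕ) : ℝ)) ^ (-(3 / 4) : ℝ) =
          1 / ((u : ℝ) * v * (h : ℝ) ^ 2) ^ (3 / 4 : ℝ) := by
        rw [← Real.mul_rpow (Nat.cast_nonneg _) (Nat.cast_nonneg _), Real.rpow_neg (by positivity), one_div]
        congr 2
        push_cast; ring
      have h2 : (√2 : ℝ) * √2 = 2 := Real.mul_self_sqrt (by norm_num)
      have e2 : ∀ x y z w : ℝ, x * y * (1 / (Real.pi * √2)) * (z * w * (1 / (Real.pi * √2))) / 2 =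
          x * z * (y * w) / (4 * Real.pi^2) := by
        intro x y z w
        have e3 : (1 / (Real.pi * √2)) * (1 / (Real.pi * √2)) = 1 / (2 * Real.pi^2) := by
          rw [div_mul_div_comm, one_mul]
          congr 1
          linear_combination (Real.pi^2) * h2
        calc _ = x * z * (y * w) * ((1 / (Real.pi * √2)) * (1 / (Real.pi * √2))) / 2 := by ring
          _ = _ := by rw [e3]; field_simp; norm_num
      rw [e2, e1]
      ring
    simp only [hterm] at n1 n2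
    constructor
    · have h3 := n1.mul_right (4 * Real.pi ^ 2)
      have h4 : (4 * Real.pi ^ 2 : ℝ) ≠ 0 := by positivity
      refine h3.congr (fun h => ?_)
      exact div_mul_cancel₀ _ h4
    · rw [n2, tsum_div_const]
  · intro f hf hC η hη
    obtain ⟨N0, h⟩ := m5 f hf hC η hη
    refine ⟨N0, fun N hN α => ?_⟩
    obtain ⟨h1, h2⟩ := h N hN α
    simp only [hev, he] at h1 h2
    exact ⟨fun g hg1 hg2 => h1 g ⟨hg1, hg2⟩, h2⟩
  · intro D hD η hη
    obtain ⟨N0, h⟩ := m6 D hD η hη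
    refine ⟨N0, fun N hN α => ?_⟩
    obtain ⟨h1, h2⟩ := h N hN α
    simp only [hev, he] at h1 h2
    exact ⟨fun g hg1 hg2 => h1 g ⟨hg1, hg2⟩, h2⟩

end Pool.Agent.W24.CP.SRD
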