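import Mathlib
import Pool.Agent.W24.Riesz3
import Pool.Agent.W24.CP.SA

/-! Riesz products at square roots of the elements of a finite set. -/

open Finset
open Pool.Agent.H383
open Pool.Agent.H383.Gen (U)
open Pool.Agent.H469R2.NK
open Pool.Agent.W24.Riesz (sg Z fr sum_norm_Z norm_Z Z_zero Z_single zero_mem_sg single_mem_sg fr_zero fr_single)

namespace Pool.Agent.W24.CP.R1

set_option linter.unusedSectionVars false

variable {J : Type*} [Fintype J] [DecidableEq J]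

/-- the Riesz product at a real argument -/
noncomputable def KR (α β : J → ℝ) (t : ℝ) : ℝ := ∏ j, (1 + Real.cos (2 * Real.pi * (t * α j) + β j))

lemma KR_nonneg (α β : J → ℝ) (t : ℝ) : 0 ≤ KR α β t :=
  Finset.prod_nonneg (fun j _ => by have := Real.neg_one_le_cos (2 * Real.pi * (t * α j) + β j); linarith)

lemma KR_le (α β : J → ℝ) (t : ℝ) : KR α β t ≤ 2 ^ (Fintype.card J) := by
  unfold KR
  calc ∏ j, (1 + Real.cos (2 * Real.pi * (t * α j) + β j)) ≤ ∏ j : J, (2:ℝ) := by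
        apply Finset.prod_le_prod
        · intro j _
          have := Real.neg_one_le_cos (2 * Real.pi * (t * α j) + β j); linarith
        · intro j _
          have := Real.cos_le_one (2 * Real.pi * (t * α j) + β j); linarith
    _ = _ := by rw [Finset.prod_const, Finset.card_univ]

lemma KR_eq (α β : J → ℝ) (t : ℝ) : ((KR α β t : ℝ) : ℂ) =
    ∑ ε ∈ Fintype.piFinset (fun _ : J => sg), Z β ε * e (fr α ε * t) := by
  have h1 : ∀ j, ((1 + Real.cos (2 * Real.pi * (t * α j) + β j) : ℝ) : ℂ) =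
      ∑ k ∈ sg, ((Pool.Agent.W24.Riesz.cc k : ℂ) * Complex.exp (((k * β j : ℝ) : ℂ) * Complex.I) * e (k * α j * t)) := by
    intro j
    unfold sg Pool.Agent.W24.Riesz.cc
    rw [Finset.sum_insert (by norm_num), Finset.sum_insert (by norm_num), Finset.sum_singleton]
    rw [if_neg (by norm_num), if_pos rfl, if_neg (by norm_num)]
    push_cast
    rw [Complex.cos]
    unfold e
    have e1 : Complex.exp (-1 * (β j : ℂ) * Complex.I) * Complex.exp (((2 * Real.pi * (-1 * α j * t) : ℝ) : ℂ) * Complex.I) =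
        Complex.exp (-(2 * Real.pi * (t * α j) + β j) * Complex.I) := by
      rw [← Complex.exp_add]
      congr 1
      push_cast; ring
    have e2 : Complex.exp (1 * (β j : ℂ) * Complex.I) * Complex.exp (((2 * Real.pi * (1 * α j * t) : ℝ) : ℂ) * Complex.I) =
        Complex.exp ((2 * Real.pi * (t * α j) + β j) * Complex.I) := by
      rw [← Complex.exp_add]
      congr 1
      push_cast; ring
    have e3 : Complex.exp (0 * (β j : ℂ) * Complex.I) = 1 := by rw [zero_mul, zero_mul, Complex.exp_zero]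
    have e4 : Complex.exp (((2 * Real.pi * (0 * α j * t) : ℝ) : ℂ) * Complex.I) = 1 := by
      rw [zero_mul, zero_mul, mul_zero, Complex.ofReal_zero, zero_mul, Complex.exp_zero]
    rw [e3, e4]
    linear_combination (-1/2 : ℂ) * e1 + (-1/2 : ℂ) * e2
  unfold KR
  rw [Complex.ofReal_prod, Finset.prod_congr rfl (fun j _ => h1 j), Finset.prod_univ_sum]
  apply Finset.sum_congr rfl
  intro ε _
  unfold Z fr
  rw [Finset.prod_mul_distrib]
  congr 1
  unfold e
  rw [← Complex.exp_sum]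
  congr 1
  push_cast
  rw [← Finset.sum_mul]
  congr 1
  rw [Finset.sum_mul, Finset.mul_sum]

variable {P : Finset ℕ}

lemma sum_KR_e (α β : J → ℝ) (θ : ℝ) : ∑ p ∈ P, ((KR α β √(p:ℝ) : ℝ) : ℂ) * e (θ * √(p:ℝ)) =
    ∑ ε ∈ Fintype.piFinset (fun _ : J => sg), Z β ε * ∑ p ∈ P, e ((fr α ε + θ) * √(p:ℝ)) := by
  simp only [KR_eq, Finset.sum_mul, Finset.mul_sum]
  rw [Finset.sum_comm]
  apply Finset.sum_congr rfl
  intro ε _
  apply Finset.sum_congr rfl
  intro p _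
  rw [add_mul, e_add]; ring

open Classical in
lemma sum_KR_main (α β : J → ℝ) {θ W : ℝ} (hW : 0 ≤ W)
    (hgap : ∀ ε ∈ Fintype.piFinset (fun _ : J => sg), fr α ε + θ = 0 ∨ ‖∑ p ∈ P, e ((fr α ε + θ) * √(p:ℝ))‖ ≤ W) :
    ‖∑ p ∈ P, ((KR α β √(p:ℝ) : ℝ) : ℂ) * e (θ * √(p:ℝ)) -
      P.card * ∑ ε ∈ (Fintype.piFinset (fun _ : J => sg)).filter (fun ε => fr α ε + θ = 0), Z β ε‖ ≤
      2 ^ (Fintype.card J) * W := by
  rw [sum_KR_e, Finset.sum_filter, Finset.mul_sum, ← Finset.sum_sub_distrib]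
  calc ‖∑ ε ∈ Fintype.piFinset (fun _ : J => sg), (Z β ε * ∑ p ∈ P, e ((fr α ε + θ) * √(p:ℝ)) -
          P.card * (if fr α ε + θ = 0 then Z β ε else 0))‖
      ≤ ∑ ε ∈ Fintype.piFinset (fun _ : J => sg), ‖Z β ε‖ * W := by
        refine (norm_sum_le _ _).trans (Finset.sum_le_sum (fun ε hε => ?_))
        by_cases hk : fr α ε + θ = 0
        · rw [if_pos hk, hk]
          have : ∑ p ∈ P, e (0 * √(p:ℝ)) = P.card := by
            have h0 : ∀ p : ℕ, e (0 * √(p:ℝ)) = 1 := fun p => by unfold e; simp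
            rw [Finset.sum_congr rfl (fun p _ => h0 p)]
            simp
          rw [this, mul_comm, sub_self, norm_zero]
          positivity
        · rw [if_neg hk, mul_zero, sub_zero, norm_mul]
          exact mul_le_mul_of_nonneg_left ((hgap ε hε).resolve_left hk) (norm_nonneg _)
    _ = _ := by rw [← Finset.sum_mul, sum_norm_Z]

/-- the arithmetic input -/
structure PA (P : Finset ℕ) (α0 : ℝ) (d : J → ℕ) (M : ℕ) (W : ℝ) : Prop where
  d_pos : ∀ j, 1 ≤ d j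
  d_le : ∀ j, d j ≤ M^2
  d_inj : Function.Injective d
  W0 : 0 ≤ W
  ind0 : ∀ ε ∈ Fintype.piFinset (fun _ : J => sg), fr (fun j => α0 * √(d j : ℝ)) ε = 0 → ε = 0
  ind : ∀ ε ∈ Fintype.piFinset (fun _ : J => sg), ∀ m : ℕ, 1 ≤ m → m ≤ M^2 →
    fr (fun j => α0 * √(d j : ℝ)) ε + α0 * √(m:ℝ) = 0 → ∃ j, m = d j ∧ ε = -Pi.single j 1
  gap : ∀ ε ∈ Fintype.piFinset (fun _ : J => sg), ∀ m : ℕ, m ≤ M^2 →
    fr (fun j => α0 * √(d j : ℝ)) ε + α0 * √(m:ℝ) = 0 ∨
      ‖∑ p ∈ P, e ((fr (fun j => α0 * √(d j : ℝ)) ε + α0 * √(m:ℝ)) * √(p:ℝ))‖ ≤ W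

lemma sum_KR {α0 W : ℝ} {d : J → ℕ} {M : ℕ} (hA : PA P α0 d M W) (β : J → ℝ) :
    |∑ p ∈ P, KR (fun j => α0 * √(d j : ℝ)) β √(p:ℝ) - P.card| ≤ 2 ^ (Fintype.card J) * W := by
  classical
  have h := sum_KR_main (P := P) (fun j => α0 * √(d j : ℝ)) β (θ := 0) hA.W0 (by
    intro ε hε
    have := hA.gap ε hε 0 (Nat.zero_le _)
    simpa using this)
  have h1 : (Fintype.piFinset (fun _ : J => sg)).filter (fun ε => fr (fun j => α0 * √(d j : ℝ)) ε + 0 = 0) = {0} := by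
    ext ε
    rw [Finset.mem_filter, Finset.mem_singleton]
    constructor
    · rintro ⟨h1, h2⟩
      rw [add_zero] at h2
      exact hA.ind0 ε h1 h2
    · rintro rfl
      exact ⟨zero_mem_sg, by rw [fr_zero, add_zero]⟩
  rw [h1, Finset.sum_singleton, Z_zero, mul_one] at h
  have h2 : ∑ p ∈ P, ((KR (fun j => α0 * √(d j : ℝ)) β √(p:ℝ) : ℝ) : ℂ) * e (0 * √(p:ℝ)) =
      ((∑ p ∈ P, KR (fun j => α0 * √(d j : ℝ)) β √(p:ℝ) : ℝ) : ℂ) := by
    push_cast
    apply Finset.sum_congr rfl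
    intro n _
    have : e (0 * √(n:ℝ)) = 1 := by unfold e; simp
    rw [this, mul_one]
  rw [h2] at h
  rw [← Real.norm_eq_abs, ← Complex.norm_real]
  push_cast at h ⊢
  exact h

open Classical in
lemma sum_KR_m {α0 W : ℝ} {d : J → ℕ} {M : ℕ} (hA : PA P α0 d M W) (β : J → ℝ)
    {m : ℕ} (hm1 : 1 ≤ m) (hm : m ≤ M^2) :
    ‖∑ p ∈ P, ((KR (fun j => α0 * √(d j : ℝ)) β √(p:ℝ) : ℝ) : ℂ) * e ((α0 * √(m:ℝ)) * √(p:ℝ)) -
      P.card * ∑ j, (if m = d j then 1/2 * Complex.exp (((-β j : ℝ) : ℂ) * Complex.I) else 0)‖ ≤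
      2 ^ (Fintype.card J) * W := by
  have h := sum_KR_main (P := P) (fun j => α0 * √(d j : ℝ)) β (θ := α0 * √(m:ℝ)) hA.W0 (fun ε hε => hA.gap ε hε m hm)
  have h1 : ∑ ε ∈ (Fintype.piFinset (fun _ : J => sg)).filter
        (fun ε => fr (fun j => α0 * √(d j : ℝ)) ε + α0 * √(m:ℝ) = 0), Z β ε =
      ∑ j, (if m = d j then 1/2 * Complex.exp (((-β j : ℝ) : ℂ) * Complex.I) else 0) := by
    by_cases hj : ∃ j, m = d j
    · obtain ⟨j, hj⟩ := hj
      have h2 : (Fintype.piFinset (fun _ : J => sg)).filter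
          (fun ε => fr (fun j => α0 * √(d j : ℝ)) ε + α0 * √(m:ℝ) = 0) = {-Pi.single j 1} := by
        ext ε
        rw [Finset.mem_filter, Finset.mem_singleton]
        constructor
        · rintro ⟨h1, h2⟩
          obtain ⟨j', hj', h3⟩ := hA.ind ε h1 m hm1 hm h2
          have : j' = j := hA.d_inj (by rw [← hj', hj])
          rw [h3, this]
        · rintro rfl
          refine ⟨single_mem_sg j, ?_⟩
          rw [fr_single, hj]; simp
      rw [h2, Finset.sum_singleton, Z_single, Finset.sum_eq_single j, if_pos hj]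
      · intro i _ hi
        rw [if_neg]
        intro h3
        exact hi (hA.d_inj (by rw [← h3, hj]))
      · intro h; exact absurd (Finset.mem_univ j) h
    · push Not at hj
      have h2 : (Fintype.piFinset (fun _ : J => sg)).filter
          (fun ε => fr (fun j => α0 * √(d j : ℝ)) ε + α0 * √(m:ℝ) = 0) = ∅ := by
        apply Finset.filter_eq_empty_iff.mpr
        intro ε h1 h2
        obtain ⟨j', hj', -⟩ := hA.ind ε h1 m hm1 hm h2
        exact hj j' hj'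
      rw [h2, Finset.sum_empty, Finset.sum_eq_zero]
      intro j _
      rw [if_neg (hj j)]
  rw [h1] at h
  exact h

lemma U_re (a : ℕ → ℝ) (φ α0 t : ℝ) (M : ℕ) : U a φ (α0 * t) M =
    (∑ m ∈ Finset.Icc 1 (M^2), (((a m : ℝ) : ℂ) * Complex.exp (((-φ : ℝ) : ℂ) * Complex.I)) * e ((α0 * √(m:ℝ)) * t)).re := by
  unfold U
  rw [Complex.re_sum]
  apply Finset.sum_congr rfl
  intro m _
  unfold e
  rw [mul_assoc ((a m : ℝ) : ℂ), ← Complex.exp_add]
  have h1 : ((-φ : ℝ) : ℂ) * Complex.I + ((2 * Real.pi * (α0 * √(m:ℝ) * t) : ℝ) : ℂ) * Complex.I =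
      ((2 * Real.pi * (α0 * t * √(m:ℝ)) - φ : ℝ) : ℂ) * Complex.I := by push_cast; ring
  rw [h1, Complex.re_ofReal_mul, Complex.exp_ofReal_mul_I_re]

/-- the main term -/
lemma sum_KU {α0 W : ℝ} {d : J → ℕ} {M : ℕ} (hA : PA P α0 d M W) (a : ℕ → ℝ) (φ : ℝ) {s ψ : ℝ}
    (hψ : Complex.exp (((-ψ : ℝ) : ℂ) * Complex.I) = s) :
    |∑ p ∈ P, KR (fun j => α0 * √(d j : ℝ)) (fun _ => - φ + ψ) √(p:ℝ) * U a φ (α0 * √(p:ℝ)) M -
      P.card * (s / 2 * ∑ j, a (d j))| ≤ (∑ m ∈ Finset.Icc 1 (M^2), |a m|) * (2 ^ (Fintype.card J) * W) := by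
  classical
  set β : J → ℝ := fun _ => - φ + ψ with hβ
  set K : ℕ → ℝ := fun p => KR (fun j => α0 * √(d j : ℝ)) β √(p:ℝ) with hK
  set co : ℕ → ℂ := fun m => ((a m : ℝ) : ℂ) * Complex.exp (((-φ : ℝ) : ℂ) * Complex.I) with hco
  have e1 : ∑ p ∈ P, K p * U a φ (α0 * √(p:ℝ)) M =
      (∑ m ∈ Finset.Icc 1 (M^2), co m * ∑ p ∈ P, ((K p : ℝ) : ℂ) * e ((α0 * √(m:ℝ)) * √(p:ℝ))).re := by
    have e2 : ∑ m ∈ Finset.Icc 1 (M^2), co m * ∑ p ∈ P, ((K p : ℝ) : ℂ) * e ((α0 * √(m:ℝ)) * √(p:ℝ)) =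
        ∑ p ∈ P, ((K p : ℝ) : ℂ) * ∑ m ∈ Finset.Icc 1 (M^2), co m * e ((α0 * √(m:ℝ)) * √(p:ℝ)) := by
      simp only [Finset.mul_sum]
      rw [Finset.sum_comm]
      apply Finset.sum_congr rfl; intro p _
      apply Finset.sum_congr rfl; intro m _
      ring
    rw [e2, Complex.re_sum]
    apply Finset.sum_congr rfl; intro p _
    rw [Complex.re_ofReal_mul, U_re]
  have e5 : P.card * (s / 2 * ∑ j, a (d j)) =
      (∑ m ∈ Finset.Icc 1 (M^2), co m * (P.card *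
        ∑ j, (if m = d j then 1/2 * Complex.exp (((-β j : ℝ) : ℂ) * Complex.I) else 0))).re := by
    have e6 : ∑ m ∈ Finset.Icc 1 (M^2), co m * (P.card *
        ∑ j, (if m = d j then 1/2 * Complex.exp (((-β j : ℝ) : ℂ) * Complex.I) else 0)) =
        P.card * ∑ j, co (d j) * (1/2 * Complex.exp (((-β j : ℝ) : ℂ) * Complex.I)) := by
      simp only [Finset.mul_sum]
      rw [Finset.sum_comm]
      apply Finset.sum_congr rfl
      intro j _
      rw [Finset.sum_eq_single (d j)]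
      · rw [if_pos rfl]; ring
      · intro m _ hm
        rw [if_neg hm, mul_zero, mul_zero]
      · intro h
        exfalso
        apply h
        rw [Finset.mem_Icc]
        exact ⟨hA.d_pos j, hA.d_le j⟩
    have e7 : ∀ j, co (d j) * (1/2 * Complex.exp (((-β j : ℝ) : ℂ) * Complex.I)) = (((s / 2 * a (d j) : ℝ)) : ℂ) := by
      intro j
      have e8 : Complex.exp (((-φ : ℝ) : ℂ) * Complex.I) *
          Complex.exp (((-β j : ℝ) : ℂ) * Complex.I) = s := by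
        rw [← hψ, ← Complex.exp_add]
        congr 1
        simp only [hβ]
        push_cast; ring
      simp only [hco]
      push_cast
      push_cast at e8
      linear_combination ((a (d j) : ℂ) / 2) * e8
    rw [e6, Finset.sum_congr rfl (fun j _ => e7 j), ← Complex.ofReal_sum, ← Finset.mul_sum]
    have : ((P.card : ℂ)) = (((P.card : ℝ)) : ℂ) := by push_cast; rfl
    rw [this, ← Complex.ofReal_mul, Complex.ofReal_re]
  change |∑ p ∈ P, K p * U a φ (α0 * √(p:ℝ)) M - P.card * (s / 2 * ∑ j, a (d j))| ≤ _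
  rw [e1, e5, ← Complex.sub_re, ← Finset.sum_sub_distrib]
  refine (Complex.abs_re_le_norm _).trans ?_
  refine (norm_sum_le _ _).trans ?_
  rw [Finset.sum_mul]
  apply Finset.sum_le_sum
  intro m hm
  rw [Finset.mem_Icc] at hm
  have hn : ‖co m‖ = |a m| := by
    simp only [hco]
    rw [norm_mul, Complex.norm_exp_ofReal_mul_I, mul_one, Complex.norm_real, Real.norm_eq_abs]
  rw [← mul_sub, norm_mul, hn]
  exact mul_le_mul_of_nonneg_left (sum_KR_m hA β hm.1 hm.2) (abs_nonneg _)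

open Classical in
/-- number of values of prescribed sign of the sequence `e` -/
theorem count {α0 W : ℝ} {d : J → ℕ} {M : ℕ} (hA : PA P α0 d M W) (a : ℕ → ℝ) (φ : ℝ) {s ψ : ℝ}
    (hψ : Complex.exp (((-ψ : ℝ) : ℂ) * Complex.I) = s) (hs : s = 1 ∨ s = -1) (hP : 0 < P.card)
    {ev : ℕ → ℝ}
    (hc1 : 2 ^ (Fintype.card J) * W ≤ P.card / 2)
    (hc2 : (∑ m ∈ Finset.Icc 1 (M^2), |a m|) * (2 ^ (Fintype.card J) * W) ≤ P.card)
    (hc3 : 4 ^ (Fintype.card J) * ∑ p ∈ P, (ev p - U a φ (α0 * √(p:ℝ)) M)^2 ≤ P.card)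
    (hpos : 0 ≤ 1/3 * ∑ j, a (d j) - 4) {A2 : ℝ} (hA2 : ∑ p ∈ P, (ev p)^2 ≤ A2 * P.card) :
    (P.card:ℝ) ≤ 4 ^ (Fintype.card J) * A2 *
      ((P.filter (fun n => 1/3 * ∑ j, a (d j) - 4 ≤ s * ev n)).card : ℝ) := by
  set A : ℝ := ∑ j, a (d j) with hAdef
  set V : ℝ := 1/3 * A - 4 with hV
  set K : ℕ → ℝ := fun p => KR (fun j => α0 * √(d j : ℝ)) (fun _ => - φ + ψ) √(p:ℝ) with hK
  set G : Finset ℕ := P.filter (fun n => V ≤ s * ev n) with hG
  set X : ℝ := (P.card : ℝ) with hX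
  have hN' : (0:ℝ) < X := by rw [hX]; exact_mod_cast hP
  have hK0 : ∀ n, 0 ≤ K n := fun n => KR_nonneg _ _ _
  have hK1 : ∀ n, K n ≤ 2 ^ (Fintype.card J) := fun n => KR_le _ _ _
  have m1 : |∑ p ∈ P, K p - X| ≤ 2 ^ (Fintype.card J) * W := sum_KR hA (fun _ => - φ + ψ)
  have m2 : |∑ p ∈ P, K p * U a φ (α0 * √(p:ℝ)) M - X * (s / 2 * A)| ≤ _ := sum_KU hA a φ hψ
  have m3 := m1.trans hc1
  have m4 := m2.trans hc2
  -- the error of the model
  have m5 : |∑ p ∈ P, K p * (ev p - U a φ (α0 * √(p:ℝ)) M)| ≤ X := by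
    have h1 : |∑ n ∈ P, K n * (ev n - U a φ (α0 * √(n:ℝ)) M)| ≤
        2 ^ (Fintype.card J) * ∑ n ∈ P, |ev n - U a φ (α0 * √(n:ℝ)) M| := by
      rw [Finset.mul_sum]
      refine (Finset.abs_sum_le_sum_abs _ _).trans (Finset.sum_le_sum (fun n _ => ?_))
      rw [abs_mul, abs_of_nonneg (hK0 n)]
      exact mul_le_mul_of_nonneg_right (hK1 n) (abs_nonneg _)
    refine h1.trans ?_
    have h2 : (∑ n ∈ P, |ev n - U a φ (α0 * √(n:ℝ)) M|)^2 ≤
        X * ∑ n ∈ P, (ev n - U a φ (α0 * √(n:ℝ)) M)^2 := by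
      refine sq_sum_le_card_mul_sum_sq.trans ?_
      simp only [sq_abs]
      exact le_refl _
    have h3 : (2 ^ (Fintype.card J) * ∑ n ∈ P, |ev n - U a φ (α0 * √(n:ℝ)) M|)^2 ≤ X^2 := by
      rw [mul_pow, ← pow_mul, mul_comm (Fintype.card J) 2, pow_mul]
      norm_num
      calc (4:ℝ) ^ (Fintype.card J) * (∑ n ∈ P, |ev n - U a φ (α0 * √(n:ℝ)) M|)^2
          ≤ 4 ^ (Fintype.card J) * (X * ∑ n ∈ P, (ev n - U a φ (α0 * √(n:ℝ)) M)^2) := by gcongr
        _ = X * (4 ^ (Fintype.card J) * ∑ n ∈ P, (ev n - U a φ (α0 * √(n:ℝ)) M)^2) := by ring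
        _ ≤ X * X := by gcongr
        _ = X^2 := by ring
    exact (abs_le_of_sq_le_sq' h3 hN'.le).2
  have m6 : ∑ n ∈ P, K n * (ev n - U a φ (α0 * √(n:ℝ)) M) =
      ∑ n ∈ P, K n * ev n - ∑ n ∈ P, K n * U a φ (α0 * √(n:ℝ)) M := by
    rw [← Finset.sum_sub_distrib]
    apply Finset.sum_congr rfl
    intro n _
    ring
  -- upper bound
  have hs1 : |s| = 1 := by rcases hs with rfl | rfl <;> norm_num
  have m7 : s * ∑ n ∈ P, K n * ev n ≤ V * ∑ n ∈ P, K n + ∑ n ∈ G, K n * |ev n| := by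
    rw [Finset.mul_sum, Finset.mul_sum]
    have h1 : ∑ n ∈ G, K n * |ev n| =
        ∑ n ∈ P, if V ≤ s * ev n then K n * |ev n| else 0 := by
      rw [hG, Finset.sum_filter]
    rw [h1, ← Finset.sum_add_distrib]
    apply Finset.sum_le_sum
    intro n hn
    split_ifs with hc
    · have h2 : s * ev n ≤ |ev n| := by
        calc s * ev n ≤ |s * ev n| := le_abs_self _
          _ = |ev n| := by rw [abs_mul, hs1, one_mul]
      have h4 := mul_le_mul_of_nonneg_right h2 (hK0 n)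
      have h5 := mul_nonneg hpos (hK0 n)
      linarith
    · push Not at hc
      have h2 := mul_le_mul_of_nonneg_right hc.le (hK0 n)
      linarith
  rw [m6] at m5
  rw [abs_le] at m3 m4 m5
  have m8 : V * ∑ n ∈ P, K n ≤ (1/2 * A - 6) * X := by
    have h1 : V * ∑ n ∈ P, K n ≤ V * (3/2 * X) := by
      apply mul_le_mul_of_nonneg_left _ hpos
      linarith
    have e1 : V * (3/2 * X) = (1/2 * A - 6) * X := by rw [hV]; ring
    linarith
  have m9 : 1/2 * A * X - 2 * X ≤ s * ∑ n ∈ P, K n * ev n := by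
    rcases hs with rfl | rfl
    · linarith
    · linarith
  have m10 : X ≤ ∑ n ∈ G, K n * |ev n| := by linarith
  have m11 : ∑ n ∈ G, K n * |ev n| ≤ 2 ^ (Fintype.card J) * ∑ n ∈ G, |ev n| := by
    rw [Finset.mul_sum]
    apply Finset.sum_le_sum
    intro n _
    exact mul_le_mul_of_nonneg_right (hK1 n) (abs_nonneg _)
  have m12 : (∑ n ∈ G, |ev n|)^2 ≤ (G.card : ℝ) * (A2 * X) := by
    refine sq_sum_le_card_mul_sum_sq.trans ?_
    apply mul_le_mul_of_nonneg_left _ (Nat.cast_nonneg _)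
    simp only [sq_abs]
    refine le_trans ?_ hA2
    apply Finset.sum_le_sum_of_subset_of_nonneg
    · exact Finset.filter_subset _ _
    · intro n _ _; exact sq_nonneg _
  have m13 : X^2 ≤ (4 ^ (Fintype.card J) * A2 * G.card) * X := by
    calc X^2 ≤ (2 ^ (Fintype.card J) * ∑ n ∈ G, |ev n|)^2 := by
          apply pow_le_pow_left₀ hN'.le (m10.trans m11)
      _ = 4 ^ (Fintype.card J) * (∑ n ∈ G, |ev n|)^2 := by
          rw [mul_pow, ← pow_mul, mul_comm (Fintype.card J) 2, pow_mul]; norm_num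
      _ ≤ 4 ^ (Fintype.card J) * ((G.card : ℝ) * (A2 * X)) := by gcongr
      _ = _ := by ring
  rw [sq] at m13
  exact le_of_mul_le_mul_right m13 hN'

end Pool.Agent.W24.CP.R1
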