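import Mathlib
import Pool.Agent.W24.CP.SA

/-! The mean square over the primes, with explicit rates. -/

open Finset Filter Topology
open Pool.Agent.H383
open Pool.Agent.H383.Gen (Bd U)
open Pool.Agent.H452R2.Win Pool.Agent.H452R2.Om
open Pool.Agent.H469R2.NK
open Pool.Agent.H425R3.JL (PR pi_low)

namespace Pool.Agent.W24.CP.R2

variable {E : ℝ → ℝ} {af : ℕ → ℝ} {φ : ℝ} {w : ℝ → ℂ}

/-- the tail of the coefficients -/
lemma tail_sq (ha : Bd af) : ∃ S : ℝ, 0 < S ∧ ∀ M M' : ℕ, 1 ≤ M →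
    ∑ m ∈ Ioc (M^2) (M'^2), (af m)^2 ≤ S * (M:ℝ) ^ (-(12/25):ℝ) := by
  obtain ⟨Cb, hCb, hb⟩ := ha
  have h1 : Summable (fun m : ℕ => (m:ℝ) ^ (-(31/25):ℝ)) := by
    rw [Real.summable_nat_rpow]; norm_num
  have hT : 0 ≤ ∑' m : ℕ, (m:ℝ) ^ (-(31/25):ℝ) := tsum_nonneg fun m => by positivity
  refine ⟨Cb^2 * (∑' m : ℕ, (m:ℝ) ^ (-(31/25):ℝ)) + 1, by positivity, fun M M' hM => ?_⟩
  have hM1 : (1:ℝ) ≤ M := by exact_mod_cast hM
  have hM0 : (0:ℝ) < M := by linarith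
  have hterm : ∀ m ∈ Ioc (M^2) (M'^2), (af m)^2 ≤ (Cb^2 * (M:ℝ) ^ (-(12/25):ℝ)) * (m:ℝ) ^ (-(31/25):ℝ) := by
    intro m hm
    rw [mem_Ioc] at hm
    have hm1 : 1 ≤ m := by omega
    have hm0 : (0:ℝ) < m := by exact_mod_cast hm1
    have h2 := hb m hm1
    rw [← sq_abs]
    calc |af m|^2 ≤ (Cb * (√(m:ℝ)) ^ (-(37/25):ℝ))^2 := pow_le_pow_left₀ (abs_nonneg _) h2 2
      _ = Cb^2 * ((√(m:ℝ)) ^ (-(37/25):ℝ))^2 := by ring
      _ = Cb^2 * (m:ℝ) ^ (-(37/25):ℝ) := by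
          congr 1
          rw [Real.sqrt_eq_rpow, ← Real.rpow_mul hm0.le, ← Real.rpow_natCast, ← Real.rpow_mul hm0.le]
          norm_num
      _ = Cb^2 * ((m:ℝ) ^ (-(6/25):ℝ) * (m:ℝ) ^ (-(31/25):ℝ)) := by
          rw [← Real.rpow_add hm0]; norm_num
      _ ≤ Cb^2 * ((M:ℝ) ^ (-(12/25):ℝ) * (m:ℝ) ^ (-(31/25):ℝ)) := by
          have h3 : (m:ℝ) ^ (-(6/25):ℝ) ≤ (M:ℝ) ^ (-(12/25):ℝ) := by
            calc (m:ℝ) ^ (-(6/25):ℝ) ≤ ((M:ℝ)^2) ^ (-(6/25):ℝ) := by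
                  apply Real.rpow_le_rpow_of_nonpos (by positivity) _ (by norm_num)
                  exact_mod_cast hm.1.le
              _ = (M:ℝ) ^ (-(12/25):ℝ) := by
                  rw [← Real.rpow_natCast, ← Real.rpow_mul hM0.le]; norm_num
          gcongr
      _ = _ := by ring
  calc ∑ m ∈ Ioc (M^2) (M'^2), (af m)^2 ≤ ∑ m ∈ Ioc (M^2) (M'^2), (Cb^2 * (M:ℝ) ^ (-(12/25):ℝ)) * (m:ℝ) ^ (-(31/25):ℝ) :=
        sum_le_sum hterm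
    _ = (Cb^2 * (M:ℝ) ^ (-(12/25):ℝ)) * ∑ m ∈ Ioc (M^2) (M'^2), (m:ℝ) ^ (-(31/25):ℝ) := by rw [mul_sum]
    _ ≤ (Cb^2 * (M:ℝ) ^ (-(12/25):ℝ)) * ∑' m : ℕ, (m:ℝ) ^ (-(31/25):ℝ) := by
        apply mul_le_mul_of_nonneg_left _ (by positivity)
        exact h1.sum_le_tsum _ (fun m _ => by positivity)
    _ = (Cb^2 * ∑' m : ℕ, (m:ℝ) ^ (-(31/25):ℝ)) * (M:ℝ) ^ (-(12/25):ℝ) := by ring
    _ ≤ _ := by
        apply mul_le_mul_of_nonneg_right _ (by positivity)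
        linarith

/-- the mean square over the primes -/
theorem prime_msq (ha : Bdw af) (ha0 : af 0 = 0) (hw : GW.Wt w) {κ₁ κ₂ : ℝ} (hS : SandW E af φ w κ₁ κ₂) {c : ℝ} (hc : 0 < c)
    (A B : ℕ) (hA : 1 ≤ A) : ∃ δ : ℝ, 0 < δ ∧ δ ≤ 1/204800 ∧ ∃ D : ℝ, 0 < D ∧ ∃ N1 : ℕ, ∀ M N : ℕ, 1 ≤ M → M^1024 ≤ N → N1 ≤ N →
      ∑ p ∈ PR N, (E (c * √((A * p + B : ℕ):ℝ)) - U af φ ((c * √(A:ℝ)) * √(p:ℝ)) M)^2 ≤
        D * (N:ℝ) ^ (1 - δ) + D * (M:ℝ) ^ (-(12/25):ℝ) * (PR N).card := by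
  obtain ⟨ω, hω, hω2, hlin⟩ := SA.lin_ms ha ha0 hw hS hc
  obtain ⟨C, hC, hlin⟩ := hlin A B hA
  obtain ⟨Ca, hCa0, hCa⟩ := a_sqrt ha.Bd
  obtain ⟨Ces, hCes, hes⟩ := SP.prime_es
  obtain ⟨S, hS0, htl⟩ := tail_sq ha.Bd
  have hA1 : (1:ℝ) ≤ A := by exact_mod_cast hA
  set c' : ℝ := c * √(A:ℝ) with hc'
  have hsA : 0 < √(A:ℝ) := Real.sqrt_pos.mpr (by linarith)
  have hc'0 : 0 < c' := by positivity
  set δ : ℝ := ω / 1024 with hδ
  have hδ0 : 0 < δ := by positivity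
  have hδ1 : δ ≤ 1/204800 := by rw [hδ]; linarith
  set D : ℝ := 4 * C + 2 * Ca^2 * Ces + 2 * S with hD
  have hD0 : 0 < D := by positivity
  have ev2 : ∀ᶠ N : ℕ in Filter.atTop, c' + 2/c' ≤ (N:ℝ) ^ (1/64:ℝ) :=
    (((tendsto_rpow_atTop (by norm_num : (0:ℝ) < 1/64)).comp tendsto_natCast_atTop_atTop).eventually_ge_atTop _)
  obtain ⟨N1, hN1⟩ := Filter.eventually_atTop.mp ev2
  refine ⟨δ, hδ0, hδ1, D, hD0, max N1 9, fun M N hM1 hNM hN => ?_⟩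
  have hNN1 : N1 ≤ N := le_trans (le_max_left _ _) hN
  have hN9 : 9 ≤ N := le_trans (le_max_right _ _) hN
  have g2 := hN1 N hNN1
  have htail : ∀ M' : ℕ, ∑ m ∈ Ioc (M^2) (M'^2), (af m)^2 ≤ S * (M:ℝ) ^ (-(12/25):ℝ) := fun M' => htl M M' hM1
  have hNr : (9:ℝ) ≤ N := by exact_mod_cast hN9
  have hNone : (1:ℝ) ≤ N := by linarith
  have hNpos : (0:ℝ) < N := by linarith
  set u : ℝ := (N:ℝ) ^ (1/1024:ℝ) with hu
  have hu1 : 1 ≤ u := Real.one_le_rpow hNone (by norm_num)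
  set M' : ℕ := ⌊u⌋₊ with hM'
  have hMr : (1:ℝ) ≤ M := by exact_mod_cast hM1
  have hMM : M ≤ M' := by
    rw [hM', Nat.le_floor_iff (by linarith), hu]
    calc (M:ℝ) = ((M:ℝ)^1024) ^ (1/1024:ℝ) := by
          rw [← Real.rpow_natCast, ← Real.rpow_mul (by linarith)]; norm_num
      _ ≤ _ := Real.rpow_le_rpow (by positivity) (by exact_mod_cast hNM) (by norm_num)
  have hM'1 : 1 ≤ M' := by omega
  have hM'u : (M':ℝ) ≤ u := Nat.floor_le (by linarith)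
  have hM'r : (1:ℝ) ≤ M' := by exact_mod_cast hM'1
  have huM' : u / 2 ≤ M' := by
    have h1 := Nat.lt_floor_add_one u
    rw [← hM'] at h1
    linarith
  have hM'40 : M'^40 ≤ N := by
    have : (M':ℝ)^40 ≤ N := by
      calc (M':ℝ)^40 ≤ u^40 := pow_le_pow_left₀ (by linarith) hM'u 40
        _ = (N:ℝ) ^ (40/1024:ℝ) := by rw [hu, ← Real.rpow_natCast, ← Real.rpow_mul hNpos.le]; norm_num
        _ ≤ (N:ℝ) ^ (1:ℝ) := Real.rpow_le_rpow_of_exponent_le hNone (by norm_num)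
        _ = N := Real.rpow_one _
    exact_mod_cast this
  -- first part
  have h1 : ∑ p ∈ PR N, (E (c * √((A * p + B : ℕ):ℝ)) - U af φ (c' * √(p:ℝ)) M')^2 ≤ 2 * C * (N:ℝ) ^ (1 - δ) := by
    calc _ ≤ ∑ n ∈ Icc 1 N, (E (c * √((A * n + B : ℕ):ℝ)) - U af φ (c' * √(n:ℝ)) M')^2 := by
          apply sum_le_sum_of_subset_of_nonneg
          · unfold PR; exact filter_subset _ _
          · intro _ _ _; exact sq_nonneg _
      _ ≤ C * (M':ℝ) ^ (-ω) * N := hlin M' N hM'1 hM'40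
      _ ≤ C * (2 * (N:ℝ) ^ (-δ)) * N := by
          have h2ω : (2:ℝ) ^ ω ≤ 2 := by
            calc (2:ℝ) ^ ω ≤ (2:ℝ) ^ (1:ℝ) := Real.rpow_le_rpow_of_exponent_le (by norm_num) (by linarith)
              _ = 2 := by norm_num
          have w1 : (M':ℝ) ^ (-ω) ≤ 2 * (N:ℝ) ^ (-δ) := by
            calc (M':ℝ) ^ (-ω) ≤ (u/2) ^ (-ω) := Real.rpow_le_rpow_of_nonpos (by linarith) huM' (by linarith)
              _ = u ^ (-ω) * 2 ^ ω := by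
                  rw [Real.div_rpow (by linarith) (by norm_num), Real.rpow_neg (by norm_num : (0:ℝ) ≤ 2)]
                  field_simp
              _ ≤ u ^ (-ω) * 2 := by gcongr
              _ = 2 * (N:ℝ) ^ (-δ) := by
                  rw [hu, ← Real.rpow_mul hNpos.le, mul_comm]
                  congr 2
                  rw [hδ]; ring
          gcongr
      _ = 2 * C * ((N:ℝ) ^ (-δ) * N) := by ring
      _ = 2 * C * (N:ℝ) ^ (1 - δ) := by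
          congr 1
          nth_rewrite 2 [← Real.rpow_one (N:ℝ)]
          rw [← Real.rpow_add hNpos]; congr 1; ring
  -- second part
  have hoff : ∀ m ∈ Ioc (M^2) (M'^2), ∀ m' ∈ Ioc (M^2) (M'^2), m ≠ m' →
      ‖∑ p ∈ PR N, e ((c' * √(m:ℝ) - c' * √(m':ℝ)) * √(p:ℝ))‖ ≤ Ces * (N:ℝ) ^ (127/128:ℝ) := by
    intro m hm m' hm' hne
    rw [mem_Ioc] at hm hm'
    have hm0 : (0:ℝ) < m := by exact_mod_cast (by omega : 0 < m)
    have hm'0 : (0:ℝ) < m' := by exact_mod_cast (by omega : 0 < m')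
    have q1 : √(m:ℝ) * √(m:ℝ) = m := Real.mul_self_sqrt hm0.le
    have q2 : √(m':ℝ) * √(m':ℝ) = m' := Real.mul_self_sqrt hm'0.le
    have s1 : √(m:ℝ) ≤ M' := by
      rw [Real.sqrt_le_left (by positivity)]; exact_mod_cast hm.2
    have s2 : √(m':ℝ) ≤ M' := by
      rw [Real.sqrt_le_left (by positivity)]; exact_mod_cast hm'.2
    have p1 : 0 < √(m:ℝ) := Real.sqrt_pos.mpr hm0
    have p2 : 0 < √(m':ℝ) := Real.sqrt_pos.mpr hm'0
    set d := |√(m:ℝ) - √(m':ℝ)| with hd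
    have hd1 : d ≤ M' := by rw [hd, abs_le]; constructor <;> linarith
    have hd2 : 1 / (2 * (M':ℝ)) ≤ d := by
      have h3 : (1:ℝ) ≤ |(m:ℝ) - m'| := by
        have : (1:ℤ) ≤ |(m:ℤ) - m'| := Int.one_le_abs (by omega)
        exact_mod_cast this
      have h4 : |(m:ℝ) - m'| = d * (√(m:ℝ) + √(m':ℝ)) := by
        rw [hd, ← abs_of_pos (by positivity : 0 < √(m:ℝ) + √(m':ℝ)), ← abs_mul]
        congr 1
        nlinarith
      rw [div_le_iff₀ (by positivity)]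
      have h5 : d * (√(m:ℝ) + √(m':ℝ)) ≤ d * (2 * M') := mul_le_mul_of_nonneg_left (by linarith) (abs_nonneg _)
      linarith
    have hd0 : 0 < d := lt_of_lt_of_le (by positivity) hd2
    have e1 : c' * √(m:ℝ) - c' * √(m':ℝ) = c' * (√(m:ℝ) - √(m':ℝ)) := by ring
    have hne0 : c' * √(m:ℝ) - c' * √(m':ℝ) ≠ 0 := by
      rw [e1]
      apply mul_ne_zero hc'0.ne'
      intro h
      rw [h, abs_zero] at hd
      linarith
    have habs : |c' * √(m:ℝ) - c' * √(m':ℝ)| = c' * d := by rw [e1, abs_mul, abs_of_pos hc'0]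
    have hcond : |c' * √(m:ℝ) - c' * √(m':ℝ)| + 1/|c' * √(m:ℝ) - c' * √(m':ℝ)| ≤ 2 * (N:ℝ) ^ (1/32:ℝ) := by
      rw [habs]
      have h3 : c' * d ≤ c' * M' := mul_le_mul_of_nonneg_left hd1 hc'0.le
      have h4 : 1 / (c' * d) ≤ 2/c' * M' := by
        rw [div_le_iff₀ (by positivity)]
        rw [div_le_iff₀ (by positivity)] at hd2
        have : 2/c' * M' * (c' * d) = d * (2 * M') := by field_simp
        rw [this]; exact hd2
      have h5 : (M':ℝ) ≤ (N:ℝ) ^ (1/64:ℝ) := hM'u.trans (Real.rpow_le_rpow_of_exponent_le hNone (by norm_num))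
      have h6 : (N:ℝ) ^ (1/64:ℝ) * (N:ℝ) ^ (1/64:ℝ) = (N:ℝ) ^ (1/32:ℝ) := by rw [← Real.rpow_add hNpos]; norm_num
      have h7 : 0 < (N:ℝ) ^ (1/32:ℝ) := by positivity
      calc c' * d + 1/(c' * d) ≤ (c' + 2/c') * M' := by rw [add_mul]; linarith
        _ ≤ (N:ℝ) ^ (1/64:ℝ) * (N:ℝ) ^ (1/64:ℝ) := by gcongr
        _ = (N:ℝ) ^ (1/32:ℝ) := h6
        _ ≤ _ := by linarith
    have key := hes N hN9 _ hne0 hcond 0
    refine le_trans (le_of_eq ?_) key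
    congr 1
    apply sum_congr rfl; intro p _
    have : e (0 * (p:ℝ)) = 1 := by unfold e; simp
    rw [this, one_mul]
  have h2 : ∑ p ∈ PR N, (U af φ (c' * √(p:ℝ)) M' - U af φ (c' * √(p:ℝ)) M)^2 ≤
      (PR N).card * (S * (M:ℝ) ^ (-(12/25):ℝ)) + Ca^2 * Ces * (N:ℝ) ^ (1 - δ) := by
    calc _ ≤ ∑ p ∈ PR N, ‖∑ m ∈ Ioc (M^2) (M'^2), ((af m : ℝ) : ℂ) * e ((c' * √(m:ℝ)) * √(p:ℝ))‖^2 :=
          sum_le_sum fun p _ => SA.U_sub_le c' p hMM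
      _ ≤ (PR N).card * ∑ m ∈ Ioc (M^2) (M'^2), (af m)^2 + (∑ m ∈ Ioc (M^2) (M'^2), |af m|)^2 * (Ces * (N:ℝ) ^ (127/128:ℝ)) :=
          SP.quad_sum (PR N) (Ioc (M^2) (M'^2)) af (fun m => c' * √(m:ℝ)) hoff (by positivity)
      _ ≤ (PR N).card * (S * (M:ℝ) ^ (-(12/25):ℝ)) + (Ca * (M':ℝ)^2)^2 * (Ces * (N:ℝ) ^ (127/128:ℝ)) := by
          have t1 := htail M'
          have t2 : ∑ m ∈ Ioc (M^2) (M'^2), |af m| ≤ Ca * (M':ℝ)^2 := by
            calc ∑ m ∈ Ioc (M^2) (M'^2), |af m| ≤ ∑ m ∈ Ioc (M^2) (M'^2), Ca := by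
                  apply sum_le_sum; intro m hm
                  rw [mem_Ioc] at hm
                  exact (hCa m (by omega)).2
              _ = ((M'^2 - M^2 : ℕ):ℝ) * Ca := by rw [sum_const, Nat.card_Ioc, nsmul_eq_mul]
              _ ≤ ((M'^2 : ℕ):ℝ) * Ca := by
                  apply mul_le_mul_of_nonneg_right _ hCa0.le
                  exact_mod_cast Nat.sub_le _ _
              _ = _ := by push_cast; ring
          have t3 : 0 ≤ ∑ m ∈ Ioc (M^2) (M'^2), |af m| := sum_nonneg fun _ _ => abs_nonneg _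
          gcongr
      _ ≤ (PR N).card * (S * (M:ℝ) ^ (-(12/25):ℝ)) + Ca^2 * Ces * (N:ℝ) ^ (1 - δ) := by
          have t4 : (M':ℝ)^4 ≤ (N:ℝ) ^ (1/256:ℝ) := by
            calc (M':ℝ)^4 ≤ u^4 := pow_le_pow_left₀ (by linarith) hM'u 4
              _ = _ := by rw [hu, ← Real.rpow_natCast, ← Real.rpow_mul hNpos.le]; norm_num
          have t5 : (N:ℝ) ^ (1/256:ℝ) * (N:ℝ) ^ (127/128:ℝ) ≤ (N:ℝ) ^ (1 - δ) := by
            rw [← Real.rpow_add hNpos]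
            apply Real.rpow_le_rpow_of_exponent_le hNone
            linarith
          have t6 : (Ca * (M':ℝ)^2)^2 * (Ces * (N:ℝ) ^ (127/128:ℝ)) = Ca^2 * Ces * ((M':ℝ)^4 * (N:ℝ) ^ (127/128:ℝ)) := by ring
          rw [t6]
          have t7 : (M':ℝ)^4 * (N:ℝ) ^ (127/128:ℝ) ≤ (N:ℝ) ^ (1 - δ) :=
            (mul_le_mul_of_nonneg_right t4 (by positivity)).trans t5
          have t8 : Ca^2 * Ces * ((M':ℝ)^4 * (N:ℝ) ^ (127/128:ℝ)) ≤ Ca^2 * Ces * (N:ℝ) ^ (1 - δ) :=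
            mul_le_mul_of_nonneg_left t7 (by positivity)
          linarith
  -- conclusion
  have hN0 : 0 ≤ (N:ℝ) ^ (1 - δ) := by positivity
  have hMX : 0 ≤ (M:ℝ) ^ (-(12/25):ℝ) * ((PR N).card : ℝ) := by positivity
  calc ∑ p ∈ PR N, (E (c * √((A * p + B : ℕ):ℝ)) - U af φ (c' * √(p:ℝ)) M)^2 ≤
        ∑ p ∈ PR N, (2 * (E (c * √((A * p + B : ℕ):ℝ)) - U af φ (c' * √(p:ℝ)) M')^2 +
          2 * (U af φ (c' * √(p:ℝ)) M' - U af φ (c' * √(p:ℝ)) M)^2) := by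
        apply sum_le_sum; intro p _
        set x := E (c * √((A * p + B : ℕ):ℝ)) - U af φ (c' * √(p:ℝ)) M'
        set y := U af φ (c' * √(p:ℝ)) M' - U af φ (c' * √(p:ℝ)) M
        have e1 : E (c * √((A * p + B : ℕ):ℝ)) - U af φ (c' * √(p:ℝ)) M = x + y := by ring
        rw [e1]
        nlinarith [sq_nonneg (x - y)]
    _ = 2 * ∑ p ∈ PR N, (E (c * √((A * p + B : ℕ):ℝ)) - U af φ (c' * √(p:ℝ)) M')^2 +
          2 * ∑ p ∈ PR N, (U af φ (c' * √(p:ℝ)) M' - U af φ (c' * √(p:ℝ)) M)^2 := by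
        rw [sum_add_distrib, mul_sum, mul_sum]
    _ ≤ 2 * (2 * C * (N:ℝ) ^ (1 - δ)) + 2 * ((PR N).card * (S * (M:ℝ) ^ (-(12/25):ℝ)) + Ca^2 * Ces * (N:ℝ) ^ (1 - δ)) := by gcongr
    _ = (4 * C + 2 * Ca^2 * Ces) * (N:ℝ) ^ (1 - δ) + (2 * S) * ((M:ℝ) ^ (-(12/25):ℝ) * (PR N).card) := by ring
    _ ≤ D * (N:ℝ) ^ (1 - δ) + D * ((M:ℝ) ^ (-(12/25):ℝ) * (PR N).card) := by
        have d1 : 4 * C + 2 * Ca^2 * Ces ≤ D := by rw [hD]; linarith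
        have d2 : 2 * S ≤ D := by
          rw [hD]
          have : 0 ≤ 4 * C + 2 * Ca^2 * Ces := by positivity
          linarith
        gcongr
    _ = _ := by ring

end Pool.Agent.W24.CP.R2
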