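import Mathlib
import Pool.Agent.W24.CP.R1
import Pool.Agent.W24.CP.R2
import Pool.Agent.W24.BothMain

/-! Large values of both signs over the primes: the core. -/

open Finset Filter Topology
open Pool.Agent.H383
open Pool.Agent.H383.Gen (Bd U)
open Pool.Agent.H452R2.Win Pool.Agent.H452R2.Om
open Pool.Agent.H469R2.NK (e norm_e)
open Pool.Agent.H425R3.JL (PR pi_low sum_a_le)
open Pool.Agent.W24.Riesz (sg fr Arith nz)
open Pool.Agent.W24.Ar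
open Pool.Agent.W24.Both (card_JJ_le dd_le)

namespace Pool.Agent.W24.CP.R3

variable {E : ℝ → ℝ} {af : ℕ → ℝ} {φ : ℝ} {w : ℝ → ℂ}

/-- powers of two against powers of `N` -/
lemma big {D κ : ℝ} (hD : 0 < D) (hκ : 0 < κ) : ∃ t : ℕ, ∀ T N : ℕ, t ≤ T → 2 ^ (1000000 * (T * T)) ≤ N →
    D * 2 ^ (2100 * T) * Real.log N ≤ (N:ℝ) ^ κ := by
  obtain ⟨t1, ht1⟩ := exists_nat_ge (2 * D / κ)
  obtain ⟨t2, ht2⟩ := exists_nat_ge (1 / κ)
  refine ⟨max (max t1 t2) 1, fun T N hT hN => ?_⟩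
  have hT1 : 1 ≤ T := by omega
  have hTr : (1:ℝ) ≤ T := by exact_mod_cast hT1
  have h1 : (2 * D / κ) ≤ T := ht1.trans (by exact_mod_cast (by omega : t1 ≤ T))
  have h2 : 1 / κ ≤ T := ht2.trans (by exact_mod_cast (by omega : t2 ≤ T))
  have hNR : (2:ℝ) ^ (1000000 * (T * T)) ≤ N := by exact_mod_cast hN
  have hN0 : (0:ℝ) < N := lt_of_lt_of_le (by positivity) hNR
  have hlog : Real.log N ≤ (N:ℝ) ^ (κ/2) / (κ/2) := Real.log_le_rpow_div hN0.le (by positivity)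
  have hpow : (2:ℝ) ^ T * 2 ^ (2100 * T) ≤ (N:ℝ) ^ (κ/2) := by
    calc (2:ℝ) ^ T * 2 ^ (2100 * T) = (2:ℝ) ^ ((2101 * T : ℝ)) := by
          rw [← pow_add, ← Real.rpow_natCast]; congr 1; push_cast; ring
      _ ≤ (2:ℝ) ^ ((1000000 * ((T:ℝ) * T)) * (κ/2)) := by
          apply Real.rpow_le_rpow_of_exponent_le (by norm_num)
          have h3 : 1 ≤ κ * T := by
            rw [div_le_iff₀ hκ] at h2; linarith
          have h4 : (T:ℝ) ≤ (κ * T) * T := by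
            have := mul_le_mul_of_nonneg_right h3 (by linarith : (0:ℝ) ≤ T)
            linarith
          nlinarith
      _ = ((2:ℝ) ^ (1000000 * (T * T))) ^ (κ/2) := by
          rw [← Real.rpow_natCast, ← Real.rpow_mul (by norm_num)]; push_cast; rfl
      _ ≤ _ := Real.rpow_le_rpow (by positivity) hNR (by positivity)
  have hDT : 2 * D / κ ≤ (2:ℝ) ^ T := h1.trans (by exact_mod_cast (Nat.lt_two_pow_self (n := T)).le)
  calc D * 2 ^ (2100 * T) * Real.log N ≤ D * 2 ^ (2100 * T) * ((N:ℝ) ^ (κ/2) / (κ/2)) := by gcongr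
    _ = ((2 * D / κ) * 2 ^ (2100 * T)) * (N:ℝ) ^ (κ/2) := by field_simp
    _ ≤ (2 ^ T * 2 ^ (2100 * T)) * (N:ℝ) ^ (κ/2) := by gcongr
    _ ≤ (N:ℝ) ^ (κ/2) * (N:ℝ) ^ (κ/2) := by gcongr
    _ = (N:ℝ) ^ κ := by rw [← Real.rpow_add hN0]; congr 1; ring

/-- the arithmetic input over the primes -/
lemma PA_of {h : ℕ} {p : Fin h → ℕ} {κ M N : ℕ} {B : ℝ} (hκ : 0 < κ) (hB1 : 1 ≤ B)
    (hB : 2 * (√(κ:ℝ) * ∑ S : JJ (Fin h), √(dd p S : ℝ) + √(κ:ℝ) * M) + 1 ≤ B)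
    (hAr : Arith (√(κ:ℝ)) (dd p) M (1 / B ^ (2 ^ (h + 2)))) {Ces : ℝ} (hCes : 0 < Ces)
    (hes : ∀ θ : ℝ, θ ≠ 0 → |θ| + 1/|θ| ≤ 2 * (N:ℝ) ^ (1/32:ℝ) → ∀ α : ℝ,
      ‖∑ q ∈ PR N, e (α * q) * e (θ * √(q:ℝ))‖ ≤ Ces * (N:ℝ) ^ (127/128:ℝ))
    (hBN : B ^ (2 ^ (h + 2)) ≤ (N:ℝ) ^ (1/32:ℝ)) :
    R1.PA (PR N) (√(κ:ℝ)) (dd p) M (Ces * (N:ℝ) ^ (127/128:ℝ)) where
  d_pos := hAr.d_pos
  d_le := hAr.d_le
  d_inj := hAr.d_inj
  W0 := by positivity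
  ind0 := by
    intro ε hε h0
    exact hAr.ind0 ε hε ⟨0, by rw [h0]; simp⟩
  ind := by
    intro ε hε m hm1 hm h0
    rcases hAr.ind ε hε m hm1 hm ⟨0, by rw [h0]; simp⟩ with h1 | h1
    · exfalso
      rw [h1, Pool.Agent.W24.Riesz.fr_zero, zero_add] at h0
      have h2 : 0 < √(κ:ℝ) := Real.sqrt_pos.mpr (by exact_mod_cast hκ)
      have h3 : 0 < √(m:ℝ) := Real.sqrt_pos.mpr (by exact_mod_cast hm1)
      have := mul_pos h2 h3
      linarith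
    · exact h1
  gap := by
    intro ε hε m hm
    set θ : ℝ := fr (fun S => √(κ:ℝ) * √(dd p S : ℝ)) ε + √(κ:ℝ) * √(m:ℝ) with hθ
    by_cases h0 : θ = 0
    · left; exact h0
    · right
      set Q : ℝ := B ^ (2 ^ (h + 2)) with hQ
      have hQ1 : 1 ≤ Q := one_le_pow₀ hB1
      have hQ0 : 0 < Q := by linarith
      have hlow : 1 / Q ≤ |θ| := by
        rcases hAr.gap ε hε m hm with ⟨k, hk⟩ | h1
        · rw [← hθ] at hk
          have hk0 : k ≠ 0 := by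
            rintro rfl
            apply h0; rw [hk]; simp
          have h2 : (1:ℝ) ≤ |(k:ℝ)| := by exact_mod_cast Int.one_le_abs hk0
          rw [hk]
          refine le_trans ?_ h2
          rw [div_le_one hQ0]; exact hQ1
        · rw [← hθ] at h1
          refine h1.trans ?_
          unfold nz
          have := round_le θ 0
          simpa using this
      have hup : |θ| ≤ B := by
        have hεabs : ∀ S, |(ε S : ℝ)| ≤ 1 := by
          intro S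
          have h4 := (Fintype.mem_piFinset.mp hε) S
          simp only [sg, Finset.mem_insert, Finset.mem_singleton] at h4
          rcases h4 with h | h | h <;> rw [h] <;> norm_num
        have hfr : |fr (fun S => √(κ:ℝ) * √(dd p S : ℝ)) ε| ≤ √(κ:ℝ) * ∑ S : JJ (Fin h), √(dd p S : ℝ) := by
          unfold fr
          rw [Finset.mul_sum]
          refine (Finset.abs_sum_le_sum_abs _ _).trans (Finset.sum_le_sum (fun S _ => ?_))
          rw [abs_mul, abs_of_nonneg (by positivity : 0 ≤ √(κ:ℝ) * √(dd p S : ℝ))]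
          calc |(ε S : ℝ)| * (√(κ:ℝ) * √(dd p S : ℝ)) ≤ 1 * (√(κ:ℝ) * √(dd p S : ℝ)) := by
                gcongr
                exact hεabs S
            _ = _ := one_mul _
        have hmM : √(m:ℝ) ≤ M := by
          rw [Real.sqrt_le_left (Nat.cast_nonneg _)]
          exact_mod_cast hm
        have hκm : √(κ:ℝ) * √(m:ℝ) ≤ √(κ:ℝ) * M := by gcongr
        have h5 : 0 ≤ √(κ:ℝ) * ∑ S : JJ (Fin h), √(dd p S : ℝ) :=
          mul_nonneg (Real.sqrt_nonneg _) (Finset.sum_nonneg fun _ _ => Real.sqrt_nonneg _)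
        have h6 : 0 ≤ √(κ:ℝ) * (M:ℝ) := by positivity
        rw [hθ]
        refine (abs_add_le _ _).trans ?_
        rw [abs_of_nonneg (by positivity : 0 ≤ √(κ:ℝ) * √(m:ℝ))]
        linarith
      have hBQ : B ≤ Q := by
        rw [hQ]
        calc B = B ^ 1 := (pow_one B).symm
          _ ≤ _ := pow_le_pow_right₀ hB1 Nat.one_le_two_pow
      have habs : 0 < |θ| := abs_pos.mpr h0
      have hinv : 1 / |θ| ≤ Q := by
        rw [div_le_iff₀ habs]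
        rw [div_le_iff₀ hQ0] at hlow
        linarith
      have key := hes θ h0 (by linarith) 0
      refine le_trans (le_of_eq ?_) key
      congr 1
      apply sum_congr rfl; intro q _
      have : e (0 * (q:ℝ)) = 1 := by unfold e; simp
      rw [this, one_mul]

open Classical in
theorem core (ha : Bdw af) (ha0 : af 0 = 0) (hw : GW.Wt w) {κ₁ κ₂ : ℝ} (hS : SandW E af φ w κ₁ κ₂)
    {κ0 : ℕ} (hκ0 : 1 ≤ κ0) (A B : ℕ) (hA : 1 ≤ A) :
    ∃ A2 : ℝ, 0 < A2 ∧ ∃ h0 : ℕ, ∀ h : ℕ, h0 ≤ h → ∀ p : Fin h → ℕ, (∀ i, (p i).Prime) →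
      Function.Injective p → (∀ i, ¬ p i ∣ κ0 * A) → (∀ i, p i ≤ 2 ^ h) → ∀ N : ℕ, 2 ^ (1000000 * 4 ^ h) ≤ N →
      ∀ s : ℝ, (s = 1 ∨ s = -1) → 12 ≤ ∑ S : JJ (Fin h), af (dd p S) →
      ((PR N).card:ℝ) ≤ 4 ^ (2 ^ h) * A2 *
        (((PR N).filter (fun q : ℕ => 1/3 * ∑ S : JJ (Fin h), af (dd p S) - 4 ≤
          s * E (√(κ0:ℝ) * √((A * q + B : ℕ):ℝ)))).card : ℝ) := by
  have hκ0r : (1:ℝ) ≤ κ0 := by exact_mod_cast hκ0
  have hc : 0 < √(κ0:ℝ) := Real.sqrt_pos.mpr (by linarith)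
  obtain ⟨δ, hδ, hδ1, D, hD, N1, hmsq⟩ := R2.prime_msq ha ha0 hw hS hc A B hA
  obtain ⟨Ces, hCes, hes⟩ := SP.prime_es
  obtain ⟨Cs, hCs, hsum⟩ := sum_a_le ha.Bd
  obtain ⟨N00, hpi⟩ := pi_low
  set κ : ℕ := κ0 * A with hκ
  have hκ1 : 1 ≤ κ := Nat.mul_pos hκ0 hA
  have hκr : (1:ℝ) ≤ κ := by exact_mod_cast hκ1
  have hκsq : √(κ:ℝ) = √(κ0:ℝ) * √(A:ℝ) := by
    rw [hκ]; push_cast; rw [Real.sqrt_mul (by linarith)]
  -- thresholds
  obtain ⟨t1, ht1⟩ := big (D := 4 * D) (κ := δ) (by positivity) hδ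
  obtain ⟨t2, ht2⟩ := big (D := 4 * Ces) (κ := 1/128) (by positivity) (by norm_num)
  obtain ⟨t3, ht3⟩ := big (D := 2 * Cs * Ces) (κ := 1/128) (by positivity) (by norm_num)
  obtain ⟨t4, ht4⟩ := exists_nat_ge (2 * D)
  refine ⟨4 * D + 2 * (af 1)^2 + 1, by positivity,
    max (max (max t1 t2) (max t3 t4)) (max (max (5 * κ) 4) (max N1 N00)), ?_⟩
  intro h hh p hp hinj hpκ hple N hN s hs hbig
  have hh1 : t1 ≤ h := by omega
  have hh2 : t2 ≤ h := by omega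
  have hh3 : t3 ≤ h := by omega
  have hh4 : t4 ≤ h := by omega
  have hh5 : 5 * κ ≤ h := by omega
  have hh6 : 4 ≤ h := by omega
  have hh7 : N1 ≤ h := by omega
  have hh8 : N00 ≤ h := by omega
  have hhT : h < 2 ^ h := Nat.lt_two_pow_self
  have hdM0 := dd_le hple
  have hcard0 := card_JJ_le h
  obtain ⟨T, hT⟩ : ∃ T : ℕ, T = 2 ^ h := ⟨_, rfl⟩
  rw [← hT] at hhT hdM0 hcard0
  have hT16 : 16 ≤ T := by
    calc 16 = 2^4 := by norm_num
      _ ≤ 2^h := Nat.pow_le_pow_right (by norm_num) hh6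
      _ = T := hT.symm
  have hT4 : 4 ^ h = T * T := by
    rw [hT, ← mul_pow]; norm_num
  obtain ⟨M, hM⟩ : ∃ M : ℕ, M = 2 ^ (1000 * T) := ⟨_, rfl⟩
  rw [← hM] at hdM0
  have hM1 : 1 ≤ M := by rw [hM]; exact Nat.one_le_two_pow
  rw [hT4] at hN
  have hNpos : 0 < N := lt_of_lt_of_le (by positivity) hN
  have hN0 : (0:ℝ) < N := by exact_mod_cast hNpos
  have hN1 : (1:ℝ) ≤ N := by exact_mod_cast hNpos
  have hNR : (2:ℝ) ^ (1000000 * (T * T)) ≤ N := by exact_mod_cast hN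
  have hMR : (M:ℝ) = 2 ^ (1000 * T) := by rw [hM]; push_cast; rfl
  have hM1R : (1:ℝ) ≤ M := by exact_mod_cast hM1
  have hM0R : (0:ℝ) < M := by linarith
  have hTT : 16 * T ≤ T * T := Nat.mul_le_mul_right T hT16
  have hhN : h ≤ N := by
    have h1 : 1000000 * (T*T) < 2 ^ (1000000 * (T*T)) := Nat.lt_two_pow_self
    nlinarith
  have hNlog : 1 ≤ Real.log N := by
    rw [Real.le_log_iff_exp_le hN0]
    have h1 := Real.exp_one_lt_d9
    have h2 : (2:ℝ)^2 ≤ 2 ^ (1000000 * (T * T)) := pow_le_pow_right₀ (by norm_num) (by omega)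
    linarith
  -- the number of primes
  set X : ℝ := ((PR N).card : ℝ) with hX
  have hXlow : (N:ℝ) / (2 * Real.log N) ≤ X := hpi N (by omega)
  have hXpos : 0 < X := lt_of_lt_of_le (by positivity) hXlow
  have hXge : ∀ Q κ' : ℝ, 0 < κ' → 2 * Q * Real.log N ≤ (N:ℝ) ^ κ' → Q * (N:ℝ) ^ (1 - κ') ≤ X := by
    intro Q κ' _ hQ
    refine le_trans ?_ hXlow
    rw [le_div_iff₀ (by positivity)]
    have e1 : (N:ℝ) = (N:ℝ) ^ (1 - κ') * (N:ℝ) ^ κ' := by rw [← Real.rpow_add hN0]; norm_num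
    calc Q * (N:ℝ) ^ (1 - κ') * (2 * Real.log N) = (N:ℝ) ^ (1 - κ') * (2 * Q * Real.log N) := by ring
      _ ≤ (N:ℝ) ^ (1 - κ') * (N:ℝ) ^ κ' := by gcongr
      _ = N := e1.symm
  -- card
  have hcard : Fintype.card (JJ (Fin h)) ≤ T := hcard0
  have hc2T : (2:ℝ) ^ (Fintype.card (JJ (Fin h))) ≤ 2 ^ T := pow_le_pow_right₀ (by norm_num) hcard
  have hc4T : (4:ℝ) ^ (Fintype.card (JJ (Fin h))) ≤ 4 ^ T := pow_le_pow_right₀ (by norm_num) hcard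
  -- M ^ 1024 ≤ N
  have hMN : M ^ 1024 ≤ N := by
    rw [hM, ← pow_mul]
    refine le_trans (Nat.pow_le_pow_right (by norm_num) ?_) hN
    nlinarith
  -- the arithmetic data
  have hdM : ∀ S : JJ (Fin h), dd p S ≤ M^2 := hdM0
  have hB1 : (1:ℝ) ≤ (M:ℝ)^2 := one_le_pow₀ hM1R
  have hB : 2 * (√(κ:ℝ) * ∑ S : JJ (Fin h), √(dd p S : ℝ) + √(κ:ℝ) * M) + 1 ≤ (M:ℝ)^2 := by
    have h1 : ∑ S : JJ (Fin h), √(dd p S : ℝ) ≤ T * M := by
      calc ∑ S : JJ (Fin h), √(dd p S : ℝ) ≤ ∑ S : JJ (Fin h), (M:ℝ) := by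
            apply Finset.sum_le_sum
            intro S _
            rw [Real.sqrt_le_left hM0R.le]
            exact_mod_cast hdM S
        _ = (Fintype.card (JJ (Fin h)) : ℝ) * M := by rw [Finset.sum_const, Finset.card_univ, nsmul_eq_mul]
        _ ≤ _ := by gcongr
    have h2 : √(κ:ℝ) ≤ κ := by
      rw [Real.sqrt_le_left (by linarith)]
      nlinarith
    have h3 : 5 * (κ:ℝ) ≤ T := by
      have : 5 * κ ≤ T := by omega
      exact_mod_cast this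
    have h4 : (T:ℝ) * T ≤ M := by
      have h5 : T * T ≤ M := by
        rw [hM]
        have h6 : T < 2 ^ T := Nat.lt_two_pow_self
        calc T * T ≤ 2^T * 2^T := Nat.mul_le_mul h6.le h6.le
          _ = 2^(T+T) := by rw [pow_add]
          _ ≤ 2^(1000*T) := Nat.pow_le_pow_right (by norm_num) (by omega)
      exact_mod_cast h5
    have h7 : (16:ℝ) ≤ T := by exact_mod_cast hT16
    have h8 : √(κ:ℝ) * ∑ S : JJ (Fin h), √(dd p S : ℝ) ≤ (κ:ℝ) * ((T:ℝ) * M) := by gcongr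
    have h9 : √(κ:ℝ) * M ≤ (κ:ℝ) * M := by gcongr
    have h10 : 2 * ((κ:ℝ) * ((T:ℝ) * M) + κ * M) + 1 ≤ 5 * κ * (T * M) := by
      have h11 : (1:ℝ) ≤ κ * ((T:ℝ) * M) := by
        have : (1:ℝ) ≤ (T:ℝ) * M := by nlinarith
        nlinarith
      have h12 : (κ:ℝ) * M * 16 ≤ κ * (T * M) := by
        have : (κ:ℝ) * M * 16 ≤ κ * M * T := by gcongr
        linarith
      linarith
    calc _ ≤ 2 * ((κ:ℝ) * ((T:ℝ) * M) + κ * M) + 1 := by linarith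
      _ ≤ 5 * (κ:ℝ) * ((T:ℝ) * M) := h10
      _ ≤ (T:ℝ) * ((T:ℝ) * M) := by gcongr
      _ = ((T:ℝ) * T) * M := by ring
      _ ≤ (M:ℝ) * M := by gcongr
      _ = (M:ℝ)^2 := by ring
  have hAr := arith_of hp hinj hκ1 hpκ hM1 hdM hB1 hB
  rw [Fintype.card_fin] at hAr
  have hBN : ((M:ℝ)^2) ^ (2 ^ (h + 2)) ≤ (N:ℝ) ^ (1/32:ℝ) := by
    have h1 : ((M:ℝ)^2) ^ (2 ^ (h + 2)) = 2 ^ (8000 * (T * T)) := by
      rw [hMR, ← pow_mul, ← pow_mul, pow_add, ← hT]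
      congr 1
      ring
    rw [h1]
    calc (2:ℝ) ^ (8000 * (T * T)) ≤ (2:ℝ) ^ (31250 * (T * T)) := pow_le_pow_right₀ (by norm_num) (by omega)
      _ = ((2:ℝ) ^ (1000000 * (T * T))) ^ (1/32:ℝ) := by
          rw [← Real.rpow_natCast, ← Real.rpow_natCast, ← Real.rpow_mul (by norm_num)]
          congr 1
          push_cast; ring
      _ ≤ _ := Real.rpow_le_rpow (by positivity) hNR (by norm_num)
  have hN9 : 9 ≤ N := by
    have h1 : 2^4 ≤ 2 ^ (1000000 * (T*T)) := Nat.pow_le_pow_right (by norm_num) (by omega)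
    omega
  have hPA := PA_of hκ1 hB1 hB hAr hCes (fun θ h1 h2 α => hes N hN9 θ h1 h2 α) hBN
  -- the sign
  obtain ⟨ψ, hψ⟩ : ∃ ψ : ℝ, Complex.exp (((-ψ : ℝ) : ℂ) * Complex.I) = (s:ℂ) := by
    rcases hs with rfl | rfl
    · exact ⟨0, by simp⟩
    · refine ⟨Real.pi, ?_⟩
      push_cast
      rw [neg_mul, Complex.exp_neg, Complex.exp_pi_mul_I]
      norm_num
  have hpow127 : (N:ℝ) ^ (127/128:ℝ) = (N:ℝ) ^ (1 - 1/128 : ℝ) := by norm_num
  have hc1 : 2 ^ (Fintype.card (JJ (Fin h))) * (Ces * (N:ℝ) ^ (127/128:ℝ)) ≤ X / 2 := by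
    have h1 := hXge (2 * Ces * 2 ^ T) (1/128) (by norm_num) (by
      refine le_trans ?_ (ht2 T N (by omega) hN)
      have : (2:ℝ) ^ T ≤ 2 ^ (2100 * T) := pow_le_pow_right₀ (by norm_num) (by omega)
      calc 2 * (2 * Ces * 2 ^ T) * Real.log N = 4 * Ces * 2 ^ T * Real.log N := by ring
        _ ≤ _ := by gcongr)
    rw [hpow127]
    have h2 : 2 ^ (Fintype.card (JJ (Fin h))) * (Ces * (N:ℝ) ^ (1 - 1/128 : ℝ)) ≤ 2 ^ T * (Ces * (N:ℝ) ^ (1 - 1/128 : ℝ)) := by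
      gcongr
    linarith
  have hc2 : (∑ m ∈ Finset.Icc 1 (M^2), |af m|) * (2 ^ (Fintype.card (JJ (Fin h))) * (Ces * (N:ℝ) ^ (127/128:ℝ))) ≤ X := by
    have h1 := hXge (Cs * Ces * 2 ^ (2001 * T)) (1/128) (by norm_num) (by
      refine le_trans ?_ (ht3 T N (by omega) hN)
      have : (2:ℝ) ^ (2001 * T) ≤ 2 ^ (2100 * T) := pow_le_pow_right₀ (by norm_num) (by omega)
      calc 2 * (Cs * Ces * 2 ^ (2001 * T)) * Real.log N = 2 * Cs * Ces * 2 ^ (2001 * T) * Real.log N := by ring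
        _ ≤ _ := by gcongr)
    rw [hpow127]
    refine le_trans ?_ h1
    have h2 := hsum M
    calc _ ≤ (Cs * (M:ℝ)^2) * (2 ^ T * (Ces * (N:ℝ) ^ (1 - 1/128 : ℝ))) := by gcongr
      _ = _ := by
          rw [hMR, ← pow_mul]
          have : (2:ℝ) ^ (2001 * T) = 2 ^ (1000 * T * 2) * 2 ^ T := by
            rw [← pow_add]; congr 1; ring
          rw [this]; ring
  have hms := hmsq M N hM1 hMN (by omega)
  rw [← hκsq] at hms
  have hc3 : 4 ^ (Fintype.card (JJ (Fin h))) * ∑ q ∈ PR N,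
      (E (√(κ0:ℝ) * √((A * q + B : ℕ):ℝ)) - U af φ (√(κ:ℝ) * √(q:ℝ)) M)^2 ≤ X := by
    have h1 := hXge (2 * D * 4 ^ T) δ hδ (by
      refine le_trans ?_ (ht1 T N (by omega) hN)
      have h4 : (4:ℝ) ^ T ≤ 2 ^ (2100 * T) := by
        rw [show (4:ℝ) = 2^2 by norm_num, ← pow_mul]
        exact pow_le_pow_right₀ (by norm_num) (by omega)
      calc 2 * (2 * D * 4 ^ T) * Real.log N = 4 * D * 4 ^ T * Real.log N := by ring
        _ ≤ _ := by gcongr)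
    have h2 : (4:ℝ) ^ T * (D * (M:ℝ) ^ (-(12/25):ℝ)) ≤ 1/2 := by
      have h3 : (M:ℝ) ^ (-(12/25):ℝ) = (2:ℝ) ^ (-(480 * (T:ℝ))) := by
        rw [hMR, ← Real.rpow_natCast, ← Real.rpow_mul (by norm_num)]
        congr 1; push_cast; ring
      have h4 : (4:ℝ) ^ T = (2:ℝ) ^ (2 * (T:ℝ)) := by
        rw [show (4:ℝ) = 2^2 by norm_num, ← pow_mul, ← Real.rpow_natCast]
        push_cast; rfl
      have h5 : 2 * D ≤ (2:ℝ) ^ (T:ℝ) := by
        rw [Real.rpow_natCast]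
        have h6 : (t4:ℝ) ≤ T := by exact_mod_cast (by omega : t4 ≤ T)
        have h7 : (T:ℝ) ≤ 2 ^ T := by exact_mod_cast (Nat.lt_two_pow_self (n := T)).le
        linarith
      have hTr : (0:ℝ) ≤ T := Nat.cast_nonneg T
      rw [h3, h4]
      have h6 : (2:ℝ) ^ (2 * (T:ℝ)) * (2:ℝ) ^ (-(480 * (T:ℝ))) ≤ (2:ℝ) ^ (-(T:ℝ)) := by
        rw [← Real.rpow_add (by norm_num)]
        apply Real.rpow_le_rpow_of_exponent_le (by norm_num)
        linarith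
      have h7 : (2:ℝ) ^ (T:ℝ) * (2:ℝ) ^ (-(T:ℝ)) = 1 := by
        rw [← Real.rpow_add (by norm_num)]; simp
      have h8 : 0 < (2:ℝ) ^ (-(T:ℝ)) := by positivity
      calc (2:ℝ) ^ (2 * (T:ℝ)) * (D * (2:ℝ) ^ (-(480 * (T:ℝ)))) =
            D * ((2:ℝ) ^ (2 * (T:ℝ)) * (2:ℝ) ^ (-(480 * (T:ℝ)))) := by ring
        _ ≤ D * (2:ℝ) ^ (-(T:ℝ)) := by gcongr
        _ = (2 * D) * (2:ℝ) ^ (-(T:ℝ)) / 2 := by ring
        _ ≤ (2:ℝ) ^ (T:ℝ) * (2:ℝ) ^ (-(T:ℝ)) / 2 := by gcongr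
        _ = 1/2 := by rw [h7]
    calc _ ≤ 4 ^ T * (D * (N:ℝ) ^ (1 - δ) + D * (M:ℝ) ^ (-(12/25):ℝ) * X) := by gcongr
      _ = (2 * D * 4 ^ T * (N:ℝ) ^ (1 - δ)) / 2 + (4 ^ T * (D * (M:ℝ) ^ (-(12/25):ℝ))) * X := by ring
      _ ≤ X / 2 + 1/2 * X := by gcongr
      _ = X := by ring
  have hA2 : ∑ q ∈ PR N, (E (√(κ0:ℝ) * √((A * q + B : ℕ):ℝ)))^2 ≤ (4 * D + 2 * (af 1)^2 + 1) * X := by
    have h1 := hmsq 1 N le_rfl (by rw [one_pow]; exact hNpos) (by omega)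
    rw [← hκsq, Nat.cast_one, Real.one_rpow, mul_one] at h1
    have h2 := hXge (2 * D) δ hδ (by
      refine le_trans ?_ (ht1 T N (by omega) hN)
      have h4 : (1:ℝ) ≤ 2 ^ (2100 * T) := one_le_pow₀ (by norm_num)
      calc 2 * (2 * D) * Real.log N = 4 * D * 1 * Real.log N := by ring
        _ ≤ _ := by gcongr)
    have h3 : ∀ q : ℕ, (E (√(κ0:ℝ) * √((A * q + B : ℕ):ℝ)))^2 ≤
        2 * (E (√(κ0:ℝ) * √((A * q + B : ℕ):ℝ)) - U af φ (√(κ:ℝ) * √(q:ℝ)) 1)^2 + 2 * (af 1)^2 := by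
      intro q
      have h4 : (U af φ (√(κ:ℝ) * √(q:ℝ)) 1)^2 ≤ (af 1)^2 := by
        unfold U
        rw [one_pow, Icc_self, sum_singleton, mul_pow]
        have := Real.cos_sq_le_one (2 * Real.pi * (√(κ:ℝ) * √(q:ℝ) * √((1:ℕ):ℝ)) - φ)
        nlinarith [sq_nonneg (af 1)]
      nlinarith [sq_nonneg (E (√(κ0:ℝ) * √((A * q + B : ℕ):ℝ)) - 2 * U af φ (√(κ:ℝ) * √(q:ℝ)) 1)]
    calc ∑ q ∈ PR N, (E (√(κ0:ℝ) * √((A * q + B : ℕ):ℝ)))^2 ≤
          ∑ q ∈ PR N, (2 * (E (√(κ0:ℝ) * √((A * q + B : ℕ):ℝ)) - U af φ (√(κ:ℝ) * √(q:ℝ)) 1)^2 + 2 * (af 1)^2) :=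
          sum_le_sum fun q _ => h3 q
      _ = 2 * ∑ q ∈ PR N, (E (√(κ0:ℝ) * √((A * q + B : ℕ):ℝ)) - U af φ (√(κ:ℝ) * √(q:ℝ)) 1)^2 + X * (2 * (af 1)^2) := by
          rw [sum_add_distrib, ← mul_sum, sum_const, nsmul_eq_mul]
      _ ≤ 2 * (D * (N:ℝ) ^ (1 - δ) + D * X) + X * (2 * (af 1)^2) := by gcongr
      _ = (2 * D * (N:ℝ) ^ (1 - δ)) + 2 * D * X + X * (2 * (af 1)^2) := by ring
      _ ≤ X + 2 * D * X + X * (2 * (af 1)^2) := by gcongr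
      _ ≤ _ := by nlinarith [mul_pos hD hXpos]
  have hPpos : 0 < (PR N).card := by
    have : (0:ℝ) < ((PR N).card : ℝ) := hXpos
    exact_mod_cast this
  have key := R1.count hPA af φ hψ hs hPpos (ev := fun q : ℕ => E (√(κ0:ℝ) * √((A * q + B : ℕ):ℝ))) hc1 hc2 hc3
    (by linarith) hA2
  refine key.trans ?_
  rw [← hT]
  have hA20 : 0 < 4 * D + 2 * (af 1)^2 + 1 := by positivity
  gcongr

end Pool.Agent.W24.CP.R3
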