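import Mathlib
import Pool.Agent.W24.CP.R3
import Pool.Agent.W24.BothMain

/-! Large values of both signs over the primes: the main theorem. -/

open Finset Filter Topology
open Pool.Agent.H383
open Pool.Agent.H383.Gen (Bd U)
open Pool.Agent.H452R2.Win Pool.Agent.H452R2.Om
open Pool.Agent.H425R3.JL (PR pi_low)
open Pool.Agent.W24.Ar
open Pool.Agent.W24.Both (c1 c1_pos GG LBp primes_h ev_V sum_af_ge)

namespace Pool.Agent.W24.CP.R4

/-- the choice of `h` -/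
lemma ev_N {A2 : ℝ} (hA2 : 0 < A2) {ε : ℝ} (hε : 0 < ε) (h0 : ℕ) : ∀ᶠ N : ℕ in atTop, ∃ h : ℕ, h0 ≤ h ∧
    2 ^ (1000000 * 4 ^ h) ≤ N ∧ 4 ^ (2 ^ h) * A2 * (N:ℝ) ^ (1 - ε) ≤ N ∧
    c1 * (Real.log (Real.log N)) ^ (1/4:ℝ) * (Real.log (Real.log (Real.log N))) ^ (-(3/4):ℝ) ≤ GG h / 2 := by
  have hx : ∀ᶠ x : ℝ in atTop, 1000000 * x ^ (7/10:ℝ) ≤ x ∧ 2 * x ^ (7/10:ℝ) + |Real.log A2| ≤ ε * x ∧
      4 * (h0 + 10) ≤ Real.log x := by
    have t1 : Tendsto (fun x : ℝ => x ^ (3/10:ℝ)) atTop atTop := tendsto_rpow_atTop (by norm_num)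
    filter_upwards [t1.eventually_ge_atTop 1000000, t1.eventually_ge_atTop ((2 + |Real.log A2|)/ε),
      Real.tendsto_log_atTop.eventually_ge_atTop (4 * (h0 + 10)), eventually_ge_atTop (1:ℝ)] with x a1 a2 a3 a4
    have hx0 : 0 < x := by linarith
    have e1 : x = x ^ (3/10:ℝ) * x ^ (7/10:ℝ) := by
      rw [← Real.rpow_add hx0]; norm_num
    have e2 : 1 ≤ x ^ (7/10:ℝ) := Real.one_le_rpow a4 (by norm_num)
    refine ⟨?_, ?_, a3⟩
    · calc 1000000 * x ^ (7/10:ℝ) ≤ x ^ (3/10:ℝ) * x ^ (7/10:ℝ) := by gcongr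
        _ = x := e1.symm
    · rw [div_le_iff₀ hε] at a2
      have e3 := abs_nonneg (Real.log A2)
      calc 2 * x ^ (7/10:ℝ) + |Real.log A2| ≤ 2 * x ^ (7/10:ℝ) + |Real.log A2| * x ^ (7/10:ℝ) := by nlinarith
        _ = (2 + |Real.log A2|) * x ^ (7/10:ℝ) := by ring
        _ ≤ (x ^ (3/10:ℝ) * ε) * x ^ (7/10:ℝ) := by gcongr
        _ = ε * (x ^ (3/10:ℝ) * x ^ (7/10:ℝ)) := by ring
        _ = ε * x := by rw [← e1]
  have hN : ∀ᶠ N : ℕ in atTop, 1000000 * (Real.log N) ^ (7/10:ℝ) ≤ Real.log N ∧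
      2 * (Real.log N) ^ (7/10:ℝ) + |Real.log A2| ≤ ε * Real.log N ∧ 4 * (h0 + 10) ≤ Real.log (Real.log N) :=
    (Real.tendsto_log_atTop.comp tendsto_natCast_atTop_atTop).eventually hx
  filter_upwards [hN, eventually_ge_atTop 3] with N hN hN3
  obtain ⟨b1, b2, b3⟩ := hN
  have hNR : (3:ℝ) ≤ N := by exact_mod_cast hN3
  have hN0 : (0:ℝ) < N := by linarith
  set L : ℝ := Real.log N with hL
  set L2 : ℝ := Real.log L with hL2
  have h00 : (0:ℝ) ≤ h0 := Nat.cast_nonneg _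
  have hL2' : 40 ≤ L2 := by linarith
  have hLpos : 0 < L := by
    rw [hL]; exact Real.log_pos (by linarith)
  refine ⟨⌊L2/2⌋₊, ?_, ?_, ?_, ?_⟩
  · apply Nat.le_floor; linarith
  all_goals
    obtain ⟨h, hh⟩ : ∃ h : ℕ, h = ⌊L2/2⌋₊ := ⟨_, rfl⟩
    rw [← hh]
    have hle : (h:ℝ) ≤ L2/2 := by rw [hh]; exact Nat.floor_le (by linarith)
    have hge : L2/4 ≤ h := by
      have := Nat.lt_floor_add_one (L2/2)
      rw [← hh] at this
      linarith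
    have h4h : ((4:ℝ)) ^ h ≤ L ^ (7/10:ℝ) := by
      rw [← Real.rpow_natCast, Real.rpow_def_of_pos (by norm_num : (0:ℝ) < 4), Real.rpow_def_of_pos hLpos, ← hL2]
      apply Real.exp_le_exp.mpr
      have e1 : Real.log 4 = 2 * Real.log 2 := by
        rw [show (4:ℝ) = 2^2 by norm_num, Real.log_pow]; norm_num
      rw [e1]
      have e2 := Real.log_two_lt_d9
      have e3 : Real.log 2 ≤ 7/10 := by linarith
      have e4 := Real.log_pos (show (1:ℝ) < 2 by norm_num)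
      nlinarith
  · have e5 : (2:ℝ) ^ (1000000 * 4 ^ h) ≤ N := by
      rw [← Real.rpow_natCast, Real.rpow_def_of_pos (by norm_num : (0:ℝ) < 2)]
      rw [← Real.le_log_iff_exp_le hN0, ← hL]
      push_cast
      have e2 := Real.log_two_lt_d9
      have e4 := Real.log_pos (show (1:ℝ) < 2 by norm_num)
      have e6 : 1000000 * (4:ℝ)^h ≤ 1000000 * L ^ (7/10:ℝ) := by linarith
      have e7 : 0 ≤ 1000000 * (4:ℝ)^h := by positivity
      nlinarith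
    exact_mod_cast e5
  · have e1 : (2:ℝ) ^ h ≤ L ^ (7/10:ℝ) := by
      refine le_trans ?_ h4h
      apply pow_le_pow_left₀ (by norm_num) (by norm_num)
    have e2 : (4:ℝ) ^ (2 ^ h) = Real.exp (Real.log 4 * 2 ^ h) := by
      rw [← Real.rpow_natCast, Real.rpow_def_of_pos (by norm_num : (0:ℝ) < 4)]
      push_cast; rfl
    have e3 : A2 = Real.exp (Real.log A2) := (Real.exp_log hA2).symm
    have e4 : (N:ℝ) ^ (1 - ε) = Real.exp (L * (1 - ε)) := by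
      rw [Real.rpow_def_of_pos hN0]
    have e5 : (N:ℝ) = Real.exp L := (Real.exp_log hN0).symm
    have e6 : Real.log 4 ≤ 2 := by
      rw [show (4:ℝ) = 2^2 by norm_num, Real.log_pow]
      have := Real.log_two_lt_d9
      push_cast; linarith
    calc (4:ℝ) ^ (2 ^ h) * A2 * (N:ℝ) ^ (1 - ε) = Real.exp (Real.log 4 * 2 ^ h + Real.log A2 + L * (1 - ε)) := by
          rw [e2, e4]
          conv_lhs => rw [e3]
          rw [← Real.exp_add, ← Real.exp_add]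
      _ ≤ Real.exp L := by
          apply Real.exp_le_exp.mpr
          have e7 := le_abs_self (Real.log A2)
          have e8 : Real.log 4 * 2 ^ h ≤ 2 * L ^ (7/10:ℝ) := by
            apply mul_le_mul e6 e1 (by positivity) (by norm_num)
          linarith
      _ = N := e5.symm
  · have hh0 : (0:ℝ) < h := by linarith
    have hh1 : (1:ℝ) < h := by linarith
    have hlogh : 0 < Real.log h := Real.log_pos hh1
    have hlogle : Real.log h ≤ Real.log L2 := Real.log_le_log hh0 (by linarith)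
    have hL3 : 0 < Real.log L2 := by linarith
    unfold GG c1
    have e1 : (80 * (h:ℝ) * Real.log L2) ^ (-(3/4):ℝ) ≤ (80 * h * Real.log h) ^ (-(3/4):ℝ) := by
      apply Real.rpow_le_rpow_of_nonpos (by positivity) (by gcongr) (by norm_num)
    have e2 : (h:ℝ) * (80 * (h:ℝ) * Real.log L2) ^ (-(3/4):ℝ) =
        (80:ℝ) ^ (-(3/4):ℝ) * (h:ℝ) ^ (1/4:ℝ) * (Real.log L2) ^ (-(3/4):ℝ) := by
      rw [Real.mul_rpow (by positivity) hL3.le, Real.mul_rpow (by norm_num) hh0.le]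
      have : (h:ℝ) * (h:ℝ) ^ (-(3/4):ℝ) = (h:ℝ) ^ (1/4:ℝ) := by
        nth_rewrite 1 [← Real.rpow_one (h:ℝ)]
        rw [← Real.rpow_add hh0]; norm_num
      calc (h:ℝ) * ((80:ℝ) ^ (-(3/4):ℝ) * (h:ℝ) ^ (-(3/4):ℝ) * (Real.log L2) ^ (-(3/4):ℝ)) =
          (80:ℝ) ^ (-(3/4):ℝ) * ((h:ℝ) * (h:ℝ) ^ (-(3/4):ℝ)) * (Real.log L2) ^ (-(3/4):ℝ) := by ring
        _ = _ := by rw [this]
    have e3 : (1/4:ℝ) ^ (1/4:ℝ) * L2 ^ (1/4:ℝ) ≤ (h:ℝ) ^ (1/4:ℝ) := by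
      rw [← Real.mul_rpow (by norm_num) (by linarith)]
      apply Real.rpow_le_rpow (by positivity) (by linarith) (by norm_num)
    have e4 : (80:ℝ) ^ (-(3/4):ℝ) * ((1/4:ℝ) ^ (1/4:ℝ) * L2 ^ (1/4:ℝ)) * (Real.log L2) ^ (-(3/4):ℝ) ≤
        h * (80 * h * Real.log h) ^ (-(3/4):ℝ) := by
      calc _ ≤ (80:ℝ) ^ (-(3/4):ℝ) * (h:ℝ) ^ (1/4:ℝ) * (Real.log L2) ^ (-(3/4):ℝ) := by gcongr
        _ = (h:ℝ) * (80 * (h:ℝ) * Real.log L2) ^ (-(3/4):ℝ) := e2.symm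
        _ ≤ _ := by gcongr
    linarith


variable {E : ℝ → ℝ} {af : ℕ → ℝ} {φ : ℝ} {w : ℝ → ℂ}

open Classical in
/-- large values of both signs over the primes -/
theorem main_P (ha : Bdw af) (ha0 : af 0 = 0) (hw : GW.Wt w) {κ₁ κ₂ : ℝ} (hS : SandW E af φ w κ₁ κ₂)
    (hL : LBp af) {κ0 : ℕ} (hκ0 : 1 ≤ κ0) (A B : ℕ) (hA : 1 ≤ A) {ε : ℝ} (hε : 0 < ε) :
    ∃ N0 : ℕ, ∀ N : ℕ, N0 ≤ N → ∀ s : ℝ, (s = 1 ∨ s = -1) →
      (N:ℝ) ^ (1 - ε) ≤ (((PR N).filter (fun q : ℕ =>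
        Real.exp (c1 * (Real.log (Real.log N)) ^ (1/4:ℝ) * (Real.log (Real.log (Real.log N))) ^ (-(3/4):ℝ)) ≤
          s * E (√(κ0:ℝ) * √((A * q + B : ℕ):ℝ)))).card : ℝ) := by
  obtain ⟨A2, hA2, h1, hcore⟩ := R3.core ha ha0 hw hS hκ0 A B hA
  have hκ1 : 0 < κ0 * A := Nat.mul_pos hκ0 hA
  obtain ⟨h2, hpr⟩ := primes_h hκ1
  obtain ⟨cf, hcf, hLf⟩ := hL
  obtain ⟨h3, hV⟩ := eventually_atTop.mp (ev_V (C0 := 0) hcf)
  obtain ⟨h5, hbig⟩ := R3.big (D := 2 * A2) (κ := ε) (by positivity) hε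
  obtain ⟨N00, hpi⟩ := pi_low
  -- 80 h log h ≤ 2 ^ h
  have hpow : ∀ᶠ h : ℕ in atTop, 80 * (h:ℝ) * Real.log h ≤ 2 ^ h := by
    have t1 := tendsto_pow_const_div_const_pow_of_one_lt 2 (show (1:ℝ) < 2 by norm_num)
    have t2 := t1.eventually (gt_mem_nhds (show (0:ℝ) < 1/80 by norm_num))
    filter_upwards [t2, eventually_ge_atTop 1] with h t3 t4
    have hR : (1:ℝ) ≤ h := by exact_mod_cast t4
    rw [div_lt_iff₀ (by positivity)] at t3
    have t5 : Real.log h ≤ h := (Real.log_le_sub_one_of_pos (by linarith)).trans (by linarith)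
    nlinarith
  obtain ⟨h4, hp4⟩ := eventually_atTop.mp hpow
  obtain ⟨N0, hN0⟩ := eventually_atTop.mp (ev_N hA2 hε (max (max (max h1 h2) (max (max h3 h4) 3)) h5))
  refine ⟨max N0 (max N00 3), fun N hN s hs => ?_⟩
  obtain ⟨h, hh, a1, -, a3⟩ := hN0 N (le_trans (le_max_left _ _) hN)
  have hNN00 : N00 ≤ N := le_trans (le_trans (le_max_left _ _) (le_max_right _ _)) hN
  have hN3 : 3 ≤ N := le_trans (le_trans (le_max_right _ _) (le_max_right _ _)) hN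
  have hNR : (3:ℝ) ≤ N := by exact_mod_cast hN3
  have hNpos : (0:ℝ) < N := by linarith
  have hNlog : 0 < Real.log N := Real.log_pos (by linarith)
  obtain ⟨p, q1, q2, q3, q4, q5⟩ := hpr h (by omega)
  obtain ⟨v1, v2⟩ := hV h (by omega)
  have hR3 : (3:ℝ) ≤ h := by exact_mod_cast (by omega : 3 ≤ h)
  have hlog : 0 < Real.log h := Real.log_pos (by linarith)
  have hsum := sum_af_ge hcf hLf q1 q2 q3 q5
  have hG : (h:ℝ) * (80 * h * Real.log h) ^ (-(3/4):ℝ) = GG h := rfl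
  rw [hG] at hsum
  have hple : ∀ i, p i ≤ 2 ^ h := by
    intro i
    have := (q5 i).trans (hp4 h (by omega))
    exact_mod_cast this
  have key := hcore h (by omega) p q1 q3 q4 hple N a1 s hs (by linarith)
  -- compare the thresholds
  have hmono : (((PR N).filter (fun q : ℕ => 1/3 * ∑ S : JJ (Fin h), af (dd p S) - 4 ≤
          s * E (√(κ0:ℝ) * √((A * q + B : ℕ):ℝ)))).card : ℝ) ≤
      (((PR N).filter (fun q : ℕ =>
        Real.exp (c1 * (Real.log (Real.log N)) ^ (1/4:ℝ) * (Real.log (Real.log (Real.log N))) ^ (-(3/4):ℝ)) ≤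
          s * E (√(κ0:ℝ) * √((A * q + B : ℕ):ℝ)))).card : ℝ) := by
    norm_cast
    apply Finset.card_le_card
    intro n hn
    rw [Finset.mem_filter] at hn ⊢
    refine ⟨hn.1, le_trans ?_ hn.2⟩
    calc Real.exp (c1 * (Real.log (Real.log N)) ^ (1/4:ℝ) * (Real.log (Real.log (Real.log N))) ^ (-(3/4):ℝ))
        ≤ Real.exp (GG h / 2) := Real.exp_le_exp.mpr a3
      _ ≤ 1/3 * (cf * (Real.exp (GG h) - 1)) - 2 * (0 + 2) := v2
      _ ≤ _ := by linarith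
  have hpos : (0:ℝ) < 4 ^ (2 ^ h) * A2 := by positivity
  have k1 := key.trans (mul_le_mul_of_nonneg_left hmono hpos.le)
  have k2 : 4 ^ (2 ^ h) * A2 * (N:ℝ) ^ (1 - ε) ≤ ((PR N).card : ℝ) := by
    refine le_trans ?_ (hpi N hNN00)
    rw [le_div_iff₀ (by positivity)]
    have hT4 : 4 ^ h = 2 ^ h * 2 ^ h := by rw [← mul_pow]; norm_num
    rw [hT4] at a1
    have hh5 : h5 ≤ 2 ^ h := le_trans (by omega) (Nat.lt_two_pow_self (n := h)).le
    have k3 := hbig (2 ^ h) N hh5 a1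
    have k4 : (4:ℝ) ^ (2 ^ h) ≤ 2 ^ (2100 * 2 ^ h) := by
      rw [show (4:ℝ) = 2^2 by norm_num, ← pow_mul]
      exact pow_le_pow_right₀ (by norm_num) (by omega)
    have e1 : (N:ℝ) = (N:ℝ) ^ (1 - ε) * (N:ℝ) ^ ε := by rw [← Real.rpow_add hNpos]; norm_num
    calc 4 ^ (2 ^ h) * A2 * (N:ℝ) ^ (1 - ε) * (2 * Real.log N) =
          (N:ℝ) ^ (1 - ε) * (2 * A2 * 4 ^ (2 ^ h) * Real.log N) := by ring
      _ ≤ (N:ℝ) ^ (1 - ε) * (2 * A2 * 2 ^ (2100 * 2 ^ h) * Real.log N) := by gcongr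
      _ ≤ (N:ℝ) ^ (1 - ε) * (N:ℝ) ^ ε := by gcongr
      _ = N := e1.symm
  exact le_of_mul_le_mul_left (k2.trans k1) hpos

end Pool.Agent.W24.CP.R4
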