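import Mathlib
import Pool.Agent.W24.CP.R4
import Pool.Agent.W24.CP.Two

/-! Large values of both signs over the primes: the divisor problem. -/

open Finset Filter Topology
open Pool.Agent.H383
open Pool.Agent.H452R2.Win Pool.Agent.H452R2.Om
open Pool.Agent.H425R3.JL
open Pool.Agent.H387R2.Vor

namespace Pool.Agent.W24.CP.R5

lemma card_div_prod (S : Finset ℕ) (hS : ∀ p ∈ S, p.Prime) :
    (∏ p ∈ S, p : ℕ).divisors.card = 2 ^ S.card := by
  induction S using Finset.induction_on with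
  | empty => simp
  | insert q S hq ih =>
    rw [Finset.prod_insert hq, Nat.Coprime.card_divisors_mul,
      ih (fun p hp => hS p (Finset.mem_insert_of_mem hp)),
      Nat.Prime.divisors (hS q (Finset.mem_insert_self _ _)), Finset.card_pair
        (hS q (Finset.mem_insert_self _ _)).one_lt.ne, Finset.card_insert_of_notMem hq, pow_succ, mul_comm]
    apply Nat.Coprime.prod_right
    intro p hp
    rw [Nat.coprime_primes (hS q (Finset.mem_insert_self _ _)) (hS p (Finset.mem_insert_of_mem hp))]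
    rintro rfl
    exact hq hp

lemma LBp_ad : Pool.Agent.W24.Both.LBp Pool.Agent.H383.Div.ad := by
  refine ⟨1 / (Real.pi * √2), by positivity, fun S hS => ?_⟩
  unfold Pool.Agent.H383.Div.ad Pool.Agent.H387R2.Vor.dv
  rw [card_div_prod S (fun p hp => (hS p hp).1)]
  have h2 : ((∏ p ∈ S, p : ℕ):ℝ) ^ (-(3/4):ℝ) = ∏ p ∈ S, (p:ℝ) ^ (-(3/4):ℝ) := by
    rw [Nat.cast_prod, ← Real.finsetProd_rpow _ _ (fun i _ => Nat.cast_nonneg i)]
  rw [h2, Finset.prod_mul_distrib, Finset.prod_const]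
  apply le_of_eq
  push_cast
  ring

open Classical in
open Pool.Agent.H383.Div in
theorem div_primes {a : ℕ} (ha : 0 < a) (b : ℕ) {ε : ℝ} (hε : 0 < ε) :
    ∃ N₀ : ℕ, ∀ N : ℕ, N₀ ≤ N → ∀ s : ℝ, (s = 1 ∨ s = -1) →
      (N : ℝ) ^ (1 - ε) ≤ (((Finset.Icc 1 N).filter (fun p : ℕ => p.Prime ∧
        ((a : ℝ) * p + b) ^ (1 / 4 : ℝ) *
          Real.exp (Pool.Agent.W24.Both.c1 * (Real.log (Real.log N)) ^ (1 / 4 : ℝ) *
            (Real.log (Real.log (Real.log N))) ^ (-(3 / 4) : ℝ)) ≤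
          s * ((∑ j ∈ Finset.Icc 1 (a * p + b), (j.divisors.card : ℝ))
            - ((a : ℝ) * p + b) * Real.log ((a : ℝ) * p + b)
            - (2 * Real.eulerMascheroniConstant - 1) * ((a : ℝ) * p + b)))).card : ℝ) := by
  obtain ⟨N0, hN0⟩ := R4.main_P (E := E2) ad_Bdw2 ad_zero wd_Wt (E2_SandW vor) LBp_ad (κ0 := 4) (by norm_num) a b ha hε
  refine ⟨N0, fun N hN s hs => (hN0 N hN s hs).trans ?_⟩
  apply Nat.cast_le.mpr
  apply Finset.card_le_card
  intro p hp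
  rw [Finset.mem_filter] at hp ⊢
  obtain ⟨hp1, h1⟩ := hp
  unfold PR at hp1
  rw [Finset.mem_filter] at hp1
  refine ⟨hp1.1, hp1.2, ?_⟩
  have hp0 : 1 ≤ p := (Finset.mem_Icc.mp hp1.1).1
  have hx : 0 < (a : ℝ) * p + b := by
    have : (0:ℝ) < (a:ℝ) * p := by positivity
    positivity
  have h4 : √(((4:ℕ)):ℝ) = 2 := by
    rw [show (((4:ℕ)):ℝ) = 2^2 by norm_num]; exact Real.sqrt_sq (by norm_num)
  have e2 : E2 (√(((4:ℕ)):ℝ) * √((a * p + b : ℕ):ℝ)) = Edv ((a : ℝ) * p + b) := by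
    rw [h4]
    unfold E2
    rw [mul_div_cancel_left₀ _ (two_ne_zero), ← Edv_eq hx.le]
    congr 1; push_cast; ring
  rw [e2] at h1
  have hx4 : 0 < ((a : ℝ) * p + b) ^ (1 / 4 : ℝ) := Real.rpow_pos_of_pos hx _
  unfold Edv at h1
  rw [← mul_div_assoc, le_div_iff₀ hx4] at h1
  have hfl : ⌊(a : ℝ) * p + b⌋₊ = a * p + b := by
    have : ((a : ℝ) * p + b) = ((a * p + b : ℕ):ℝ) := by push_cast; ring
    rw [this, Nat.floor_natCast]
  rw [hfl] at h1
  rw [mul_comm]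
  exact h1

end Pool.Agent.W24.CP.R5
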